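import Pool.Agent.N786.D.Jen

/-!
# Counting zeros to the right of a line (owner helper786)
-/

set_option autoImplicit false

namespace Pool.Agent.N786.D

open MeasureTheory Set Filter Topology Complex Metric
open Pool.Agent.R399.TW (pt pt_re pt_im pt_cont)

lemma circleMap_pt (t ρ φ : ℝ) :
    circleMap (pt 2 t) ρ φ = pt (2 + ρ * Real.cos φ) (t + ρ * Real.sin φ) := by
  apply Complex.ext
  · rw [pt_re, circleMap, Complex.add_re, pt_re, Complex.re_ofReal_mul,
      Complex.exp_ofReal_mul_I_re]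
  · rw [pt_im, circleMap, Complex.add_im, pt_im, Complex.im_ofReal_mul,
      Complex.exp_ofReal_mul_I_im]

/-- three windows -/
lemma three_win {ι : Type} (I : Finset ι) (f : ι → ℂ → ℂ) (x H t₁ v : ℝ) (hH : 1 ≤ H) :
    ∑ i ∈ I, ∫⁻ t in Icc (t₁ - 1) (t₁ + H + 1), ENNReal.ofReal (‖f i (pt x (t + v))‖ ^ 2) ≤
      QQ I f x H (t₁ - 1 + v) + QQ I f x H (t₁ - 1 + H + v) + QQ I f x H (t₁ - 1 + 2 * H + v) := by
  unfold QQ
  rw [← Finset.sum_add_distrib, ← Finset.sum_add_distrib]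
  refine Finset.sum_le_sum fun i _ => ?_
  have hsub : Icc (t₁ - 1) (t₁ + H + 1) ⊆ (Icc (t₁ - 1) (t₁ - 1 + H) ∪
      Icc (t₁ - 1 + H) (t₁ - 1 + H + H)) ∪ Icc (t₁ - 1 + 2 * H) (t₁ - 1 + 2 * H + H) := by
    intro t ht
    rcases le_total t (t₁ - 1 + H) with h1 | h1
    · left; left; exact ⟨ht.1, h1⟩
    · rcases le_total t (t₁ - 1 + H + H) with h2 | h2
      · left; right; exact ⟨h1, h2⟩
      · right; exact ⟨by linarith, by linarith [ht.2]⟩
  refine (lintegral_mono_set hsub).trans ?_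
  refine (lintegral_union_le _ _ _).trans ?_
  refine add_le_add ((lintegral_union_le _ _ _).trans ?_) ?_
  · rw [lint_shift (fun t => ENNReal.ofReal (‖f i (pt x t)‖ ^ 2)),
      lint_shift (fun t => ENNReal.ofReal (‖f i (pt x t)‖ ^ 2))]
  · rw [lint_shift (fun t => ENNReal.ofReal (‖f i (pt x t)‖ ^ 2))]

/-- **the number of zeros to the right of a line** -/
theorem zero_count {ι : Type} {I : Finset ι} {f : ι → ℂ → ℂ} (hf : ∀ i, Differentiable ℂ (f i))
    {a μ R T H P σ t₁ b : ℝ} {E : ℕ} (hR : 1 ≤ R) (hb0 : 0 < b) (hb1 : b ≤ 1) (hμR : b * R ≤ μ)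
    (hT : 1 ≤ T) (hH1 : 1 ≤ H)
    (hHT : H ≤ T) (hP : 0 ≤ P) (ht₁ : |t₁| ≤ T) (ha : 1 / 2 ≤ a) (haσ : a < σ) (hσ : σ ≤ 1)
    (hQ : ∀ r : ℝ, 0 < r → r ≤ 3 → ∀ t₀ : ℝ, QQ I f (a + r) H t₀ ≤
      ENNReal.ofReal (P * Real.exp (-(2 * (μ * r))) * (1 + |t₀| / T) ^ E))
    (h2 : ∀ i ∈ I, ∀ z : ℂ, 2 ≤ z.re → ‖f i z‖ ^ 2 ≤ 1 / 2)
    (Z : ι → Finset ℂ)
    (hZ : ∀ i ∈ I, ∀ z ∈ Z i, σ + 1 / R ≤ z.re ∧ t₁ ≤ z.im ∧ z.im ≤ t₁ + H) :
    ∑ i ∈ I, ∑ z ∈ Z i, (analyticOrderNatAt (fun s => 1 - f i s ^ 2) z : ℝ) ≤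
      24 * 7 ^ E / b * (P * R * Real.exp (-(2 * (μ * (σ - a))))) := by
  classical
  have hR0 : 0 < R := by linarith
  have hT0 : 0 < T := by linarith
  have hμ0 : 0 < μ := lt_of_lt_of_le (mul_pos hb0 hR0) hμR
  obtain ⟨η, hη⟩ : ∃ η : ℝ, η = 1 / R := ⟨_, rfl⟩
  obtain ⟨ρ, hρ⟩ : ∃ ρ : ℝ, ρ = 2 - σ := ⟨_, rfl⟩
  have hη0 : 0 < η := by rw [hη]; positivity
  have hη1 : η ≤ 1 := by
    rw [hη, div_le_iff₀ hR0]; linarith
  have hρ1 : 1 ≤ ρ := by linarith
  have hρ2 : ρ ≤ 3 / 2 := by linarith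
  have hρ0 : 0 < ρ := by linarith
  obtain ⟨w, hw⟩ : ∃ w : ℝ, w = Real.sqrt (ρ * η) / 2 := ⟨_, rfl⟩
  have hw2 : w ^ 2 = ρ * η / 4 := by
    rw [hw, div_pow, Real.sq_sqrt (by positivity)]; norm_num
  have hw0 : 0 < w := by rw [hw]; positivity
  have hw1 : w ≤ 1 := by
    refine le_of_sq_le_sq ?_ zero_le_one
    rw [hw2]; nlinarith
  obtain ⟨ω, hω⟩ : ∃ ω : ℝ, ω = 3 * η / (8 * ρ) := ⟨_, rfl⟩
  have hω0 : 0 < ω := by rw [hω]; positivity
  rw [← hη] at hZ
  set J : Set ℝ := Icc (t₁ - 1) (t₁ + H + 1) with hJ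
  obtain ⟨Z', hZ'⟩ : ∃ Z' : ι → Finset ℂ, ∀ i z, z ∈ Z' i ↔ z ∈ Z i ∧ z.re ≤ 2 :=
    ⟨fun i => (Z i).filter fun z => z.re ≤ 2, fun i z => Finset.mem_filter⟩
  set od : ι → ℂ → ℕ := fun i z => analyticOrderNatAt (fun s => 1 - f i s ^ 2) z with hod
  have hfc : ∀ i, Continuous fun q : ℝ × ℝ => ‖f i (pt q.1 q.2)‖ := by
    intro i
    refine ((hf i).continuous.comp ?_).norm
    unfold pt
    fun_prop
  -- removing the points with large real part
  have hred : ∀ i ∈ I, ∑ z ∈ Z i, (od i z : ℝ) = ∑ z ∈ Z' i, (od i z : ℝ) := by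
    intro i hi
    refine (Finset.sum_subset (fun z hz => ((hZ' i z).mp hz).1) fun z hz hz2 => ?_).symm
    have h3 : ¬ z.re ≤ 2 := fun h => hz2 ((hZ' i z).mpr ⟨hz, h⟩)
    have h4 := h2 i hi z (by linarith)
    have h5 : (fun s => 1 - f i s ^ 2) z ≠ 0 := by
      intro h6
      simp only at h6
      have h7 : f i z ^ 2 = 1 := (sub_eq_zero.mp h6).symm
      rw [← norm_pow, h7, norm_one] at h4
      norm_num at h4
    have h8 : od i z = 0 := by
      simp only [hod]
      unfold analyticOrderNatAt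
      have hda : Differentiable ℂ fun s => 1 - f i s ^ 2 :=
        (differentiable_const _).sub ((hf i).pow 2)
      rw [(hda.analyticAt z).analyticOrderAt_eq_zero.mpr h5]
      rfl
    rw [h8]; simp
  -- pointwise Jensen
  have hpt : ∀ i ∈ I, ∀ t : ℝ, ∑ z ∈ Z' i, (od i z : ENNReal) * (ENNReal.ofReal ω *
      (Icc (z.im - w) (z.im + w)).indicator 1 t) ≤
      ENNReal.ofReal (2 * Real.pi)⁻¹ * (∫⁻ φ in Ioc 0 (2 * Real.pi),
        ENNReal.ofReal (‖f i (pt (2 + ρ * Real.cos φ) (t + ρ * Real.sin φ))‖ ^ 2)) +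
      ENNReal.ofReal 2 * ENNReal.ofReal (‖f i (pt 2 t)‖ ^ 2) := by
    intro i hi t
    have hle : ∀ z ∈ (Z' i).filter (fun z => t ∈ Icc (z.im - w) (z.im + w)),
        ‖pt 2 t - z‖ ≤ ρ ∧
        (pt 2 t ≠ z → ω ≤ Real.log (ρ * ‖pt 2 t - z‖⁻¹)) := by
      intro z hz
      obtain ⟨hz1, hz2⟩ := Finset.mem_filter.mp hz
      obtain ⟨hz3, hz4⟩ := (hZ' i z).mp hz1
      rw [hω]
      refine jensen_wt hη0 (by linarith) hρ (hZ i hi z hz3).1 hz4 ?_
      rw [← hw2]
      exact sq_le_sq' (by linarith [hz2.1]) (by linarith [hz2.2])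
    have h1 := jensen_pt (hf i) (c := pt 2 t) (ω := ω) hρ0
      (h2 i hi _ (by rw [pt_re])) (fun z hz => (hle z hz).1) (fun z hz => (hle z hz).2)
    have h3 : ∑ z ∈ Z' i, (od i z : ENNReal) * (ENNReal.ofReal ω *
        (Icc (z.im - w) (z.im + w)).indicator 1 t) =
        ENNReal.ofReal (∑ z ∈ (Z' i).filter (fun z => t ∈ Icc (z.im - w) (z.im + w)),
          (od i z : ℝ) * ω) := by
      rw [ENNReal.ofReal_sum_of_nonneg (fun z _ => by positivity), Finset.sum_filter]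
      refine Finset.sum_congr rfl fun z _ => ?_
      by_cases hz : t ∈ Icc (z.im - w) (z.im + w)
      · rw [if_pos hz, indicator_of_mem hz, Pi.one_apply, mul_one,
          ENNReal.ofReal_mul (Nat.cast_nonneg _), ENNReal.ofReal_natCast]
      · rw [if_neg hz, indicator_of_notMem hz, mul_zero, mul_zero]
    rw [h3]
    refine (ENNReal.ofReal_le_ofReal h1).trans ?_
    have hcont : Continuous fun φ : ℝ =>
        ‖f i (pt (2 + ρ * Real.cos φ) (t + ρ * Real.sin φ))‖ ^ 2 :=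
      ((hfc i).comp (by fun_prop : Continuous fun φ : ℝ =>
        ((2 + ρ * Real.cos φ, t + ρ * Real.sin φ) : ℝ × ℝ))).pow 2
    have h4 : Real.circleAverage (fun z => ‖f i z‖ ^ 2) (pt 2 t) ρ =
        (2 * Real.pi)⁻¹ * ∫ φ in Ioc 0 (2 * Real.pi),
          ‖f i (pt (2 + ρ * Real.cos φ) (t + ρ * Real.sin φ))‖ ^ 2 := by
      rw [Real.circleAverage_def, smul_eq_mul,
        intervalIntegral.integral_of_le (by positivity)]
      congr 1
      refine integral_congr_ae (Eventually.of_forall fun φ => ?_)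
      simp only [circleMap_pt]
    rw [h4, ENNReal.ofReal_add (mul_nonneg (by positivity)
      (integral_nonneg fun φ => by positivity)) (by positivity),
      ENNReal.ofReal_mul (by positivity), ENNReal.ofReal_mul (by norm_num),
      ofReal_integral_eq_lintegral_ofReal ?_ (Eventually.of_forall fun φ => by positivity)]
    exact (hcont.integrableOn_Icc (a := 0) (b := 2 * Real.pi)).mono_set Ioc_subset_Icc_self
  -- integrating the left side
  have hleft : ∀ i ∈ I, ∫⁻ t in J, ∑ z ∈ Z' i, (od i z : ENNReal) * (ENNReal.ofReal ω *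
      (Icc (z.im - w) (z.im + w)).indicator 1 t) =
      ENNReal.ofReal ((∑ z ∈ Z' i, (od i z : ℝ)) * (ω * (2 * w))) := by
    intro i hi
    rw [lintegral_finsetSum _ fun z _ => by
      refine Measurable.const_mul (Measurable.const_mul ?_ _) _
      exact measurable_one.indicator measurableSet_Icc]
    rw [Finset.sum_mul, ENNReal.ofReal_sum_of_nonneg (fun z _ => by positivity)]
    refine Finset.sum_congr rfl fun z hz => ?_
    obtain ⟨hz3, hz4⟩ := (hZ' i z).mp hz
    obtain ⟨_, hz5, hz6⟩ := hZ i hi z hz3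
    rw [lintegral_const_mul _ ((measurable_one.indicator measurableSet_Icc).const_mul _),
      lintegral_const_mul _ (measurable_one.indicator measurableSet_Icc),
      lintegral_indicator_one measurableSet_Icc, Measure.restrict_apply measurableSet_Icc,
      inter_eq_left.mpr, Real.volume_Icc, ENNReal.ofReal_mul (Nat.cast_nonneg _),
      ENNReal.ofReal_natCast, ENNReal.ofReal_mul hω0.le]
    · congr 3
      ring
    · intro t ht
      exact ⟨by linarith [ht.1], by linarith [ht.2]⟩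
  -- windows
  obtain ⟨A, hA⟩ : ∃ A : ℝ, A = 3 * 7 ^ E * P * Real.exp (-(2 * (μ * (σ - a)))) := ⟨_, rfl⟩
  have hA0 : 0 ≤ A := by rw [hA]; positivity
  have hwin : ∀ r v : ℝ, 0 < r → r ≤ 3 → |v| ≤ 3 / 2 →
      ∑ i ∈ I, ∫⁻ t in J, ENNReal.ofReal (‖f i (pt (a + r) (t + v))‖ ^ 2) ≤
      ENNReal.ofReal (3 * 7 ^ E * P * Real.exp (-(2 * (μ * r)))) := by
    intro r v hr hr3 hv
    refine (three_win I f (a + r) H t₁ v hH1).trans ?_
    have h7 : ∀ j : ℝ, 0 ≤ j → j ≤ 2 → QQ I f (a + r) H (t₁ - 1 + j * H + v) ≤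
        ENNReal.ofReal (7 ^ E * P * Real.exp (-(2 * (μ * r)))) := by
      intro j hj0 hj
      refine (hQ r hr hr3 _).trans (ENNReal.ofReal_le_ofReal ?_)
      have h8 : 1 + |t₁ - 1 + j * H + v| / T ≤ 7 := by
        have h9 : |t₁ - 1 + j * H + v| ≤ 6 * T := by
          obtain ⟨v1, v2⟩ := abs_le.mp hv
          obtain ⟨t1, t2⟩ := abs_le.mp ht₁
          have h10 : j * H ≤ 2 * T := by nlinarith
          have h11 : 0 ≤ j * H := by positivity
          rw [abs_le]
          constructor <;> linarith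
        have := (div_le_iff₀ hT0).mpr h9
        linarith
      have h12 : (1 + |t₁ - 1 + j * H + v| / T) ^ E ≤ 7 ^ E :=
        pow_le_pow_left₀ (by positivity) h8 E
      have h13 : 0 ≤ P * Real.exp (-(2 * (μ * r))) := by positivity
      nlinarith [mul_le_mul_of_nonneg_left h12 h13]
    have e1 := h7 0 le_rfl (by norm_num)
    have e2 := h7 1 (by norm_num) (by norm_num)
    have e3 := h7 2 (by norm_num) le_rfl
    rw [zero_mul, add_zero] at e1
    rw [one_mul] at e2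
    refine (add_le_add (add_le_add e1 e2) e3).trans (le_of_eq ?_)
    rw [← ENNReal.ofReal_add (by positivity) (by positivity),
      ← ENNReal.ofReal_add (by positivity) (by positivity)]
    congr 1
    ring
  -- total
  have hmeas : ∀ i, Measurable (Function.uncurry fun t φ : ℝ => ENNReal.ofReal
      (‖f i (pt (2 + ρ * Real.cos φ) (t + ρ * Real.sin φ))‖ ^ 2)) := by
    intro i
    refine Measurable.ennreal_ofReal (Continuous.measurable ?_)
    exact ((hfc i).comp (by fun_prop : Continuous fun q : ℝ × ℝ =>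
      ((2 + ρ * Real.cos q.2, q.1 + ρ * Real.sin q.2) : ℝ × ℝ))).pow 2
  have htot : ENNReal.ofReal ((∑ i ∈ I, ∑ z ∈ Z i, (od i z : ℝ)) * (ω * (2 * w))) ≤
      ENNReal.ofReal (2 * Real.pi)⁻¹ * ENNReal.ofReal (A * (Real.pi * Real.sqrt Real.pi /
        (2 * Real.sqrt (μ * ρ)))) + ENNReal.ofReal 2 * ENNReal.ofReal
          (A * Real.exp (-(2 * (μ * ρ)))) := by
    rw [Finset.sum_congr rfl hred, Finset.sum_mul,
      ENNReal.ofReal_sum_of_nonneg (fun i _ => by positivity),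
      ← Finset.sum_congr rfl hleft]
    refine (Finset.sum_le_sum fun i hi => lintegral_mono (hpt i hi)).trans ?_
    have hsplit : ∀ i ∈ I, ∫⁻ t in J, (ENNReal.ofReal (2 * Real.pi)⁻¹ *
        (∫⁻ φ in Ioc 0 (2 * Real.pi),
        ENNReal.ofReal (‖f i (pt (2 + ρ * Real.cos φ) (t + ρ * Real.sin φ))‖ ^ 2)) +
        ENNReal.ofReal 2 * ENNReal.ofReal (‖f i (pt 2 t)‖ ^ 2)) =
        ENNReal.ofReal (2 * Real.pi)⁻¹ * (∫⁻ φ in Ioc 0 (2 * Real.pi), ∫⁻ t in J,
        ENNReal.ofReal (‖f i (pt (2 + ρ * Real.cos φ) (t + ρ * Real.sin φ))‖ ^ 2)) +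
        ENNReal.ofReal 2 * ∫⁻ t in J, ENNReal.ofReal (‖f i (pt 2 t)‖ ^ 2) := by
      intro i _
      have m1 : Measurable fun t : ℝ => ENNReal.ofReal (‖f i (pt 2 t)‖ ^ 2) :=
        Measurable.ennreal_ofReal (((hfc i).comp (by fun_prop : Continuous fun t : ℝ =>
          ((2, t) : ℝ × ℝ))).pow 2).measurable
      have m2 : Measurable fun t : ℝ => ∫⁻ φ in Ioc 0 (2 * Real.pi),
          ENNReal.ofReal (‖f i (pt (2 + ρ * Real.cos φ) (t + ρ * Real.sin φ))‖ ^ 2) :=
        (hmeas i).lintegral_prod_right'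
      rw [lintegral_add_right _ (m1.const_mul _), lintegral_const_mul _ m1,
        lintegral_const_mul _ m2, lintegral_lintegral_swap (hmeas i).aemeasurable]
    rw [Finset.sum_congr rfl hsplit, Finset.sum_add_distrib, ← Finset.mul_sum, ← Finset.mul_sum]
    refine add_le_add (mul_le_mul_right ?_ _) (mul_le_mul_right ?_ _)
    · rw [← lintegral_finsetSum _ fun i _ => by
        have := (hmeas i).comp (measurable_swap (α := ℝ) (β := ℝ))
        exact this.lintegral_prod_right']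
      have hφ : ∀ φ : ℝ, ∑ i ∈ I, ∫⁻ t in J,
          ENNReal.ofReal (‖f i (pt (2 + ρ * Real.cos φ) (t + ρ * Real.sin φ))‖ ^ 2) ≤
          ENNReal.ofReal (A * Real.exp (-(2 * (μ * ρ * (1 + Real.cos φ))))) := by
        intro φ
        have c1 := Real.cos_le_one φ
        have c2 := Real.neg_one_le_cos φ
        have c3 := Real.abs_sin_le_one φ
        have r1 : 0 < σ - a + ρ * (1 + Real.cos φ) := by
          have : 0 ≤ ρ * (1 + Real.cos φ) := mul_nonneg hρ0.le (by linarith)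
          linarith
        have r2 : σ - a + ρ * (1 + Real.cos φ) ≤ 3 := by nlinarith
        have r3 : |ρ * Real.sin φ| ≤ 3 / 2 := by
          rw [abs_mul, abs_of_pos hρ0]
          nlinarith [abs_nonneg (Real.sin φ)]
        have h14 := hwin _ _ r1 r2 r3
        have e4 : a + (σ - a + ρ * (1 + Real.cos φ)) = 2 + ρ * Real.cos φ := by
          rw [hρ]; ring
        rw [e4] at h14
        refine h14.trans (ENNReal.ofReal_le_ofReal (le_of_eq ?_))
        rw [hA, mul_assoc (3 * 7 ^ E * P), ← Real.exp_add]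
        congr 2
        ring
      refine (lintegral_mono fun φ => hφ φ).trans ?_
      rw [← ofReal_integral_eq_lintegral_ofReal ?_ (Eventually.of_forall fun φ => by positivity)]
      · refine ENNReal.ofReal_le_ofReal ?_
        rw [integral_const_mul]
        refine mul_le_mul_of_nonneg_left ?_ hA0
        rw [← intervalIntegral.integral_of_le (by positivity)]
        exact circ_int (by positivity)
      · exact ((by fun_prop : Continuous fun φ : ℝ => A * Real.exp (-(2 * (μ * ρ *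
          (1 + Real.cos φ))))).integrableOn_Icc (a := 0) (b := 2 * Real.pi)).mono_set
            Ioc_subset_Icc_self
    · have h15 := hwin (2 - a) 0 (by linarith) (by linarith) (by norm_num)
      have e5 : a + (2 - a) = 2 := by ring
      rw [e5] at h15
      simp only [add_zero] at h15
      refine h15.trans (ENNReal.ofReal_le_ofReal (le_of_eq ?_))
      rw [hA, mul_assoc (3 * 7 ^ E * P), ← Real.exp_add]
      congr 2
      rw [hρ]
      ring
  obtain ⟨N, hN⟩ : ∃ N : ℝ, N = ∑ i ∈ I, ∑ z ∈ Z i, (od i z : ℝ) := ⟨_, rfl⟩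
  have hN0 : 0 ≤ N := by rw [hN]; positivity
  rw [← hN] at htot
  rw [← ENNReal.ofReal_mul (by positivity), ← ENNReal.ofReal_mul (by norm_num),
    ← ENNReal.ofReal_add (by positivity) (by positivity),
    ENNReal.ofReal_le_ofReal_iff (by positivity)] at htot
  obtain ⟨X, hX⟩ : ∃ X : ℝ, X = Real.sqrt (μ * ρ) := ⟨_, rfl⟩
  have hX0 : 0 < X := by rw [hX]; positivity
  have hX2 : X ^ 2 = μ * ρ := by rw [hX, Real.sq_sqrt (by positivity)]
  have hpi : Real.sqrt Real.pi ≤ 2 := by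
    rw [Real.sqrt_le_left (by norm_num)]
    linarith [Real.pi_le_four]
  have t1 : (2 * Real.pi)⁻¹ * (A * (Real.pi * Real.sqrt Real.pi / (2 * Real.sqrt (μ * ρ)))) ≤
      A / X := by
    rw [← hX]
    have hpi0 := Real.pi_pos
    have : (2 * Real.pi)⁻¹ * (A * (Real.pi * Real.sqrt Real.pi / (2 * X))) =
        A / X * (Real.sqrt Real.pi / 4) := by
      field_simp
      ring
    rw [this]
    have h16 : 0 ≤ A / X := by positivity
    nlinarith
  have t2 : Real.exp (-(2 * (μ * ρ))) ≤ 1 / X := by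
    rw [← hX2, Real.exp_neg, one_div]
    refine inv_anti₀ hX0 ?_
    have := Real.add_one_le_exp (2 * X ^ 2)
    nlinarith [sq_nonneg (X - 1), sq_nonneg X]
  have t3 : N * (ω * (2 * w)) ≤ 3 * A / X := by
    have : A * Real.exp (-(2 * (μ * ρ))) ≤ A * (1 / X) := mul_le_mul_of_nonneg_left t2 hA0
    calc N * (ω * (2 * w)) ≤ A / X + 2 * (A * (1 / X)) := by linarith
      _ = 3 * A / X := by ring
  have hXw : ρ * b ≤ X * (2 * w) := by
    refine le_of_sq_le_sq ?_ (by positivity)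
    have e6 : (X * (2 * w)) ^ 2 = 4 * X ^ 2 * w ^ 2 := by ring
    rw [e6, hX2, hw2]
    have h17 : b ≤ μ * η := by
      rw [hη, mul_one_div, le_div_iff₀ hR0]
      linarith
    have h17' : b ^ 2 ≤ b := by nlinarith
    have : 4 * (μ * ρ) * (ρ * η / 4) = ρ ^ 2 * (μ * η) := by ring
    rw [this, mul_pow]
    exact mul_le_mul_of_nonneg_left (h17'.trans h17) (sq_nonneg ρ)
  have t4 : N * ω * (ρ * b) ≤ 3 * A := by
    have h18 : N * ω * (ρ * b) ≤ N * ω * (X * (2 * w)) :=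
      mul_le_mul_of_nonneg_left hXw (by positivity)
    have h19 : N * ω * (X * (2 * w)) ≤ 3 * A := by
      have h20 := mul_le_mul_of_nonneg_right t3 hX0.le
      rw [div_mul_cancel₀ _ hX0.ne'] at h20
      nlinarith
    linarith
  have t5 : N * ω * (ρ * b) = N * (3 / 8 * b * η) := by
    rw [hω]
    field_simp
  rw [t5, hη] at t4
  have t6 : N ≤ 8 * A * R / b := by
    rw [le_div_iff₀ hb0]
    have h21 : N * (3 / 8 * b * (1 / R)) * (8 / 3 * R) = N * b := by
      field_simp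
    have h22 := mul_le_mul_of_nonneg_right t4 (by positivity : (0 : ℝ) ≤ 8 / 3 * R)
    rw [h21] at h22
    linarith
  rw [← hN]
  refine t6.trans (le_of_eq ?_)
  rw [hA]
  ring

end Pool.Agent.N786.D
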