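import Pool.Agent.N786.D.Asm2
import Pool.Agent.N786.D.Jen2

/-!
# The density of zeros near the critical line (owner helper786)
-/

set_option autoImplicit false
set_option linter.unusedSectionVars false

open NumberField NumberField.Units MeasureTheory Complex Filter Topology Set

namespace Pool.Agent.N786.D

open Pool.Agent.N786
open Pool.Agent.Y773 (LI)
open Pool.Agent.Y767
open Pool.Agent.R399.TW (pt pt_re pt_im pt_cont)

section

variable {K : Type} [Field K] [NumberField K]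

/-- growth of the mollified function -/
lemma grow_f {β₁ β₂ : ℝ} {θ : ℝ → ℝ} (hθ : Cutf β₁ β₂ θ) (hβ : 0 < β₁) {A T R : ℝ} {n : ℕ}
    (hR : 0 < R) (hT : 1 ≤ T) (hA : 1 ≤ A)
    {ψ₀ lam : Ideal (𝓞 K) →*₀ ℂ} {F : ℂ → ℂ} (h : GLf A T R n (pr ψ₀ lam) F) :
    ∃ G : ℝ, ∀ z : ℂ, 1 / 4 ≤ z.re → ‖F z * Mp θ R ⌊Real.exp (β₂ * R)⌋₊ ψ₀ lam z - 1‖ ≤
      G * (1 + |z.im|) ^ n * Real.exp (-(β₁ * R * z.re)) := by
  obtain ⟨G₀, hG₀, hG⟩ := dpo_bdd ⌊Real.exp (β₂ * R)⌋₊ (fun 𝔞 => mob 𝔞 * (θ (lN 𝔞 / R) : ℂ))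
    (pr ψ₀ lam)
  obtain ⟨E, hE⟩ : ∃ E : ℝ, E = Real.exp (β₁ * R * (3 / 2)) := ⟨_, rfl⟩
  have hE0 : 0 < E := by rw [hE]; exact Real.exp_pos _
  have hZ := ZK_nonneg (K := K)
  have hA0 : 0 < A := by linarith
  refine ⟨(ZK K * ZK K + (A * Real.exp R * G₀ + 1)) * E, fun z hz => ?_⟩
  have hone : 1 ≤ (1 + |z.im|) ^ n := one_le_pow₀ (by linarith [abs_nonneg z.im])
  rcases le_total (3 / 2) z.re with h3 | h3
  · rw [h.ser z (by linarith)]
    refine (LM_sub_one hθ hR h.le1 h3).trans ?_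
    have e1 : Real.exp (-(β₁ * R * (z.re - 3 / 2))) = E * Real.exp (-(β₁ * R * z.re)) := by
      rw [hE, ← Real.exp_add]; congr 1; ring
    rw [e1]
    calc E * Real.exp (-(β₁ * R * z.re)) * (ZK K * ZK K) =
        (ZK K * ZK K) * E * 1 * Real.exp (-(β₁ * R * z.re)) := by ring
      _ ≤ (ZK K * ZK K + (A * Real.exp R * G₀ + 1)) * E * (1 + |z.im|) ^ n *
          Real.exp (-(β₁ * R * z.re)) := by
          gcongr
          have : 0 ≤ A * Real.exp R * G₀ + 1 := by positivity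
          linarith
  · have e2 : 1 ≤ E * Real.exp (-(β₁ * R * z.re)) := by
      rw [hE, ← Real.exp_add]
      refine Real.one_le_exp ?_
      have : 0 ≤ β₁ * R * (3 / 2 - z.re) := by
        have : 0 ≤ 3 / 2 - z.re := by linarith
        positivity
      linarith
    have e3 := h.gr z (by linarith)
    have e4 : (1 + |z.im| / T) ^ n ≤ (1 + |z.im|) ^ n := by
      refine pow_le_pow_left₀ (by positivity) ?_ n
      have : |z.im| / T ≤ |z.im| := div_le_self (abs_nonneg _) hT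
      linarith
    have e5 := hG z (by linarith)
    have e6 : ‖F z‖ ≤ A * Real.exp R * (1 + |z.im|) ^ n :=
      e3.trans (mul_le_mul_of_nonneg_left e4 (by positivity))
    calc ‖F z * Mp θ R ⌊Real.exp (β₂ * R)⌋₊ ψ₀ lam z - 1‖ ≤
          ‖F z‖ * ‖Mp θ R ⌊Real.exp (β₂ * R)⌋₊ ψ₀ lam z‖ + 1 := by
          have := norm_sub_le (F z * Mp θ R ⌊Real.exp (β₂ * R)⌋₊ ψ₀ lam z) 1
          rw [norm_mul, norm_one] at this
          exact this
      _ ≤ A * Real.exp R * (1 + |z.im|) ^ n * G₀ + 1 :=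
          add_le_add (mul_le_mul e6 e5 (norm_nonneg _) (by positivity)) le_rfl
      _ ≤ A * Real.exp R * (1 + |z.im|) ^ n * G₀ + 1 * (1 + |z.im|) ^ n := by linarith
      _ = (0 + (A * Real.exp R * G₀ + 1)) * (1 + |z.im|) ^ n * 1 := by ring
      _ ≤ (ZK K * ZK K + (A * Real.exp R * G₀ + 1)) * (1 + |z.im|) ^ n *
          (E * Real.exp (-(β₁ * R * z.re))) := by gcongr; positivity
      _ = _ := by ring

/-- comparison of the orders -/
lemma order_le {F M : ℂ → ℂ} (hF : Differentiable ℂ F) (hM : Differentiable ℂ M)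
    (h2 : ‖F 2 * M 2 - 1‖ ^ 2 ≤ 1 / 2) (z : ℂ) :
    analyticOrderNatAt F z ≤ analyticOrderNatAt (fun s => 1 - (F s * M s - 1) ^ 2) z := by
  have e1 : (fun s => 1 - (F s * M s - 1) ^ 2) = F * fun s => M s * (2 - F s * M s) := by
    funext s
    simp only [Pi.mul_apply]
    ring
  have hu : Differentiable ℂ fun s => M s * (2 - F s * M s) :=
    hM.mul ((differentiable_const _).sub (hF.mul hM))
  have hh : Differentiable ℂ fun s => 1 - (F s * M s - 1) ^ 2 :=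
    (differentiable_const _).sub (((hF.mul hM).sub (differentiable_const _)).pow 2)
  have h3 : (fun s => 1 - (F s * M s - 1) ^ 2) 2 ≠ 0 := by
    intro h4
    simp only at h4
    have h5 : (F 2 * M 2 - 1) ^ 2 = 1 := (sub_eq_zero.mp h4).symm
    rw [← norm_pow, h5, norm_one] at h2
    norm_num at h2
  have h4 : analyticOrderAt (fun s => 1 - (F s * M s - 1) ^ 2) 2 ≠ ⊤ := by
    rw [(hh.analyticAt 2).analyticOrderAt_eq_zero.mpr h3]
    exact ENat.zero_ne_top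
  have hA : AnalyticOnNhd ℂ (fun s => 1 - (F s * M s - 1) ^ 2) univ := fun z _ => hh.analyticAt z
  have h5 : analyticOrderAt (fun s => 1 - (F s * M s - 1) ^ 2) z ≠ ⊤ :=
    hA.analyticOrderAt_ne_top_of_isPreconnected isPreconnected_univ (mem_univ 2) (mem_univ z) h4
  unfold analyticOrderNatAt
  refine ENat.toNat_le_toNat ?_ h5
  rw [e1, analyticOrderAt_mul (hF.analyticAt z) (hu.analyticAt z)]
  exact le_self_add

end

/-- **The density of zeros near the critical line** -/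
theorem dens_core (K : Type) [Field K] [NumberField K] {α' α₁ α₂ β' β₁ β₂ A : ℝ} {φ θ : ℝ → ℝ}
    (hφ : Cutf α₁ α₂ φ) (hθ : Cutf β₁ β₂ θ) (hα' : 1 / 2 < α') (hα : α' < α₁) (hα₂ : 0 < α₂)
    (hβ' : 0 < β') (hβ'1 : β' < β₁) (hβ1' : β' ≤ 1)
    (hβ : 0 < β₂) (hβ1 : β₂ ≤ 1) (hA : 1 ≤ A) (n : ℕ) (hn : 1 ≤ n) :
    ∃ (κ Q R₀ : ℝ), 1 ≤ κ ∧ 0 ≤ Q ∧ 1 ≤ R₀ ∧
    ∀ (R T H P : ℝ) (S : Finset (Ideal (𝓞 K) →*₀ ℂ)) (ψ₀ : Ideal (𝓞 K) →*₀ ℂ)
      (F : (Ideal (𝓞 K) →*₀ ℂ) → ℂ → ℂ), R₀ ≤ R → 1 ≤ H → H ≤ T → S.card * H ≤ P →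
      LSP S ψ₀ H P (⌊Real.exp (α₂ * R)⌋₊ * ⌊Real.exp (β₂ * R)⌋₊) →
      (∀ lam, Differentiable ℂ (F lam)) → (∀ lam ∈ S, GLf A T R n (pr ψ₀ lam) (F lam)) →
      ∀ t₁ : ℝ, |t₁| ≤ T → ∀ σ : ℝ, 1 / 2 + κ / R < σ → σ ≤ 1 →
      ∀ Z : (Ideal (𝓞 K) →*₀ ℂ) → Finset ℂ,
      (∀ lam ∈ S, ∀ z ∈ Z lam, σ + 1 / R ≤ z.re ∧ t₁ ≤ z.im ∧ z.im ≤ t₁ + H) →
      ∑ lam ∈ S, ∑ z ∈ Z lam, (analyticOrderNatAt (F lam) z : ℝ) ≤
        Q * (P * R * Real.exp (-(2 * β' * R * (σ - 1 / 2)))) := by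
  obtain ⟨κ, a, R₀, k, E, hκ, ha, hR₀, hmain⟩ :=
    mean_near K hφ hθ hα' hα hα₂ hβ hβ1 hA n hn
  obtain ⟨B, hB⟩ : ∃ B : ℕ, B = n + E + 3 := ⟨_, rfl⟩
  have hZ := ZK_nonneg (K := K)
  obtain ⟨C₀, hC₀⟩ : ∃ C₀ : ℝ, C₀ = cB B 0 * (3 ^ E * cB B E) := ⟨_, rfl⟩
  have hC₀0 : 0 ≤ C₀ := by
    rw [hC₀]
    have := cB_nn B 0
    have := cB_nn B E
    positivity
  have hβ₁ : 0 < β₁ := by linarith
  -- the last threshold
  obtain ⟨R₁, hR₁⟩ : ∃ R₁ : ℝ, ∀ R : ℝ, R₁ ≤ R →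
      Real.exp (-(β₁ * R * (1 / 2))) * (ZK K * ZK K) ≤ 1 / 2 := by
    have h1 : Tendsto (fun R : ℝ => Real.exp (-(β₁ * R * (1 / 2))) * (ZK K * ZK K)) atTop
        (𝓝 (0 * (ZK K * ZK K))) := by
      refine Tendsto.mul_const _ (Real.tendsto_exp_neg_atTop_nhds_zero.comp ?_)
      have h2 : Tendsto (fun R : ℝ => β₁ * R * (1 / 2)) atTop atTop :=
        (tendsto_id.const_mul_atTop hβ₁).atTop_mul_const (by norm_num)
      exact h2
    rw [zero_mul] at h1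
    obtain ⟨R₁, h2⟩ := (h1.eventually (Iio_mem_nhds (show (0 : ℝ) < 1 / 2 by norm_num))).exists_forall_of_atTop
    exact ⟨R₁, fun R hR => (mem_Iio.mp (h2 R hR)).le⟩
  refine ⟨κ, 24 * 7 ^ E / β' * (C₀ * (2 * a + 2)) * Real.exp (2 * β' * κ), max R₀ R₁, hκ,
    by positivity, le_max_of_le_left hR₀, ?_⟩
  intro R T H P S ψ₀ F hR hH hHT hP hls hFd hF t₁ ht₁ σ hσ hσ1 Z hZz
  have hR1 : R₀ ≤ R := (le_max_left _ _).trans hR
  have hR2 : R₁ ≤ R := (le_max_right _ _).trans hR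
  have hRone : 1 ≤ R := hR₀.trans hR1
  have hR0 : 0 < R := by linarith
  have hT : 1 ≤ T := hH.trans hHT
  have hT0 : 0 < T := by linarith
  have hP0 : 0 ≤ P := le_trans (by positivity) hP
  obtain ⟨a₀, ha₀⟩ : ∃ a₀ : ℝ, a₀ = 1 / 2 + κ / R := ⟨_, rfl⟩
  have hκR : 0 < κ / R := by positivity
  set M : (Ideal (𝓞 K) →*₀ ℂ) → ℂ → ℂ := fun lam => Mp θ R ⌊Real.exp (β₂ * R)⌋₊ ψ₀ lam with hM
  have hMd : ∀ lam, Differentiable ℂ (M lam) := fun lam => dpo_diff _ _ _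
  have hMl : ∀ lam, M lam = Mp θ R ⌊Real.exp (β₂ * R)⌋₊ ψ₀ lam := fun lam => rfl
  set f : (Ideal (𝓞 K) →*₀ ℂ) → ℂ → ℂ := fun lam s => F lam s * M lam s - 1 with hf
  have hfd : ∀ lam, Differentiable ℂ (f lam) := fun lam =>
    ((hFd lam).mul (hMd lam)).sub (differentiable_const _)
  -- the mean square on the line `a₀`
  have hms : ∀ t₀ : ℝ, QQ S f a₀ H t₀ ≤
      ENNReal.ofReal (P * (2 * a + 2) * (1 + |t₀| / T) ^ E) := by
    intro t₀
    have hJ := hmain R T H P S ψ₀ F hR1 hT (by linarith) hHT hP hls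
      (fun lam => (hFd lam).continuous) hF t₀ 0
    rw [← ha₀] at hJ
    have e0 : wt T R k E t₀ 0 = (1 + |t₀| / T) ^ E := by
      unfold wt
      rw [abs_zero, mul_zero, add_zero, one_pow, one_mul]
    rw [e0] at hJ
    have hΘ : 1 ≤ (1 + |t₀| / T) ^ E := one_le_pow₀ (by
      have : 0 ≤ |t₀| / T := by positivity
      linarith)
    have hpt : ∀ lam t, ENNReal.ofReal (‖f lam (pt a₀ t)‖ ^ 2) ≤
        ENNReal.ofReal 2 * ENNReal.ofReal (‖F lam (pt a₀ t)‖ ^ 2 * ‖M lam (pt a₀ (t - 0))‖ ^ 2) +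
        ENNReal.ofReal 2 := by
      intro lam t
      rw [← ENNReal.ofReal_mul (by norm_num), ← ENNReal.ofReal_add (by positivity) (by norm_num),
        sub_zero]
      refine ENNReal.ofReal_le_ofReal ?_
      simp only [hf]
      have h1 := norm_sub_le (F lam (pt a₀ t) * M lam (pt a₀ t)) 1
      rw [norm_mul, norm_one] at h1
      have h2 := pow_le_pow_left₀ (norm_nonneg _) h1 2
      have h3 : (‖F lam (pt a₀ t)‖ * ‖M lam (pt a₀ t)‖ + 1) ^ 2 ≤
          2 * (‖F lam (pt a₀ t)‖ ^ 2 * ‖M lam (pt a₀ t)‖ ^ 2) + 2 := by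
        nlinarith [sq_nonneg (‖F lam (pt a₀ t)‖ * ‖M lam (pt a₀ t)‖ - 1)]
      linarith
    unfold QQ
    calc ∑ lam ∈ S, ∫⁻ t in Icc t₀ (t₀ + H), ENNReal.ofReal (‖f lam (pt a₀ t)‖ ^ 2) ≤
        ∑ lam ∈ S, (ENNReal.ofReal 2 * (∫⁻ t in Icc t₀ (t₀ + H),
          ENNReal.ofReal (‖F lam (pt a₀ t)‖ ^ 2 * ‖M lam (pt a₀ (t - 0))‖ ^ 2)) +
          ENNReal.ofReal (2 * H)) := by
          refine Finset.sum_le_sum fun lam _ => (lintegral_mono (hpt lam)).trans ?_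
          have hmeas : Measurable fun t : ℝ =>
              ENNReal.ofReal (‖F lam (pt a₀ t)‖ ^ 2 * ‖M lam (pt a₀ (t - 0))‖ ^ 2) := by
            refine Measurable.ennreal_ofReal (Continuous.measurable ?_)
            have c1 : Continuous fun t : ℝ => ‖F lam (pt a₀ t)‖ :=
              ((hFd lam).continuous.comp (pt_cont _)).norm
            have c2 : Continuous fun t : ℝ => ‖M lam (pt a₀ (t - 0))‖ := by
              simp only [sub_zero]
              exact ((hMd lam).continuous.comp (pt_cont _)).norm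
            exact (c1.pow 2).mul (c2.pow 2)
          rw [lintegral_add_left (hmeas.const_mul _), lintegral_const_mul _ hmeas,
            setLIntegral_const, Real.volume_Icc, ← ENNReal.ofReal_mul (by norm_num)]
          refine add_le_add le_rfl (ENNReal.ofReal_le_ofReal (le_of_eq ?_))
          ring
      _ = ENNReal.ofReal 2 * JJ S F M a₀ a₀ H t₀ 0 + ENNReal.ofReal (S.card * (2 * H)) := by
          rw [Finset.sum_add_distrib, ← Finset.mul_sum, Finset.sum_const, nsmul_eq_mul,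
            ENNReal.ofReal_mul (Nat.cast_nonneg _), ENNReal.ofReal_natCast]
          rfl
      _ ≤ ENNReal.ofReal 2 * ENNReal.ofReal (P * a * (1 + |t₀| / T) ^ E) +
          ENNReal.ofReal (2 * P * (1 + |t₀| / T) ^ E) := by
          refine add_le_add (mul_le_mul_right hJ _) (ENNReal.ofReal_le_ofReal ?_)
          calc (S.card : ℝ) * (2 * H) = 2 * (S.card * H) * 1 := by ring
            _ ≤ 2 * P * (1 + |t₀| / T) ^ E := by gcongr
      _ = _ := by
          rw [← ENNReal.ofReal_mul (by norm_num), ← ENNReal.ofReal_add (by positivity)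
            (by positivity)]
          congr 1
          ring
  -- to the right
  have hright : ∀ r : ℝ, 0 < r → r ≤ 3 → ∀ t₀ : ℝ, QQ S f (a₀ + r) H t₀ ≤
      ENNReal.ofReal (C₀ * (P * (2 * a + 2)) * Real.exp (-(2 * (β' * R * r))) *
        (1 + |t₀| / T) ^ E) := by
    intro r hr hr3 t₀
    have h1 := QQ_right (I := S) (f := f) hfd (a := a₀) (μ := β' * R) (lam := β₁ * R) (T := T)
      (H := H) (Q := P * (2 * a + 2)) (m := n) (B := B) (E := E) hT (by positivity) (by omega)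
      (by omega) (by nlinarith) (fun lam hl => by
        obtain ⟨G, hG⟩ := grow_f (β₂ := β₂) hθ hβ₁ hR0 hT hA (hF lam hl)
        exact ⟨G, fun z hz => hG z (by rw [ha₀] at hz; linarith)⟩) hms hr hr3 t₀
    rw [← hC₀] at h1
    exact h1
  have hsmall : ∀ lam ∈ S, ∀ z : ℂ, 2 ≤ z.re → ‖f lam z‖ ^ 2 ≤ 1 / 2 := by
    intro lam hl z hz
    simp only [hf, hMl]
    rw [(hF lam hl).ser z (by linarith)]
    have h1 := LM_sub_one (β₂ := β₂) hθ hR0 (hF lam hl).le1 (s := z) (by linarith)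
    have h2 : Real.exp (-(β₁ * R * (z.re - 3 / 2))) ≤ Real.exp (-(β₁ * R * (1 / 2))) := by
      refine Real.exp_le_exp.mpr (neg_le_neg ?_)
      exact mul_le_mul_of_nonneg_left (by linarith) (by positivity)
    have h3 := h1.trans ((mul_le_mul_of_nonneg_right h2 (by positivity)).trans (hR₁ R hR2))
    have h4 := pow_le_pow_left₀ (norm_nonneg _) h3 2
    norm_num at h4
    linarith
  have hcount := zero_count (I := S) (f := f) hfd (a := a₀) (μ := β' * R) (R := R) (T := T)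
    (H := H) (P := C₀ * (P * (2 * a + 2))) (σ := σ) (t₁ := t₁) (b := β') (E := E) hRone hβ' hβ1'
    le_rfl hT hH hHT (by positivity) ht₁ (by linarith) (by linarith) hσ1 hright hsmall Z hZz
  have hord : ∑ lam ∈ S, ∑ z ∈ Z lam, (analyticOrderNatAt (F lam) z : ℝ) ≤
      ∑ lam ∈ S, ∑ z ∈ Z lam, (analyticOrderNatAt (fun s => 1 - f lam s ^ 2) z : ℝ) := by
    refine Finset.sum_le_sum fun lam hl => Finset.sum_le_sum fun z _ => ?_
    have := order_le (hFd lam) (hMd lam) (hsmall lam hl 2 (by norm_num)) z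
    exact_mod_cast this
  refine hord.trans (hcount.trans (le_of_eq ?_))
  have e1 : Real.exp (-(2 * (β' * R * (σ - a₀)))) =
      Real.exp (2 * β' * κ) * Real.exp (-(2 * β' * R * (σ - 1 / 2))) := by
    rw [← Real.exp_add, ha₀]
    congr 1
    field_simp
    ring
  rw [e1]
  ring

end Pool.Agent.N786.D
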