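import Pool.Agent.N786.D.Pol

/-!
# The mean square of the mollified Dirichlet polynomials (owner helper786)
-/

set_option autoImplicit false
set_option linter.unusedSectionVars false

open NumberField NumberField.Units MeasureTheory Complex Filter Topology Set

namespace Pool.Agent.N786.D

open Pool.Agent.N786
open Pool.Agent.Y767
open Pool.Agent.R399.TW (pt pt_re pt_im pt_cont)

section

variable {K : Type} [Field K] [NumberField K]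

/-- the large sieve inequality for the family `E`, windows of length `H`, length `M`, constant
`P` -/
def LSP (E : Finset (Ideal (𝓞 K) →*₀ ℂ)) (ψ₀ : Ideal (𝓞 K) →*₀ ℂ) (H P : ℝ) (M : ℕ) : Prop :=
  ∀ (u : Ideal (𝓞 K) → ℂ) (t₁ : ℝ), ∑ lam ∈ E, ∫ t in t₁..(t₁ + H),
    ‖∑ 𝔞 ∈ SI K M, u 𝔞 * pr ψ₀ lam 𝔞 * ph 𝔞 t‖ ^ 2 ≤ P * ∑ 𝔞 ∈ SI K M, ‖u 𝔞‖ ^ 2

/-- the approximating Dirichlet polynomial -/
noncomputable def Dp (φ : ℝ → ℝ) (R : ℝ) (M₁ : ℕ) (ψ₀ lam : Ideal (𝓞 K) →*₀ ℂ) (s : ℂ) : ℂ :=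
  dpo M₁ (fun 𝔞 => (φ (lN 𝔞 / R) : ℂ)) (pr ψ₀ lam) s

/-- the mollifier -/
noncomputable def Mp (θ : ℝ → ℝ) (R : ℝ) (M₂ : ℕ) (ψ₀ lam : Ideal (𝓞 K) →*₀ ℂ) (s : ℂ) : ℂ :=
  dpo M₂ (fun 𝔞 => mob 𝔞 * (θ (lN 𝔞 / R) : ℂ)) (pr ψ₀ lam) s

lemma log_floor_succ {x : ℝ} : x ≤ Real.log ((⌊Real.exp x⌋₊ + 1 : ℕ) : ℝ) := by
  rw [Real.le_log_iff_exp_le (by positivity)]
  push_cast
  exact (Nat.lt_floor_add_one _).le

open Classical in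
/-- **the mean square of the mollified Dirichlet polynomials** -/
theorem ls_JJ (K : Type) [Field K] [NumberField K] {α₁ α₂ β₁ β₂ : ℝ} {φ θ : ℝ → ℝ}
    (hφ : Cutf α₁ α₂ φ) (hθ : Cutf β₁ β₂ θ) (hα : 0 < α₂) (hβ : 0 < β₂) {k : ℕ}
    (hk : 32 * (24 * (Module.finrank ℚ K : ℝ)) ≤ k) (c : ℝ) :
    ∃ a : ℝ, 0 ≤ a ∧ ∀ (R δ : ℝ), 0 < R → 1 / 2 ≤ R * δ → δ ≤ 1 / 4 →
      ∀ (E : Finset (Ideal (𝓞 K) →*₀ ℂ)) (ψ₀ : Ideal (𝓞 K) →*₀ ℂ) (H P : ℝ), 0 ≤ H → 0 ≤ P →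
      LSP E ψ₀ H P (⌊Real.exp (α₂ * R)⌋₊ * ⌊Real.exp (β₂ * R)⌋₊) →
      ∀ t₀ v₁ : ℝ, JJ E (fun lam => Dp φ R ⌊Real.exp (α₂ * R)⌋₊ ψ₀ lam)
        (fun lam => Mp θ R ⌊Real.exp (β₂ * R)⌋₊ ψ₀ lam) (1 / 2 + δ - c / R) (1 / 2 + δ) H t₀ v₁ ≤
      ENNReal.ofReal (P * a * (1 + R * |v₁|) ^ k) := by
  obtain ⟨g₁, h₁⟩ := hφ.fr c
  obtain ⟨g₂, h₂⟩ := hθ.fr 0
  obtain ⟨C, hC0, hC⟩ := bc_sq (lN_norm K) h₁ h₂ hk
  refine ⟨C, hC0, ?_⟩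
  intro R δ hR hRδ hδ E ψ₀ H P hH hP hls t₀ v₁
  obtain ⟨M₁, hM₁⟩ : ∃ M₁ : ℕ, M₁ = ⌊Real.exp (α₂ * R)⌋₊ := ⟨_, rfl⟩
  obtain ⟨M₂, hM₂⟩ : ∃ M₂ : ℕ, M₂ = ⌊Real.exp (β₂ * R)⌋₊ := ⟨_, rfl⟩
  rw [← hM₁, ← hM₂] at hls ⊢
  have hδ0 : 0 < δ := by
    by_contra h
    push Not at h
    nlinarith
  -- the weights
  set G₁ : ℝ → ℂ := fun y => ((φ (y / R) * Real.exp (c * (y / R)) : ℝ) : ℂ) with hG₁
  set G₂ : ℝ → ℂ := fun y => ((θ (y / R) * Real.exp (0 * (y / R)) : ℝ) : ℂ) *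
    cexp (((v₁ * y : ℝ) : ℂ) * I) with hG₂
  set F₁ : ℝ → ℂ := fun y => G₁ y * (Real.exp (-((1 / 2 + δ) * y)) : ℂ) with hF₁
  set F₂ : ℝ → ℂ := fun y => G₂ y * (Real.exp (-((1 / 2 + δ) * y)) : ℂ) with hF₂
  have z1 : ∀ y, Real.log (M₁ + 1 : ℕ) ≤ y → F₁ y = 0 := by
    intro y hy
    have h3 : α₂ * R ≤ y := by
      refine le_trans ?_ hy
      rw [hM₁]
      exact log_floor_succ
    have h4 : φ (y / R) = 0 := by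
      refine hφ.zero _ (le_trans ?_ (le_abs_self _))
      rw [le_div_iff₀ hR]
      exact h3
    simp only [hF₁, hG₁, h4]
    simp
  have z2 : ∀ y, Real.log (M₂ + 1 : ℕ) ≤ y → F₂ y = 0 := by
    intro y hy
    have h3 : β₂ * R ≤ y := by
      refine le_trans ?_ hy
      rw [hM₂]
      exact log_floor_succ
    have h4 : θ (y / R) = 0 := by
      refine hθ.zero _ (le_trans ?_ (le_abs_self _))
      rw [le_div_iff₀ hR]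
      exact h3
    simp only [hF₂, hG₂, h4]
    simp
  have hprod : ∀ lam : Ideal (𝓞 K) →*₀ ℂ, ∀ t : ℝ, Dp φ R M₁ ψ₀ lam (pt (1 / 2 + δ - c / R) t) *
      Mp θ R M₂ ψ₀ lam (pt (1 / 2 + δ) (t - v₁)) =
      ∑ 𝔞 ∈ SI K (M₁ * M₂), bc lN F₂ F₁ 𝔞 * pr ψ₀ lam 𝔞 * ph 𝔞 t := by
    intro lam t
    rw [← prod_eq M₁ M₂ F₁ F₂ (pr ψ₀ lam) z1 z2 t]
    unfold Dp Mp dpo
    congr 1
    · refine Finset.sum_congr rfl fun 𝔞 _ => ?_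
      rw [exp_pt]
      have e1 : ((φ (lN 𝔞 / R) : ℝ) : ℂ) * (Real.exp (-((1 / 2 + δ - c / R) * lN 𝔞)) : ℂ) =
          F₁ (lN 𝔞) := by
        simp only [hF₁, hG₁]
        rw [← Complex.ofReal_mul, ← Complex.ofReal_mul, mul_assoc, ← Real.exp_add]
        congr 3
        ring
      rw [← e1]
      ring
    · refine Finset.sum_congr rfl fun 𝔞 _ => ?_
      rw [exp_pt]
      have e2 : ph 𝔞 (t - v₁) = cexp (((v₁ * lN 𝔞 : ℝ) : ℂ) * I) * ph 𝔞 t := by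
        unfold ph lN
        rw [← Complex.exp_add]
        congr 1
        push_cast
        ring
      simp only [hF₂, hG₂, zero_mul, Real.exp_zero, mul_one]
      rw [e2]
      ring
  have hcoef : ∀ 𝔞 ∈ SI K (M₁ * M₂), ‖bc lN F₂ F₁ 𝔞‖ ^ 2 =
      ‖bc lN G₂ G₁ 𝔞‖ ^ 2 * Real.exp (-((1 + 2 * δ) * lN 𝔞)) := by
    intro 𝔞 _
    rw [hF₁, hF₂, bc_extract lN G₂ G₁ (1 / 2 + δ) 𝔞, norm_mul, mul_pow, Complex.norm_real,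
      Real.norm_of_nonneg (Real.exp_pos _).le, ← Real.exp_nat_mul, mul_comm]
    congr 2
    push_cast
    ring
  have hsum : ∑ 𝔞 ∈ SI K (M₁ * M₂), ‖bc lN F₂ F₁ 𝔞‖ ^ 2 ≤ C * (1 + R * |v₁|) ^ k := by
    rw [Finset.sum_congr rfl hcoef]
    refine hC (1 + 2 * δ) R hR (by linarith) (by linarith) ?_ v₁ _ fun 𝔞 h𝔞 => SI_ne h𝔞
    rw [div_le_iff₀ hR]
    nlinarith
  have hJ : JJ E (fun lam => Dp φ R M₁ ψ₀ lam) (fun lam => Mp θ R M₂ ψ₀ lam)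
      (1 / 2 + δ - c / R) (1 / 2 + δ) H t₀ v₁ = ENNReal.ofReal (∑ lam ∈ E, ∫ t in t₀..(t₀ + H),
        ‖∑ 𝔞 ∈ SI K (M₁ * M₂), bc lN F₂ F₁ 𝔞 * pr ψ₀ lam 𝔞 * ph 𝔞 t‖ ^ 2) := by
    unfold JJ
    rw [ENNReal.ofReal_sum_of_nonneg]
    · refine Finset.sum_congr rfl fun lam _ => ?_
      rw [intervalIntegral.integral_of_le (by linarith), ← integral_Icc_eq_integral_Ioc,
        ofReal_integral_eq_lintegral_ofReal ?_ (Eventually.of_forall fun t => by positivity)]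
      · refine lintegral_congr fun t => ?_
        rw [← hprod lam t, norm_mul, mul_pow]
      · have hc : Continuous fun t : ℝ =>
            ‖∑ 𝔞 ∈ SI K (M₁ * M₂), bc lN F₂ F₁ 𝔞 * pr ψ₀ lam 𝔞 * ph 𝔞 t‖ ^ 2 := by
          unfold ph
          fun_prop
        exact hc.integrableOn_Icc
    · intro lam _
      exact intervalIntegral.integral_nonneg (by linarith) fun t _ => by positivity
  rw [hJ]
  refine ENNReal.ofReal_le_ofReal ?_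
  refine (hls _ t₀).trans ?_
  rw [mul_assoc]
  exact mul_le_mul_of_nonneg_left hsum hP

end

end Pool.Agent.N786.D
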