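import Pool.Agent.N786.Goo
import Pool.Agent.R399.TW.Gauss

/-!
# The functional equation across the critical line (owner helper786)
-/

set_option autoImplicit false
set_option linter.unusedSectionVars false

open Complex Filter Topology MeasureTheory Set
open H370.DL (logDeriv_Gammaℝ_bound)
open Pool.Agent.Y767 (GGn FEn)

namespace Pool.Agent.N786.D

open Pool.Agent.R399.TW (pt)

/-- growth from the logarithmic derivative -/
lemma ratio_of_logDeriv {f : ℂ → ℂ} {y a b B : ℝ} (hab : a ≤ b)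
    (hf : ∀ x ∈ Icc a b, DifferentiableAt ℂ f (x + y * I) ∧ f (x + y * I) ≠ 0)
    (hB : ∀ x ∈ Icc a b, (logDeriv f (x + y * I)).re ≤ B) :
    ‖f (b + y * I)‖ ≤ Real.exp (B * (b - a)) * ‖f (a + y * I)‖ := by
  set g : ℝ → ℝ := fun x => Real.log (‖f (x + y * I)‖ ^ 2) - 2 * B * x with hg
  have hne : ∀ x ∈ Icc a b, ‖f (x + y * I)‖ ^ 2 ≠ 0 := fun x hx => by
    have := (hf x hx).2
    positivity
  have hder : ∀ x ∈ Icc a b, HasDerivAt g (2 * (logDeriv f (x + y * I)).re - 2 * B) x := by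
    intro x hx
    have h1 : HasDerivAt (fun x : ℝ => ((x : ℂ) + y * I)) 1 x :=
      (Complex.ofRealCLM.hasDerivAt (x := x)).add_const _
    have h2 : HasDerivAt (fun x : ℝ => f (x + y * I)) (deriv f (x + y * I) * 1) x :=
      (hf x hx).1.hasDerivAt.comp_of_eq x h1 rfl
    rw [mul_one] at h2
    have h3 := h2.norm_sq
    have h4 := (h3.log (hne x hx)).sub ((hasDerivAt_id x).const_mul (2 * B))
    refine h4.congr_deriv ?_
    rw [mul_one]
    congr 1
    rw [logDeriv_apply, Complex.inner]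
    obtain ⟨w, hw⟩ : ∃ w : ℂ, w = f (x + y * I) := ⟨_, rfl⟩
    obtain ⟨d, hd⟩ : ∃ d : ℂ, d = deriv f (x + y * I) := ⟨_, rfl⟩
    have hw0 : w ≠ 0 := by rw [hw]; exact (hf x hx).2
    rw [← hw, ← hd]
    rw [Complex.div_re, ← Complex.normSq_eq_norm_sq]
    have hn0 : Complex.normSq w ≠ 0 := by
      rw [Ne, Complex.normSq_eq_zero]; exact hw0
    simp only [Complex.mul_re, Complex.conj_re, Complex.conj_im]
    field_simp
    ring
  have hanti : AntitoneOn g (Icc a b) := by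
    refine antitoneOn_of_deriv_nonpos (convex_Icc a b) ?_ ?_ ?_
    · exact fun x hx => (hder x hx).continuousAt.continuousWithinAt
    · rw [interior_Icc]
      exact fun x hx => (hder x ⟨hx.1.le, hx.2.le⟩).differentiableAt.differentiableWithinAt
    · rw [interior_Icc]
      intro x hx
      rw [(hder x ⟨hx.1.le, hx.2.le⟩).deriv]
      linarith [hB x ⟨hx.1.le, hx.2.le⟩]
  have h5 := hanti (left_mem_Icc.mpr hab) (right_mem_Icc.mpr hab) hab
  simp only [hg] at h5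
  have ha0 : 0 < ‖f (a + y * I)‖ := norm_pos_iff.mpr (hf a (left_mem_Icc.mpr hab)).2
  have hb0 : 0 < ‖f (b + y * I)‖ := norm_pos_iff.mpr (hf b (right_mem_Icc.mpr hab)).2
  rw [Real.log_pow, Real.log_pow] at h5
  push_cast at h5
  rw [← Real.log_le_log_iff hb0 (by positivity), Real.log_mul (Real.exp_pos _).ne' ha0.ne',
    Real.log_exp]
  linarith

lemma Gammaℝ_diffAt {s : ℂ} (hs : 0 < s.re) : DifferentiableAt ℂ Gammaℝ s := by
  have h1 : AnalyticAt ℂ (fun s ↦ (Gammaℝ s)⁻¹) s := by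
    rw [analyticAt_iff_eventually_differentiableAt]
    exact Filter.Eventually.of_forall fun z => differentiable_Gammaℝ_inv z
  have h2 := h1.inv (inv_ne_zero (Gammaℝ_ne_zero_of_re_pos hs))
  have h3 : AnalyticAt ℂ Gammaℝ s := by simpa [Pi.inv_def] using h2
  exact h3.differentiableAt

/-- the ratio of values of `Γ_ℝ` -/
lemma gam_ratio : ∃ c : ℝ, 1 ≤ c ∧ ∀ (e : ℕ), e ≤ 1 → ∀ δ : ℝ, 0 < δ → δ ≤ 1 / 4 → ∀ y : ℝ,
    ‖Gammaℝ (((1 / 2 + δ + e : ℝ) : ℂ) + y * I)‖ ≤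
      c * (1 + |y|) ^ δ * ‖Gammaℝ (((1 / 2 - δ + e : ℝ) : ℂ) + y * I)‖ := by
  obtain ⟨C, hC0, hC⟩ := logDeriv_Gammaℝ_bound
  have hre : ∀ x y : ℝ, ((x : ℂ) + y * I).re = x := fun x y => by simp
  have him : ∀ x y : ℝ, ((x : ℂ) + y * I).im = y := fun x y => by simp
  -- small ordinates
  have hcont : ContinuousOn (fun q : ℝ × ℝ => ‖Gammaℝ ((q.1 : ℂ) + q.2 * I)‖)
      (Icc (1 / 4) 2 ×ˢ Icc (-1) 1) := by
    intro q hq
    have h1 : 0 < ((q.1 : ℂ) + q.2 * I).re := by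
      rw [hre]
      linarith [hq.1.1]
    have h2 := Gammaℝ_diffAt h1
    have h3 : ContinuousAt (fun q : ℝ × ℝ => Gammaℝ ((q.1 : ℂ) + q.2 * I)) q :=
      ContinuousAt.comp (f := fun q : ℝ × ℝ => ((q.1 : ℂ) + q.2 * I)) (g := Gammaℝ)
        h2.continuousAt (by fun_prop)
    exact h3.norm.continuousWithinAt
  have hK : IsCompact (Icc (1 / 4 : ℝ) 2 ×ˢ Icc (-1 : ℝ) 1) := isCompact_Icc.prod isCompact_Icc
  obtain ⟨M, hM⟩ := hK.exists_bound_of_continuousOn hcont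
  obtain ⟨q₀, hq₀, hmin⟩ := hK.exists_isMinOn ⟨(1, 0), by constructor <;> constructor <;> norm_num⟩
    hcont
  obtain ⟨m, hm⟩ : ∃ m : ℝ, m = ‖Gammaℝ ((q₀.1 : ℂ) + q₀.2 * I)‖ := ⟨_, rfl⟩
  have hm0 : 0 < m := by
    rw [hm]
    refine norm_pos_iff.mpr (Gammaℝ_ne_zero_of_re_pos ?_)
    rw [hre]
    linarith [hq₀.1.1]
  refine ⟨max (max 1 (M / m)) (Real.exp C), le_max_of_le_left (le_max_left _ _), ?_⟩
  intro e he δ hδ0 hδ1 y
  have he1 : (e : ℝ) ≤ 1 := by exact_mod_cast he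
  have he0 : (0 : ℝ) ≤ e := Nat.cast_nonneg e
  have h1y : 1 ≤ (1 + |y|) ^ δ := Real.one_le_rpow (by linarith [abs_nonneg y]) hδ0.le
  rcases le_total |y| 1 with hy | hy
  · have hy' := abs_le.mp hy
    have m1 : ((1 / 2 + δ + e, y) : ℝ × ℝ) ∈ Icc (1 / 4 : ℝ) 2 ×ˢ Icc (-1 : ℝ) 1 :=
      ⟨⟨by simp only; linarith, by simp only; linarith⟩, ⟨hy'.1, hy'.2⟩⟩
    have m2 : ((1 / 2 - δ + e, y) : ℝ × ℝ) ∈ Icc (1 / 4 : ℝ) 2 ×ˢ Icc (-1 : ℝ) 1 :=
      ⟨⟨by simp only; linarith, by simp only; linarith⟩, ⟨hy'.1, hy'.2⟩⟩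
    have b1 := hM _ m1
    have b2 := hmin m2
    simp only [norm_norm, mem_setOf_eq] at b1 b2
    rw [← hm] at b2
    have b3 : M ≤ M / m * ‖Gammaℝ (((1 / 2 - δ + e : ℝ) : ℂ) + y * I)‖ := by
      have hM0 : 0 ≤ M := le_trans (norm_nonneg _) b1
      calc M = M / m * m := by field_simp
        _ ≤ _ := mul_le_mul_of_nonneg_left b2 (by positivity)
    refine (b1.trans b3).trans ?_
    refine mul_le_mul_of_nonneg_right ?_ (norm_nonneg _)
    refine le_trans ?_ (le_mul_of_one_le_right (by positivity) h1y)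
    exact le_max_of_le_left (le_max_right _ _)
  · have hB : ∀ x ∈ Icc (1 / 2 - δ + e) (1 / 2 + δ + e), (logDeriv Gammaℝ ((x : ℂ) + y * I)).re ≤
        1 / 2 * Real.log |y| + C := by
      intro x hx
      have h1 := hC ((x : ℂ) + y * I) (by rw [hre]; linarith [hx.1]) (by rw [hre]; linarith [hx.2])
        (by rw [him]; exact hy)
      rw [him] at h1
      have h2 := (Complex.re_le_norm _).trans h1
      have e1 : (logDeriv Gammaℝ ((x : ℂ) + y * I) - 1 / 2 * ((Real.log |y| : ℝ) : ℂ)).re =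
          (logDeriv Gammaℝ ((x : ℂ) + y * I)).re - 1 / 2 * Real.log |y| := by
        have : (1 / 2 * ((Real.log |y| : ℝ) : ℂ)) = ((1 / 2 * Real.log |y| : ℝ) : ℂ) := by
          push_cast; ring
        rw [this, Complex.sub_re, Complex.ofReal_re]
      rw [e1] at h2
      linarith
    have h3 := ratio_of_logDeriv (f := Gammaℝ) (y := y) (a := 1 / 2 - δ + e)
      (b := 1 / 2 + δ + e) (by linarith) (fun x hx => by
        have h4 : 0 < ((x : ℂ) + y * I).re := by rw [hre]; linarith [hx.1]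
        exact ⟨Gammaℝ_diffAt h4, Gammaℝ_ne_zero_of_re_pos h4⟩) hB
    refine h3.trans (mul_le_mul_of_nonneg_right ?_ (norm_nonneg _))
    have e2 : (1 / 2 * Real.log |y| + C) * (1 / 2 + δ + e - (1 / 2 - δ + e)) =
        Real.log |y| * δ + C * (2 * δ) := by ring
    rw [e2, Real.exp_add, ← Real.rpow_def_of_pos (by linarith)]
    have e3 : |y| ^ δ ≤ (1 + |y|) ^ δ :=
      Real.rpow_le_rpow (abs_nonneg y) (by linarith) hδ0.le
    have e4 : Real.exp (C * (2 * δ)) ≤ max (max 1 (M / m)) (Real.exp C) := by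
      refine le_max_of_le_right (Real.exp_le_exp.mpr ?_)
      nlinarith
    rw [mul_comm]
    exact mul_le_mul e4 e3 (by positivity) (le_trans (Real.exp_pos _).le e4)

/-- **the functional equation, in absolute value** -/
theorem fe_bound : ∃ c : ℝ, 1 ≤ c ∧ ∀ {ι : Type} [Fintype ι] {R : ℝ} (_ : 0 < R) {e : ι → ℕ}
    {ν : ι → ℝ} {F : ℂ → ℂ} (_ : FEn R e ν F) {δ : ℝ} (_ : 0 < δ) (_ : δ ≤ 1 / 4) (τ : ℝ),
    ‖F (pt (1 / 2 - δ) τ)‖ ≤ c ^ Fintype.card ι * R ^ δ * (∏ i, (1 + |τ + ν i|) ^ δ) *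
      ‖F (pt (1 / 2 + δ) τ)‖ := by
  obtain ⟨c, hc, hg⟩ := gam_ratio
  refine ⟨c, hc, ?_⟩
  intro ι _ R hR e ν F hF δ hδ0 hδ1 τ
  have hcF : Continuous F := hF.diff.continuous
  have hclosed : IsClosed {τ : ℝ | ‖F (pt (1 / 2 - δ) τ)‖ ≤ c ^ Fintype.card ι * R ^ δ *
      (∏ i, (1 + |τ + ν i|) ^ δ) * ‖F (pt (1 / 2 + δ) τ)‖} := by
    refine isClosed_le ?_ ?_
    · unfold pt; fun_prop
    · refine Continuous.mul (Continuous.mul continuous_const ?_) (by unfold pt; fun_prop)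
      refine continuous_finset_prod _ fun i _ => ?_
      refine Continuous.rpow_const (by fun_prop) fun x => Or.inl ?_
      have := abs_nonneg (x + ν i)
      positivity
  have hdense : Dense {τ : ℝ | ∀ i, τ + ν i ≠ 0} := by
    have h1 : {τ : ℝ | ∀ i, τ + ν i ≠ 0} = (Set.range fun i => -ν i)ᶜ := by
      ext x
      simp only [mem_setOf_eq, mem_compl_iff, mem_range, not_exists]
      constructor
      · intro h i hi
        exact h i (by rw [← hi]; ring)
      · intro h i hi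
        exact h i (by linarith)
    rw [h1]
    exact (Set.finite_range _).countable.dense_compl ℝ
  have hsub : {τ : ℝ | ∀ i, τ + ν i ≠ 0} ⊆ {τ : ℝ | ‖F (pt (1 / 2 - δ) τ)‖ ≤
      c ^ Fintype.card ι * R ^ δ * (∏ i, (1 + |τ + ν i|) ^ δ) * ‖F (pt (1 / 2 + δ) τ)‖} := by
    intro x hx
    simp only [mem_setOf_eq] at hx ⊢
    obtain ⟨w, hw, hfe⟩ := hF.fe
    have him : ∀ r : ℝ, (pt r x).im = x := fun r => by unfold pt; simp
    have h1 := hfe (pt (1 / 2 - δ) x) (by rw [him]; exact hx)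
    have h2 : 1 - (starRingEnd ℂ) (pt (1 / 2 - δ) x) = pt (1 / 2 + δ) x := by
      apply Complex.ext
      · simp only [Complex.sub_re, Complex.one_re, Complex.conj_re]
        unfold pt
        simp
        ring
      · simp only [Complex.sub_im, Complex.one_im, Complex.conj_im]
        unfold pt
        simp
    rw [h2] at h1
    have h3 := congrArg norm h1
    rw [norm_mul, norm_mul, hw, one_mul, RCLike.norm_conj, norm_mul] at h3
    have hG : ∀ r : ℝ, ‖GGn R e ν (pt r x)‖ = R ^ (r / 2) *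
        ∏ i, ‖Gammaℝ (((r + e i : ℝ) : ℂ) + ((x + ν i : ℝ) : ℂ) * I)‖ := by
      intro r
      unfold GGn
      rw [norm_mul, _root_.norm_prod, Complex.norm_cpow_eq_rpow_re_of_pos hR]
      congr 1
      · congr 1
        unfold pt
        simp
      · refine Finset.prod_congr rfl fun i _ => ?_
        congr 2
        unfold pt
        push_cast
        ring
    have hG2 : ‖GGn R e ν (pt (1 / 2 + δ) x)‖ ≤ (c ^ Fintype.card ι * R ^ δ *
        (∏ i, (1 + |x + ν i|) ^ δ)) * ‖GGn R e ν (pt (1 / 2 - δ) x)‖ := by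
      rw [hG, hG]
      have h4 : ∏ i, ‖Gammaℝ (((1 / 2 + δ + e i : ℝ) : ℂ) + ((x + ν i : ℝ) : ℂ) * I)‖ ≤
          ∏ i, (c * (1 + |x + ν i|) ^ δ *
            ‖Gammaℝ (((1 / 2 - δ + e i : ℝ) : ℂ) + ((x + ν i : ℝ) : ℂ) * I)‖) :=
        Finset.prod_le_prod (fun i _ => norm_nonneg _)
          fun i _ => hg (e i) (hF.he i) δ hδ0 hδ1 (x + ν i)
      rw [Finset.prod_mul_distrib, Finset.prod_mul_distrib, Finset.prod_const,
        Finset.card_univ] at h4
      have h5 : R ^ ((1 / 2 + δ) / 2) = R ^ δ * R ^ ((1 / 2 - δ) / 2) := by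
        rw [← Real.rpow_add hR]
        congr 1
        ring
      rw [h5]
      calc _ ≤ R ^ δ * R ^ ((1 / 2 - δ) / 2) * (c ^ Fintype.card ι * (∏ i, (1 + |x + ν i|) ^ δ) *
            ∏ i, ‖Gammaℝ (((1 / 2 - δ + e i : ℝ) : ℂ) + ((x + ν i : ℝ) : ℂ) * I)‖) :=
            mul_le_mul_of_nonneg_left h4 (by positivity)
        _ = _ := by ring
    have hpos : 0 < ‖GGn R e ν (pt (1 / 2 - δ) x)‖ := by
      rw [hG]
      refine mul_pos (by positivity) (Finset.prod_pos fun i _ => norm_pos_iff.mpr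
        (Gammaℝ_ne_zero_of_re_pos ?_))
      have he0 : (0 : ℝ) ≤ e i := Nat.cast_nonneg _
      have h6 : ((((1 / 2 - δ + e i : ℝ)) : ℂ) + ((x + ν i : ℝ) : ℂ) * I).re =
          1 / 2 - δ + e i := by simp
      rw [h6]
      linarith
    rw [← mul_le_mul_iff_right₀ hpos, h3]
    calc ‖GGn R e ν (pt (1 / 2 + δ) x)‖ * ‖F (pt (1 / 2 + δ) x)‖ ≤
        (c ^ Fintype.card ι * R ^ δ * (∏ i, (1 + |x + ν i|) ^ δ)) *
          ‖GGn R e ν (pt (1 / 2 - δ) x)‖ * ‖F (pt (1 / 2 + δ) x)‖ :=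
          mul_le_mul_of_nonneg_right hG2 (norm_nonneg _)
      _ = _ := by ring
  have h := hdense.closure_eq ▸ hclosed.closure_subset_iff.mpr hsub
  exact h (mem_univ τ)

end Pool.Agent.N786.D
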