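import Pool.Agent.N786.D.Gra

/-!
# Growth of the L-functions of Hecke characters (owner helper786)
-/

set_option autoImplicit false
set_option linter.unusedSectionVars false

open NumberField NumberField.Units Complex Filter Topology MeasureTheory Set
open Pool.Agent.Y767 (GGn FEn)

namespace Pool.Agent.N786.D

open Pool.Agent.N786
open Pool.Agent.Y773 (TPos LI VM cc sg)
open Pool.Agent.Y767
open Pool.Agent.Y772.HC
open Pool.Agent.R399.TW (pt)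

/-- the L-function `F` of a primitive Hecke character `ψ` of conductor `𝔪` and type `ν` -/
structure IsLf (K : Type) [Field K] [NumberField K] (𝔪 : Ideal (𝓞 K)) (ν : InfinitePlace K → ℝ)
    (ψ : Ideal (𝓞 K) →*₀ ℂ) (F : ℂ → ℂ) : Prop where
  top : 𝔪 ≠ ⊤
  sum0 : ∑ w, ν w = 0
  hk : IsHecke K 𝔪 ν ψ
  diff : Differentiable ℂ F
  ser : ∀ s : ℂ, 1 < s.re → F s = LI ψ s

section

variable (K : Type) [Field K] [NumberField K] [IsTotallyReal K]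

/-- growth and functional equation -/
theorem grow_all : ∃ A : ℝ, 1 ≤ A ∧ ∀ (𝔪 : Ideal (𝓞 K)) (ν : InfinitePlace K → ℝ)
    (ψ : Ideal (𝓞 K) →*₀ ℂ) (F : ℂ → ℂ), IsLf K 𝔪 ν ψ F → ∀ V : ℝ, 0 ≤ V → (∀ w, |ν w| ≤ V) →
    (∀ s : ℂ, 1 / 16 ≤ s.re → ‖F s‖ ≤
      A * Ideal.absNorm 𝔪 * (2 + V + |s.im|) ^ Module.finrank ℚ K) ∧
    (∀ s : ℂ, 3 / 2 ≤ s.re → ‖F s‖ ≤ A) ∧
    (∀ s : ℂ, 2 ≤ s.re → A⁻¹ ≤ ‖F s‖) ∧
    (∀ δ : ℝ, 0 < δ → δ ≤ 1 / 4 → ∀ τ : ℝ, ‖F (pt (1 / 2 - δ) τ)‖ ≤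
      A * (Ideal.absNorm 𝔪 * (1 + V + |τ|) ^ Module.finrank ℚ K) ^ δ *
        ‖F (pt (1 / 2 + δ) τ)‖) := by
  obtain ⟨A₀, hA₀, hD⟩ := Pool.Agent.Y772.DK.t_dirK K
  obtain ⟨c, hc, hfe⟩ := fe_bound
  obtain ⟨Nd, hNd⟩ : ∃ Nd : ℝ, Nd = (Ideal.absNorm (differentIdeal ℤ (𝓞 K)) : ℝ) := ⟨_, rfl⟩
  have hdN : 1 ≤ Nd := by
    rw [hNd]
    exact one_le_norm differentIdeal_ne_bot
  obtain ⟨n, hn⟩ : ∃ n : ℕ, n = Module.finrank ℚ K := ⟨_, rfl⟩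
  have h6 : (1 : ℝ) ≤ 6 ^ n := one_le_pow₀ (by norm_num)
  have hcn : (1 : ℝ) ≤ c ^ n := one_le_pow₀ hc
  have hA1 : A₀ ≤ A₀ * Nd * 6 ^ n * c ^ n := by
    have h1 : A₀ ≤ A₀ * Nd := le_mul_of_one_le_right (by linarith) hdN
    have h2 : A₀ * Nd ≤ A₀ * Nd * 6 ^ n := le_mul_of_one_le_right (by positivity) h6
    have h3 : A₀ * Nd * 6 ^ n ≤ A₀ * Nd * 6 ^ n * c ^ n :=
      le_mul_of_one_le_right (by positivity) hcn
    linarith
  refine ⟨A₀ * Nd * 6 ^ n * c ^ n, hA₀.trans hA1, ?_⟩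
  intro 𝔪 ν ψ F h V hV hν
  have h𝔪1 : (1 : ℝ) ≤ (Ideal.absNorm 𝔪 : ℝ) := one_le_norm h.hk.ne_bot
  have hcard : Fintype.card (InfinitePlace K) = n := by rw [card_places, hn]
  obtain ⟨e₀, he₀, hM⟩ := h.hk.toIsHM.isModK h.sum0 h.top
  have hψ1 : ∀ 𝔞, ‖ψ 𝔞‖ ≤ 1 := hM.norm_le_one
  obtain ⟨d1, d2, d3, d4, d5, d6, d7, -, d8, d9, -⟩ := hD ψ hψ1
  obtain ⟨e, G, hG, hGL⟩ := h.hk.fe h.sum0 h.top
  have hFG : F = G := eq_of_LI h.diff hG.diff (fun s hs => by rw [h.ser s hs, hGL s hs])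
  rw [← hFG] at hG
  have hR : (0 : ℝ) < ((Ideal.absNorm 𝔪 * Ideal.absNorm (differentIdeal ℤ (𝓞 K)) : ℕ) : ℝ) := by
    push_cast
    rw [← hNd]
    nlinarith
  have hRe : ((Ideal.absNorm 𝔪 * Ideal.absNorm (differentIdeal ℤ (𝓞 K)) : ℕ) : ℝ) =
      Nd * (Ideal.absNorm 𝔪 : ℝ) := by
    rw [hNd]; push_cast; ring
  have hB : ∀ s : ℂ, 3 / 2 ≤ s.re → ‖F s‖ ≤ A₀ := fun s h1 => by
    rw [h.ser _ (by linarith)]
    exact d5 _ h1
  refine ⟨?_, fun s hs => (hB s hs).trans hA1, ?_, ?_⟩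
  · intro s hs
    obtain ⟨S, hS⟩ : ∃ S : ℝ, S = s.im - 1 := ⟨_, rfl⟩
    have hsh := hG.shift hR S
    rw [hRe] at hsh
    have hνV : ∀ w, |(fun w => -ν w + S) w| ≤ V + (1 + |s.im|) := fun w => by
      simp only
      refine (abs_add_le _ _).trans ?_
      rw [abs_neg]
      have h1 := hν w
      have h2 : |S| ≤ |s.im| + 1 := by
        rw [hS]
        refine (abs_sub _ _).trans ?_
        rw [abs_one]
      linarith
    have g1 := F_grow2 hdN h𝔪1 hA₀ (by positivity : (0 : ℝ) ≤ V + (1 + |s.im|)) hνV hsh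
      (fun z hz => hB _ (by simpa using hz)) (s - (S : ℂ) * I) (by simpa using hs)
      (by simp [hS])
    have e1 : s - (S : ℂ) * I + (S : ℂ) * I = s := by ring
    have e2 : (s - (S : ℂ) * I).im = 1 := by simp [hS]
    rw [e1, e2, one_pow, mul_one, hcard] at g1
    rw [← hn]
    refine g1.trans ?_
    have e3 : 1 + (V + (1 + |s.im|)) = 2 + V + |s.im| := by ring
    rw [e3]
    calc A₀ * Nd * (2 + V + |s.im|) ^ n * 6 ^ n * (Ideal.absNorm 𝔪 : ℝ) =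
        A₀ * Nd * 6 ^ n * 1 * Ideal.absNorm 𝔪 * (2 + V + |s.im|) ^ n := by ring
      _ ≤ _ := by gcongr
  · intro s hs
    rw [h.ser _ (by linarith)]
    refine le_trans ?_ (d6 _ hs)
    exact inv_anti₀ (by linarith) hA1
  · intro δ hδ0 hδ1 τ
    refine (hfe hR hG hδ0 hδ1 τ).trans (mul_le_mul_of_nonneg_right ?_ (norm_nonneg _))
    rw [hcard, hRe, ← hn]
    have h1 : ∏ w, (1 + |τ + -ν w|) ^ δ ≤ (1 + V + |τ|) ^ (n * δ) := by
      refine (Finset.prod_le_prod (fun w _ => by positivity) fun w _ =>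
        (Real.rpow_le_rpow (by positivity) (?_ : 1 + |τ + -ν w| ≤ 1 + V + |τ|) hδ0.le)).trans ?_
      · have h2 := abs_add_le τ (-ν w)
        rw [abs_neg] at h2
        linarith [hν w]
      · rw [Finset.prod_const, Finset.card_univ, hcard, ← Real.rpow_natCast,
          ← Real.rpow_mul (by positivity), mul_comm δ]
    have h3 : (Nd * (Ideal.absNorm 𝔪 : ℝ)) ^ δ ≤ Nd * (Ideal.absNorm 𝔪 : ℝ) ^ δ := by
      rw [Real.mul_rpow (by linarith) (by linarith)]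
      refine mul_le_mul_of_nonneg_right ?_ (by positivity)
      calc Nd ^ δ ≤ Nd ^ (1 : ℝ) := Real.rpow_le_rpow_of_exponent_le hdN (by linarith)
        _ = Nd := Real.rpow_one _
    have h4 : ((Ideal.absNorm 𝔪 : ℝ) * (1 + V + |τ|) ^ n) ^ δ =
        (Ideal.absNorm 𝔪 : ℝ) ^ δ * (1 + V + |τ|) ^ (n * δ) := by
      rw [Real.mul_rpow (by linarith) (by positivity), ← Real.rpow_natCast,
        ← Real.rpow_mul (by positivity)]
    rw [h4]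
    calc c ^ n * (Nd * (Ideal.absNorm 𝔪 : ℝ)) ^ δ * ∏ w, (1 + |τ + -ν w|) ^ δ ≤
        c ^ n * (Nd * (Ideal.absNorm 𝔪 : ℝ) ^ δ) * (1 + V + |τ|) ^ (n * δ) := by gcongr
      _ = 1 * Nd * 1 * c ^ n * ((Ideal.absNorm 𝔪 : ℝ) ^ δ * (1 + V + |τ|) ^ (n * δ)) := by ring
      _ ≤ _ := by gcongr

end

end Pool.Agent.N786.D
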