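import Pool.Agent.N786.D.Sup2

/-!
# The iteration (owner helper786)
-/

set_option autoImplicit false

namespace Pool.Agent.N786.D

open MeasureTheory Set Filter Topology Complex

variable {ι : Type} {I : Finset ι} {L Dd Mo : ι → ℂ → ℂ} {T H R δ P a c₀ s₀ : ℝ} {n k B : ℕ}

/-- **The mollified mean square at distance `δ` from the critical line** -/
theorem SH.bound (h : SH I L Dd Mo T H R δ P a c₀ s₀ n k B) {E : ℕ}
    (hB : k + (n + E) + 2 ≤ 2 * B) {S₀ G X : ℝ} (hS₀ : 0 ≤ S₀) (hG : 0 ≤ G)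
    (hc : 1 ≤ c₀) (hX : 1 ≤ X)
    (triv : ∀ t₀ v₀ : ℝ, JJ I L Mo (1 / 2 + δ) (1 / 2 + δ) H t₀ v₀ ≤
      ENNReal.ofReal (P * S₀ * wt T R k E t₀ v₀))
    (far : ∀ t₀ v₀ : ℝ, X < (1 + |t₀| / T) ^ (2 * ((n : ℝ) * δ)) →
      JJ I L Mo (1 / 2 + δ) (1 / 2 + δ) H t₀ v₀ ≤ ENNReal.ofReal (P * G * wt T R k E t₀ v₀))
    (small : (4 * s₀ ^ 2 * cB B 0 * ((1 + 2 * (R * δ)) ^ k * cB B (k + (n + E)))) *
      (c₀ ^ 2 * Real.exp (2 * (R * δ)) * X) ≤ 1 / 2) (t₀ v₀ : ℝ) :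
    JJ I L Mo (1 / 2 + δ) (1 / 2 + δ) H t₀ v₀ ≤
      ENNReal.ofReal (P * (5 * a + 2 * G + 1) * wt T R k E t₀ v₀) := by
  have hP := h.P0
  have ha := h.a0
  have hR := h.R0
  have hδ := h.δ0
  obtain ⟨Γ, hΓ⟩ : ∃ Γ : ℝ, Γ = 4 * s₀ ^ 2 * cB B 0 * ((1 + 2 * (R * δ)) ^ k *
    cB B (k + (n + E))) := ⟨_, rfl⟩
  obtain ⟨Y, hY⟩ : ∃ Y : ℝ, Y = c₀ ^ 2 * Real.exp (2 * (R * δ)) * X := ⟨_, rfl⟩
  have hΓ0 : 0 ≤ Γ := by
    rw [hΓ]
    have := cB_nn B 0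
    have := cB_nn B (k + (n + E))
    positivity
  have hY1 : 1 ≤ Y := by
    rw [hY]
    have h1 : 1 ≤ Real.exp (2 * (R * δ)) := Real.one_le_exp (by positivity)
    have h2 : 1 ≤ c₀ ^ 2 := one_le_pow₀ hc
    exact one_le_mul_of_one_le_of_one_le (one_le_mul_of_one_le_of_one_le h2 h1) hX
  rw [← hΓ, ← hY] at small
  have hΓ1 : Γ ≤ 1 / 2 := le_trans (le_mul_of_one_le_right hΓ0 hY1) small
  have key : ∀ j : ℕ, ∀ t₀ v₀ : ℝ, JJ I L Mo (1 / 2 + δ) (1 / 2 + δ) H t₀ v₀ ≤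
      ENNReal.ofReal (P * (5 * a + 2 * G + S₀ / 2 ^ j) * wt T R k E t₀ v₀) := by
    intro j
    induction j with
    | zero =>
      intro t v
      refine (triv t v).trans (ENNReal.ofReal_le_ofReal ?_)
      have h1 := wt_one h.T1 hR.le k E t v
      rw [pow_zero, div_one]
      have h2 : P * S₀ ≤ P * (5 * a + 2 * G + S₀) :=
        mul_le_mul_of_nonneg_left (by linarith) hP
      exact mul_le_mul_of_nonneg_right h2 (by linarith)
    | succ j ih =>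
      intro t v
      have h1 := wt_one h.T1 hR.le k E t v
      have hSj : 0 ≤ S₀ / 2 ^ j := by positivity
      have hs : S₀ / 2 ^ (j + 1) = (S₀ / 2 ^ j) / 2 := by rw [pow_succ, div_div]
      rcases lt_or_ge X ((1 + |t| / T) ^ (2 * ((n : ℝ) * δ))) with hcase | hcase
      · refine (far t v hcase).trans (ENNReal.ofReal_le_ofReal ?_)
        have h2 : P * G ≤ P * (5 * a + 2 * G + S₀ / 2 ^ (j + 1)) :=
          mul_le_mul_of_nonneg_left (by rw [hs]; linarith) hP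
        exact mul_le_mul_of_nonneg_right h2 (by linarith)
      · have h3 := h.step hB (S := 5 * a + 2 * G + S₀ / 2 ^ j) (by positivity) ih t v hcase
        refine h3.trans (ENNReal.ofReal_le_ofReal ?_)
        rw [← hΓ]
        have h4 : 2 * a + Γ * (a + c₀ ^ 2 * Real.exp (2 * (R * δ)) * X *
            (5 * a + 2 * G + S₀ / 2 ^ j)) ≤ 5 * a + 2 * G + S₀ / 2 ^ (j + 1) := by
          rw [← hY, hs]
          have h5 : Γ * a ≤ 1 / 2 * a := mul_le_mul_of_nonneg_right hΓ1 ha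
          have h6 : (Γ * Y) * (5 * a + 2 * G + S₀ / 2 ^ j) ≤
              1 / 2 * (5 * a + 2 * G + S₀ / 2 ^ j) :=
            mul_le_mul_of_nonneg_right small (by positivity)
          nlinarith
        exact mul_le_mul_of_nonneg_right (mul_le_mul_of_nonneg_left h4 hP) (by linarith)
  obtain ⟨j, hj⟩ : ∃ j : ℕ, S₀ / 2 ^ j ≤ 1 := by
    obtain ⟨j, hj⟩ := pow_unbounded_of_one_lt S₀ (one_lt_two)
    exact ⟨j, by rw [div_le_one (by positivity)]; exact hj.le⟩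
  refine (key j t₀ v₀).trans (ENNReal.ofReal_le_ofReal ?_)
  have h1 := wt_one h.T1 hR.le k E t₀ v₀
  have h2 : P * (5 * a + 2 * G + S₀ / 2 ^ j) ≤ P * (5 * a + 2 * G + 1) :=
    mul_le_mul_of_nonneg_left (by linarith) hP
  exact mul_le_mul_of_nonneg_right h2 (by linarith)

end Pool.Agent.N786.D
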