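import Pool.Agent.N786.D.Ser
import Pool.Agent.N786.D.Sup3
import Pool.Agent.N786.D.Gro

/-!
# The mollified mean square near the critical line (owner helper786)
-/

set_option autoImplicit false
set_option linter.unusedSectionVars false

open NumberField NumberField.Units MeasureTheory Complex Filter Topology Set

namespace Pool.Agent.N786.D

open Pool.Agent.N786
open Pool.Agent.Y773 (LI)
open Pool.Agent.Y767
open Pool.Agent.Y772.DK (nr nr_nonneg nr_summable LA term_summable LA_le absNorm_pos')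
open Pool.Agent.R399.TW (pt pt_re pt_im pt_cont)

/-- the analytic input: growth and functional equation -/
structure GLf {K : Type} [Field K] [NumberField K] (A T R : ℝ) (n : ℕ) (χ : Ideal (𝓞 K) →*₀ ℂ)
    (F : ℂ → ℂ) : Prop where
  diff : Differentiable ℂ F
  ser : ∀ s : ℂ, 1 < s.re → F s = LI χ s
  le1 : ∀ 𝔞, ‖χ 𝔞‖ ≤ 1
  gr : ∀ s : ℂ, 1 / 16 ≤ s.re → ‖F s‖ ≤ A * Real.exp R * (1 + |s.im| / T) ^ n
  big : ∀ s : ℂ, 3 / 2 ≤ s.re → ‖F s‖ ≤ A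
  low : ∀ s : ℂ, 2 ≤ s.re → A⁻¹ ≤ ‖F s‖
  fe : ∀ δ : ℝ, 0 < δ → δ ≤ 1 / 4 → ∀ τ : ℝ, ‖F (pt (1 / 2 - δ) τ)‖ ≤
    A * Real.exp (R * δ) * (1 + |τ| / T) ^ ((n : ℝ) * δ) * ‖F (pt (1 / 2 + δ) τ)‖

section

variable {K : Type} [Field K] [NumberField K]

lemma dpo_bdd (M : ℕ) (g : Ideal (𝓞 K) → ℂ) (χ : Ideal (𝓞 K) →*₀ ℂ) :
    ∃ G : ℝ, 0 ≤ G ∧ ∀ s : ℂ, 0 ≤ s.re → ‖dpo M g χ s‖ ≤ G := by
  refine ⟨∑ 𝔞 ∈ SI K M, ‖g 𝔞 * χ 𝔞‖, Finset.sum_nonneg fun _ _ => norm_nonneg _, fun s hs => ?_⟩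
  unfold dpo
  refine (norm_sum_le _ _).trans (Finset.sum_le_sum fun 𝔞 _ => ?_)
  rw [norm_mul, Complex.norm_exp]
  refine mul_le_of_le_one_right (norm_nonneg _) ?_
  rw [Real.exp_le_one_iff]
  have h1 : (-(s * (lN 𝔞 : ℂ))).re = -(s.re * lN 𝔞) := by simp
  rw [h1]
  have := mul_nonneg hs (lN_nonneg 𝔞)
  linarith

/-- a uniform bound for the mollifier -/
lemma Mp_le {β₁ β₂ : ℝ} {θ : ℝ → ℝ} (hθ : Cutf β₁ β₂ θ) {R : ℝ} {ψ₀ lam : Ideal (𝓞 K) →*₀ ℂ}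
    (h1 : ∀ 𝔞, ‖pr ψ₀ lam 𝔞‖ ≤ 1) {s : ℂ} (hs : 1 / 2 ≤ s.re) :
    ‖Mp θ R ⌊Real.exp (β₂ * R)⌋₊ ψ₀ lam s‖ ≤ Real.exp (β₂ * R) * ZK K := by
  unfold Mp dpo
  refine (norm_sum_le _ _).trans ?_
  have hE : 0 ≤ Real.exp (β₂ * R) := (Real.exp_pos _).le
  have h2 : ∀ 𝔞 ∈ SI K ⌊Real.exp (β₂ * R)⌋₊, ‖mob 𝔞 * (θ (lN 𝔞 / R) : ℂ) * pr ψ₀ lam 𝔞 *
      cexp (-(s * (lN 𝔞 : ℂ)))‖ ≤ Real.exp (β₂ * R) * nr K (3 / 2) 𝔞 := by
    intro 𝔞 h𝔞
    have ha := SI_ne h𝔞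
    have hN : 0 < (Ideal.absNorm 𝔞 : ℝ) := by exact_mod_cast absNorm_pos' ha
    rw [norm_mul, Complex.norm_exp]
    have h3 : ‖mob 𝔞 * (θ (lN 𝔞 / R) : ℂ) * pr ψ₀ lam 𝔞‖ ≤ 1 := by
      rw [norm_mul]
      refine mul_le_one₀ ?_ (norm_nonneg _) (h1 𝔞)
      rw [norm_mul, Complex.norm_real, Real.norm_of_nonneg (hθ.nn _)]
      exact mul_le_one₀ (mob_le 𝔞) (hθ.nn _) (hθ.le _)
    have h4 : (-(s * (lN 𝔞 : ℂ))).re = -(s.re * lN 𝔞) := by simp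
    rw [h4]
    have h5 : Real.exp (-(s.re * lN 𝔞)) ≤ Real.exp (β₂ * R) * nr K (3 / 2) 𝔞 := by
      unfold nr
      rw [Real.rpow_def_of_pos hN, ← Real.exp_add]
      refine Real.exp_le_exp.mpr ?_
      have h6 : lN 𝔞 ≤ β₂ * R := by
        have h7 := (mem_SI.mp h𝔞).2
        have h8 : (Ideal.absNorm 𝔞 : ℝ) ≤ Real.exp (β₂ * R) :=
          le_trans (by exact_mod_cast h7) (Nat.floor_le (Real.exp_pos _).le)
        unfold lN
        rw [Real.log_le_iff_le_exp hN]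
        exact h8
      have h9 := lN_nonneg 𝔞
      have h10 : Real.log (Ideal.absNorm 𝔞 : ℝ) = lN 𝔞 := rfl
      rw [h10]
      nlinarith
    calc _ ≤ 1 * Real.exp (-(s.re * lN 𝔞)) :=
          mul_le_mul_of_nonneg_right h3 (Real.exp_pos _).le
      _ ≤ _ := by rw [one_mul]; exact h5
  refine (Finset.sum_le_sum h2).trans ?_
  rw [← Finset.mul_sum]
  refine mul_le_mul_of_nonneg_left ?_ hE
  exact (nr_summable K (by norm_num)).sum_le_tsum _ fun 𝔞 _ => nr_nonneg K _ 𝔞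

/-- growth of the differences -/
lemma grow_diff {α₁ α₂ : ℝ} {φ : ℝ → ℝ} (hφ : Cutf α₁ α₂ φ) (hα : 0 < α₁) {A T R : ℝ} {n : ℕ}
    (hR : 0 < R) (hT : 1 ≤ T) (hA : 1 ≤ A)
    {ψ₀ lam : Ideal (𝓞 K) →*₀ ℂ} {F : ℂ → ℂ} (h : GLf A T R n (pr ψ₀ lam) F) :
    ∃ G : ℝ, ∀ z : ℂ, 1 / 4 ≤ z.re → ‖Dp φ R ⌊Real.exp (α₂ * R)⌋₊ ψ₀ lam z - F z‖ ≤
      G * (1 + |z.im|) ^ n * Real.exp (-(α₁ * R * z.re)) := by
  obtain ⟨G₀, hG₀, hG⟩ := dpo_bdd ⌊Real.exp (α₂ * R)⌋₊ (fun 𝔞 => (φ (lN 𝔞 / R) : ℂ)) (pr ψ₀ lam)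
  obtain ⟨E, hE⟩ : ∃ E : ℝ, E = Real.exp (α₁ * R * (3 / 2)) := ⟨_, rfl⟩
  have hE0 : 0 < E := by rw [hE]; exact Real.exp_pos _
  have hZ := ZK_nonneg (K := K)
  have hA0 : 0 < A := by linarith
  refine ⟨(ZK K + (G₀ + A * Real.exp R)) * E, fun z hz => ?_⟩
  have hone : 1 ≤ (1 + |z.im|) ^ n := one_le_pow₀ (by linarith [abs_nonneg z.im])
  rcases le_total (3 / 2) z.re with h3 | h3
  · rw [h.ser z (by linarith)]
    refine (D_sub_L hφ hR h.le1 h3).trans ?_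
    have e1 : Real.exp (-(α₁ * R * (z.re - 3 / 2))) = E * Real.exp (-(α₁ * R * z.re)) := by
      rw [hE, ← Real.exp_add]; congr 1; ring
    rw [e1]
    calc E * Real.exp (-(α₁ * R * z.re)) * ZK K = ZK K * E * 1 * Real.exp (-(α₁ * R * z.re)) := by
          ring
      _ ≤ (ZK K + (G₀ + A * Real.exp R)) * E * (1 + |z.im|) ^ n * Real.exp (-(α₁ * R * z.re)) := by
          gcongr
          have : 0 ≤ G₀ + A * Real.exp R := by positivity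
          linarith
  · have e2 : 1 ≤ E * Real.exp (-(α₁ * R * z.re)) := by
      rw [hE, ← Real.exp_add]
      refine Real.one_le_exp ?_
      have : 0 ≤ α₁ * R * (3 / 2 - z.re) := by
        have : 0 ≤ 3 / 2 - z.re := by linarith
        positivity
      linarith
    have e3 := h.gr z (by linarith)
    have e4 : (1 + |z.im| / T) ^ n ≤ (1 + |z.im|) ^ n := by
      refine pow_le_pow_left₀ (by positivity) ?_ n
      have : |z.im| / T ≤ |z.im| := div_le_self (abs_nonneg _) hT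
      linarith
    have e5 := hG z (by linarith)
    calc ‖Dp φ R ⌊Real.exp (α₂ * R)⌋₊ ψ₀ lam z - F z‖ ≤ ‖Dp φ R ⌊Real.exp (α₂ * R)⌋₊ ψ₀ lam z‖ +
          ‖F z‖ := norm_sub_le _ _
      _ ≤ G₀ + A * Real.exp R * (1 + |z.im|) ^ n := by
          refine add_le_add e5 (e3.trans ?_)
          exact mul_le_mul_of_nonneg_left e4 (by positivity)
      _ ≤ G₀ * (1 + |z.im|) ^ n + A * Real.exp R * (1 + |z.im|) ^ n := by
          have := le_mul_of_one_le_right hG₀ hone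
          linarith
      _ = (0 + (G₀ + A * Real.exp R)) * (1 + |z.im|) ^ n * 1 := by ring
      _ ≤ (ZK K + (G₀ + A * Real.exp R)) * (1 + |z.im|) ^ n *
          (E * Real.exp (-(α₁ * R * z.re))) := by gcongr
      _ = _ := by ring

/-- the trivial bound for the mollified mean square -/
lemma JJ_triv {β₁ β₂ : ℝ} {θ : ℝ → ℝ} (hθ : Cutf β₁ β₂ θ) (hβ : β₂ ≤ 1) {A T R H P : ℝ} {n : ℕ}
    (hR : 0 < R) (hT : 1 ≤ T) (hA : 1 ≤ A) (hH : 0 ≤ H) (hHT : H ≤ T)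
    {E : Finset (Ideal (𝓞 K) →*₀ ℂ)} {ψ₀ : Ideal (𝓞 K) →*₀ ℂ} (hP : E.card * H ≤ P)
    {F : (Ideal (𝓞 K) →*₀ ℂ) → ℂ → ℂ} (h : ∀ lam ∈ E, GLf A T R n (pr ψ₀ lam) (F lam)) {δ : ℝ}
    (hδ : 0 < δ) (t₀ v₀ : ℝ) :
    JJ E F (fun lam => Mp θ R ⌊Real.exp (β₂ * R)⌋₊ ψ₀ lam) (1 / 2 + δ) (1 / 2 + δ) H t₀ v₀ ≤
      ENNReal.ofReal (P * (A ^ 2 * 4 ^ n * ZK K ^ 2) * Real.exp (4 * R) *
        (1 + |t₀| / T) ^ (2 * n)) := by
  have hT0 : 0 < T := by linarith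
  have hZ := ZK_nonneg (K := K)
  obtain ⟨B, hB⟩ : ∃ B : ℝ, B = (A ^ 2 * 4 ^ n * ZK K ^ 2) * Real.exp (4 * R) *
    (1 + |t₀| / T) ^ (2 * n) := ⟨_, rfl⟩
  have hB0 : 0 ≤ B := by rw [hB]; positivity
  have hpt : ∀ lam ∈ E, ∀ t ∈ Icc t₀ (t₀ + H), ‖F lam (pt (1 / 2 + δ) t)‖ ^ 2 *
      ‖Mp θ R ⌊Real.exp (β₂ * R)⌋₊ ψ₀ lam (pt (1 / 2 + δ) (t - v₀))‖ ^ 2 ≤ B := by
    intro lam hl t ht
    have h1 := (h lam hl).gr (pt (1 / 2 + δ) t) (by rw [pt_re]; linarith)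
    rw [pt_im] at h1
    have h2 := Mp_le hθ (R := R) (h lam hl).le1 (s := pt (1 / 2 + δ) (t - v₀))
      (by rw [pt_re]; linarith)
    have h3 : 1 + |t| / T ≤ 2 * (1 + |t₀| / T) := by
      have h4 : |t| ≤ |t₀| + T := by
        have : |t - t₀| ≤ T := by
          rw [abs_of_nonneg (by linarith [ht.1])]
          linarith [ht.2]
        have h5 := abs_add_le (t - t₀) t₀
        rw [sub_add_cancel] at h5
        linarith
      have h6 : |t| / T ≤ |t₀| / T + 1 := by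
        rw [div_le_iff₀ hT0, add_mul, div_mul_cancel₀ _ hT0.ne']
        linarith
      have h7 : 0 ≤ |t₀| / T := by positivity
      linarith
    have h8 : ‖F lam (pt (1 / 2 + δ) t)‖ ^ 2 ≤ A ^ 2 * Real.exp (2 * R) * (4 ^ n *
        (1 + |t₀| / T) ^ (2 * n)) := by
      have h9 : ‖F lam (pt (1 / 2 + δ) t)‖ ≤ A * Real.exp R * (2 * (1 + |t₀| / T)) ^ n := by
        refine h1.trans ?_
        gcongr
      refine (pow_le_pow_left₀ (norm_nonneg _) h9 2).trans (le_of_eq ?_)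
      rw [mul_pow, mul_pow, ← Real.exp_nat_mul, ← pow_mul, mul_pow, mul_comm n 2, pow_mul 2]
      norm_num
    have h10 : ‖Mp θ R ⌊Real.exp (β₂ * R)⌋₊ ψ₀ lam (pt (1 / 2 + δ) (t - v₀))‖ ^ 2 ≤
        Real.exp (2 * R) * ZK K ^ 2 := by
      have h11 : Real.exp (β₂ * R) * ZK K ≤ Real.exp R * ZK K := by
        refine mul_le_mul_of_nonneg_right (Real.exp_le_exp.mpr ?_) hZ
        nlinarith
      refine (pow_le_pow_left₀ (norm_nonneg _) (h2.trans h11) 2).trans (le_of_eq ?_)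
      rw [mul_pow, ← Real.exp_nat_mul]
      norm_num
    refine (mul_le_mul h8 h10 (by positivity) (by positivity)).trans (le_of_eq ?_)
    rw [hB]
    have e1 : Real.exp (4 * R) = Real.exp (2 * R) * Real.exp (2 * R) := by
      rw [← Real.exp_add]; congr 1; ring
    rw [e1]
    ring
  unfold JJ
  calc _ ≤ ∑ _lam ∈ E, ENNReal.ofReal (B * H) := by
        refine Finset.sum_le_sum fun lam hl => ?_
        refine (setLIntegral_mono' measurableSet_Icc fun t ht =>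
          ENNReal.ofReal_le_ofReal (hpt lam hl t ht)).trans ?_
        rw [setLIntegral_const, Real.volume_Icc, ← ENNReal.ofReal_mul hB0]
        refine ENNReal.ofReal_le_ofReal (le_of_eq ?_)
        ring
    _ = ENNReal.ofReal (E.card * (B * H)) := by
        rw [Finset.sum_const, nsmul_eq_mul, ENNReal.ofReal_mul (Nat.cast_nonneg _),
          ENNReal.ofReal_natCast]
    _ ≤ _ := by
        refine ENNReal.ofReal_le_ofReal ?_
        calc (E.card : ℝ) * (B * H) = (E.card * H) * B := by ring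
          _ ≤ P * B := mul_le_mul_of_nonneg_right hP hB0
          _ = _ := by rw [hB]; ring

end

end Pool.Agent.N786.D
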