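import Pool.Agent.N786.D.Asm1

/-!
# The mollified mean square at distance `κ/R` from the critical line (owner helper786)
-/

set_option autoImplicit false
set_option linter.unusedSectionVars false

open NumberField NumberField.Units MeasureTheory Complex Filter Topology Set

namespace Pool.Agent.N786.D

open Pool.Agent.N786
open Pool.Agent.Y773 (LI)
open Pool.Agent.Y767
open Pool.Agent.R399.TW (pt pt_re pt_im pt_cont)

/-- existence of the constant `κ` -/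
lemma kappa_exists (c₁ g : ℝ) (k : ℕ) (hc : 0 ≤ c₁) (hg : 0 < g) :
    ∃ κ : ℝ, 1 ≤ κ ∧ c₁ * ((1 + 2 * κ) ^ k * Real.exp (-(g * κ))) ≤ 1 / 2 := by
  have h1 : Tendsto (fun κ : ℝ => c₁ * ((1 + 2 * κ) ^ k * Real.exp (-(g * κ)))) atTop (𝓝 0) := by
    have h2 : Tendsto (fun κ : ℝ => (1 + 2 * κ) ^ k * Real.exp (-(g / 2 * (1 + 2 * κ)))) atTop
        (𝓝 0) := by
      have h3 : Tendsto (fun x : ℝ => x ^ k * Real.exp (-(g / 2 * x))) atTop (𝓝 0) := by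
        have h4 := tendsto_rpow_mul_exp_neg_mul_atTop_nhds_zero (k : ℝ) (g / 2) (by positivity)
        refine h4.congr fun x => ?_
        rw [Real.rpow_natCast]
        congr 2
        ring
      refine h3.comp ?_
      exact tendsto_atTop_add_const_left _ _ (tendsto_id.const_mul_atTop two_pos)
    have h5 := (h2.mul_const (Real.exp (g / 2))).const_mul c₁
    rw [zero_mul, mul_zero] at h5
    refine h5.congr fun κ => ?_
    rw [mul_assoc, ← Real.exp_add]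
    congr 3
    ring
  have h6 : ∀ᶠ κ in atTop, c₁ * ((1 + 2 * κ) ^ k * Real.exp (-(g * κ))) ≤ 1 / 2 := by
    have := h1.eventually (Iio_mem_nhds (show (0 : ℝ) < 1 / 2 by norm_num))
    filter_upwards [this] with κ hκ
    exact (mem_Iio.mp hκ).le
  obtain ⟨κ, h7, h8⟩ := (h6.and (eventually_ge_atTop 1)).exists
  exact ⟨κ, h8, h7⟩

/-- **The mollified mean square near the critical line** -/
theorem mean_near (K : Type) [Field K] [NumberField K] {α' α₁ α₂ β₁ β₂ A : ℝ} {φ θ : ℝ → ℝ}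
    (hφ : Cutf α₁ α₂ φ) (hθ : Cutf β₁ β₂ θ) (hα' : 1 / 2 < α') (hα : α' < α₁) (hα₂ : 0 < α₂)
    (hβ : 0 < β₂) (hβ1 : β₂ ≤ 1) (hA : 1 ≤ A) (n : ℕ) (hn : 1 ≤ n) :
    ∃ (κ a R₀ : ℝ) (k E : ℕ), 1 ≤ κ ∧ 0 ≤ a ∧ 1 ≤ R₀ ∧
    ∀ (R T H P : ℝ) (S : Finset (Ideal (𝓞 K) →*₀ ℂ)) (ψ₀ : Ideal (𝓞 K) →*₀ ℂ)
      (F : (Ideal (𝓞 K) →*₀ ℂ) → ℂ → ℂ), R₀ ≤ R → 1 ≤ T → 0 ≤ H → H ≤ T → S.card * H ≤ P →
      LSP S ψ₀ H P (⌊Real.exp (α₂ * R)⌋₊ * ⌊Real.exp (β₂ * R)⌋₊) →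
      (∀ lam, Continuous (F lam)) → (∀ lam ∈ S, GLf A T R n (pr ψ₀ lam) (F lam)) →
      ∀ t₀ v₀ : ℝ, JJ S F (fun lam => Mp θ R ⌊Real.exp (β₂ * R)⌋₊ ψ₀ lam) (1 / 2 + κ / R)
        (1 / 2 + κ / R) H t₀ v₀ ≤ ENNReal.ofReal (P * a * wt T R k E t₀ v₀) := by
  obtain ⟨k, hk⟩ : ∃ k : ℕ, 32 * (24 * (Module.finrank ℚ K : ℝ)) ≤ k :=
    ⟨32 * (24 * Module.finrank ℚ K), by push_cast; exact le_rfl⟩
  obtain ⟨ε, hε⟩ : ∃ ε : ℝ, ε = 2 * α' - 1 := ⟨_, rfl⟩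
  have hε0 : 0 < ε := by rw [hε]; linarith
  obtain ⟨E₁, hE₁⟩ : ∃ E₁ : ℕ, 8 * (n : ℝ) / ε ≤ E₁ := ⟨_, Nat.le_ceil _⟩
  obtain ⟨E, hE⟩ : ∃ E : ℕ, E = 2 * n + E₁ := ⟨_, rfl⟩
  obtain ⟨B, hB⟩ : ∃ B : ℕ, B = k + (n + E) + 2 := ⟨_, rfl⟩
  obtain ⟨κ, hκ1, hκ⟩ := kappa_exists (4 * cB B 0 * cB B (k + (n + E)) * A ^ 2) ε k (by
    have := cB_nn B 0
    have := cB_nn B (k + (n + E))
    positivity) hε0
  obtain ⟨a₁, ha₁, hls1⟩ := ls_JJ K hφ hθ hα₂ hβ hk 0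
  obtain ⟨a₂, ha₂, hls2⟩ := ls_JJ K hφ hθ hα₂ hβ hk (2 * κ)
  obtain ⟨a, ha⟩ : ∃ a : ℝ, a = a₁ + a₂ := ⟨_, rfl⟩
  obtain ⟨G, hG⟩ : ∃ G : ℝ, G = A ^ 2 * 4 ^ n * ZK K ^ 2 := ⟨_, rfl⟩
  have hG0 : 0 ≤ G := by rw [hG]; positivity
  refine ⟨κ, 5 * a + 2 * G + 1, 4 * κ, k, E, hκ1, by rw [ha]; positivity, by linarith, ?_⟩
  intro R T H P S ψ₀ F hR hT hH hHT hP hls hFc hF
  have hR0 : 0 < R := by linarith
  have hT0 : 0 < T := by linarith
  obtain ⟨δ, hδ⟩ : ∃ δ : ℝ, δ = κ / R := ⟨_, rfl⟩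
  have hδ0 : 0 < δ := by rw [hδ]; positivity
  have hRδ : R * δ = κ := by rw [hδ]; field_simp
  have hδ1 : δ ≤ 1 / 4 := by
    rw [hδ, div_le_iff₀ hR0]
    linarith
  have hP0 : 0 ≤ P := le_trans (by positivity) hP
  rw [← hδ]
  have hα₁ : 0 < α₁ := by linarith
  -- the structure
  obtain ⟨s₀, hs₀⟩ : ∃ s₀ : ℝ, s₀ = Real.exp (-(α' * R * (2 * δ))) := ⟨_, rfl⟩
  have hs2 : s₀ ^ 2 = Real.exp (-(4 * (α' * κ))) := by
    rw [hs₀, ← Real.exp_nat_mul, ← hRδ]; congr 1; push_cast; ring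
  have hSH : SH S F (fun lam => Dp φ R ⌊Real.exp (α₂ * R)⌋₊ ψ₀ lam)
      (fun lam => Mp θ R ⌊Real.exp (β₂ * R)⌋₊ ψ₀ lam) T H R δ P a A s₀ n k B := by
    refine ⟨hT, hH, hHT, hR0, hδ0, by linarith, hP0, by rw [ha]; positivity, by linarith,
      by rw [hs₀]; exact (Real.exp_pos _).le, hFc, fun lam => ?_, fun lam => ?_, ?_, ?_, ?_, ?_⟩
    · exact (dpo_diff _ _ _).continuous
    · exact (dpo_diff _ _ _).continuous
    · intro lam hl τ
      exact (hF lam hl).fe δ hδ0 hδ1 τ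
    · intro t₀ v₁
      have h1 := hls1 R δ hR0 (by linarith) hδ1 S ψ₀ H P hH hP0 hls t₀ v₁
      rw [zero_div, sub_zero] at h1
      refine h1.trans (ENNReal.ofReal_le_ofReal ?_)
      have : a₁ ≤ a := by rw [ha]; linarith
      gcongr
    · intro t₀ v₁
      have h1 := hls2 R δ hR0 (by linarith) hδ1 S ψ₀ H P hH hP0 hls t₀ v₁
      have e1 : 1 / 2 + δ - 2 * κ / R = 1 / 2 - δ := by rw [hδ]; ring
      rw [e1] at h1
      refine h1.trans (ENNReal.ofReal_le_ofReal ?_)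
      have : a₂ ≤ a := by rw [ha]; linarith
      gcongr
    · intro lam hl t
      obtain ⟨G', hG'⟩ := grow_diff (α₂ := α₂) hφ hα₁ hR0 hT hA (hF lam hl)
      have hg : Differentiable ℂ fun z => Dp φ R ⌊Real.exp (α₂ * R)⌋₊ ψ₀ lam z - F lam z :=
        (dpo_diff _ _ _).sub (hF lam hl).diff
      obtain ⟨i1, i2⟩ := cauchy_le (a := 1 / 2 - δ) (μ := α' * R) (lam := α₁ * R) (m := n) (B := B)
        hg (by omega) (by nlinarith) (fun z hz => hG' z (by linarith))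
        (s := pt (1 / 2 + δ) t) (by rw [pt_re]; linarith)
      have e0 : (pt (1 / 2 + δ) t).re - (1 / 2 - δ) = 2 * δ := by rw [pt_re]; ring
      rw [e0, pt_im] at i1 i2
      refine ⟨i1, ?_⟩
      rw [← hs₀] at i2
      have h3 := norm_sub_le_norm_add (Dp φ R ⌊Real.exp (α₂ * R)⌋₊ ψ₀ lam (pt (1 / 2 + δ) t))
        (F lam (pt (1 / 2 + δ) t))
      have h4 : ‖F lam (pt (1 / 2 + δ) t)‖ ≤
          ‖Dp φ R ⌊Real.exp (α₂ * R)⌋₊ ψ₀ lam (pt (1 / 2 + δ) t)‖ +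
          ‖Dp φ R ⌊Real.exp (α₂ * R)⌋₊ ψ₀ lam (pt (1 / 2 + δ) t) -
            F lam (pt (1 / 2 + δ) t)‖ := by
        have := norm_sub_norm_le (F lam (pt (1 / 2 + δ) t))
          (Dp φ R ⌊Real.exp (α₂ * R)⌋₊ ψ₀ lam (pt (1 / 2 + δ) t))
        rw [norm_sub_rev] at this
        linarith
      linarith
  have hJ := JJ_triv hθ hβ1 hR0 hT hA hH hHT hP hF hδ0
  rw [← hG] at hJ
  have hBk : k + (n + E) + 2 ≤ 2 * B := by omega
  refine hSH.bound hBk (S₀ := G * Real.exp (4 * R)) (G := G) (X := Real.exp (ε * κ)) (E := E)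
    (by positivity) hG0 hA (Real.one_le_exp (by positivity)) ?_ ?_ ?_
  · intro t₀ v₀
    refine (hJ t₀ v₀).trans (ENNReal.ofReal_le_ofReal ?_)
    have h1 : (1 + |t₀| / T) ^ (2 * n) ≤ wt T R k E t₀ v₀ := by
      unfold wt
      have h2 : 1 ≤ 1 + |t₀| / T := by
        have : 0 ≤ |t₀| / T := by positivity
        linarith
      have h3 : (1 + |t₀| / T) ^ (2 * n) ≤ (1 + |t₀| / T) ^ E :=
        pow_le_pow_right₀ h2 (by omega)
      have h4 : 1 ≤ (1 + R * |v₀|) ^ k := by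
        refine one_le_pow₀ ?_
        have : 0 ≤ R * |v₀| := by positivity
        linarith
      refine h3.trans (le_mul_of_one_le_left (by positivity) h4)
    calc P * G * Real.exp (4 * R) * (1 + |t₀| / T) ^ (2 * n) ≤
        P * G * Real.exp (4 * R) * wt T R k E t₀ v₀ := by gcongr
      _ = _ := by ring
  · intro t₀ v₀ hX
    refine (hJ t₀ v₀).trans (ENNReal.ofReal_le_ofReal ?_)
    obtain ⟨Θ, hΘ⟩ : ∃ Θ : ℝ, Θ = 1 + |t₀| / T := ⟨_, rfl⟩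
    have hΘ1 : 1 ≤ Θ := by
      rw [hΘ]
      have : 0 ≤ |t₀| / T := by positivity
      linarith
    rw [← hΘ] at hX ⊢
    have hn0 : (0 : ℝ) < n := by exact_mod_cast hn
    -- `Θ` is large
    have h1 : ε * κ < 2 * (n * δ) * Real.log Θ := by
      have h2 := Real.log_lt_log (Real.exp_pos _) hX
      rw [Real.log_exp, Real.log_rpow (by linarith)] at h2
      exact h2
    have h3 : Real.exp (4 * R) ≤ Θ ^ E₁ := by
      rw [← Real.log_le_log_iff (Real.exp_pos _) (by positivity), Real.log_exp, Real.log_pow]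
      have hl0 : 0 ≤ Real.log Θ := Real.log_nonneg hΘ1
      have h4 : ε * R ≤ 2 * n * Real.log Θ := by
        have h5 : ε * κ * R ≤ 2 * (n * δ) * Real.log Θ * R :=
          mul_le_mul_of_nonneg_right h1.le hR0.le
        have e1 : 2 * (n * δ) * Real.log Θ * R = 2 * n * Real.log Θ * (R * δ) := by ring
        rw [e1, hRδ] at h5
        have hκ0 : 0 < κ := by linarith
        have h6 : (ε * R) * κ ≤ (2 * n * Real.log Θ) * κ := by linarith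
        exact le_of_mul_le_mul_right h6 hκ0
      have h7 : 8 * (n : ℝ) / ε * Real.log Θ ≤ E₁ * Real.log Θ :=
        mul_le_mul_of_nonneg_right hE₁ hl0
      have h8 : 4 * R ≤ 8 * (n : ℝ) / ε * Real.log Θ := by
        rw [div_mul_eq_mul_div, le_div_iff₀ hε0]
        linarith
      linarith
    have h9 : 1 ≤ (1 + R * |v₀|) ^ k := by
      refine one_le_pow₀ ?_
      have : 0 ≤ R * |v₀| := by positivity
      linarith
    unfold wt
    rw [← hΘ]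
    calc P * G * Real.exp (4 * R) * Θ ^ (2 * n) ≤ P * G * Θ ^ E₁ * Θ ^ (2 * n) := by gcongr
      _ = P * G * (1 * Θ ^ E) := by rw [hE, pow_add]; ring
      _ ≤ P * G * ((1 + R * |v₀|) ^ k * Θ ^ E) := by gcongr
  · rw [hs2, hRδ]
    have e1 : 4 * Real.exp (-(4 * (α' * κ))) * cB B 0 * ((1 + 2 * κ) ^ k * cB B (k + (n + E))) *
        (A ^ 2 * Real.exp (2 * κ) * Real.exp (ε * κ)) =
        4 * cB B 0 * cB B (k + (n + E)) * A ^ 2 * ((1 + 2 * κ) ^ k *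
          (Real.exp (-(4 * (α' * κ))) * (Real.exp (2 * κ) * Real.exp (ε * κ)))) := by ring
    rw [e1, ← Real.exp_add, ← Real.exp_add]
    have e2 : -(4 * (α' * κ)) + (2 * κ + ε * κ) = -(ε * κ) := by rw [hε]; ring
    rw [e2]
    exact hκ

end Pool.Agent.N786.D
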