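import Pool.Agent.N786.Cnt1

/-!
# The class numbers are bounded (owner helper786)
-/

set_option autoImplicit false
set_option linter.unusedSectionVars false

open NumberField NumberField.Units Complex Filter Topology Set

namespace Pool.Agent.N786

open Pool.Agent.Y773 (TPos)
open Pool.Agent.Y767

section

variable (K : Type) [Field K] [NumberField K] [IsTotallyReal K]

/-- the order of the narrow class group is bounded by a constant of the field -/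
theorem cls_card : ∃ c : ℕ, ∀ 𝔪 : Ideal (𝓞 K), 𝔪 ≠ ⊤ → 𝔪 ≠ ⊥ → Nat.card (Cls (pq 𝔪)) ≤ c := by
  classical
  obtain ⟨S, hS0, hS⟩ := t_rep K
  refine ⟨S.card * S.card, fun 𝔪 h𝔪 h𝔪0 => ?_⟩
  have hcan := Mq_cancel h𝔪
  have h1 : ∀ 𝔟 : Ideal (𝓞 K), ∃ 𝔞₀ : Mq 𝔪, (∃ (𝔞 : Mq 𝔪) (x : 𝓞 K), TPos K x ∧
      (𝔞 : Ideal (𝓞 K)) * 𝔟 = Ideal.span {x}) →
      ∃ x : 𝓞 K, TPos K x ∧ (𝔞₀ : Ideal (𝓞 K)) * 𝔟 = Ideal.span {x} := by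
    intro 𝔟
    by_cases h : ∃ (𝔞 : Mq 𝔪) (x : 𝓞 K), TPos K x ∧ (𝔞 : Ideal (𝓞 K)) * 𝔟 = Ideal.span {x}
    · obtain ⟨𝔞, x, h2, h3⟩ := h
      exact ⟨𝔞, fun _ => ⟨x, h2, h3⟩⟩
    · exact ⟨1, fun h' => absurd h' h⟩
  choose A hA using h1
  have hsub : Set.range (cls (pq 𝔪)) ⊆ ((S.image fun 𝔟 => cls (pq 𝔪) (A 𝔟) : Finset _) : Set _) := by
    rintro _ ⟨𝔞, rfl⟩
    obtain ⟨𝔟, h𝔟, x, hx, hax⟩ := hS _ (Mq_ne_bot h𝔪 𝔞)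
    obtain ⟨x₀, hx₀, hax₀⟩ := hA 𝔟 ⟨𝔞, x, hx, hax⟩
    have h2 : Ideal.span {x₀} * (𝔞 : Ideal (𝓞 K)) = Ideal.span {x} * (A 𝔟 : Ideal (𝓞 K)) := by
      rw [← hax, ← hax₀]; ring
    obtain ⟨a, a', -, h3⟩ := frac h𝔪 h𝔪0 hx hx₀ h2
    rw [Finset.mem_coe, Finset.mem_image]
    exact ⟨𝔟, h𝔟, (cls_of_mul h3).symm⟩
  obtain ⟨G, hG⟩ : ∃ G : Finset (Cls (pq 𝔪)), G = S.image fun 𝔟 => cls (pq 𝔪) (A 𝔟) := ⟨_, rfl⟩
  rw [← hG] at hsub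
  have hGc : G.card ≤ S.card := by rw [hG]; exact Finset.card_image_le
  have h2 : (Set.univ : Set (Cls (pq 𝔪))) ⊆
      (((G ×ˢ G).image fun q : Cls (pq 𝔪) × Cls (pq 𝔪) => q.1 / q.2 : Finset _) : Set _) := by
    intro c _
    obtain ⟨a, b, hab⟩ := cls_div (pq 𝔪) c
    rw [Finset.mem_coe, Finset.mem_image]
    exact ⟨(cls (pq 𝔪) a, cls (pq 𝔪) b), Finset.mem_product.mpr ⟨hsub ⟨a, rfl⟩, hsub ⟨b, rfl⟩⟩, by
      rw [← hab]; exact mul_div_cancel_right _ _⟩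
  have h3 := Set.ncard_le_ncard h2 (Finset.finite_toSet _)
  rw [Set.ncard_univ, Set.ncard_coe_finset] at h3
  refine h3.trans (Finset.card_image_le.trans ?_)
  rw [Finset.card_product]
  exact Nat.mul_le_mul hGc hGc

end

end Pool.Agent.N786
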