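import Mathlib

/-!
# Smooth cut-off functions as Fourier integrals (owner helper786)
-/

set_option autoImplicit false

open MeasureTheory Complex Filter Topology
open scoped FourierTransform SchwartzMap ContDiff

namespace Pool.Agent.N786.D

/-- a function on the line which is a Fourier integral with a rapidly decreasing density -/
def Fr (f : ℝ → ℂ) (g : ℝ → ℂ) : Prop :=
  Continuous g ∧ (∀ k : ℕ, Integrable fun u : ℝ => (1 + |u|) ^ k * ‖g u‖) ∧
    ∀ x : ℝ, f x = ∫ u, g u * cexp (((2 * Real.pi * u * x : ℝ) : ℂ) * I)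

theorem fr_exists {f : ℝ → ℂ} (hf : ContDiff ℝ ∞ f) (hc : HasCompactSupport f) :
    ∃ g : ℝ → ℂ, Fr f g := by
  set F : 𝓢(ℝ, ℂ) := hc.toSchwartzMap hf with hF
  set G : 𝓢(ℝ, ℂ) := 𝓕 F with hG
  refine ⟨G, G.continuous, fun k => ?_, fun x => ?_⟩
  · have h1 : ∀ u : ℝ, (1 + |u|) ^ k * ‖G u‖ =
        ∑ j ∈ Finset.range (k + 1), (k.choose j : ℝ) * (‖u‖ ^ j * ‖G u‖) := by
      intro u
      rw [add_comm, add_pow, Finset.sum_mul]
      refine Finset.sum_congr rfl fun j _ => ?_
      rw [one_pow, Real.norm_eq_abs]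
      ring
    simp_rw [h1]
    refine integrable_finsetSum _ fun j _ => ?_
    exact (G.integrable_pow_mul volume j).const_mul _
  · have h1 : 𝓕⁻ G = F := by
      rw [hG]
      exact FourierTransform.fourierInv_fourier_eq F
    have h2 : f x = F x := rfl
    rw [h2, ← h1, SchwartzMap.fourierInv_coe, Real.fourierInv_eq']
    refine integral_congr_ae (Eventually.of_forall fun u => ?_)
    simp only [smul_eq_mul]
    rw [mul_comm]
    congr 2
    simp
    ring

/-- a smooth cut-off function -/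
structure Cutf (a b : ℝ) (f : ℝ → ℝ) : Prop where
  smooth : ContDiff ℝ ∞ f
  supp : HasCompactSupport f
  one : ∀ x, |x| ≤ a → f x = 1
  zero : ∀ x, b ≤ |x| → f x = 0
  nn : ∀ x, 0 ≤ f x
  le : ∀ x, f x ≤ 1

theorem cut_exists {a b : ℝ} (ha : 0 < a) (hab : a < b) : ∃ f : ℝ → ℝ, Cutf a b f := by
  let φ : ContDiffBump (0 : ℝ) := ⟨a, b, ha, hab⟩
  refine ⟨φ, φ.contDiff, φ.hasCompactSupport, fun x hx => ?_, fun x hx => ?_, fun x => φ.nonneg,
    fun x => φ.le_one⟩
  · refine φ.one_of_mem_closedBall ?_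
    rw [mem_closedBall_zero_iff, Real.norm_eq_abs]
    exact hx
  · refine φ.zero_of_le_dist ?_
    rw [dist_zero_right, Real.norm_eq_abs]
    exact hx

theorem Cutf.fr {a b : ℝ} {f : ℝ → ℝ} (h : Cutf a b f) (lam : ℝ) :
    ∃ g : ℝ → ℂ, Fr (fun x => ((f x * Real.exp (lam * x) : ℝ) : ℂ)) g := by
  refine fr_exists ?_ ?_
  · refine Complex.ofRealCLM.contDiff.comp ?_
    exact h.smooth.mul (by fun_prop)
  · have h1 : HasCompactSupport fun x => f x * Real.exp (lam * x) := h.supp.mul_right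
    exact h1.comp_left (g := fun x : ℝ => (x : ℂ)) (by simp)

end Pool.Agent.N786.D
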