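import Pool.Agent.N786.D.Psm
import Pool.Agent.N786.D.Cut

/-!
# Convolutions with the Moebius function and smooth weights (owner helper786)
-/

set_option autoImplicit false

open UniqueFactorizationMonoid MeasureTheory

namespace Pool.Agent.N786.D

section

variable {M : Type} [CommMonoidWithZero M] [NormalizationMonoid M] [UniqueFactorizationMonoid M]
  [Subsingleton Mˣ] [Nontrivial M]

open Classical in
/-- the Moebius function -/
noncomputable def mob (a : M) : ℂ := if radical a = a then (-1) ^ (primeFactors a).card else 0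

/-- the product of the members of a finite set -/
noncomputable def pd (T : Finset M) : M := T.prod id

lemma pd_primes (T : Finset M) (hT : ∀ p ∈ T, Prime p) : pd T ≠ 0 ∧ primeFactors (pd T) = T := by
  classical
  induction T using Finset.induction_on with
  | empty => exact ⟨by simp [pd], by simp [pd]⟩
  | insert p S hp ih =>
    obtain ⟨h1, h2⟩ := ih fun q hq => hT q (Finset.mem_insert_of_mem hq)
    have hpp := hT p (Finset.mem_insert_self _ _)
    have e : pd (insert p S) = p * pd S := by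
      unfold pd
      rw [Finset.prod_insert hp]
      rfl
    rw [e]
    refine ⟨mul_ne_zero hpp.ne_zero h1, ?_⟩
    rw [primeFactors_mul_eq_union hpp.ne_zero h1, nf_prime_self hpp, h2]
    rfl

lemma pd_dvd {a : M} (ha : a ≠ 0) {T : Finset M} (hT : T ⊆ primeFactors a) : pd T ∣ a := by
  classical
  have h1 : radical a ∣ a := radical_dvd_self
  refine dvd_trans ?_ h1
  unfold pd radical
  exact Finset.prod_dvd_prod_of_subset _ _ _ hT

lemma mob_pd {T : Finset M} (hT : ∀ p ∈ T, Prime p) : mob (pd T) = (-1) ^ T.card := by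
  obtain ⟨h1, h2⟩ := pd_primes T hT
  unfold mob
  rw [if_pos, h2]
  unfold radical
  rw [h2]
  rfl

lemma pd_of_rad {a : M} (h : radical a = a) : pd (primeFactors a) = a := h

lemma L_pd {L : M → ℝ} {B₀ : ℝ} (hL : LNorm L B₀) (T : Finset M) (hT : ∀ p ∈ T, Prime p) :
    L (pd T) = ∑ p ∈ T, L p := by
  classical
  induction T using Finset.induction_on with
  | empty => rw [Finset.sum_empty]; exact hL.one
  | insert p S hp ih =>
    have hpp := hT p (Finset.mem_insert_self _ _)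
    have hS : ∀ q ∈ S, Prime q := fun q hq => hT q (Finset.mem_insert_of_mem hq)
    have e : pd (insert p S) = p * pd S := by
      unfold pd
      rw [Finset.prod_insert hp]
      rfl
    rw [e, hL.mul p (pd S) hpp.ne_zero (pd_primes S hS).1, ih hS, Finset.sum_insert hp]

lemma pf_primes (a : M) (T : Finset M) (hT : T ∈ (primeFactors a).powerset) : ∀ p ∈ T, Prime p :=
  fun _ hp => nf_prime (Finset.mem_powerset.mp hT hp)

/-- the sum over the squarefree divisors -/
noncomputable def bc (L : M → ℝ) (F₂ F₁ : ℝ → ℂ) (a : M) : ℂ :=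
  ∑ T ∈ (primeFactors a).powerset, (-1) ^ T.card * F₂ (L (pd T)) * F₁ (L a - L (pd T))

open Classical in
theorem conv_eq {L : M → ℝ} {B₀ : ℝ} (hL : LNorm L B₀) {a : M} (ha : a ≠ 0) (S₁ S₂ : Finset M)
    (F₁ F₂ : ℝ → ℂ) (h1 : ∀ d, d ≠ 0 → d ∉ S₁ → F₁ (L d) = 0)
    (h2 : ∀ b, b ≠ 0 → b ∉ S₂ → F₂ (L b) = 0) :
    ∑ q ∈ (S₁ ×ˢ S₂).filter (fun q => q.1 * q.2 = a), F₁ (L q.1) * (mob q.2 * F₂ (L q.2)) =
      bc L F₂ F₁ a := by
  have hcof : ∀ T : Finset M, ∃ c : M, T ⊆ primeFactors a → c * pd T = a := by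
    intro T
    by_cases h : T ⊆ primeFactors a
    · obtain ⟨c, hc⟩ := pd_dvd ha h
      exact ⟨c, fun _ => by rw [mul_comm]; exact hc.symm⟩
    · exact ⟨0, fun h' => absurd h' h⟩
  choose c hc using hcof
  have hrhs : bc L F₂ F₁ a = ∑ T ∈ (primeFactors a).powerset,
      F₁ (L (c T)) * (mob (pd T) * F₂ (L (pd T))) := by
    unfold bc
    refine Finset.sum_congr rfl fun T hT => ?_
    have hTp := pf_primes a T hT
    have h3 := hc T (Finset.mem_powerset.mp hT)
    have h4 : c T ≠ 0 := fun h => by rw [h, zero_mul] at h3; exact ha h3.symm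
    have h5 : L a = L (c T) + L (pd T) := by
      rw [← hL.mul _ _ h4 (pd_primes T hTp).1, h3]
    rw [mob_pd hTp, h5]
    have : L (c T) + L (pd T) - L (pd T) = L (c T) := by ring
    rw [this]
    ring
  rw [hrhs]
  refine Finset.sum_bij_ne_zero (fun q _ _ => primeFactors q.2) ?_ ?_ ?_ ?_
  · intro q hq hne
    rw [Finset.mem_filter] at hq
    rw [Finset.mem_powerset]
    intro p hp
    refine nf_of ha (nf_prime hp) ?_
    rw [← hq.2]
    exact (nf_dvd hp).mul_left _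
  · intro q hq hne q' hq' hne' he
    rw [Finset.mem_filter] at hq hq'
    have hr : ∀ r : M × M, F₁ (L r.1) * (mob r.2 * F₂ (L r.2)) ≠ 0 → radical r.2 = r.2 := by
      intro r hr
      by_contra h
      apply hr
      unfold mob
      rw [if_neg h]
      ring
    have e1 := pd_of_rad (hr q hne)
    have e2 := pd_of_rad (hr q' hne')
    rw [he, e2] at e1
    have h3 : q.2 ≠ 0 := fun h => by
      have := hq.2
      rw [h, mul_zero] at this
      exact ha this.symm
    have e3 : q.1 = q'.1 := by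
      apply mul_right_cancel₀ h3
      rw [hq.2, ← e1, hq'.2]
    exact Prod.ext e3 e1.symm
  · intro T hT hne
    have hTp := pf_primes a T hT
    have h3 := hc T (Finset.mem_powerset.mp hT)
    have h4 : c T ≠ 0 := fun h => by rw [h, zero_mul] at h3; exact ha h3.symm
    have h5 := pd_primes T hTp
    refine ⟨(c T, pd T), ?_, hne, h5.2⟩
    rw [Finset.mem_filter, Finset.mem_product]
    refine ⟨⟨?_, ?_⟩, h3⟩
    · by_contra h
      exact hne (by rw [h1 _ h4 h, zero_mul])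
    · by_contra h
      exact hne (by rw [h2 _ h5.1 h, mul_zero, mul_zero])
  · intro q hq hne
    rw [Finset.mem_filter] at hq
    have hr : radical q.2 = q.2 := by
      by_contra h
      apply hne
      unfold mob
      rw [if_neg h]
      ring
    have e1 := pd_of_rad hr
    have hsub : primeFactors q.2 ⊆ primeFactors a := by
      intro p hp
      refine nf_of ha (nf_prime hp) ?_
      rw [← hq.2]
      exact (nf_dvd hp).mul_left _
    have h3 := hc _ hsub
    rw [e1] at h3 ⊢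
    have h4 : q.2 ≠ 0 := fun h => by
      have := hq.2
      rw [h, mul_zero] at this
      exact ha this.symm
    have e3 : c (primeFactors q.2) = q.1 := by
      apply mul_right_cancel₀ h4
      rw [h3, hq.2]
    rw [e3]

/-- the product formula -/
lemma bc_exp {L : M → ℝ} {B₀ : ℝ} (hL : LNorm L B₀) (θ : ℝ) (a : M) :
    ∑ T ∈ (primeFactors a).powerset, (-1 : ℂ) ^ T.card *
      Complex.exp (((θ * L (pd T) : ℝ) : ℂ) * Complex.I) =
    ∏ p ∈ primeFactors a, (1 - Complex.exp (((θ * L p : ℝ) : ℂ) * Complex.I)) := by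
  classical
  have h1 : ∀ p ∈ primeFactors a, (1 - Complex.exp (((θ * L p : ℝ) : ℂ) * Complex.I)) =
      1 + -Complex.exp (((θ * L p : ℝ) : ℂ) * Complex.I) := fun p _ => by ring
  rw [Finset.prod_congr rfl h1, Finset.prod_one_add]
  refine Finset.sum_congr rfl fun T hT => ?_
  rw [Finset.prod_neg, L_pd hL T (pf_primes a T hT), ← Complex.exp_sum]
  congr 2
  rw [Finset.mul_sum]
  push_cast
  rw [Finset.sum_mul]

end

/-- Cauchy-Schwarz -/
lemma cs_int {g h : ℝ → ℂ} (hg : Continuous g) (hgi : Integrable fun u => ‖g u‖)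
    (hh : Continuous h) {B : ℝ} (hB : ∀ u, ‖h u‖ ≤ B) :
    ‖∫ u, g u * h u‖ ^ 2 ≤ (∫ u, ‖g u‖) * ∫ u, ‖g u‖ * ‖h u‖ ^ 2 := by
  have hB0 : 0 ≤ B := (norm_nonneg _).trans (hB 0)
  have i1 : Integrable fun u => ‖g u‖ * ‖h u‖ := hgi.mul_bdd hh.norm.aestronglyMeasurable
    (Filter.Eventually.of_forall fun u => by rw [norm_norm]; exact hB u)
  have i2 : Integrable fun u => ‖g u‖ * ‖h u‖ ^ 2 :=
    hgi.mul_bdd (c := B ^ 2) (hh.norm.pow 2).aestronglyMeasurable
      (Filter.Eventually.of_forall fun u => by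
        rw [Real.norm_of_nonneg (by positivity)]
        exact pow_le_pow_left₀ (norm_nonneg _) (hB u) 2)
  obtain ⟨I0, hI0⟩ : ∃ I0 : ℝ, I0 = ∫ u, ‖g u‖ := ⟨_, rfl⟩
  obtain ⟨I1, hI1⟩ : ∃ I1 : ℝ, I1 = ∫ u, ‖g u‖ * ‖h u‖ := ⟨_, rfl⟩
  obtain ⟨I2, hI2⟩ : ∃ I2 : ℝ, I2 = ∫ u, ‖g u‖ * ‖h u‖ ^ 2 := ⟨_, rfl⟩
  have h0 : ‖∫ u, g u * h u‖ ≤ I1 := by
    rw [hI1]
    refine (norm_integral_le_integral_norm _).trans (le_of_eq ?_)
    exact integral_congr_ae (Filter.Eventually.of_forall fun u => norm_mul _ _)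
  have hI0n : 0 ≤ I0 := by rw [hI0]; exact integral_nonneg fun _ => norm_nonneg _
  have hI1n : 0 ≤ I1 := by rw [hI1]; exact integral_nonneg fun _ => by positivity
  have hI2n : 0 ≤ I2 := by rw [hI2]; exact integral_nonneg fun _ => by positivity
  rw [← hI0, ← hI2]
  refine (pow_le_pow_left₀ (norm_nonneg _) h0 2).trans ?_
  rcases hI0n.eq_or_lt with h | hpos
  · have h1 : I1 ≤ B * I0 := by
      rw [hI1, hI0, ← integral_const_mul]
      refine integral_mono i1 (hgi.const_mul _) fun u => ?_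
      simp only
      rw [mul_comm]
      exact mul_le_mul_of_nonneg_right (hB u) (norm_nonneg _)
    rw [← h, mul_zero] at h1
    have h2 : I1 = 0 := le_antisymm h1 hI1n
    rw [h2, ← h]
    simp
  · have h1 : 0 ≤ ∫ u, ‖g u‖ * (I0 * ‖h u‖ - I1) ^ 2 := integral_nonneg fun u => by positivity
    have h2 : ∫ u, ‖g u‖ * (I0 * ‖h u‖ - I1) ^ 2 =
        I0 ^ 2 * I2 - 2 * I0 * I1 * I1 + I1 ^ 2 * I0 := by
      have e : ∀ u, ‖g u‖ * (I0 * ‖h u‖ - I1) ^ 2 = I0 ^ 2 * (‖g u‖ * ‖h u‖ ^ 2) -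
          2 * I0 * I1 * (‖g u‖ * ‖h u‖) + I1 ^ 2 * ‖g u‖ := fun u => by ring
      simp_rw [e]
      have i3 : Integrable fun u => I0 ^ 2 * (‖g u‖ * ‖h u‖ ^ 2) -
          2 * I0 * I1 * (‖g u‖ * ‖h u‖) := (i2.const_mul _).sub (i1.const_mul _)
      rw [integral_add i3 (hgi.const_mul _), integral_sub (i2.const_mul _) (i1.const_mul _),
        integral_const_mul, integral_const_mul, integral_const_mul, ← hI0, ← hI1, ← hI2]
    rw [h2] at h1
    have h3 : 0 ≤ I0 * (I0 * I2 - I1 ^ 2) := by nlinarith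
    have h4 := nonneg_of_mul_nonneg_right h3 hpos
    linarith

section

variable {M : Type} [CommMonoidWithZero M] [NormalizationMonoid M] [UniqueFactorizationMonoid M]
  [Subsingleton Mˣ] [Nontrivial M]

open Classical in
/-- the first step: a twist on the squarefree divisor only -/
lemma step_one {L : M → ℝ} {B₀ : ℝ} (hL : LNorm L B₀) {f₂ g₂ : ℝ → ℂ} (h₂ : Fr f₂ g₂) {k : ℕ}
    (hk : 32 * B₀ ≤ k) {σ R : ℝ} (hR : 0 < R) (h1 : 1 < σ) (h2 : σ ≤ 3 / 2)
    (h3 : 1 / R ≤ σ - 1) (τ : ℝ) (A : Finset M) (hA : ∀ a ∈ A, a ≠ 0) :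
    ∑ a ∈ A, ‖∑ T ∈ (primeFactors a).powerset, (-1 : ℂ) ^ T.card * (f₂ (L (pd T) / R) *
      Complex.exp (((τ * L (pd T) : ℝ) : ℂ) * Complex.I))‖ ^ 2 * Real.exp (-(σ * L a)) ≤
    (∫ u, ‖g₂ u‖) * ((7 : ℝ) ^ k * (∫ u, (1 + |u|) ^ k * ‖g₂ u‖)) * (1 + R * |τ|) ^ k := by
  obtain ⟨hc, hi, hf⟩ := h₂
  have hi0 : Integrable fun u => ‖g₂ u‖ := by
    refine (hi 0).congr (Filter.Eventually.of_forall fun u => ?_)
    simp
  have hs0 : 0 < σ - 1 := by linarith
  -- the representation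
  set h : M → ℝ → ℂ := fun a u => ∏ p ∈ primeFactors a,
    (1 - Complex.exp ((((τ + 2 * Real.pi * u / R) * L p : ℝ) : ℂ) * Complex.I)) with hh
  have hrep : ∀ a : M, ∑ T ∈ (primeFactors a).powerset, (-1 : ℂ) ^ T.card * (f₂ (L (pd T) / R) *
      Complex.exp (((τ * L (pd T) : ℝ) : ℂ) * Complex.I)) = ∫ u, g₂ u * h a u := by
    intro a
    have e1 : ∀ u : ℝ, g₂ u * h a u = ∑ T ∈ (primeFactors a).powerset, (-1 : ℂ) ^ T.card *
        Complex.exp (((τ * L (pd T) : ℝ) : ℂ) * Complex.I) *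
        (g₂ u * Complex.exp (((2 * Real.pi * u * (L (pd T) / R) : ℝ) : ℂ) * Complex.I)) := by
      intro u
      rw [hh]
      simp only
      rw [← bc_exp hL, Finset.mul_sum]
      refine Finset.sum_congr rfl fun T _ => ?_
      have e2 : Complex.exp ((((τ + 2 * Real.pi * u / R) * L (pd T) : ℝ) : ℂ) * Complex.I) =
          Complex.exp (((τ * L (pd T) : ℝ) : ℂ) * Complex.I) *
          Complex.exp (((2 * Real.pi * u * (L (pd T) / R) : ℝ) : ℂ) * Complex.I) := by
        rw [← Complex.exp_add]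
        congr 1
        push_cast
        ring
      rw [e2]
      ring
    simp_rw [e1]
    rw [integral_finsetSum]
    · refine Finset.sum_congr rfl fun T _ => ?_
      rw [integral_const_mul, ← hf]
      ring
    · intro T _
      refine Integrable.const_mul ?_ _
      refine (integrable_norm_iff ?_).mp ?_
      · exact (hc.mul (by fun_prop)).aestronglyMeasurable
      · refine hi0.congr (Filter.Eventually.of_forall fun u => ?_)
        simp only
        rw [norm_mul, Complex.norm_exp_ofReal_mul_I, mul_one]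
  have hcont : ∀ a, Continuous (h a) := fun a => by
    rw [hh]
    refine continuous_finsetProd _ fun p _ => ?_
    fun_prop
  have hbd : ∀ a u, ‖h a u‖ ≤ 2 ^ (primeFactors a).card := fun a u => by
    rw [hh]
    simp only
    rw [norm_prod, ← Finset.prod_const]
    refine Finset.prod_le_prod (fun _ _ => norm_nonneg _) fun p _ => ?_
    refine (norm_sub_le _ _).trans ?_
    rw [norm_one, Complex.norm_exp_ofReal_mul_I]
    norm_num
  have i2 : ∀ a, Integrable fun u => ‖g₂ u‖ * ‖h a u‖ ^ 2 := fun a =>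
    hi0.mul_bdd (c := (2 ^ (primeFactors a).card) ^ 2) ((hcont a).norm.pow 2).aestronglyMeasurable
      (Filter.Eventually.of_forall fun u => by
        rw [Real.norm_of_nonneg (by positivity)]
        exact pow_le_pow_left₀ (norm_nonneg _) (hbd a u) 2)
  have hcs : ∀ a ∈ A, ‖∑ T ∈ (primeFactors a).powerset, (-1 : ℂ) ^ T.card * (f₂ (L (pd T) / R) *
      Complex.exp (((τ * L (pd T) : ℝ) : ℂ) * Complex.I))‖ ^ 2 * Real.exp (-(σ * L a)) ≤
      (∫ u, ‖g₂ u‖) * ∫ u, ‖g₂ u‖ * (‖h a u‖ ^ 2 * Real.exp (-(σ * L a))) := by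
    intro a _
    rw [hrep a]
    have e := cs_int hc hi0 (hcont a) (hbd a)
    have e2 : ∫ u, ‖g₂ u‖ * (‖h a u‖ ^ 2 * Real.exp (-(σ * L a))) =
        (∫ u, ‖g₂ u‖ * ‖h a u‖ ^ 2) * Real.exp (-(σ * L a)) := by
      rw [← integral_mul_const]
      refine integral_congr_ae (Filter.Eventually.of_forall fun u => ?_)
      simp only
      ring
    rw [e2, ← mul_assoc]
    exact mul_le_mul_of_nonneg_right e (Real.exp_pos _).le
  refine (Finset.sum_le_sum hcs).trans ?_
  rw [← Finset.mul_sum, mul_assoc]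
  refine mul_le_mul_of_nonneg_left ?_ (integral_nonneg fun _ => norm_nonneg _)
  have i3 : ∀ a ∈ A, Integrable fun u => ‖g₂ u‖ * (‖h a u‖ ^ 2 * Real.exp (-(σ * L a))) := by
    intro a _
    refine ((i2 a).mul_const (Real.exp (-(σ * L a)))).congr
      (Filter.Eventually.of_forall fun u => ?_)
    simp only
    ring
  rw [← integral_finsetSum _ i3]
  have e4 : (7 : ℝ) ^ k * (∫ u, (1 + |u|) ^ k * ‖g₂ u‖) * (1 + R * |τ|) ^ k =
      ∫ u, ((1 + |u|) ^ k * ‖g₂ u‖) * ((7 : ℝ) ^ k * (1 + R * |τ|) ^ k) := by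
    rw [integral_mul_const]
    ring
  rw [e4]
  refine integral_mono (integrable_finsetSum _ i3) ((hi k).mul_const _) fun u => ?_
  simp only
  rw [← Finset.mul_sum]
  have e5 : ∑ a ∈ A, ‖h a u‖ ^ 2 * Real.exp (-(σ * L a)) ≤
      (1 + |τ + 2 * Real.pi * u / R| / (σ - 1)) ^ (32 * B₀) := by
    refine le_trans (le_of_eq ?_) (sq_sum hL h1 h2 (τ + 2 * Real.pi * u / R) A hA)
    refine Finset.sum_congr rfl fun a _ => ?_
    rw [hh]
    simp only
    rw [norm_prod, Finset.prod_pow]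
  have e6 : (1 + |τ + 2 * Real.pi * u / R| / (σ - 1)) ^ (32 * B₀) ≤
      (7 : ℝ) ^ k * (1 + |u|) ^ k * (1 + R * |τ|) ^ k := by
    have b1 : 1 ≤ 1 + |τ + 2 * Real.pi * u / R| / (σ - 1) := by
      have : 0 ≤ |τ + 2 * Real.pi * u / R| / (σ - 1) := by positivity
      linarith
    refine (Real.rpow_le_rpow_of_exponent_le b1 hk).trans ?_
    rw [Real.rpow_natCast, ← mul_pow, ← mul_pow]
    refine pow_le_pow_left₀ (by linarith) ?_ k
    have b2 : |τ + 2 * Real.pi * u / R| / (σ - 1) ≤ R * |τ + 2 * Real.pi * u / R| := by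
      rw [div_le_iff₀ hs0]
      have b3 : 1 ≤ R * (σ - 1) := by
        rw [div_le_iff₀ hR] at h3
        linarith
      have := abs_nonneg (τ + 2 * Real.pi * u / R)
      nlinarith
    have b4 : R * |τ + 2 * Real.pi * u / R| ≤ R * |τ| + 6.4 * |u| := by
      have b5 : |τ + 2 * Real.pi * u / R| ≤ |τ| + |2 * Real.pi * u / R| := abs_add_le _ _
      have b6 : |2 * Real.pi * u / R| = 2 * Real.pi * |u| / R := by
        rw [abs_div, abs_mul, abs_of_pos hR, abs_of_pos (by positivity : 0 < 2 * Real.pi)]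
      rw [b6] at b5
      have b7 : R * (|τ| + 2 * Real.pi * |u| / R) = R * |τ| + 2 * Real.pi * |u| := by
        field_simp
      have b8 := mul_le_mul_of_nonneg_left b5 hR.le
      rw [b7] at b8
      have b9 : 2 * Real.pi * |u| ≤ 6.4 * |u| := by
        have := Real.pi_lt_d2
        have := abs_nonneg u
        nlinarith
      linarith
    have c1 := abs_nonneg u
    have c2 : 0 ≤ R * |τ| := by positivity
    nlinarith [mul_nonneg c1 c2]
  have e7 : ‖g₂ u‖ * ∑ a ∈ A, ‖h a u‖ ^ 2 * Real.exp (-(σ * L a)) ≤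
      ‖g₂ u‖ * ((7 : ℝ) ^ k * (1 + |u|) ^ k * (1 + R * |τ|) ^ k) :=
    mul_le_mul_of_nonneg_left (e5.trans e6) (norm_nonneg _)
  refine e7.trans (le_of_eq ?_)
  ring

open Classical in
/-- **The mean square of the coefficients of the mollified sums** -/
theorem bc_sq {L : M → ℝ} {B₀ : ℝ} (hL : LNorm L B₀) {f₁ g₁ f₂ g₂ : ℝ → ℂ} (h₁ : Fr f₁ g₁)
    (h₂ : Fr f₂ g₂) {k : ℕ} (hk : 32 * B₀ ≤ k) : ∃ C : ℝ, 0 ≤ C ∧
    ∀ (σ R : ℝ), 0 < R → 1 < σ → σ ≤ 3 / 2 → 1 / R ≤ σ - 1 → ∀ (τ : ℝ) (A : Finset M),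
      (∀ a ∈ A, a ≠ 0) →
      ∑ a ∈ A, ‖bc L (fun y => f₂ (y / R) * Complex.exp (((τ * y : ℝ) : ℂ) * Complex.I))
        (fun y => f₁ (y / R)) a‖ ^ 2 * Real.exp (-(σ * L a)) ≤ C * (1 + R * |τ|) ^ k := by
  obtain ⟨hc, hi, hf⟩ := h₁
  have hi0 : Integrable fun u => ‖g₁ u‖ := by
    refine (hi 0).congr (Filter.Eventually.of_forall fun u => ?_)
    simp
  obtain ⟨C₂, hC₂⟩ : ∃ C₂ : ℝ, C₂ = (∫ u, ‖g₂ u‖) * ((7 : ℝ) ^ k *
    (∫ u, (1 + |u|) ^ k * ‖g₂ u‖)) := ⟨_, rfl⟩
  have hC₂0 : 0 ≤ C₂ := by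
    rw [hC₂]
    have a1 : 0 ≤ ∫ u, ‖g₂ u‖ := integral_nonneg fun _ => norm_nonneg _
    have a2 : 0 ≤ ∫ u, (1 + |u|) ^ k * ‖g₂ u‖ := integral_nonneg fun _ => by positivity
    positivity
  have a3 : 0 ≤ ∫ u, ‖g₁ u‖ := integral_nonneg fun _ => norm_nonneg _
  have a4 : 0 ≤ ∫ u, (1 + |u|) ^ k * ‖g₁ u‖ := integral_nonneg fun _ => by positivity
  refine ⟨(∫ u, ‖g₁ u‖) * ((7 : ℝ) ^ k * (∫ u, (1 + |u|) ^ k * ‖g₁ u‖)) * C₂, by positivity, ?_⟩
  intro σ R hR h1 h2 h3 τ A hA
  set h : M → ℝ → ℂ := fun a u => Complex.exp (((2 * Real.pi * u * (L a / R) : ℝ) : ℂ) *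
    Complex.I) * ∑ T ∈ (primeFactors a).powerset, (-1 : ℂ) ^ T.card * (f₂ (L (pd T) / R) *
      Complex.exp ((((τ - 2 * Real.pi * u / R) * L (pd T) : ℝ) : ℂ) * Complex.I)) with hh
  have hrep : ∀ a : M, bc L (fun y => f₂ (y / R) *
      Complex.exp (((τ * y : ℝ) : ℂ) * Complex.I)) (fun y => f₁ (y / R)) a =
      ∫ u, g₁ u * h a u := by
    intro a
    have e1 : ∀ u : ℝ, g₁ u * h a u = ∑ T ∈ (primeFactors a).powerset, (-1 : ℂ) ^ T.card *
        (f₂ (L (pd T) / R) * Complex.exp (((τ * L (pd T) : ℝ) : ℂ) * Complex.I)) *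
        (g₁ u * Complex.exp (((2 * Real.pi * u * ((L a - L (pd T)) / R) : ℝ) : ℂ) *
          Complex.I)) := by
      intro u
      rw [hh]
      simp only
      rw [Finset.mul_sum, Finset.mul_sum]
      refine Finset.sum_congr rfl fun T _ => ?_
      have e2 : Complex.exp (((τ * L (pd T) : ℝ) : ℂ) * Complex.I) *
          Complex.exp (((2 * Real.pi * u * ((L a - L (pd T)) / R) : ℝ) : ℂ) * Complex.I) =
          Complex.exp (((2 * Real.pi * u * (L a / R) : ℝ) : ℂ) * Complex.I) *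
          Complex.exp ((((τ - 2 * Real.pi * u / R) * L (pd T) : ℝ) : ℂ) * Complex.I) := by
        rw [← Complex.exp_add, ← Complex.exp_add]
        congr 1
        push_cast
        ring
      calc g₁ u * (Complex.exp (((2 * Real.pi * u * (L a / R) : ℝ) : ℂ) * Complex.I) *
            ((-1 : ℂ) ^ T.card * (f₂ (L (pd T) / R) *
            Complex.exp ((((τ - 2 * Real.pi * u / R) * L (pd T) : ℝ) : ℂ) * Complex.I)))) =
          g₁ u * ((-1 : ℂ) ^ T.card * f₂ (L (pd T) / R)) *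
          (Complex.exp (((2 * Real.pi * u * (L a / R) : ℝ) : ℂ) * Complex.I) *
          Complex.exp ((((τ - 2 * Real.pi * u / R) * L (pd T) : ℝ) : ℂ) * Complex.I)) := by ring
        _ = _ := by rw [← e2]; ring
    simp_rw [e1]
    rw [integral_finsetSum]
    · unfold bc
      refine Finset.sum_congr rfl fun T _ => ?_
      rw [integral_const_mul, ← hf]
    · intro T _
      refine Integrable.const_mul ?_ _
      refine (integrable_norm_iff ?_).mp ?_
      · exact (hc.mul (by fun_prop)).aestronglyMeasurable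
      · refine hi0.congr (Filter.Eventually.of_forall fun u => ?_)
        simp only
        rw [norm_mul, Complex.norm_exp_ofReal_mul_I, mul_one]
  have hcont : ∀ a, Continuous (h a) := fun a => by
    rw [hh]
    fun_prop
  have hbd : ∀ a, ∀ u, ‖h a u‖ ≤ ∑ T ∈ (primeFactors a).powerset, ‖f₂ (L (pd T) / R)‖ :=
    fun a u => by
    rw [hh]
    simp only
    rw [norm_mul, Complex.norm_exp_ofReal_mul_I, one_mul]
    refine (norm_sum_le _ _).trans (Finset.sum_le_sum fun T _ => ?_)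
    rw [norm_mul, norm_mul, Complex.norm_exp_ofReal_mul_I, mul_one, norm_pow, norm_neg, norm_one,
      one_pow, one_mul]
  have i2 : ∀ a, Integrable fun u => ‖g₁ u‖ * ‖h a u‖ ^ 2 := fun a =>
    hi0.mul_bdd (c := (∑ T ∈ (primeFactors a).powerset, ‖f₂ (L (pd T) / R)‖) ^ 2)
      ((hcont a).norm.pow 2).aestronglyMeasurable
      (Filter.Eventually.of_forall fun u => by
        rw [Real.norm_of_nonneg (by positivity)]
        exact pow_le_pow_left₀ (norm_nonneg _) (hbd a u) 2)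
  have hcs : ∀ a ∈ A, ‖bc L (fun y => f₂ (y / R) *
      Complex.exp (((τ * y : ℝ) : ℂ) * Complex.I)) (fun y => f₁ (y / R)) a‖ ^ 2 *
      Real.exp (-(σ * L a)) ≤
      (∫ u, ‖g₁ u‖) * ∫ u, ‖g₁ u‖ * (‖h a u‖ ^ 2 * Real.exp (-(σ * L a))) := by
    intro a _
    rw [hrep a]
    have e := cs_int hc hi0 (hcont a) (hbd a)
    have e2 : ∫ u, ‖g₁ u‖ * (‖h a u‖ ^ 2 * Real.exp (-(σ * L a))) =
        (∫ u, ‖g₁ u‖ * ‖h a u‖ ^ 2) * Real.exp (-(σ * L a)) := by
      rw [← integral_mul_const]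
      refine integral_congr_ae (Filter.Eventually.of_forall fun u => ?_)
      simp only
      ring
    rw [e2, ← mul_assoc]
    exact mul_le_mul_of_nonneg_right e (Real.exp_pos _).le
  refine (Finset.sum_le_sum hcs).trans ?_
  rw [← Finset.mul_sum, mul_assoc, mul_assoc]
  refine mul_le_mul_of_nonneg_left ?_ a3
  have i3 : ∀ a ∈ A, Integrable fun u => ‖g₁ u‖ * (‖h a u‖ ^ 2 * Real.exp (-(σ * L a))) := by
    intro a _
    refine ((i2 a).mul_const (Real.exp (-(σ * L a)))).congr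
      (Filter.Eventually.of_forall fun u => ?_)
    simp only
    ring
  rw [← integral_finsetSum _ i3]
  have e4 : (7 : ℝ) ^ k * (∫ u, (1 + |u|) ^ k * ‖g₁ u‖) * (C₂ * (1 + R * |τ|) ^ k) =
      ∫ u, ((1 + |u|) ^ k * ‖g₁ u‖) * ((7 : ℝ) ^ k * (C₂ * (1 + R * |τ|) ^ k)) := by
    rw [integral_mul_const]
    ring
  rw [e4]
  refine integral_mono (integrable_finsetSum _ i3) ((hi k).mul_const _) fun u => ?_
  simp only
  rw [← Finset.mul_sum]
  have e5 : ∑ a ∈ A, ‖h a u‖ ^ 2 * Real.exp (-(σ * L a)) ≤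
      C₂ * (1 + R * |τ - 2 * Real.pi * u / R|) ^ k := by
    rw [hC₂]
    refine le_trans (le_of_eq ?_) (step_one hL h₂ hk hR h1 h2 h3 (τ - 2 * Real.pi * u / R) A hA)
    refine Finset.sum_congr rfl fun a _ => ?_
    rw [hh]
    simp only
    rw [norm_mul, Complex.norm_exp_ofReal_mul_I, one_mul]
  have e6 : (1 + R * |τ - 2 * Real.pi * u / R|) ^ k ≤
      (7 : ℝ) ^ k * (1 + |u|) ^ k * (1 + R * |τ|) ^ k := by
    rw [← mul_pow, ← mul_pow]
    refine pow_le_pow_left₀ (by positivity) ?_ k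
    have b4 : R * |τ - 2 * Real.pi * u / R| ≤ R * |τ| + 6.4 * |u| := by
      have b5 : |τ - 2 * Real.pi * u / R| ≤ |τ| + |2 * Real.pi * u / R| := abs_sub _ _
      have b6 : |2 * Real.pi * u / R| = 2 * Real.pi * |u| / R := by
        rw [abs_div, abs_mul, abs_of_pos hR, abs_of_pos (by positivity : 0 < 2 * Real.pi)]
      rw [b6] at b5
      have b7 : R * (|τ| + 2 * Real.pi * |u| / R) = R * |τ| + 2 * Real.pi * |u| := by
        field_simp
      have b8 := mul_le_mul_of_nonneg_left b5 hR.le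
      rw [b7] at b8
      have b9 : 2 * Real.pi * |u| ≤ 6.4 * |u| := by
        have := Real.pi_lt_d2
        have := abs_nonneg u
        nlinarith
      linarith
    have c1 := abs_nonneg u
    have c2 : 0 ≤ R * |τ| := by positivity
    nlinarith [mul_nonneg c1 c2]
  have e7 : ‖g₁ u‖ * ∑ a ∈ A, ‖h a u‖ ^ 2 * Real.exp (-(σ * L a)) ≤
      ‖g₁ u‖ * (C₂ * ((7 : ℝ) ^ k * (1 + |u|) ^ k * (1 + R * |τ|) ^ k)) :=
    mul_le_mul_of_nonneg_left (e5.trans (mul_le_mul_of_nonneg_left e6 hC₂0)) (norm_nonneg _)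
  refine e7.trans (le_of_eq ?_)
  ring

end

end Pool.Agent.N786.D
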