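import Mathlib

/-!
# Sums of multiplicative functions over a monoid with unique factorisation (owner helper786)
-/

set_option autoImplicit false

open UniqueFactorizationMonoid

namespace Pool.Agent.N786.D

variable {M : Type} [CommMonoidWithZero M] [NormalizationMonoid M] [UniqueFactorizationMonoid M]
  [Subsingleton Mˣ]

lemma nf_prime {a p : M} (h : p ∈ primeFactors a) : Prime p :=
  prime_of_normalized_factor p (mem_primeFactors.mp h)

lemma nf_dvd {a p : M} (h : p ∈ primeFactors a) : p ∣ a :=
  dvd_of_mem_normalizedFactors (mem_primeFactors.mp h)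

lemma assoc_eq' {a b : M} (h : Associated a b) : a = b := associated_iff_eq.mp h

lemma nf_of {a p : M} (ha : a ≠ 0) (hp : Prime p) (h : p ∣ a) : p ∈ primeFactors a := by
  obtain ⟨q, hq, hpq⟩ := exists_mem_normalizedFactors_of_dvd ha hp.irreducible h
  rw [assoc_eq' hpq]
  exact mem_primeFactors.mpr hq

lemma nf_prime_self {p : M} (hp : Prime p) : primeFactors p = {p} := by
  ext q
  rw [Finset.mem_singleton]
  constructor
  · intro h
    exact assoc_eq' ((nf_prime h).associated_of_dvd hp (nf_dvd h))
  · rintro rfl
    exact nf_of hp.ne_zero hp dvd_rfl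

lemma nf_pow_mul [DecidableEq M] {p c : M} (hp : Prime p) (hc : c ≠ 0) (hpc : ¬ p ∣ c) {k : ℕ} (hk : k ≠ 0) :
    primeFactors (p ^ k * c) = insert p (primeFactors c) ∧ p ∉ primeFactors c := by
  classical
  refine ⟨?_, fun h => hpc (nf_dvd h)⟩
  rw [primeFactors_mul_eq_union (pow_ne_zero k hp.ne_zero) hc, primeFactors_pow p hk,
    nf_prime_self hp]
  rfl

/-- the Euler product bound -/
theorem euler_le (x c : M → ℝ) (hx1 : x 1 = 1) (hxm : ∀ a b, x (a * b) = x a * x b)
    (hx0 : ∀ a, 0 ≤ x a) (hc : ∀ a, 0 ≤ c a) (S : Finset M)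
    (hS : ∀ p ∈ S, Prime p) (hxS : ∀ p ∈ S, x p < 1) :
    ∀ A : Finset M, (∀ a ∈ A, a ≠ 0 ∧ primeFactors a ⊆ S) →
    ∑ a ∈ A, (∏ p ∈ primeFactors a, c p) * x a ≤ ∏ p ∈ S, (1 + c p * (x p / (1 - x p))) := by
  classical
  induction S using Finset.induction_on with
  | empty =>
    intro A hA
    have h1 : ∀ a ∈ A, a = 1 := by
      intro a ha
      obtain ⟨h2, h3⟩ := hA a ha
      rw [Finset.subset_empty, primeFactors_eq_empty_iff h2] at h3
      exact associated_iff_eq.mp (associated_one_iff_isUnit.mpr h3)
    rw [Finset.prod_empty]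
    calc ∑ a ∈ A, (∏ p ∈ primeFactors a, c p) * x a ≤
        ∑ a ∈ ({1} : Finset M), (∏ p ∈ primeFactors a, c p) * x a := by
          refine Finset.sum_le_sum_of_subset_of_nonneg (fun a ha => by
            rw [Finset.mem_singleton]; exact h1 a ha) fun a _ _ => ?_
          exact mul_nonneg (Finset.prod_nonneg fun p _ => hc p) (hx0 a)
      _ ≤ 1 := by rw [Finset.sum_singleton, primeFactors_one, Finset.prod_empty, hx1, mul_one]
  | insert p S hpS ih =>
    intro A hA
    have hp : Prime p := hS p (Finset.mem_insert_self _ _)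
    have hxp : x p < 1 := hxS p (Finset.mem_insert_self _ _)
    have hxpow : ∀ k, x (p ^ k) = x p ^ k := by
      intro k
      induction k with
      | zero => rw [pow_zero, pow_zero, hx1]
      | succ k ih => rw [pow_succ, hxm, ih, pow_succ]
    -- decomposition
    have hdec : ∀ a : M, ∃ kc : ℕ × M, a ≠ 0 → a = p ^ kc.1 * kc.2 ∧ ¬ p ∣ kc.2 := by
      intro a
      by_cases h : a = 0
      · exact ⟨(0, 0), fun h' => absurd h h'⟩
      · obtain ⟨v, d, hd, hd'⟩ := WfDvdMonoid.max_power_factor h hp.irreducible
        exact ⟨(v, d), fun _ => ⟨hd', hd⟩⟩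
    choose d hd using hdec
    set A' : Finset M := A.image fun a => (d a).2 with hA'
    set K : ℕ := (A.sup fun a => (d a).1) + 1 with hK
    set f : ℕ → ℝ := fun k => if k = 0 then 1 else c p * x p ^ k with hf
    set g : M → ℝ := fun a => (∏ q ∈ primeFactors a, c q) * x a with hg
    have hg0 : ∀ a, 0 ≤ g a := fun a => mul_nonneg (Finset.prod_nonneg fun p _ => hc p) (hx0 a)
    have hf0 : ∀ k, 0 ≤ f k := fun k => by
      rw [hf]
      simp only
      split_ifs
      · exact zero_le_one
      · exact mul_nonneg (hc p) (pow_nonneg (hx0 p) k)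
    have hA2 : ∀ a ∈ A, (d a).2 ≠ 0 := by
      intro a ha h
      obtain ⟨h1, h2⟩ := hd a (hA a ha).1
      rw [h, mul_zero] at h1
      exact (hA a ha).1 h1
    have hval : ∀ a ∈ A, g a = f (d a).1 * g (d a).2 := by
      intro a ha
      obtain ⟨h1, h2⟩ := hd a (hA a ha).1
      by_cases h0 : (d a).1 = 0
      · rw [h0, pow_zero, one_mul] at h1
        rw [← h1, h0, hf]
        simp
      · obtain ⟨h3, h4⟩ := nf_pow_mul hp (hA2 a ha) h2 h0
        rw [← h1] at h3
        rw [hg, hf]
        simp only
        have h5 : x a = x p ^ (d a).1 * x (d a).2 := by conv_lhs => rw [h1, hxm, hxpow]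
        rw [if_neg h0, h3, Finset.prod_insert h4, h5]
        ring
    have hinj : Set.InjOn d (A : Set M) := by
      intro a ha b hb hab
      rw [(hd a (hA a ha).1).1, (hd b (hA b hb).1).1, hab]
    calc ∑ a ∈ A, g a = ∑ a ∈ A, (fun kc : ℕ × M => f kc.1 * g kc.2) (d a) :=
          Finset.sum_congr rfl hval
      _ = ∑ kc ∈ A.image d, f kc.1 * g kc.2 := (Finset.sum_image (f := fun kc : ℕ × M => f kc.1 * g kc.2) hinj).symm
      _ ≤ ∑ kc ∈ (Finset.range K) ×ˢ A', f kc.1 * g kc.2 := by
          refine Finset.sum_le_sum_of_subset_of_nonneg ?_ fun kc _ _ =>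
            mul_nonneg (hf0 _) (hg0 _)
          intro kc hkc
          obtain ⟨a, ha, rfl⟩ := Finset.mem_image.mp hkc
          rw [Finset.mem_product, Finset.mem_range]
          refine ⟨Nat.lt_succ_of_le (Finset.le_sup (f := fun a : M => (d a).1) ha), ?_⟩
          exact Finset.mem_image_of_mem (fun a => (d a).2) ha
      _ = (∑ k ∈ Finset.range K, f k) * ∑ a ∈ A', g a := by
          rw [Finset.sum_product, Finset.sum_mul_sum]
      _ ≤ (1 + c p * (x p / (1 - x p))) * ∏ q ∈ S, (1 + c q * (x q / (1 - x q))) := by
          have h1 : ∑ k ∈ Finset.range K, f k ≤ 1 + c p * (x p / (1 - x p)) := by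
            rw [hK, Finset.sum_range_succ']
            have h2 : f 0 = 1 := by rw [hf]; simp
            have h3 : ∀ k, f (k + 1) = c p * (x p * x p ^ k) := fun k => by
              rw [hf]
              simp only
              rw [if_neg (Nat.succ_ne_zero k), pow_succ]
              ring
            rw [h2, Finset.sum_congr rfl fun k _ => h3 k, ← Finset.mul_sum, ← Finset.mul_sum,
              add_comm]
            have h4 : ∑ k ∈ Finset.range (A.sup fun a => (d a).1), x p ^ k ≤ (1 - x p)⁻¹ := by
              have h5 := (summable_geometric_of_lt_one (hx0 p) hxp).sum_le_tsum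
                (Finset.range (A.sup fun a => (d a).1)) fun k _ => pow_nonneg (hx0 p) k
              rwa [tsum_geometric_of_lt_one (hx0 p) hxp] at h5
            rw [div_eq_mul_inv]
            have := hc p
            have := hx0 p
            gcongr
          have h2 : ∑ a ∈ A', g a ≤ ∏ q ∈ S, (1 + c q * (x q / (1 - x q))) := by
            refine ih (fun q hq => hS q (Finset.mem_insert_of_mem hq))
              (fun q hq => hxS q (Finset.mem_insert_of_mem hq)) A' ?_
            intro b hb
            obtain ⟨a, ha, rfl⟩ := Finset.mem_image.mp hb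
            refine ⟨hA2 a ha, fun q hq => ?_⟩
            obtain ⟨h1, h2⟩ := hd a (hA a ha).1
            have h3 : q ∈ primeFactors a := by
              refine nf_of (hA a ha).1 (nf_prime hq) ?_
              rw [h1]
              exact (nf_dvd hq).mul_left _
            have h4 := (hA a ha).2 h3
            rw [Finset.mem_insert] at h4
            rcases h4 with rfl | h4
            · exact absurd (nf_dvd hq) h2
            · exact h4
          have h3 : 0 ≤ ∑ a ∈ A', g a := Finset.sum_nonneg fun a _ => hg0 a
          have h4 : 0 ≤ 1 + c p * (x p / (1 - x p)) := by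
            have := hc p
            have := hx0 p
            have : 0 < 1 - x p := by linarith
            positivity
          exact mul_le_mul h1 h2 h3 h4
      _ = _ := by rw [Finset.prod_insert hpS]

end Pool.Agent.N786.D
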