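import Pool.Agent.N786.D.Gra

/-!
# The symmetry of the zeros (owner helper786)
-/

set_option autoImplicit false
set_option linter.unusedSectionVars false

open Complex Filter Topology MeasureTheory Set
open H370.DL (refl analyticAt_refl order_refl)
open Pool.Agent.Y767 (GGn FEn)

namespace Pool.Agent.N786.D

lemma GGn_an {ι : Type} [Fintype ι] {R : ℝ} (hR : 0 < R) (e : ι → ℕ) (ν : ι → ℝ) {s : ℂ}
    (hs : 0 < s.re) : AnalyticAt ℂ (GGn R e ν) s ∧ GGn R e ν s ≠ 0 := by
  have hR0 : (R : ℂ) ≠ 0 := by exact_mod_cast hR.ne'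
  have hre : ∀ (z : ℂ) (i : ι), (z + e i + I * ν i).re = z.re + e i := fun z i => by simp
  have hd : DifferentiableOn ℂ (GGn R e ν) {z : ℂ | 0 < z.re} := by
    intro z hz
    refine DifferentiableAt.differentiableWithinAt ?_
    unfold GGn
    refine DifferentiableAt.mul ?_ ?_
    · exact (differentiableAt_id.div_const 2).const_cpow (Or.inl hR0)
    · refine DifferentiableAt.fun_finset_prod fun i _ => ?_
      have h1 : 0 < (z + e i + I * ν i).re := by
        rw [hre]
        have : (0 : ℝ) ≤ e i := Nat.cast_nonneg _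
        have hz' : 0 < z.re := hz
        linarith
      exact DifferentiableAt.comp z (Gammaℝ_diffAt h1) (by fun_prop)
  refine ⟨hd.analyticAt ((isOpen_lt continuous_const Complex.continuous_re).mem_nhds hs), ?_⟩
  unfold GGn
  refine mul_ne_zero (by rw [Ne, Complex.cpow_eq_zero_iff]; tauto) ?_
  refine Finset.prod_ne_zero_iff.mpr fun i _ => Gammaℝ_ne_zero_of_re_pos ?_
  rw [hre]
  have : (0 : ℝ) ≤ e i := Nat.cast_nonneg _
  linarith

/-- **the symmetry of the zeros** -/
theorem ord_symm {ι : Type} [Fintype ι] {R : ℝ} (hR : 0 < R) {e : ι → ℕ} {ν : ι → ℝ} {F : ℂ → ℂ}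
    (hF : FEn R e ν F) {z : ℂ} (h0 : 0 < z.re) (h1 : z.re < 1) :
    analyticOrderNatAt F z = analyticOrderNatAt F (1 - (starRingEnd ℂ) z) := by
  obtain ⟨w, hw, hfe⟩ := hF.fe
  have hw0 : w ≠ 0 := by
    intro h
    rw [h, norm_zero] at hw
    exact zero_ne_one hw
  set G : ℂ → ℂ := fun s => GGn R e ν s * F s with hG
  have hre : ∀ s : ℂ, (1 - (starRingEnd ℂ) s).re = 1 - s.re := fun s => by simp
  have hGa : ∀ s : ℂ, 0 < s.re → AnalyticAt ℂ G s := fun s hs =>
    (GGn_an hR e ν hs).1.mul (hF.diff.analyticAt s)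
  have hrefl : ∀ s : ℂ, s.re < 1 → AnalyticAt ℂ (refl G) s := fun s hs =>
    analyticAt_refl (hGa _ (by rw [hre]; linarith))
  have hall : ∀ s : ℂ, 0 < s.re → s.re < 1 → G s = w * refl G s := by
    intro s hs0 hs1
    have hmap : Tendsto (fun ε : ℝ => s + (ε : ℂ) * I) (𝓝[≠] 0) (𝓝 s) := by
      have h2 : Continuous fun ε : ℝ => s + (ε : ℂ) * I := by fun_prop
      have h3 := (h2.tendsto 0).mono_left (nhdsWithin_le_nhds (s := {0}ᶜ))
      simpa using h3
    have t1 := (hGa s hs0).continuousAt.tendsto.comp hmap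
    have t2 := ((hrefl s hs1).continuousAt.tendsto.const_mul w).comp hmap
    refine tendsto_nhds_unique (t1.congr' ?_) t2
    have hev : ∀ i : ι, ∀ᶠ ε : ℝ in 𝓝[≠] 0, s.im + ε + ν i ≠ 0 := by
      intro i
      by_cases h4 : s.im + ν i = 0
      · filter_upwards [self_mem_nhdsWithin] with ε hε h5
        exact hε (by simp only [mem_singleton_iff]; linarith)
      · have h5 : Tendsto (fun ε : ℝ => s.im + ε + ν i) (𝓝[≠] 0) (𝓝 (s.im + ν i)) := by
          have h6 : Continuous fun ε : ℝ => s.im + ε + ν i := by fun_prop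
          have h7 := (h6.tendsto 0).mono_left (nhdsWithin_le_nhds (s := {0}ᶜ))
          simpa using h7
        exact h5.eventually_ne h4
    filter_upwards [eventually_all.mpr hev] with ε hε
    have h5 := hfe (s + (ε : ℂ) * I) (fun i => by
      have : (s + (ε : ℂ) * I).im = s.im + ε := by simp
      rw [this]
      exact hε i)
    exact h5
  have hnear : G =ᶠ[𝓝 z] fun s => w * refl G s := by
    have h2 : {s : ℂ | 0 < s.re ∧ s.re < 1} ∈ 𝓝 z :=
      ((isOpen_lt continuous_const Complex.continuous_re).inter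
        (isOpen_lt Complex.continuous_re continuous_const)).mem_nhds ⟨h0, h1⟩
    filter_upwards [h2] with s hs
    exact hall s hs.1 hs.2
  have hord : ∀ s : ℂ, 0 < s.re → analyticOrderAt G s = analyticOrderAt F s := by
    intro s hs
    obtain ⟨a1, a2⟩ := GGn_an hR e ν hs
    have h3 : analyticOrderAt (GGn R e ν * F) s = analyticOrderAt F s := by
      rw [analyticOrderAt_mul a1 (hF.diff.analyticAt s), a1.analyticOrderAt_eq_zero.mpr a2, zero_add]
    exact h3
  have h5 : analyticOrderAt G z = analyticOrderAt G (1 - (starRingEnd ℂ) z) := by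
    rw [analyticOrderAt_congr hnear]
    have h6 : analyticOrderAt ((fun _ => w) * refl G) z = analyticOrderAt (refl G) z := by
      rw [analyticOrderAt_mul analyticAt_const (hrefl z h1),
        analyticAt_const.analyticOrderAt_eq_zero.mpr hw0, zero_add]
    refine Eq.trans h6 ?_
    exact order_refl (hGa _ (by rw [hre]; linarith))
  unfold analyticOrderNatAt
  rw [← hord z h0, h5, hord _ (by rw [hre]; linarith)]

end Pool.Agent.N786.D
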