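import Pool.Agent.N786.D.Tri
import Pool.Agent.N786.D.Rfl
import Pool.Agent.N786.Pro

/-!
# The density theorem for the families (owner helper786)
-/

set_option autoImplicit false
set_option linter.unusedSectionVars false

open NumberField NumberField.Units MeasureTheory Complex Filter Topology Set

namespace Pool.Agent.N786.D

open Pool.Agent.N786
open Pool.Agent.Y773 (LI)
open Pool.Agent.Y767
open Pool.Agent.Y772.HC
open Pool.Agent.R399.TW (pt pt_re pt_im pt_cont)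

/-- an exponential beats a power -/
lemma thr_exists (C g : ℝ) (n : ℕ) (hC : 0 < C) (hg : 0 < g) :
    ∃ R₀ : ℝ, ∀ R : ℝ, R₀ ≤ R → (C * (4 * R + 2 * Real.pi)) ^ n < Real.exp (g * R) := by
  have h3 : Tendsto (fun x : ℝ => x ^ n * Real.exp (-(g / 4 * x))) atTop (𝓝 0) := by
    have h4 := tendsto_rpow_mul_exp_neg_mul_atTop_nhds_zero (n : ℝ) (g / 4) (by positivity)
    refine h4.congr fun x => ?_
    rw [Real.rpow_natCast]
    congr 2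
    ring
  have hlin : Tendsto (fun R : ℝ => 4 * R + 2 * Real.pi) atTop atTop :=
    tendsto_atTop_add_const_right _ _ (tendsto_id.const_mul_atTop (by norm_num))
  have h5 := (h3.comp hlin).const_mul (C ^ n * Real.exp (g / 2 * Real.pi))
  rw [mul_zero] at h5
  obtain ⟨R₀, h6⟩ := (h5.eventually (Iio_mem_nhds (show (0 : ℝ) < 1 by norm_num))).exists_forall_of_atTop
  refine ⟨R₀, fun R hR => ?_⟩
  have h7 := h6 R hR
  simp only [Function.comp_apply] at h7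
  have e1 : C ^ n * Real.exp (g / 2 * Real.pi) * ((4 * R + 2 * Real.pi) ^ n *
      Real.exp (-(g / 4 * (4 * R + 2 * Real.pi)))) =
      (C * (4 * R + 2 * Real.pi)) ^ n * Real.exp (-(g * R)) := by
    have e2 : Real.exp (-(g / 4 * (4 * R + 2 * Real.pi))) =
        Real.exp (-(g * R)) * Real.exp (-(g / 2 * Real.pi)) := by
      rw [← Real.exp_add]; congr 1; ring
    have e3 : Real.exp (g / 2 * Real.pi) * Real.exp (-(g / 2 * Real.pi)) = 1 := by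
      rw [← Real.exp_add, add_neg_cancel, Real.exp_zero]
    rw [e2, mul_pow]
    calc _ = C ^ n * (4 * R + 2 * Real.pi) ^ n * Real.exp (-(g * R)) *
        (Real.exp (g / 2 * Real.pi) * Real.exp (-(g / 2 * Real.pi))) := by ring
      _ = _ := by rw [e3, mul_one]
  rw [e1, Real.exp_neg, mul_inv_lt_iff₀ (Real.exp_pos _), one_mul] at h7
  exact h7

section

variable {K : Type} [Field K] [NumberField K] [IsTotallyReal K]

/-- the analytic input for one L-function -/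
lemma gl_of {A₀ : ℝ} (hA₀ : 1 ≤ A₀) {𝔪 : Ideal (𝓞 K)} {ν : InfinitePlace K → ℝ}
    {ψ : Ideal (𝓞 K) →*₀ ℂ} {F : ℂ → ℂ} (h : IsLf K 𝔪 ν ψ F) {T : ℝ} (hT : 1 ≤ T)
    (hg : (∀ s : ℂ, 1 / 16 ≤ s.re → ‖F s‖ ≤
      A₀ * Ideal.absNorm 𝔪 * (2 + 2 * T + |s.im|) ^ Module.finrank ℚ K) ∧
    (∀ s : ℂ, 3 / 2 ≤ s.re → ‖F s‖ ≤ A₀) ∧
    (∀ s : ℂ, 2 ≤ s.re → A₀⁻¹ ≤ ‖F s‖) ∧
    (∀ δ : ℝ, 0 < δ → δ ≤ 1 / 4 → ∀ τ : ℝ, ‖F (pt (1 / 2 - δ) τ)‖ ≤
      A₀ * (Ideal.absNorm 𝔪 * (1 + 2 * T + |τ|) ^ Module.finrank ℚ K) ^ δ *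
        ‖F (pt (1 / 2 + δ) τ)‖)) :
    GLf (A₀ * 4 ^ Module.finrank ℚ K) T
      (Real.log ((Ideal.absNorm 𝔪 : ℝ) * T ^ Module.finrank ℚ K)) (Module.finrank ℚ K) ψ F := by
  obtain ⟨n, hn⟩ : ∃ n : ℕ, n = Module.finrank ℚ K := ⟨_, rfl⟩
  rw [← hn] at hg ⊢
  obtain ⟨g1, g2, g3, g4⟩ := hg
  have hT0 : 0 < T := by linarith
  have hN1 := one_le_norm h.hk.ne_bot
  have h4 : (1 : ℝ) ≤ 4 ^ n := one_le_pow₀ (by norm_num)
  have hA1 : A₀ ≤ A₀ * 4 ^ n := le_mul_of_one_le_right (by linarith) h4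
  obtain ⟨e₀, he₀, hM⟩ := h.hk.toIsHM.isModK h.sum0 h.top
  have hC0 : 0 < (Ideal.absNorm 𝔪 : ℝ) * T ^ n := by positivity
  have hexp : Real.exp (Real.log ((Ideal.absNorm 𝔪 : ℝ) * T ^ n)) =
      (Ideal.absNorm 𝔪 : ℝ) * T ^ n := Real.exp_log hC0
  have hkey : ∀ y : ℝ, 0 ≤ y → 2 + 2 * T + y ≤ 4 * (T * (1 + y / T)) := by
    intro y hy
    have : T * (1 + y / T) = T + y := by field_simp
    rw [this]
    linarith
  refine ⟨h.diff, h.ser, hM.norm_le_one, ?_, fun s hs => (g2 s hs).trans hA1, ?_, ?_⟩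
  · intro s hs
    refine (g1 s hs).trans ?_
    rw [hexp]
    calc A₀ * Ideal.absNorm 𝔪 * (2 + 2 * T + |s.im|) ^ n ≤
        A₀ * Ideal.absNorm 𝔪 * (4 * (T * (1 + |s.im| / T))) ^ n := by
          gcongr
          exact hkey _ (abs_nonneg _)
      _ = _ := by rw [mul_pow, mul_pow]; ring
  · intro s hs
    exact (inv_anti₀ (by linarith) hA1).trans (g3 s hs)
  · intro δ hδ0 hδ1 τ
    refine (g4 δ hδ0 hδ1 τ).trans (mul_le_mul_of_nonneg_right ?_ (norm_nonneg _))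
    have h1 : (Ideal.absNorm 𝔪 : ℝ) * (1 + 2 * T + |τ|) ^ n ≤
        4 ^ n * (((Ideal.absNorm 𝔪 : ℝ) * T ^ n) * (1 + |τ| / T) ^ n) := by
      calc (Ideal.absNorm 𝔪 : ℝ) * (1 + 2 * T + |τ|) ^ n ≤
          (Ideal.absNorm 𝔪 : ℝ) * (4 * (T * (1 + |τ| / T))) ^ n := by
            gcongr
            linarith [hkey _ (abs_nonneg τ)]
        _ = _ := by rw [mul_pow, mul_pow]; ring
    have h2 : ((Ideal.absNorm 𝔪 : ℝ) * (1 + 2 * T + |τ|) ^ n) ^ δ ≤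
        4 ^ n * (Real.exp (Real.log ((Ideal.absNorm 𝔪 : ℝ) * T ^ n) * δ) *
          (1 + |τ| / T) ^ ((n : ℝ) * δ)) := by
      refine (Real.rpow_le_rpow (by positivity) h1 hδ0.le).trans ?_
      rw [Real.mul_rpow (by positivity) (by positivity), Real.mul_rpow (by positivity)
        (by positivity)]
      have e1 : ((Ideal.absNorm 𝔪 : ℝ) * T ^ n) ^ δ =
          Real.exp (Real.log ((Ideal.absNorm 𝔪 : ℝ) * T ^ n) * δ) := by
        rw [Real.rpow_def_of_pos hC0]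
      have e2 : ((1 + |τ| / T) ^ n) ^ δ = (1 + |τ| / T) ^ ((n : ℝ) * δ) := by
        rw [← Real.rpow_natCast, ← Real.rpow_mul (by positivity)]
      have e3 : ((4 : ℝ) ^ n) ^ δ ≤ 4 ^ n := by
        calc ((4 : ℝ) ^ n) ^ δ ≤ ((4 : ℝ) ^ n) ^ (1 : ℝ) :=
              Real.rpow_le_rpow_of_exponent_le h4 (by linarith)
          _ = _ := Real.rpow_one _
      rw [e1, e2]
      exact mul_le_mul_of_nonneg_right e3 (by positivity)
    calc A₀ * ((Ideal.absNorm 𝔪 : ℝ) * (1 + 2 * T + |τ|) ^ n) ^ δ ≤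
        A₀ * (4 ^ n * (Real.exp (Real.log ((Ideal.absNorm 𝔪 : ℝ) * T ^ n) * δ) *
          (1 + |τ| / T) ^ ((n : ℝ) * δ))) := mul_le_mul_of_nonneg_left h2 (by linarith)
      _ = _ := by ring

end

/-- **The density theorem for the families**, zeros to the right of the critical line -/
theorem dens_fam (K : Type) [Field K] [NumberField K] [IsTotallyReal K] (h c : ℝ)
    (hh1 : h ≤ 1) (hc0 : 0 < c) (hc : c < 2 * h - 1) :
    ∃ A V₀ : ℝ, 0 ≤ A ∧ 1 ≤ V₀ ∧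
    ∀ (𝔣 𝔮 : Ideal (𝓞 K)) (ν₀ : InfinitePlace K → ℝ) (ψ₀ : Ideal (𝓞 K) →*₀ ℂ) (V T : ℝ),
    IsHecke K 𝔣 ν₀ ψ₀ → ∑ w, ν₀ w = 0 → IsCoprime 𝔣 𝔮 → 𝔮 ≠ ⊥ → 𝔣 * 𝔮 ≠ ⊤ →
    V₀ ≤ V → V ≤ T → (∀ w, |ν₀ w| ≤ T) →
    ((Ideal.absNorm (𝔣 * 𝔮) : ℝ) * T ^ Module.finrank ℚ K) ^ h ≤
      (Ideal.absNorm 𝔮 : ℝ) * V ^ Module.finrank ℚ K →
    ∀ (S : Finset (Ideal (𝓞 K) →*₀ ℂ)) (Lf : (Ideal (𝓞 K) →*₀ ℂ) → ℂ → ℂ),
      (∀ lam ∈ S, lam ∈ HFam K 𝔮 V) →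
      (∀ lam ∈ S, Differentiable ℂ (Lf lam) ∧
        ∀ s : ℂ, 1 < s.re → Lf lam s = LI (pr ψ₀ lam) s) →
      (S.card * V ≤ A * ((Ideal.absNorm 𝔮 : ℝ) * V ^ Module.finrank ℚ K)) ∧
      ∀ t₁ : ℝ, |t₁| ≤ T → ∀ δ : ℝ, 0 ≤ δ → ∀ Z : (Ideal (𝓞 K) →*₀ ℂ) → Finset ℂ,
      (∀ lam ∈ S, ∀ z ∈ Z lam, 1 / 2 + δ ≤ z.re ∧ t₁ ≤ z.im ∧ z.im ≤ t₁ + V) →
      ∑ lam ∈ S, ∑ z ∈ Z lam, (analyticOrderNatAt (Lf lam) z : ℝ) ≤
        A * ((Ideal.absNorm 𝔮 : ℝ) * V ^ Module.finrank ℚ K *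
          Real.log ((Ideal.absNorm (𝔣 * 𝔮) : ℝ) * T ^ Module.finrank ℚ K) *
          ((Ideal.absNorm (𝔣 * 𝔮) : ℝ) * T ^ Module.finrank ℚ K) ^ (-(c * δ))) := by
  classical
  obtain ⟨n, hn⟩ : ∃ n : ℕ, n = Module.finrank ℚ K := ⟨_, rfl⟩
  have hn0 : 1 ≤ n := by rw [hn]; exact Module.finrank_pos
  obtain ⟨g, hg⟩ : ∃ g : ℝ, g = (2 * h - 1 - c) / 12 := ⟨_, rfl⟩
  have hg0 : 0 < g := by rw [hg]; linarith
  obtain ⟨φ, hφ⟩ := cut_exists (a := 1 / 2 + 2 * g) (b := 1 / 2 + 3 * g) (by linarith) (by linarith)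
  obtain ⟨θ, hθ⟩ := cut_exists (a := c / 2 + g) (b := c / 2 + 2 * g) (by linarith) (by linarith)
  obtain ⟨A₀, hA₀, hgrow⟩ := grow_all K
  obtain ⟨A₁, hA₁, hD⟩ := Pool.Agent.Y772.DK.t_dirK K
  have h4 : (1 : ℝ) ≤ 4 ^ n := one_le_pow₀ (by norm_num)
  obtain ⟨Q, R₀, hQ, hR₀, hmain⟩ := dens_all K (A := A₀ * 4 ^ n) hφ hθ
    (α' := 1 / 2 + g) (β' := c / 2) (by linarith) (by linarith) (by linarith) (by linarith)
    (by linarith) (by linarith) (by linarith) (by linarith)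
    (one_le_mul_of_one_le_of_one_le hA₀ h4) n hn0
  obtain ⟨V₁, A₂, C, hV₁, hA₂, hC, hls⟩ := ls_fam K
  obtain ⟨R₂, hR₂⟩ := thr_exists C g n (by linarith) hg0
  refine ⟨max A₂ (Q * A₂), max V₁ (Real.exp (max R₀ R₂)), by positivity, le_max_of_le_left hV₁, ?_⟩
  intro 𝔣 𝔮 ν₀ ψ₀ V T hψ hs₀ hcop h𝔮 htop hV hVT hνT hX S Lf hS hLf
  rw [← hn] at hX ⊢
  have hbot : 𝔣 * 𝔮 ≠ ⊥ := mul_ne_zero hψ.ne_bot h𝔮
  have hV1 : V₁ ≤ V := (le_max_left _ _).trans hV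
  have hVge : 1 ≤ V := hV₁.trans hV1
  have hV0 : 0 < V := by linarith
  have hT : 1 ≤ T := hVge.trans hVT
  have hT0 : 0 < T := by linarith
  obtain ⟨N, hN⟩ : ∃ N : ℝ, N = (Ideal.absNorm (𝔣 * 𝔮) : ℝ) := ⟨_, rfl⟩
  have hN1 : 1 ≤ N := by rw [hN]; exact one_le_norm hbot
  rw [← hN] at hX ⊢
  obtain ⟨R, hR⟩ : ∃ R : ℝ, R = Real.log (N * T ^ n) := ⟨_, rfl⟩
  have hC0 : 0 < N * T ^ n := by positivity
  have hexpR : Real.exp R = N * T ^ n := by rw [hR, Real.exp_log hC0]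
  have hTC : T ≤ N * T ^ n := by
    calc T = 1 * T ^ 1 := by ring
      _ ≤ N * T ^ n := by
          have := pow_le_pow_right₀ hT hn0
          gcongr
  have hRlog : max R₀ R₂ ≤ R := by
    rw [hR, Real.le_log_iff_exp_le hC0]
    exact ((le_max_right _ _).trans hV).trans (hVT.trans hTC)
  have hRR0 : R₀ ≤ R := (le_max_left _ _).trans hRlog
  have hRR2 : R₂ ≤ R := (le_max_right _ _).trans hRlog
  have hR1 : 1 ≤ R := hR₀.trans hRR0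
  have hR0 : 0 < R := by linarith
  have hpi := Real.pi_pos
  obtain ⟨P, hP⟩ : ∃ P : ℝ, P = A₂ * ((Ideal.absNorm 𝔮 : ℝ) * V ^ n) := ⟨_, rfl⟩
  have hNq1 : (1 : ℝ) ≤ (Ideal.absNorm 𝔮 : ℝ) := one_le_norm h𝔮
  -- the large sieve
  obtain ⟨M₁, hM₁⟩ : ∃ M₁ : ℕ, M₁ = ⌊Real.exp ((1 / 2 + 3 * g) * R)⌋₊ := ⟨_, rfl⟩
  obtain ⟨M₂, hM₂⟩ : ∃ M₂ : ℕ, M₂ = ⌊Real.exp ((c / 2 + 2 * g) * R)⌋₊ := ⟨_, rfl⟩
  have hMM : ((M₁ * M₂ : ℕ) : ℝ) ≤ Real.exp ((h - g) * R) := by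
    have h1 : (M₁ : ℝ) ≤ Real.exp ((1 / 2 + 3 * g) * R) := by
      rw [hM₁]; exact Nat.floor_le (Real.exp_pos _).le
    have h2 : (M₂ : ℝ) ≤ Real.exp ((c / 2 + 2 * g) * R) := by
      rw [hM₂]; exact Nat.floor_le (Real.exp_pos _).le
    push_cast
    refine (mul_le_mul h1 h2 (Nat.cast_nonneg _) (Real.exp_pos _).le).trans (le_of_eq ?_)
    rw [← Real.exp_add]
    congr 1
    rw [hg]
    ring
  have hMpos : 1 ≤ M₁ * M₂ := by
    have h1 : 1 ≤ M₁ := by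
      rw [hM₁]
      refine Nat.le_floor ?_
      rw [Nat.cast_one]
      exact Real.one_le_exp (by positivity)
    have h2 : 1 ≤ M₂ := by
      rw [hM₂]
      refine Nat.le_floor ?_
      rw [Nat.cast_one]
      exact Real.one_le_exp (by positivity)
    exact Nat.mul_pos h1 h2
  have hlogM : Real.log ((M₁ * M₂ : ℕ) : ℝ) ≤ R := by
    have h1 : 0 < ((M₁ * M₂ : ℕ) : ℝ) := by exact_mod_cast hMpos
    refine (Real.log_le_log h1 hMM).trans ?_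
    rw [Real.log_exp]
    nlinarith
  have hlen : (C * ((4 * R + 2 * Real.pi) / V)) ^ n * ((M₁ * M₂ : ℕ) : ℝ) < Ideal.absNorm 𝔮 := by
    have h1 : (C * (4 * R + 2 * Real.pi)) ^ n * ((M₁ * M₂ : ℕ) : ℝ) <
        (Ideal.absNorm 𝔮 : ℝ) * V ^ n := by
      have h2 : Real.exp (h * R) ≤ (Ideal.absNorm 𝔮 : ℝ) * V ^ n := by
        refine le_trans (le_of_eq ?_) hX
        rw [← hexpR, ← Real.exp_mul, mul_comm]
      refine lt_of_lt_of_le ?_ h2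
      have h3 := hR₂ R hRR2
      have h5 : 0 < Real.exp ((h - g) * R) := Real.exp_pos _
      calc (C * (4 * R + 2 * Real.pi)) ^ n * ((M₁ * M₂ : ℕ) : ℝ) ≤
          (C * (4 * R + 2 * Real.pi)) ^ n * Real.exp ((h - g) * R) :=
            mul_le_mul_of_nonneg_left hMM (by positivity)
        _ < Real.exp (g * R) * Real.exp ((h - g) * R) := mul_lt_mul_of_pos_right h3 h5
        _ = Real.exp (h * R) := by rw [← Real.exp_add]; congr 1; ring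
    have h6 : (C * ((4 * R + 2 * Real.pi) / V)) ^ n * V ^ n =
        (C * (4 * R + 2 * Real.pi)) ^ n := by
      rw [← mul_pow]
      congr 1
      field_simp
    have h7 : 0 < V ^ n := by positivity
    have h8 : (C * ((4 * R + 2 * Real.pi) / V)) ^ n * ((M₁ * M₂ : ℕ) : ℝ) * V ^ n <
        (Ideal.absNorm 𝔮 : ℝ) * V ^ n := by
      calc _ = ((C * ((4 * R + 2 * Real.pi) / V)) ^ n * V ^ n) * ((M₁ * M₂ : ℕ) : ℝ) := by ring
        _ < _ := by rw [h6]; exact h1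
    exact lt_of_mul_lt_mul_right h8 h7.le
  have hLSP : LSP S ψ₀ V P (M₁ * M₂) := by
    intro u t₁
    rw [hP]
    have := hls 𝔣 𝔮 hcop htop hbot V hV1 ν₀ ψ₀ hs₀ hψ.toIsHM S hS (4 * R + 2 * Real.pi)
      (M₁ * M₂) (by linarith) (by linarith) (by rw [← hn]; exact hlen) u t₁
    rw [← hn] at this
    exact this
  have hcardP : (S.card : ℝ) * V ≤ P := by
    have h1 := hLSP (fun 𝔞 => if 𝔞 = 1 then 1 else 0) 0
    have hmem : (1 : Ideal (𝓞 K)) ∈ SI K (M₁ * M₂) := by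
      refine SI_of one_ne_zero ?_
      rw [map_one]
      exact hMpos
    have e1 : ∀ lam ∈ S, ∫ t in (0 : ℝ)..(0 + V), ‖∑ 𝔞 ∈ SI K (M₁ * M₂),
        (if 𝔞 = 1 then (1 : ℂ) else 0) * pr ψ₀ lam 𝔞 * ph 𝔞 t‖ ^ 2 = V := by
      intro lam _
      have e2 : ∀ t : ℝ, ‖∑ 𝔞 ∈ SI K (M₁ * M₂),
          (if 𝔞 = 1 then (1 : ℂ) else 0) * pr ψ₀ lam 𝔞 * ph 𝔞 t‖ ^ 2 = 1 := by
        intro t
        rw [Finset.sum_eq_single (1 : Ideal (𝓞 K))]
        · rw [if_pos rfl, map_one]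
          unfold ph
          rw [map_one]
          simp
        · intro 𝔟 _ hb
          rw [if_neg hb, zero_mul, zero_mul]
        · intro h'
          exact absurd hmem h'
      simp_rw [e2]
      rw [intervalIntegral.integral_const, smul_eq_mul]
      ring
    rw [Finset.sum_congr rfl e1, Finset.sum_const, nsmul_eq_mul] at h1
    have e3 : ∑ 𝔞 ∈ SI K (M₁ * M₂), ‖(if 𝔞 = 1 then (1 : ℂ) else 0)‖ ^ 2 = 1 := by
      rw [Finset.sum_eq_single (1 : Ideal (𝓞 K))]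
      · rw [if_pos rfl, norm_one, one_pow]
      · intro 𝔟 _ hb
        rw [if_neg hb, norm_zero]
        norm_num
      · intro h'
        exact absurd hmem h'
    rw [e3, mul_one] at h1
    exact h1
  have hP0 : 0 ≤ P := by rw [hP]; positivity
  constructor
  · refine hcardP.trans ?_
    rw [hP]
    exact mul_le_mul_of_nonneg_right (le_max_left _ _) (by positivity)
  intro t₁ ht₁ δ hδ Z hZ
  -- the functions
  set F : (Ideal (𝓞 K) →*₀ ℂ) → ℂ → ℂ := fun lam => if lam ∈ S then Lf lam else fun _ => 0 with hF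
  have hFS : ∀ lam ∈ S, F lam = Lf lam := fun lam hl => by simp only [hF]; rw [if_pos hl]
  have hFd : ∀ lam, Differentiable ℂ (F lam) := by
    intro lam
    by_cases hl : lam ∈ S
    · rw [hFS lam hl]
      exact (hLf lam hl).1
    · simp only [hF]
      rw [if_neg hl]
      exact differentiable_const _
  have hinfo : ∀ lam ∈ S, ∃ ν : InfinitePlace K → ℝ, (∀ w, |ν w| ≤ 2 * T) ∧
      IsLf K (𝔣 * 𝔮) ν (pr ψ₀ lam) (F lam) := by
    intro lam hl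
    obtain ⟨ν, a1, a2, a3⟩ := hS lam hl
    refine ⟨ν₀ + ν, fun w => ?_, htop, ?_, pr_isHecke hcop hψ a3, hFd lam, ?_⟩
    · rw [Pi.add_apply]
      refine (abs_add_le _ _).trans ?_
      linarith [hνT w, a1 w]
    · simp only [Pi.add_apply]
      rw [Finset.sum_add_distrib, hs₀, a2, add_zero]
    · rw [hFS lam hl]
      exact (hLf lam hl).2
  have hGL : ∀ lam ∈ S, GLf (A₀ * 4 ^ n) T R n (pr ψ₀ lam) (F lam) := by
    intro lam hl
    obtain ⟨ν, b1, b2⟩ := hinfo lam hl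
    have h1 := hgrow (𝔣 * 𝔮) ν (pr ψ₀ lam) (F lam) b2 (2 * T) (by linarith) b1
    have h2 := gl_of hA₀ b2 hT h1
    rw [← hn, ← hN, ← hR] at h2
    exact h2
  have hnv : ∀ lam ∈ S, ∀ s : ℂ, 1 < s.re → F lam s ≠ 0 := by
    intro lam hl s hs
    have h1 := hGL lam hl
    rw [h1.ser s hs]
    exact (hD (pr ψ₀ lam) h1.le1).2.2.1 s hs
  rw [hM₁, hM₂] at hLSP
  have hfin := hmain R T V P S ψ₀ F hRR0 hVge hVT hcardP hLSP hFd hGL hnv t₁ ht₁ δ hδ Z hZ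
  have e1 : ∑ lam ∈ S, ∑ z ∈ Z lam, (analyticOrderNatAt (Lf lam) z : ℝ) =
      ∑ lam ∈ S, ∑ z ∈ Z lam, (analyticOrderNatAt (F lam) z : ℝ) :=
    Finset.sum_congr rfl fun lam hl => by rw [hFS lam hl]
  rw [e1]
  refine hfin.trans ?_
  have e2 : (N * T ^ n) ^ (-(c * δ)) = Real.exp (-(2 * (c / 2) * R * δ)) := by
    rw [Real.rpow_def_of_pos hC0, ← hR]
    congr 1
    ring
  rw [e2, ← hR, hP]
  calc Q * (A₂ * ((Ideal.absNorm 𝔮 : ℝ) * V ^ n) * R * Real.exp (-(2 * (c / 2) * R * δ))) =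
      Q * A₂ * ((Ideal.absNorm 𝔮 : ℝ) * V ^ n * R * Real.exp (-(2 * (c / 2) * R * δ))) := by ring
    _ ≤ _ := mul_le_mul_of_nonneg_right (le_max_right _ _) (by positivity)

end Pool.Agent.N786.D
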