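import Pool.Agent.N786.D.Fin2

/-!
# The density theorem for the families, both sides of the critical line (owner helper786)
-/

set_option autoImplicit false
set_option linter.unusedSectionVars false

open NumberField NumberField.Units MeasureTheory Complex Filter Topology Set

namespace Pool.Agent.N786.D

open Pool.Agent.N786
open Pool.Agent.Y773 (LI)
open Pool.Agent.Y767
open Pool.Agent.Y772.HC

/-- the zeros in the open critical strip with `T₁ < Im s ≤ T₂` and `|Re s - 1/2| ≥ δ` -/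
def farZ (F : ℂ → ℂ) (δ T₁ T₂ : ℝ) : Set ℂ :=
  {s : ℂ | 0 < s.re ∧ s.re < 1 ∧ T₁ < s.im ∧ s.im ≤ T₂ ∧ F s = 0 ∧ δ ≤ |s.re - 1 / 2|}

/-- their number, with multiplicity -/
noncomputable def Nfar (F : ℂ → ℂ) (δ T₁ T₂ : ℝ) : ℕ :=
  ∑ᶠ s ∈ farZ F δ T₁ T₂, analyticOrderNatAt F s

/-- the order at a zero is positive -/
lemma ord_pos {F : ℂ → ℂ} (hF : Differentiable ℂ F) {w : ℂ} (hw : F w ≠ 0) {z : ℂ} (hz : F z = 0) :
    1 ≤ analyticOrderNatAt F z := by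
  have hA : AnalyticOnNhd ℂ F univ := fun z _ => hF.analyticAt z
  have h1 : analyticOrderAt F w ≠ ⊤ := by
    rw [(hF.analyticAt w).analyticOrderAt_eq_zero.mpr hw]
    exact ENat.zero_ne_top
  have h2 : analyticOrderAt F z ≠ ⊤ :=
    hA.analyticOrderAt_ne_top_of_isPreconnected isPreconnected_univ (mem_univ w) (mem_univ z) h1
  have h3 : analyticOrderAt F z ≠ 0 := by
    rw [Ne, (hF.analyticAt z).analyticOrderAt_eq_zero]
    exact fun h => h hz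
  unfold analyticOrderNatAt
  rw [Nat.one_le_iff_ne_zero, Ne, ENat.toNat_eq_zero]
  tauto

/-- a set whose finite subsets have bounded size is finite -/
lemma finite_of_card {α : Type} {s : Set α} {B : ℝ}
    (h : ∀ t : Finset α, (∀ x ∈ t, x ∈ s) → (t.card : ℝ) ≤ B) : s.Finite := by
  by_contra hs
  have hinf : s.Infinite := hs
  obtain ⟨t, ht, hc⟩ := hinf.exists_subset_card_eq (⌊B⌋₊ + 1)
  have h1 := h t fun x hx => ht hx
  rw [hc] at h1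
  have h2 := Nat.lt_floor_add_one B
  push_cast at h1
  linarith

theorem dens_two (K : Type) [Field K] [NumberField K] [IsTotallyReal K] (h c : ℝ)
    (hh1 : h ≤ 1) (hc0 : 0 < c) (hc : c < 2 * h - 1) :
    ∃ A V₀ : ℝ, 0 ≤ A ∧ 1 ≤ V₀ ∧
    ∀ (𝔣 𝔮 : Ideal (𝓞 K)) (ν₀ : InfinitePlace K → ℝ) (ψ₀ : Ideal (𝓞 K) →*₀ ℂ) (V T : ℝ),
    IsHecke K 𝔣 ν₀ ψ₀ → ∑ w, ν₀ w = 0 → IsCoprime 𝔣 𝔮 → 𝔮 ≠ ⊥ → 𝔣 * 𝔮 ≠ ⊤ →
    V₀ ≤ V → V ≤ T → (∀ w, |ν₀ w| ≤ T) →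
    ((Ideal.absNorm (𝔣 * 𝔮) : ℝ) * T ^ Module.finrank ℚ K) ^ h ≤
      (Ideal.absNorm 𝔮 : ℝ) * V ^ Module.finrank ℚ K →
    (HFam K 𝔮 V).Finite ∧
    ((HFam K 𝔮 V).ncard * V ≤ A * ((Ideal.absNorm 𝔮 : ℝ) * V ^ Module.finrank ℚ K)) ∧
    ∀ (Lf : (Ideal (𝓞 K) →*₀ ℂ) → ℂ → ℂ),
      (∀ lam ∈ HFam K 𝔮 V, Differentiable ℂ (Lf lam) ∧
        ∀ s : ℂ, 1 < s.re → Lf lam s = LI (pr ψ₀ lam) s) →
      ∀ t₁ : ℝ, |t₁| ≤ T → ∀ δ : ℝ, 0 ≤ δ →
      (∀ lam ∈ HFam K 𝔮 V, (farZ (Lf lam) δ t₁ (t₁ + V)).Finite) ∧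
      ∑ᶠ lam ∈ HFam K 𝔮 V, (Nfar (Lf lam) δ t₁ (t₁ + V) : ℝ) ≤
        A * ((Ideal.absNorm 𝔮 : ℝ) * V ^ Module.finrank ℚ K *
          Real.log ((Ideal.absNorm (𝔣 * 𝔮) : ℝ) * T ^ Module.finrank ℚ K) *
          ((Ideal.absNorm (𝔣 * 𝔮) : ℝ) * T ^ Module.finrank ℚ K) ^ (-(c * δ))) := by
  classical
  obtain ⟨A, V₀, hA, hV₀, H⟩ := dens_fam K h c hh1 hc0 hc
  obtain ⟨A₁, hA₁, hD⟩ := Pool.Agent.Y772.DK.t_dirK K
  refine ⟨2 * A, V₀, by positivity, hV₀, ?_⟩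
  intro 𝔣 𝔮 ν₀ ψ₀ V T hψ hs₀ hcop h𝔮 htop hV hVT hνT hX
  have hV1 : 1 ≤ V := hV₀.trans hV
  have hV0 : 0 < V := by linarith
  have hT : 1 ≤ T := hV1.trans hVT
  have hbot : 𝔣 * 𝔮 ≠ ⊥ := mul_ne_zero hψ.ne_bot h𝔮
  have H' := H 𝔣 𝔮 ν₀ ψ₀ V T hψ hs₀ hcop h𝔮 htop hV hVT hνT hX
  obtain ⟨NV, hNV⟩ : ∃ NV : ℝ, NV = (Ideal.absNorm 𝔮 : ℝ) * V ^ Module.finrank ℚ K := ⟨_, rfl⟩
  obtain ⟨C, hC⟩ : ∃ C : ℝ, C = (Ideal.absNorm (𝔣 * 𝔮) : ℝ) * T ^ Module.finrank ℚ K := ⟨_, rfl⟩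
  rw [← hC, ← hNV] at H'
  rw [← hC, ← hNV]
  have hNV0 : 0 ≤ NV := by rw [hNV]; positivity
  have hC1 : 1 ≤ C := by
    rw [hC]
    have h1 := one_le_norm hbot
    have h2 : 1 ≤ T ^ Module.finrank ℚ K := one_le_pow₀ hT
    calc (1 : ℝ) = 1 * 1 := (one_mul 1).symm
      _ ≤ _ := mul_le_mul h1 h2 zero_le_one (by linarith)
  have hlogC : 0 ≤ Real.log C := Real.log_nonneg hC1
  -- existence of the L-functions
  have hex : ∀ lam : Ideal (𝓞 K) →*₀ ℂ, ∃ F : ℂ → ℂ, lam ∈ HFam K 𝔮 V →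
      Differentiable ℂ F ∧ ∀ s : ℂ, 1 < s.re → F s = LI (pr ψ₀ lam) s := by
    intro lam
    by_cases hl : lam ∈ HFam K 𝔮 V
    · obtain ⟨ν, a1, a2, a3⟩ := hl
      have h3 := pr_isHecke hcop hψ a3
      have hs : ∑ w, (ν₀ + ν) w = 0 := by
        simp only [Pi.add_apply]
        rw [Finset.sum_add_distrib, hs₀, a2, add_zero]
      obtain ⟨e, F, hF, hFL⟩ := h3.fe hs htop
      exact ⟨F, fun _ => ⟨hF.diff, hFL⟩⟩
    · exact ⟨fun _ => 0, fun h' => absurd h' hl⟩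
  choose L₀ hL₀ using hex
  have hfin : (HFam K 𝔮 V).Finite := by
    refine finite_of_card (B := A * NV) fun S hS => ?_
    obtain ⟨h1, -⟩ := H' S L₀ hS fun lam hl => hL₀ lam (hS lam hl)
    refine le_trans ?_ h1
    exact le_mul_of_one_le_right (Nat.cast_nonneg _) hV1
  refine ⟨hfin, ?_, ?_⟩
  · obtain ⟨h1, -⟩ := H' hfin.toFinset L₀ (fun lam hl => by rwa [Set.Finite.mem_toFinset] at hl)
      fun lam hl => hL₀ lam (by rwa [Set.Finite.mem_toFinset] at hl)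
    rw [Set.ncard_eq_toFinset_card _ hfin]
    refine h1.trans ?_
    have : 0 ≤ A * NV := by positivity
    linarith
  intro Lf hLf t₁ ht₁ δ hδ
  -- nonvanishing somewhere, and the symmetry
  have hinfo : ∀ lam ∈ HFam K 𝔮 V, Lf lam 2 ≠ 0 ∧ ∀ z : ℂ, 0 < z.re → z.re < 1 →
      analyticOrderNatAt (Lf lam) z = analyticOrderNatAt (Lf lam) (1 - (starRingEnd ℂ) z) := by
    intro lam hl
    obtain ⟨ν, a1, a2, a3⟩ := hl
    have hl : lam ∈ HFam K 𝔮 V := ⟨ν, a1, a2, a3⟩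
    have h3 := pr_isHecke hcop hψ a3
    have hs : ∑ w, (ν₀ + ν) w = 0 := by
      simp only [Pi.add_apply]
      rw [Finset.sum_add_distrib, hs₀, a2, add_zero]
    obtain ⟨e₀, he₀, hM⟩ := h3.toIsHM.isModK hs htop
    obtain ⟨e, G, hG, hGL⟩ := h3.fe hs htop
    obtain ⟨b1, b2⟩ := hLf lam hl
    have hFG : Lf lam = G := eq_of_LI b1 hG.diff (fun s hs => by rw [b2 s hs, hGL s hs])
    refine ⟨?_, ?_⟩
    · rw [b2 2 (by norm_num)]
      exact (hD (pr ψ₀ lam) hM.norm_le_one).2.2.1 2 (by norm_num)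
    · intro z hz0 hz1
      rw [hFG]
      refine ord_symm ?_ hG hz0 hz1
      have h5 := one_le_norm hbot
      have h6 : (1 : ℝ) ≤ Ideal.absNorm (differentIdeal ℤ (𝓞 K)) :=
        one_le_norm differentIdeal_ne_bot
      push_cast
      have h7 : (0 : ℝ) < Ideal.absNorm (𝔣 * 𝔮) := by linarith
      have h8 : (0 : ℝ) < Ideal.absNorm (differentIdeal ℤ (𝓞 K)) := by linarith
      exact mul_pos h7 h8
  obtain ⟨B, hB⟩ : ∃ B : ℝ, B = NV * Real.log C * C ^ (-(c * δ)) := ⟨_, rfl⟩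
  have hB0 : 0 ≤ B := by rw [hB]; positivity
  rw [← hB]
  have hdens : ∀ (S : Finset (Ideal (𝓞 K) →*₀ ℂ)) (Z : (Ideal (𝓞 K) →*₀ ℂ) → Finset ℂ),
      (∀ lam ∈ S, lam ∈ HFam K 𝔮 V) →
      (∀ lam ∈ S, ∀ z ∈ Z lam, 1 / 2 + δ ≤ z.re ∧ t₁ ≤ z.im ∧ z.im ≤ t₁ + V) →
      ∑ lam ∈ S, ∑ z ∈ Z lam, (analyticOrderNatAt (Lf lam) z : ℝ) ≤ A * B := by
    intro S Z hS hZ
    obtain ⟨-, h1⟩ := H' S Lf hS fun lam hl => hLf lam (hS lam hl)
    rw [hB]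
    exact h1 t₁ ht₁ δ hδ Z hZ
  have hinj : Function.Injective fun z : ℂ => 1 - (starRingEnd ℂ) z := by
    intro z w hzw
    simp only at hzw
    have h1 : (starRingEnd ℂ) z = (starRingEnd ℂ) w := by linear_combination -hzw
    exact (starRingEnd ℂ).injective h1
  have htwo : ∀ (S : Finset (Ideal (𝓞 K) →*₀ ℂ)) (Z : (Ideal (𝓞 K) →*₀ ℂ) → Finset ℂ),
      (∀ lam ∈ S, lam ∈ HFam K 𝔮 V) →
      (∀ lam ∈ S, ∀ z ∈ Z lam, z ∈ farZ (Lf lam) δ t₁ (t₁ + V)) →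
      ∑ lam ∈ S, ∑ z ∈ Z lam, (analyticOrderNatAt (Lf lam) z : ℝ) ≤ 2 * A * B := by
    intro S Z hS hZ
    have h1 := hdens S (fun lam => (Z lam).filter fun z => 1 / 2 ≤ z.re) hS (by
      intro lam hl z hz
      obtain ⟨c1, c2⟩ := Finset.mem_filter.mp hz
      obtain ⟨d1, d2, d3, d4, d5, d6⟩ := hZ lam hl z c1
      rw [abs_of_nonneg (by linarith)] at d6
      exact ⟨by linarith, d3.le, d4⟩)
    have h2 := hdens S (fun lam => ((Z lam).filter fun z => ¬ 1 / 2 ≤ z.re).image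
      fun z => 1 - (starRingEnd ℂ) z) hS (by
      intro lam hl z hz
      obtain ⟨w, hw, rfl⟩ := Finset.mem_image.mp hz
      obtain ⟨c1, c2⟩ := Finset.mem_filter.mp hw
      obtain ⟨d1, d2, d3, d4, d5, d6⟩ := hZ lam hl w c1
      push Not at c2
      rw [abs_of_neg (by linarith)] at d6
      simp only [Complex.sub_re, Complex.one_re, Complex.conj_re, Complex.sub_im, Complex.one_im,
        Complex.conj_im]
      exact ⟨by linarith, by linarith, by linarith⟩)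
    have h3 : ∑ lam ∈ S, ∑ z ∈ Z lam, (analyticOrderNatAt (Lf lam) z : ℝ) =
        (∑ lam ∈ S, ∑ z ∈ (Z lam).filter (fun z => 1 / 2 ≤ z.re),
          (analyticOrderNatAt (Lf lam) z : ℝ)) +
        ∑ lam ∈ S, ∑ z ∈ ((Z lam).filter fun z => ¬ 1 / 2 ≤ z.re).image
          (fun z => 1 - (starRingEnd ℂ) z), (analyticOrderNatAt (Lf lam) z : ℝ) := by
      rw [← Finset.sum_add_distrib]
      refine Finset.sum_congr rfl fun lam hl => ?_
      rw [← Finset.sum_filter_add_sum_filter_not (Z lam) (fun z => 1 / 2 ≤ z.re)]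
      congr 1
      rw [Finset.sum_image fun x _ y _ hxy => hinj hxy]
      refine Finset.sum_congr rfl fun z hz => ?_
      obtain ⟨c1, c2⟩ := Finset.mem_filter.mp hz
      obtain ⟨d1, d2, -⟩ := hZ lam hl z c1
      rw [(hinfo lam (hS lam hl)).2 z d1 d2]
    rw [h3]
    linarith
  have hfz : ∀ lam ∈ HFam K 𝔮 V, (farZ (Lf lam) δ t₁ (t₁ + V)).Finite := by
    intro lam hl
    refine finite_of_card (B := 2 * A * B) fun Z hZ => ?_
    have h1 := htwo {lam} (fun _ => Z) (fun lam' hl' => by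
      rw [Finset.mem_singleton] at hl'
      rw [hl']; exact hl) (fun lam' hl' z hz => by
      rw [Finset.mem_singleton] at hl'
      rw [hl']; exact hZ z hz)
    rw [Finset.sum_singleton] at h1
    refine le_trans ?_ h1
    have h2 : ((Z.card : ℕ) : ℝ) = ∑ _z ∈ Z, (1 : ℝ) := by simp
    rw [h2]
    refine Finset.sum_le_sum fun z hz => ?_
    have := ord_pos (hLf lam hl).1 (hinfo lam hl).1 (hZ z hz).2.2.2.2.1
    exact_mod_cast this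
  refine ⟨hfz, ?_⟩
  rw [finsum_mem_eq_finite_toFinset_sum _ hfin]
  have hmem : ∀ lam ∈ hfin.toFinset, lam ∈ HFam K 𝔮 V := fun lam hl => by
    rwa [Set.Finite.mem_toFinset] at hl
  have hval : ∀ lam ∈ hfin.toFinset, (Nfar (Lf lam) δ t₁ (t₁ + V) : ℝ) =
      ∑ z ∈ (if hl : lam ∈ HFam K 𝔮 V then (hfz lam hl).toFinset else ∅),
        (analyticOrderNatAt (Lf lam) z : ℝ) := by
    intro lam hl
    rw [dif_pos (hmem lam hl)]
    unfold Nfar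
    rw [finsum_mem_eq_finite_toFinset_sum _ (hfz lam (hmem lam hl))]
    push_cast
    rfl
  rw [Finset.sum_congr rfl hval]
  refine htwo hfin.toFinset _ hmem fun lam hl z hz => ?_
  rw [dif_pos (hmem lam hl), Set.Finite.mem_toFinset] at hz
  exact hz

end Pool.Agent.N786.D
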