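import Pool.Agent.N786.Cnt3
import Pool.Agent.N786.UnitB

/-!
# The size of the families from below (owner helper786)
-/

set_option autoImplicit false
set_option linter.unusedSectionVars false

open NumberField NumberField.Units MeasureTheory Complex Filter Topology Set

namespace Pool.Agent.N786.D

open Pool.Agent.N786
open Pool.Agent.Y767

section

variable {K : Type} [Field K] [NumberField K] [IsTotallyReal K]

/-- the number of residues prime to `𝔮` -/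
lemma card_units_ge {𝔮 : Ideal (𝓞 K)} (h0 : 𝔮 ≠ ⊥) {δ : ℝ}
    (hδ : ∑ᶠ 𝔭 ∈ PD 𝔮, (1 / (Ideal.absNorm 𝔭 : ℝ)) ≤ δ) :
    (Ideal.absNorm 𝔮 : ℝ) * (1 - δ) ≤ Nat.card (𝓞 K ⧸ 𝔮)ˣ := by
  classical
  have hfin := finite_quot h0
  have hPD := PD_finite h0
  rw [finsum_mem_eq_finite_toFinset_sum _ hPD] at hδ
  set W : Ideal (𝓞 K) → Set (𝓞 K ⧸ 𝔮) := fun 𝔭 =>
    ((𝔭.map (Ideal.Quotient.mk 𝔮) : Ideal (𝓞 K ⧸ 𝔮)) : Set (𝓞 K ⧸ 𝔮)) with hW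
  have hcov : (Set.univ : Set (𝓞 K ⧸ 𝔮)) ⊆ (Set.range (Units.val : (𝓞 K ⧸ 𝔮)ˣ → 𝓞 K ⧸ 𝔮)) ∪
      ⋃ 𝔭 ∈ hPD.toFinset, W 𝔭 := by
    intro x _
    by_cases hx : IsUnit x
    · obtain ⟨u, hu⟩ := hx
      exact Or.inl ⟨u, hu⟩
    right
    obtain ⟨M, hM, hxM⟩ := exists_max_ideal_of_mem_nonunits (show x ∈ nonunits _ from hx)
    have hsurj : Function.Surjective (Ideal.Quotient.mk 𝔮) := Ideal.Quotient.mk_surjective
    have hmax : (M.comap (Ideal.Quotient.mk 𝔮)).IsPrime := Ideal.IsPrime.comap _ (hK := hM.isPrime)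
    have hle : 𝔮 ≤ M.comap (Ideal.Quotient.mk 𝔮) := by
      intro y hy
      rw [Ideal.mem_comap, Ideal.Quotient.eq_zero_iff_mem.mpr hy]
      exact M.zero_mem
    rw [Set.mem_iUnion₂]
    refine ⟨M.comap (Ideal.Quotient.mk 𝔮), hPD.mem_toFinset.mpr ⟨hmax, Ideal.dvd_iff_le.mpr hle⟩, ?_⟩
    simp only [hW]
    rw [Ideal.map_comap_of_surjective _ hsurj]
    exact hxM
  have h1 := Set.ncard_le_ncard hcov (Set.toFinite _)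
  have h2 := Set.ncard_union_le (Set.range (Units.val : (𝓞 K ⧸ 𝔮)ˣ → 𝓞 K ⧸ 𝔮))
    (⋃ 𝔭 ∈ hPD.toFinset, W 𝔭)
  have h3 : (⋃ 𝔭 ∈ hPD.toFinset, W 𝔭).ncard ≤ ∑ 𝔭 ∈ hPD.toFinset, (W 𝔭).ncard :=
    Finset.set_ncard_biUnion_le _ _
  have h4 : (Set.univ : Set (𝓞 K ⧸ 𝔮)).ncard = Ideal.absNorm 𝔮 := by
    rw [Set.ncard_univ, Ideal.absNorm_apply, Submodule.cardQuot_apply]
  have h5 : (Set.range (Units.val : (𝓞 K ⧸ 𝔮)ˣ → 𝓞 K ⧸ 𝔮)).ncard = Nat.card (𝓞 K ⧸ 𝔮)ˣ := by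
    rw [← Nat.card_coe_set_eq]
    exact Nat.card_range_of_injective Units.val_injective
  have h6 : ((∑ 𝔭 ∈ hPD.toFinset, (W 𝔭).ncard : ℕ) : ℝ) ≤ (Ideal.absNorm 𝔮 : ℝ) * δ := by
    push_cast
    calc ∑ 𝔭 ∈ hPD.toFinset, ((W 𝔭).ncard : ℝ) ≤
        ∑ 𝔭 ∈ hPD.toFinset, (Ideal.absNorm 𝔮 : ℝ) * (1 / Ideal.absNorm 𝔭) := by
          refine Finset.sum_le_sum fun 𝔭 h𝔭 => ?_
          obtain ⟨hp, hd⟩ := hPD.mem_toFinset.mp h𝔭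
          have hle : 𝔮 ≤ 𝔭 := Ideal.dvd_iff_le.mp hd
          have hp0 : 𝔭 ≠ ⊥ := by
            rintro rfl
            exact h0 (le_bot_iff.mp hle)
          have hN : 0 < (Ideal.absNorm 𝔭 : ℝ) := by
            have : Ideal.absNorm 𝔭 ≠ 0 := by rwa [Ne, Ideal.absNorm_eq_zero_iff]
            positivity
          have h7 := Submodule.card_eq_card_quotient_mul_card
            (𝔭.map (Ideal.Quotient.mk 𝔮) : Ideal (𝓞 K ⧸ 𝔮))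
          have h8 : Nat.card ((𝓞 K ⧸ 𝔮) ⧸ (𝔭.map (Ideal.Quotient.mk 𝔮) : Ideal (𝓞 K ⧸ 𝔮))) =
              Ideal.absNorm 𝔭 := by
            rw [Nat.card_congr (DoubleQuot.quotQuotEquivQuotOfLE hle).toEquiv,
              Ideal.absNorm_apply, Submodule.cardQuot_apply]
          have h9 : Nat.card (𝓞 K ⧸ 𝔮) = Ideal.absNorm 𝔮 := by
            rw [Ideal.absNorm_apply, Submodule.cardQuot_apply]
          rw [h8, h9] at h7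
          have h10 : (W 𝔭).ncard = Nat.card (𝔭.map (Ideal.Quotient.mk 𝔮) : Ideal (𝓞 K ⧸ 𝔮)) := by
            simp only [hW]
            rw [← Nat.card_coe_set_eq]
            rfl
          rw [h10, mul_one_div, le_div_iff₀ hN]
          exact_mod_cast h7.ge
      _ = (Ideal.absNorm 𝔮 : ℝ) * ∑ 𝔭 ∈ hPD.toFinset, (1 / (Ideal.absNorm 𝔭 : ℝ)) := by
          rw [Finset.mul_sum]
      _ ≤ _ := mul_le_mul_of_nonneg_left hδ (Nat.cast_nonneg _)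
  rw [h4] at h1
  rw [h5] at h2
  have h7 : (Ideal.absNorm 𝔮 : ℝ) ≤ (Nat.card (𝓞 K ⧸ 𝔮)ˣ : ℝ) +
      ((∑ 𝔭 ∈ hPD.toFinset, (W 𝔭).ncard : ℕ) : ℝ) := by
    exact_mod_cast h1.trans (h2.trans (Nat.add_le_add_left h3 _))
  linarith

end

/-- **the size of the families from below** -/
theorem fam_size (K : Type) [Field K] [NumberField K] [IsTotallyReal K] :
    ∃ c V₀ : ℝ, 0 < c ∧ 1 ≤ V₀ ∧ ∀ (𝔣 𝔮 : Ideal (𝓞 K)), IsCoprime 𝔣 𝔮 →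
    𝔣 * 𝔮 ≠ ⊤ → 𝔣 * 𝔮 ≠ ⊥ → ∀ V : ℝ, V₀ ≤ V →
    ∑ᶠ 𝔭 ∈ PD 𝔮, (1 / (Ideal.absNorm 𝔭 : ℝ)) ≤ 1 / 4 → (HFam K 𝔮 V).Finite ∧
    c * ((Ideal.absNorm 𝔮 : ℝ) * V ^ Module.finrank ℚ K) ≤ (HFam K 𝔮 V).ncard * V := by
  obtain ⟨U⟩ := exists_UD (K := K) t_unitb
  obtain ⟨b, hb, hcard⟩ := fam_card U
  obtain ⟨vol, hvol⟩ : ∃ vol : ℝ, vol = (volume {θ | U.p θ ≤ 1}).toReal := ⟨_, rfl⟩
  have hvol0 : 0 < vol := by rw [hvol]; exact (normP_U' U).vol_pos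
  obtain ⟨r, hr⟩ : ∃ r : ℕ, r = rank K := ⟨_, rfl⟩
  refine ⟨3 / 8 * (1 / 2) ^ r * vol, 2 * b + 1, by positivity, by linarith, ?_⟩
  intro 𝔣 𝔮 hcop htop hbot V hV hδ
  have hV0 : 0 < V := by linarith
  have h𝔮0 : 𝔮 ≠ ⊥ := by
    rintro rfl
    exact hbot (Ideal.mul_bot _)
  obtain ⟨h1, h2⟩ := hcard 𝔣 𝔮 hcop htop hbot V (1 / 4) (by linarith) hV0.le hδ
  refine ⟨h1, ?_⟩
  have hfc : Finite (Cls (pq (𝔣 * 𝔮))) := finite_cls htop hbot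
  have h3 : (1 : ℝ) ≤ Nat.card (Cls (pq (𝔣 * 𝔮))) := by exact_mod_cast Nat.card_pos
  have h4 := card_units_ge h𝔮0 hδ
  rw [← hvol, ← hr] at h2
  have hrn : V ^ Module.finrank ℚ K = V ^ r * V := by
    rw [← pow_succ, hr]
    congr 1
    have h5 : Fintype.card (InfinitePlace K) = Module.finrank ℚ K := card_places
    have h6 : 0 < Fintype.card (InfinitePlace K) := Fintype.card_pos
    unfold NumberField.Units.rank
    omega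
  have h5 : (1 / 2 : ℝ) ^ r * V ^ r ≤ (V - b) ^ r := by
    rw [← mul_pow]
    exact pow_le_pow_left₀ (by positivity) (by linarith) r
  have h6 : (Ideal.absNorm 𝔮 : ℝ) * (3 / 4) ≤ Nat.card (𝓞 K ⧸ 𝔮)ˣ := by
    have : (1 : ℝ) - 1 / 4 = 3 / 4 := by norm_num
    rw [this] at h4
    exact h4
  have hVb : 0 ≤ V - b := by linarith
  rw [hrn]
  have h7 : 3 / 8 * (1 / 2) ^ r * vol * ((Ideal.absNorm 𝔮 : ℝ) * V ^ r) ≤
      (HFam K 𝔮 V).ncard := by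
    refine le_trans ?_ h2
    calc 3 / 8 * (1 / 2) ^ r * vol * ((Ideal.absNorm 𝔮 : ℝ) * V ^ r) =
        1 * (((Ideal.absNorm 𝔮 : ℝ) * (3 / 4)) * (1 / 2) * (((1 / 2) ^ r * V ^ r) * vol)) := by ring
      _ ≤ (Nat.card (Cls (pq (𝔣 * 𝔮))) : ℝ) * ((Nat.card (𝓞 K ⧸ 𝔮)ˣ : ℝ) * (1 / 2) *
          ((V - b) ^ r * vol)) := by gcongr
      _ = _ := by norm_num
  calc 3 / 8 * (1 / 2) ^ r * vol * ((Ideal.absNorm 𝔮 : ℝ) * (V ^ r * V)) =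
      (3 / 8 * (1 / 2) ^ r * vol * ((Ideal.absNorm 𝔮 : ℝ) * V ^ r)) * V := by ring
    _ ≤ _ := mul_le_mul_of_nonneg_right h7 hV0.le

end Pool.Agent.N786.D
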