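import Pool.Agent.N786.D.Cnv
import Pool.Agent.N786.Lsi
import Pool.Agent.R399.TW.Vm

/-!
# The logarithm of the norm of an ideal (owner helper786)
-/

set_option autoImplicit false
set_option linter.unusedSectionVars false

open NumberField Filter Topology Set
open Pool.Agent.Y773 (VM)
open ArithmeticFunction (vonMangoldt)

namespace Pool.Agent.N786.D

open Pool.Agent.N786

section

variable {K : Type} [Field K] [NumberField K]

/-- the logarithm of the norm -/
noncomputable def lN (𝔞 : Ideal (𝓞 K)) : ℝ := Real.log (Ideal.absNorm 𝔞)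

lemma lN_exp {𝔞 : Ideal (𝓞 K)} (h : 𝔞 ≠ 0) (σ : ℝ) :
    Real.exp (-(σ * lN 𝔞)) = (Ideal.absNorm 𝔞 : ℝ) ^ (-σ) := by
  have h1 : 0 < (Ideal.absNorm 𝔞 : ℝ) := by
    exact_mod_cast Pool.Agent.Y772.DK.absNorm_pos' h
  rw [Real.rpow_def_of_pos h1, lN]
  congr 1
  ring

lemma lN_nonneg (𝔞 : Ideal (𝓞 K)) : 0 ≤ lN 𝔞 := Real.log_natCast_nonneg _

variable (K) in
/-- **the norm of ideals** -/
theorem lN_norm : LNorm (M := Ideal (𝓞 K)) (lN (K := K)) (24 * Module.finrank ℚ K) where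
  one := by
    unfold lN
    rw [Ideal.one_eq_top, Ideal.absNorm_top]
    simp
  mul a b ha hb := by
    unfold lN
    have h1 := Pool.Agent.Y772.DK.absNorm_pos' ha
    have h2 := Pool.Agent.Y772.DK.absNorm_pos' hb
    rw [map_mul, Nat.cast_mul, Real.log_mul (by positivity) (by positivity)]
  prime p hp := by
    unfold lN
    have h1 : 2 ≤ Ideal.absNorm p := by
      have h2 := Pool.Agent.Y772.DK.absNorm_pos' hp.ne_zero
      have h3 : Ideal.absNorm p ≠ 1 := by
        intro h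
        rw [Ideal.absNorm_eq_one_iff] at h
        exact hp.not_unit (by rw [h, ← Ideal.one_eq_top]; exact isUnit_one)
      omega
    exact Real.log_le_log (by norm_num) (by exact_mod_cast h1)
  B0 := by positivity
  sum S hS σ h1 h2 := by
    classical
    obtain ⟨N, hN⟩ : ∃ N : ℕ, ∀ p ∈ S, Ideal.absNorm p ≤ N :=
      ⟨S.sup fun p => Ideal.absNorm p, fun p hp =>
        Finset.le_sup (f := fun p : Ideal (𝓞 K) => Ideal.absNorm p) hp⟩
    have hsub : S ⊆ SI K N := fun p hp => by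
      rw [mem_SI]
      exact ⟨Pool.Agent.Y772.DK.absNorm_pos' (hS p hp).ne_zero, hN p hp⟩
    have e1 : ∑ p ∈ S, lN p * Real.exp (-(σ * lN p)) =
        ∑ p ∈ S, VM p * (Ideal.absNorm p : ℝ) ^ (-σ) := by
      refine Finset.sum_congr rfl fun p hp => ?_
      rw [lN_exp (hS p hp).ne_zero]
      have := Pool.Agent.Y772.DK.VM_pow (hS p hp) one_ne_zero
      rw [pow_one] at this
      rw [this]
      rfl
    have hVM : ∀ 𝔞 : Ideal (𝓞 K), 0 ≤ VM 𝔞 := fun 𝔞 => by
      unfold VM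
      split_ifs
      · exact Real.log_natCast_nonneg _
      · exact le_rfl
    rw [e1]
    refine (Finset.sum_le_sum_of_subset_of_nonneg hsub fun 𝔞 _ _ =>
      mul_nonneg (hVM 𝔞) (by positivity)).trans ?_
    rw [sum_SI]
    have e2 : ∀ m ∈ Finset.Icc 1 N, ∑ 𝔞 ∈ (Pool.Agent.Y772.DK.NN_finite (K := K) m).toFinset,
        VM 𝔞 * (Ideal.absNorm 𝔞 : ℝ) ^ (-σ) ≤
        Module.finrank ℚ K * (vonMangoldt m * (m : ℝ) ^ (-σ)) := by
      intro m _
      have e3 : ∑ 𝔞 ∈ (Pool.Agent.Y772.DK.NN_finite (K := K) m).toFinset,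
          VM 𝔞 * (Ideal.absNorm 𝔞 : ℝ) ^ (-σ) =
          (∑ᶠ 𝔞 ∈ Pool.Agent.Y772.DK.NN K m, VM 𝔞) * (m : ℝ) ^ (-σ) := by
        rw [finsum_mem_eq_finite_toFinset_sum _ (Pool.Agent.Y772.DK.NN_finite (K := K) m),
          Finset.sum_mul]
        refine Finset.sum_congr rfl fun 𝔞 h𝔞 => ?_
        rw [Set.Finite.mem_toFinset] at h𝔞
        have h3 : Ideal.absNorm 𝔞 = m := h𝔞
        rw [h3]
      rw [e3, ← mul_assoc]
      exact mul_le_mul_of_nonneg_right (Pool.Agent.Y772.DK.sum_VM_le m) (by positivity)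
    refine (Finset.sum_le_sum e2).trans ?_
    rw [← Finset.mul_sum]
    have h3 := Pool.Agent.R399.TW.vm_sum h1 h2 N
    have h4 : (24 : ℝ) * Module.finrank ℚ K / (σ - 1) =
        Module.finrank ℚ K * (24 / (σ - 1)) := by ring
    rw [h4]
    exact mul_le_mul_of_nonneg_left h3 (by positivity)

end

end Pool.Agent.N786.D
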