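import Pool.Agent.N786.D.Rgt

/-!
# Counting zeros with Jensen's formula on discs (owner helper786)
-/

set_option autoImplicit false

namespace Pool.Agent.N786.D

open MeasureTheory Set Filter Topology Complex Metric
open Pool.Agent.R399.TW (pt pt_re pt_im pt_cont)

/-- Jensen's inequality for a finite set of points in a disc -/
lemma jensen_fin {g : ℂ → ℂ} (hg : Differentiable ℂ g) {c : ℂ} {ρ : ℝ} (hρ : 0 < ρ)
    (hc : g c ≠ 0) {Z : Finset ℂ} (hZ : ∀ z ∈ Z, ‖c - z‖ ≤ ρ) :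
    ∑ z ∈ Z, (analyticOrderNatAt g z : ℝ) * Real.log (ρ * ‖c - z‖⁻¹) ≤
      Real.circleAverage (fun z => Real.log ‖g z‖) c ρ - Real.log ‖g c‖ := by
  have hga : AnalyticOnNhd ℂ g univ := fun z _ => hg.analyticAt z
  have hgb : AnalyticOnNhd ℂ g (closedBall c |ρ|) := fun z _ => hg.analyticAt z
  rw [hgb.circleAverage_log_norm hρ.ne' hc, add_sub_cancel_right]
  have hfin := (MeromorphicOn.divisor g (closedBall c |ρ|)).finiteSupport
    (isCompact_closedBall c |ρ|)
  have hone : ∀ z ∈ closedBall c |ρ|, (MeromorphicOn.divisor g (closedBall c |ρ|) z : ℝ) =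
      analyticOrderNatAt g z := by
    intro z hz
    rw [MeromorphicOn.AnalyticOnNhd.divisor_apply hgb hz]
    unfold analyticOrderNatAt
    cases h : analyticOrderAt g z with
    | top => simp
    | coe n => simp
  have hnn : ∀ z, 0 ≤ (MeromorphicOn.divisor g (closedBall c |ρ|) z : ℝ) *
      Real.log (ρ * ‖c - z‖⁻¹) := by
    intro z
    by_cases hz : z ∈ closedBall c |ρ|
    · rw [hone z hz]
      refine mul_nonneg (Nat.cast_nonneg _) ?_
      rw [mem_closedBall, dist_comm, dist_eq_norm, abs_of_pos hρ] at hz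
      rcases (norm_nonneg (c - z)).eq_or_lt with h | h
      · rw [← h]; simp
      · refine Real.log_nonneg ?_
        rw [← div_eq_mul_inv, le_div_iff₀ h]
        linarith
    · rw [Function.locallyFinsuppWithin.apply_eq_zero_of_notMem _ hz]
      simp
  have hsup : (Function.support fun z => (MeromorphicOn.divisor g (closedBall c |ρ|) z : ℝ) *
      Real.log (ρ * ‖c - z‖⁻¹)) ⊆ (hfin.toFinset ∪ Z : Finset ℂ) := by
    intro z hz
    rw [Function.mem_support] at hz
    simp only [Finset.coe_union, Set.mem_union]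
    left
    rw [Finset.mem_coe, Set.Finite.mem_toFinset, Function.mem_support]
    intro h
    rw [h] at hz
    simp at hz
  rw [finsum_eq_sum_of_support_subset _ hsup]
  refine le_trans (Finset.sum_le_sum fun z hz => ?_)
    (Finset.sum_le_sum_of_subset_of_nonneg Finset.subset_union_right fun z _ _ => hnn z)
  rw [hone z]
  rw [mem_closedBall, dist_comm, dist_eq_norm, abs_of_pos hρ]
  exact hZ z hz

/-- Jensen's inequality for `1 - f ^ 2`, weighted -/
lemma jensen_pt {f : ℂ → ℂ} (hf : Differentiable ℂ f) {c : ℂ} {ρ ω : ℝ} (hρ : 0 < ρ)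
    (hc : ‖f c‖ ^ 2 ≤ 1 / 2) {Z : Finset ℂ} (hZ : ∀ z ∈ Z, ‖c - z‖ ≤ ρ)
    (hω : ∀ z ∈ Z, c ≠ z → ω ≤ Real.log (ρ * ‖c - z‖⁻¹)) :
    ∑ z ∈ Z, (analyticOrderNatAt (fun s => 1 - f s ^ 2) z : ℝ) * ω ≤
      Real.circleAverage (fun z => ‖f z‖ ^ 2) c ρ + 2 * ‖f c‖ ^ 2 := by
  set h : ℂ → ℂ := fun s => 1 - f s ^ 2 with hh
  have hhd : Differentiable ℂ h := (differentiable_const _).sub (hf.pow 2)
  have hlow : 1 - ‖f c‖ ^ 2 ≤ ‖h c‖ := by
    have h1 := norm_sub_norm_le (1 : ℂ) (f c ^ 2)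
    rw [norm_one, norm_pow] at h1
    exact h1
  have hc0 : h c ≠ 0 := by
    intro h0
    rw [h0, norm_zero] at hlow
    linarith
  have h1 := jensen_fin hhd hρ hc0 hZ
  have h2 : ∑ z ∈ Z, (analyticOrderNatAt h z : ℝ) * ω ≤
      ∑ z ∈ Z, (analyticOrderNatAt h z : ℝ) * Real.log (ρ * ‖c - z‖⁻¹) := by
    refine Finset.sum_le_sum fun z hz => ?_
    by_cases hcz : c = z
    · have h3 : analyticOrderNatAt h z = 0 := by
        rw [← hcz]
        unfold analyticOrderNatAt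
        rw [(hhd.analyticAt c).analyticOrderAt_eq_zero.mpr hc0]
        rfl
      rw [h3]
      simp
    · exact mul_le_mul_of_nonneg_left (hω z hz hcz) (Nat.cast_nonneg _)
  have h4 : Real.circleAverage (fun z => Real.log ‖h z‖) c ρ ≤
      Real.circleAverage (fun z => ‖f z‖ ^ 2) c ρ := by
    refine Real.circleAverage_mono ?_ ?_ ?_
    · have hm : MeromorphicOn h (sphere c |ρ|) := fun z _ => (hhd.analyticAt z).meromorphicAt
      exact hm.circleIntegrable_log_norm
    · exact ContinuousOn.circleIntegrable' ((hf.continuous.norm.pow 2).continuousOn)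
    · intro z _
      rcases eq_or_ne (h z) 0 with h0 | h0
      · rw [h0, norm_zero, Real.log_zero]; positivity
      · have h5 := Real.log_le_sub_one_of_pos (norm_pos_iff.mpr h0)
        have h6 : ‖h z‖ ≤ 1 + ‖f z‖ ^ 2 := by
          have := norm_sub_le (1 : ℂ) (f z ^ 2)
          rw [norm_one, norm_pow] at this
          exact this
        linarith
  have h7 : -Real.log ‖h c‖ ≤ 2 * ‖f c‖ ^ 2 := by
    have hpos : 0 < ‖h c‖ := norm_pos_iff.mpr hc0
    have h8 := Real.one_sub_inv_le_log_of_pos hpos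
    have h9 : ‖h c‖⁻¹ ≤ 1 + 2 * ‖f c‖ ^ 2 := by
      rw [inv_le_comm₀ hpos (by positivity)]
      refine le_trans ?_ hlow
      rw [inv_le_iff_one_le_mul₀ (by positivity)]
      nlinarith [sq_nonneg ‖f c‖]
    linarith
  linarith

/-- the weight of a zero in Jensen's formula -/
lemma jensen_wt {ρ η σ t : ℝ} {z : ℂ} (hη : 0 < η) (hρη : η ≤ ρ) (hρ : ρ = 2 - σ)
    (hz1 : σ + η ≤ z.re) (hz2 : z.re ≤ 2) (ht : (t - z.im) ^ 2 ≤ ρ * η / 4) :
    ‖pt 2 t - z‖ ≤ ρ ∧ (pt 2 t ≠ z → 3 * η / (8 * ρ) ≤ Real.log (ρ * ‖pt 2 t - z‖⁻¹)) := by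
  have hρ0 : 0 < ρ := by linarith
  have hsq : ‖pt 2 t - z‖ ^ 2 ≤ ρ ^ 2 * (1 - 3 * η / (4 * ρ)) := by
    rw [← Complex.normSq_eq_norm_sq, Complex.normSq_apply, Complex.sub_re, Complex.sub_im,
      pt_re, pt_im]
    have h1 : (2 - z.re) ^ 2 ≤ (ρ - η) ^ 2 := by
      refine pow_le_pow_left₀ (by linarith) (by linarith) 2
    have h2 : ρ ^ 2 * (1 - 3 * η / (4 * ρ)) = ρ ^ 2 - 3 / 4 * (ρ * η) := by
      field_simp
    rw [h2]
    nlinarith [mul_le_mul_of_nonneg_left hρη hη.le]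
  have h0 : 0 ≤ 3 * η / (4 * ρ) := by positivity
  constructor
  · refine le_of_sq_le_sq ?_ hρ0.le
    nlinarith [mul_nonneg (sq_nonneg ρ) h0]
  · intro hne
    have hd : 0 < ‖pt 2 t - z‖ := norm_pos_iff.mpr (sub_ne_zero.mpr hne)
    have h1 := Real.log_le_sub_one_of_pos (x := (‖pt 2 t - z‖ / ρ) ^ 2) (by positivity)
    rw [Real.log_pow, Real.log_div hd.ne' hρ0.ne', div_pow] at h1
    have h2 : ‖pt 2 t - z‖ ^ 2 / ρ ^ 2 ≤ 1 - 3 * η / (4 * ρ) := by
      rw [div_le_iff₀ (by positivity)]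
      linarith
    rw [Real.log_mul hρ0.ne' (inv_ne_zero hd.ne'), Real.log_inv]
    have h3 : 3 * η / (8 * ρ) = (3 * η / (4 * ρ)) / 2 := by
      field_simp
      ring
    rw [h3]
    push_cast at h1
    linarith

/-- the integral over the circle -/
lemma circ_int {x : ℝ} (hx : 0 < x) :
    ∫ φ in (0 : ℝ)..2 * Real.pi, Real.exp (-(2 * (x * (1 + Real.cos φ)))) ≤
      Real.pi * Real.sqrt Real.pi / (2 * Real.sqrt x) := by
  have hpi := Real.pi_pos
  obtain ⟨b, hb⟩ : ∃ b : ℝ, b = 4 * x / Real.pi ^ 2 := ⟨_, rfl⟩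
  have hb0 : 0 < b := by rw [hb]; positivity
  have hgi : Integrable fun φ : ℝ => Real.exp (-b * (φ - Real.pi) ^ 2) :=
    (integrable_exp_neg_mul_sq hb0).comp_sub_right Real.pi
  have h1 : ∫ φ in (0 : ℝ)..2 * Real.pi, Real.exp (-(2 * (x * (1 + Real.cos φ)))) ≤
      ∫ φ in (0 : ℝ)..2 * Real.pi, Real.exp (-b * (φ - Real.pi) ^ 2) := by
    refine intervalIntegral.integral_mono_on (by positivity) ?_ ?_ ?_
    · exact Continuous.intervalIntegrable (by fun_prop) _ _
    · exact Continuous.intervalIntegrable (by fun_prop) _ _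
    · intro φ hφ
      rw [Real.exp_le_exp]
      have h2 := Real.cos_le_one_sub_mul_cos_sq (x := φ - Real.pi)
        (by rw [abs_le]; constructor <;> linarith [hφ.1, hφ.2])
      rw [Real.cos_sub_pi] at h2
      have h3 : 2 / Real.pi ^ 2 * (φ - Real.pi) ^ 2 ≤ 1 + Real.cos φ := by linarith
      have h4 : b * (φ - Real.pi) ^ 2 = 2 * (x * (2 / Real.pi ^ 2 * (φ - Real.pi) ^ 2)) := by
        rw [hb]; ring
      have h5 := mul_le_mul_of_nonneg_left h3 hx.le
      linarith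
  refine h1.trans ?_
  rw [intervalIntegral.integral_of_le (by positivity)]
  refine (setIntegral_le_integral hgi (Eventually.of_forall fun φ => (Real.exp_pos _).le)).trans ?_
  have h6 : ∫ φ : ℝ, Real.exp (-b * (φ - Real.pi) ^ 2) = ∫ φ : ℝ, Real.exp (-b * φ ^ 2) :=
    integral_sub_right_eq_self (fun φ : ℝ => Real.exp (-b * φ ^ 2)) Real.pi
  rw [h6, integral_gaussian, hb]
  have h7 : Real.pi / (4 * x / Real.pi ^ 2) = (Real.pi * Real.sqrt Real.pi / (2 * Real.sqrt x)) ^ 2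
      := by
    rw [div_pow, mul_pow, mul_pow, Real.sq_sqrt hpi.le, Real.sq_sqrt hx.le]
    field_simp
    ring
  rw [h7, Real.sqrt_sq (by positivity)]

end Pool.Agent.N786.D
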