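import Pool.Agent.N786.D.Ccd
import Pool.Agent.N786.Lsi

/-!
# The large sieve inequality for sums over all ideals (owner helper786)
-/

set_option autoImplicit false
set_option linter.unusedSectionVars false

open NumberField NumberField.Units MeasureTheory Complex Filter Topology Set

namespace Pool.Agent.N786

open Pool.Agent.Y773 (TPos rl VM cc)
open Pool.Agent.Y767

section

variable {K : Type} [Field K] [NumberField K] [IsTotallyReal K]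

open Classical in
/-- sums over all ideals as sums over the ideals prime to `𝔪` -/
lemma coef_all {𝔣 𝔮 : Ideal (𝓞 K)} (htop : 𝔣 * 𝔮 ≠ ⊤) {ν₀ ν : InfinitePlace K → ℝ}
    {ψ₀ lam : Ideal (𝓞 K) →*₀ ℂ} (h₀ : IsHM K 𝔣 ν₀ ψ₀) (hl : IsHM K 𝔮 ν lam) (M : ℕ)
    (u : Ideal (𝓞 K) → ℂ) (t : ℝ) :
    ∑ 𝔞 ∈ SI K M, u 𝔞 * pr ψ₀ lam 𝔞 * ph 𝔞 t =
    ∑ 𝔞 ∈ (SI K M).subtype (· ∈ Mq (𝔣 * 𝔮)),
      (u (𝔞 : Ideal (𝓞 K)) * ψ₀ (𝔞 : Ideal (𝓞 K))) * ph (𝔞 : Ideal (𝓞 K)) t *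
        ((resM (𝔣 * 𝔮) lam 𝔞 : ℂˣ) : ℂ) := by
  have e1 : ∑ 𝔞 ∈ SI K M, u 𝔞 * pr ψ₀ lam 𝔞 * ph 𝔞 t =
      ∑ 𝔞 ∈ SI K M, (u 𝔞 * ψ₀ 𝔞) * ph 𝔞 t * lam 𝔞 := by
    refine Finset.sum_congr rfl fun 𝔞 _ => ?_
    rw [pr_apply]
    ring
  have e2 : ∑ 𝔞 ∈ SI K M, (u 𝔞 * ψ₀ 𝔞) * ph 𝔞 t * lam 𝔞 =
      ∑ 𝔞 ∈ (SI K M).filter (· ∈ Mq (𝔣 * 𝔮)), (u 𝔞 * ψ₀ 𝔞) * ph 𝔞 t * lam 𝔞 := by
    rw [Finset.sum_filter]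
    refine Finset.sum_congr rfl fun 𝔞 h𝔞 => ?_
    by_cases h1 : 𝔞 ∈ Mq (𝔣 * 𝔮)
    · rw [if_pos h1]
    · rw [if_neg h1]
      have h𝔞0 : 𝔞 ≠ ⊥ := by
        rintro rfl
        have := (mem_SI.mp h𝔞).1
        rw [Ideal.absNorm_bot] at this
        omega
      by_cases h2 : IsCoprime 𝔞 𝔣
      · have h3 : ¬ IsCoprime 𝔞 𝔮 := fun h4 => h1 (h2.mul_right h4)
        have h5 : lam 𝔞 = 0 := by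
          by_contra h6
          exact h3 ((hl.supp 𝔞 h𝔞0).mp h6)
        rw [h5, mul_zero]
      · have h5 : ψ₀ 𝔞 = 0 := by
          by_contra h6
          exact h2 ((h₀.supp 𝔞 h𝔞0).mp h6)
        rw [h5, mul_zero, zero_mul, zero_mul]
  rw [e1, e2, ← Finset.sum_subtype_eq_sum_filter]
  refine Finset.sum_congr rfl fun 𝔞 _ => ?_
  rw [resM_coe htop (Dvd.intro_left _ rfl) hl]

lemma card_quot_le {𝔮 : Ideal (𝓞 K)} (h : 𝔮 ≠ ⊥) :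
    (Nat.card (𝓞 K ⧸ 𝔮)ˣ : ℝ) ≤ (Ideal.absNorm 𝔮 : ℝ) := by
  have hf : Finite (𝓞 K ⧸ 𝔮) := Ideal.finiteQuotientOfFreeOfNeBot 𝔮 h
  have h1 : Nat.card (𝓞 K ⧸ 𝔮)ˣ ≤ Nat.card (𝓞 K ⧸ 𝔮) :=
    Nat.card_le_card_of_injective _ Units.val_injective
  have h2 : Nat.card (𝓞 K ⧸ 𝔮) = Ideal.absNorm 𝔮 := by
    rw [Ideal.absNorm_apply, Submodule.cardQuot_apply]
  rw [← h2]
  exact_mod_cast h1

/-- **The large sieve inequality for sums over all ideals** -/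
theorem ls_fam (K : Type) [Field K] [NumberField K] [IsTotallyReal K] :
    ∃ V₀ A C : ℝ, 1 ≤ V₀ ∧ 1 ≤ A ∧ 1 ≤ C ∧ ∀ (𝔣 𝔮 : Ideal (𝓞 K)), IsCoprime 𝔣 𝔮 →
    𝔣 * 𝔮 ≠ ⊤ → 𝔣 * 𝔮 ≠ ⊥ → ∀ V : ℝ, V₀ ≤ V →
    ∀ (ν₀ : InfinitePlace K → ℝ) (ψ₀ : Ideal (𝓞 K) →*₀ ℂ), ∑ w, ν₀ w = 0 → IsHM K 𝔣 ν₀ ψ₀ →
    ∀ S : Finset (Ideal (𝓞 K) →*₀ ℂ), (∀ lam ∈ S, lam ∈ HFam K 𝔮 V) →
    ∀ (L : ℝ) (M : ℕ), 2 * Real.pi ≤ L → 4 * Real.log M ≤ L →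
      (C * (L / V)) ^ Module.finrank ℚ K * M < Ideal.absNorm 𝔮 →
    ∀ (u : Ideal (𝓞 K) → ℂ) (t₁ : ℝ), ∑ lam ∈ S, ∫ t in t₁..(t₁ + V),
      ‖∑ 𝔞 ∈ SI K M, u 𝔞 * pr ψ₀ lam 𝔞 * ph 𝔞 t‖ ^ 2 ≤
      A * (Ideal.absNorm 𝔮 * V ^ Module.finrank ℚ K) * ∑ 𝔞 ∈ SI K M, ‖u 𝔞‖ ^ 2 := by
  classical
  obtain ⟨U⟩ := exists_UD (K := K) t_unitb
  obtain ⟨cl, hcl⟩ := cls_card K
  obtain ⟨V₀, C, hV₀, hC, hls⟩ := hls U 1 1 one_pos one_pos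
  obtain ⟨vol, hvol⟩ : ∃ vol : ℝ, vol = (volume {θ | U.p θ ≤ 1}).toReal := ⟨_, rfl⟩
  have hvol0 : 0 ≤ vol := by rw [hvol]; exact ENNReal.toReal_nonneg
  refine ⟨V₀, max 1 (cl * (vol + 1)), C, hV₀, le_max_left _ _, hC, ?_⟩
  intro 𝔣 𝔮 hcop htop hbot V hV ν₀ ψ₀ hs h₀ S hSf L M hL hLM hCM u t₁
  have hV0 : 0 < V := by linarith
  have h𝔮0 : 𝔮 ≠ ⊥ := by
    rintro rfl
    exact hbot (Ideal.mul_bot _)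
  have hfq := finite_quot h𝔮0
  have hfc : Finite (Cls (pq (𝔣 * 𝔮))) := finite_cls htop hbot
  have hdvd : 𝔮 ∣ 𝔣 * 𝔮 := Dvd.intro_left _ rfl
  have hsurj : Function.Surjective (gm hdvd) := fun g => by
    obtain ⟨x, -, hx⟩ := gm_surj hcop hbot hdvd g
    exact ⟨x, hx⟩
  have : Fintype (Cls (pq (𝔣 * 𝔮))) := Fintype.ofFinite _
  have : Fintype (𝓞 K ⧸ 𝔮)ˣ := Fintype.ofFinite _
  have hinj : Set.InjOn (resM (𝔣 * 𝔮)) (S : Set (Ideal (𝓞 K) →*₀ ℂ)) := by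
    intro lam hl lam' hl' he
    exact resM_inj (U := U) htop hbot hdvd hsurj hV0.le (hSf _ hl) (hSf _ hl') he
  have hpar' : ∀ F ∈ S.image (resM (𝔣 * 𝔮)), ∃ p, HasPar U hdvd F p ∧
      p ∈ U.PQ 𝔮 V := by
    intro F hF
    rw [Finset.mem_image] at hF
    obtain ⟨lam, hl, rfl⟩ := hF
    obtain ⟨ν, a1, a2, a3⟩ := hSf _ hl
    obtain ⟨p, hp1, -, hp3⟩ := exists_par' U hV0.le a1 a2 a3.toIsHM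
    exact ⟨p, resM_par htop hdvd a3.toIsHM hp3, hp1⟩
  choose! par hpar2 using hpar'
  have hmain := hls (𝔣 * 𝔮) 𝔮 htop h𝔮0 hdvd V L M hV hL hLM hCM
    ((SI K M).subtype (· ∈ Mq (𝔣 * 𝔮))) (fun 𝔞 h𝔞 => by
      rw [Finset.mem_subtype] at h𝔞
      exact_mod_cast (mem_SI.mp h𝔞).2) (S.image (resM (𝔣 * 𝔮))) par hpar2
    (fun 𝔞 => u (𝔞 : Ideal (𝓞 K)) * ψ₀ (𝔞 : Ideal (𝓞 K))) t₁
  rw [Finset.sum_image hinj, ← hvol, one_mul, one_mul] at hmain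
  have e1 : ∀ lam ∈ S, ∫ t in t₁..(t₁ + V), ‖∑ 𝔞 ∈ SI K M, u 𝔞 * pr ψ₀ lam 𝔞 * ph 𝔞 t‖ ^ 2 =
      ∫ t in t₁..(t₁ + V), ‖∑ 𝔞 ∈ (SI K M).subtype (· ∈ Mq (𝔣 * 𝔮)),
      (u (𝔞 : Ideal (𝓞 K)) * ψ₀ (𝔞 : Ideal (𝓞 K))) * ph (𝔞 : Ideal (𝓞 K)) t *
        ((resM (𝔣 * 𝔮) lam 𝔞 : ℂˣ) : ℂ)‖ ^ 2 := by
    intro lam hl
    obtain ⟨ν, a1, a2, a3⟩ := hSf _ hl
    have h1 := fun t => coef_all htop h₀ a3.toIsHM M u t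
    simp_rw [h1]
  rw [Finset.sum_congr rfl e1]
  refine hmain.trans ?_
  have hn1 := norm_le_one_hm U htop hbot (Dvd.intro _ rfl) hs h₀
  have hsq : ∑ 𝔞 ∈ (SI K M).subtype (· ∈ Mq (𝔣 * 𝔮)),
      ‖u (𝔞 : Ideal (𝓞 K)) * ψ₀ (𝔞 : Ideal (𝓞 K))‖ ^ 2 ≤ ∑ 𝔞 ∈ SI K M, ‖u 𝔞‖ ^ 2 := by
    have h1 : ∑ 𝔞 ∈ (SI K M).subtype (· ∈ Mq (𝔣 * 𝔮)),
        ‖u (𝔞 : Ideal (𝓞 K)) * ψ₀ (𝔞 : Ideal (𝓞 K))‖ ^ 2 ≤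
        ∑ 𝔞 ∈ (SI K M).subtype (· ∈ Mq (𝔣 * 𝔮)), ‖u (𝔞 : Ideal (𝓞 K))‖ ^ 2 := by
      refine Finset.sum_le_sum fun 𝔞 _ => ?_
      rw [norm_mul, mul_pow]
      exact mul_le_of_le_one_right (by positivity) (pow_le_one₀ (norm_nonneg _) (hn1 𝔞))
    refine h1.trans ?_
    rw [Finset.sum_subtype_eq_sum_filter (f := fun 𝔞 : Ideal (𝓞 K) => ‖u 𝔞‖ ^ 2)]
    exact Finset.sum_le_sum_of_subset_of_nonneg (Finset.filter_subset _ _)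
      fun _ _ _ => by positivity
  have hS0 : 0 ≤ ∑ 𝔞 ∈ SI K M, ‖u 𝔞‖ ^ 2 := Finset.sum_nonneg fun _ _ => by positivity
  have hc1 : (Fintype.card (Cls (pq (𝔣 * 𝔮))) : ℝ) ≤ cl := by
    rw [← Nat.card_eq_fintype_card]
    exact_mod_cast hcl _ htop hbot
  have hc2 : (Fintype.card (𝓞 K ⧸ 𝔮)ˣ : ℝ) ≤ Ideal.absNorm 𝔮 := by
    rw [← Nat.card_eq_fintype_card]
    exact card_quot_le h𝔮0
  have hr : V ^ rank K * V = V ^ Module.finrank ℚ K := by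
    rw [← pow_succ]
    congr 1
    have h1 : Fintype.card (InfinitePlace K) = Module.finrank ℚ K := card_places
    have h2 : 0 < Fintype.card (InfinitePlace K) := Fintype.card_pos
    unfold NumberField.Units.rank
    omega
  rw [hr]
  have hN0 : (0 : ℝ) ≤ Ideal.absNorm 𝔮 := Nat.cast_nonneg _
  calc (Fintype.card (Cls (pq (𝔣 * 𝔮))) : ℝ) * (Fintype.card (𝓞 K ⧸ 𝔮)ˣ *
        (V ^ Module.finrank ℚ K * (vol + 1)) *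
        ∑ 𝔞 ∈ (SI K M).subtype (· ∈ Mq (𝔣 * 𝔮)),
        ‖u (𝔞 : Ideal (𝓞 K)) * ψ₀ (𝔞 : Ideal (𝓞 K))‖ ^ 2) ≤
      (cl : ℝ) * (Ideal.absNorm 𝔮 * (V ^ Module.finrank ℚ K * (vol + 1)) *
        ∑ 𝔞 ∈ SI K M, ‖u 𝔞‖ ^ 2) := by gcongr
    _ = cl * (vol + 1) * (Ideal.absNorm 𝔮 * V ^ Module.finrank ℚ K) *
        ∑ 𝔞 ∈ SI K M, ‖u 𝔞‖ ^ 2 := by ring
    _ ≤ _ := by
        gcongr
        exact le_max_right _ _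

end

end Pool.Agent.N786
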