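import Pool.Agent.N786.D.Idl
import Pool.Agent.N786.D.Lsf
import Pool.Agent.N786.D.Sup3

/-!
# Dirichlet polynomials over ideals and their mean squares (owner helper786)
-/

set_option autoImplicit false
set_option linter.unusedSectionVars false

open NumberField NumberField.Units MeasureTheory Complex Filter Topology Set

namespace Pool.Agent.N786.D

open Pool.Agent.N786
open Pool.Agent.Y767
open Pool.Agent.R399.TW (pt pt_re pt_im pt_cont)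

section

variable {K : Type} [Field K] [NumberField K]

/-- the Dirichlet polynomial with coefficients `g 𝔞` -/
noncomputable def dpo (M : ℕ) (g : Ideal (𝓞 K) → ℂ) (χ : Ideal (𝓞 K) →*₀ ℂ) (s : ℂ) : ℂ :=
  ∑ 𝔞 ∈ SI K M, g 𝔞 * χ 𝔞 * cexp (-(s * (lN 𝔞 : ℂ)))

lemma dpo_diff (M : ℕ) (g : Ideal (𝓞 K) → ℂ) (χ : Ideal (𝓞 K) →*₀ ℂ) :
    Differentiable ℂ (dpo M g χ) := by
  unfold dpo
  fun_prop

lemma SI_ne {M : ℕ} {𝔞 : Ideal (𝓞 K)} (h : 𝔞 ∈ SI K M) : 𝔞 ≠ 0 := by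
  rintro rfl
  have := (mem_SI.mp h).1
  rw [map_zero] at this
  omega

lemma SI_of {M : ℕ} {𝔞 : Ideal (𝓞 K)} (h : 𝔞 ≠ 0) (hM : Ideal.absNorm 𝔞 ≤ M) : 𝔞 ∈ SI K M :=
  mem_SI.mpr ⟨Pool.Agent.Y772.DK.absNorm_pos' h, hM⟩

lemma exp_pt (x t : ℝ) (𝔞 : Ideal (𝓞 K)) :
    cexp (-(pt x t * (lN 𝔞 : ℂ))) = (Real.exp (-(x * lN 𝔞)) : ℂ) * ph 𝔞 t := by
  unfold ph pt lN
  rw [Complex.ofReal_exp, ← Complex.exp_add]
  congr 1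
  push_cast
  ring

/-- the coefficients of the mollified product -/
lemma bc_extract (L : Ideal (𝓞 K) → ℝ) (F₂ F₁ : ℝ → ℂ) (x : ℝ) (𝔞 : Ideal (𝓞 K)) :
    bc L (fun y => F₂ y * (Real.exp (-(x * y)) : ℂ)) (fun y => F₁ y * (Real.exp (-(x * y)) : ℂ)) 𝔞 =
      (Real.exp (-(x * L 𝔞)) : ℂ) * bc L F₂ F₁ 𝔞 := by
  unfold bc
  rw [Finset.mul_sum]
  refine Finset.sum_congr rfl fun T _ => ?_
  have e1 : (Real.exp (-(x * L 𝔞)) : ℂ) = (Real.exp (-(x * L (pd T))) : ℂ) *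
      (Real.exp (-(x * (L 𝔞 - L (pd T)))) : ℂ) := by
    rw [← Complex.ofReal_mul, ← Real.exp_add]
    congr 2
    ring
  rw [e1]
  ring

open Classical in
/-- the product of two Dirichlet polynomials, the second with the Moebius function -/
theorem prod_eq (M₁ M₂ : ℕ) (F₁ F₂ : ℝ → ℂ) (χ : Ideal (𝓞 K) →*₀ ℂ)
    (h1 : ∀ y, Real.log (M₁ + 1 : ℕ) ≤ y → F₁ y = 0)
    (h2 : ∀ y, Real.log (M₂ + 1 : ℕ) ≤ y → F₂ y = 0) (t : ℝ) :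
    (∑ 𝔞 ∈ SI K M₁, F₁ (lN 𝔞) * χ 𝔞 * ph 𝔞 t) * (∑ 𝔞 ∈ SI K M₂, (mob 𝔞 * F₂ (lN 𝔞)) * χ 𝔞 * ph 𝔞 t) =
      ∑ 𝔞 ∈ SI K (M₁ * M₂), bc lN F₂ F₁ 𝔞 * χ 𝔞 * ph 𝔞 t := by
  have hbig : ∀ (M : ℕ) (F : ℝ → ℂ), (∀ y, Real.log (M + 1 : ℕ) ≤ y → F y = 0) →
      ∀ d : Ideal (𝓞 K), d ≠ 0 → d ∉ SI K M → F (lN d) = 0 := by
    intro M F hF d hd hdM
    refine hF _ ?_
    have h3 : ¬ Ideal.absNorm d ≤ M := fun h => hdM (SI_of hd h)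
    exact Real.log_le_log (by positivity) (by exact_mod_cast (by omega : M + 1 ≤ Ideal.absNorm d))
  have hph : ∀ 𝔞 𝔟 : Ideal (𝓞 K), 𝔞 ≠ 0 → 𝔟 ≠ 0 → ph (𝔞 * 𝔟) t = ph 𝔞 t * ph 𝔟 t := by
    intro 𝔞 𝔟 ha hb
    have := (lN_norm K).mul 𝔞 𝔟 ha hb
    unfold lN at this
    unfold ph
    rw [this, ← Complex.exp_add]
    congr 1
    push_cast
    ring
  rw [Finset.sum_mul_sum, ← Finset.sum_product']
  have hmaps : ∀ q ∈ SI K M₁ ×ˢ SI K M₂, q.1 * q.2 ∈ SI K (M₁ * M₂) := by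
    intro q hq
    rw [Finset.mem_product] at hq
    refine SI_of (mul_ne_zero (SI_ne hq.1) (SI_ne hq.2)) ?_
    rw [map_mul]
    exact Nat.mul_le_mul (mem_SI.mp hq.1).2 (mem_SI.mp hq.2).2
  rw [← Finset.sum_fiberwise_of_maps_to hmaps]
  refine Finset.sum_congr rfl fun 𝔞 h𝔞 => ?_
  rw [← conv_eq (lN_norm K) (SI_ne h𝔞) (SI K M₁) (SI K M₂) F₁ F₂ (hbig M₁ F₁ h1) (hbig M₂ F₂ h2),
    Finset.sum_mul, Finset.sum_mul]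
  refine Finset.sum_congr rfl fun q hq => ?_
  rw [Finset.mem_filter, Finset.mem_product] at hq
  rw [← hq.2, map_mul, hph _ _ (SI_ne hq.1.1) (SI_ne hq.1.2)]
  ring

end

end Pool.Agent.N786.D
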