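import Pool.Agent.N786.D.Euv

/-!
# The mean square of the coefficients of a quotient of two shifted L-functions (owner helper786)
-/

set_option autoImplicit false

open UniqueFactorizationMonoid

namespace Pool.Agent.N786.D

/-- trigonometric bound -/
lemma cos_bound {y : ℝ} (hy : 0 ≤ y) : 2 - 2 * Real.cos y ≤ 8 * (1 - Real.exp (-y)) := by
  rcases le_total y 1 with h | h
  · have h1 := Real.one_sub_sq_div_two_le_cos (x := y)
    have h2 : Real.exp (-y) ≤ 1 - y / 2 := by
      have h3 : 1 + y ≤ Real.exp y := by linarith [Real.add_one_le_exp y]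
      rw [Real.exp_neg, inv_le_comm₀ (Real.exp_pos _) (by linarith)]
      refine le_trans ?_ h3
      rw [inv_le_comm₀ (by linarith) (by linarith), inv_eq_one_div, div_le_iff₀ (by linarith)]
      nlinarith
    nlinarith
  · have h1 := Real.neg_one_le_cos y
    have h2 : Real.exp (-y) ≤ 1 / 2 := by
      have h3 : Real.exp (-y) ≤ Real.exp (-1) := Real.exp_le_exp.mpr (by linarith)
      have h4 : Real.exp (-1) ≤ 1 / 2 := by
        rw [Real.exp_neg, inv_eq_one_div, div_le_div_iff₀ (Real.exp_pos _) (by norm_num)]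
        have := Real.exp_one_gt_d9
        linarith
      linarith
    linarith

/-- the local factor -/
lemma norm_one_sub_sq (y : ℝ) :
    ‖1 - Complex.exp ((y : ℂ) * Complex.I)‖ ^ 2 = 2 - 2 * Real.cos y := by
  rw [← Complex.normSq_eq_norm_sq, Complex.normSq_apply]
  have h1 : (1 - Complex.exp ((y : ℂ) * Complex.I)).re = 1 - Real.cos y := by
    rw [Complex.sub_re, Complex.one_re, Complex.exp_ofReal_mul_I_re]
  have h2 : (1 - Complex.exp ((y : ℂ) * Complex.I)).im = -Real.sin y := by
    rw [Complex.sub_im, Complex.one_im, Complex.exp_ofReal_mul_I_im, zero_sub]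
  rw [h1, h2]
  nlinarith [Real.sin_sq_add_cos_sq y]

lemma local_bound {L θ : ℝ} (hL : Real.log 2 ≤ L) :
    ‖1 - Complex.exp (((θ * L : ℝ) : ℂ) * Complex.I)‖ ^ 2 ≤
      16 * (1 - Real.exp (-(min |θ| (1 / 2) * L))) := by
  have hl2 : 0 < Real.log 2 := Real.log_pos (by norm_num)
  have hL0 : 0 < L := by linarith
  rw [norm_one_sub_sq]
  have hc : Real.cos (θ * L) = Real.cos (|θ| * L) := by
    rw [← Real.cos_abs (θ * L), abs_mul, abs_of_pos hL0]
  rw [hc]
  rcases le_total |θ| (1 / 2) with h | h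
  · rw [min_eq_left h]
    have h1 := cos_bound (y := |θ| * L) (by positivity)
    have h2 : Real.exp (-(|θ| * L)) ≤ 1 := by
      rw [Real.exp_le_one_iff]
      have : 0 ≤ |θ| * L := by positivity
      linarith
    linarith
  · rw [min_eq_right h]
    have h1 := Real.neg_one_le_cos (|θ| * L)
    have h2 : Real.exp (-(1 / 2 * L)) ≤ 3 / 4 := by
      have h3 : Real.exp (-(1 / 2 * L)) ≤ Real.exp (-(1 / 2 * Real.log 2)) :=
        Real.exp_le_exp.mpr (by linarith)
      refine h3.trans ?_
      have h4 : Real.exp (-(1 / 2 * Real.log 2)) ^ 2 = 1 / 2 := by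
        rw [← Real.exp_nat_mul]
        have : ((2 : ℕ) : ℝ) * -(1 / 2 * Real.log 2) = -Real.log 2 := by push_cast; ring
        rw [this, Real.exp_neg, Real.exp_log (by norm_num)]
        norm_num
      nlinarith [Real.exp_pos (-(1 / 2 * Real.log 2))]
    linarith

/-- integration of the bound for the sum over the primes -/
lemma psum_int {ι : Type} (S : Finset ι) (L : ι → ℝ) (hL : ∀ p ∈ S, 0 ≤ L p) {B₀ σ w : ℝ}
    (hσ : 1 < σ) (hw : 0 ≤ w)
    (hB : ∀ u : ℝ, 0 ≤ u → u ≤ w → ∑ p ∈ S, L p * Real.exp (-((σ + u) * L p)) ≤ B₀ / (σ + u - 1)) :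
    ∑ p ∈ S, (1 - Real.exp (-(w * L p))) * Real.exp (-(σ * L p)) ≤
      B₀ * Real.log (1 + w / (σ - 1)) := by
  set F : ℝ → ℝ := fun u => ∑ p ∈ S, (1 - Real.exp (-(u * L p))) * Real.exp (-(σ * L p)) -
    B₀ * Real.log (1 + u / (σ - 1)) with hF
  have hs0 : 0 < σ - 1 := by linarith
  have hpos : ∀ u : ℝ, 0 ≤ u → 0 < 1 + u / (σ - 1) := fun u hu => by positivity
  have hder : ∀ u : ℝ, 0 ≤ u → HasDerivAt F (∑ p ∈ S, L p * Real.exp (-((σ + u) * L p)) -
      B₀ / (σ + u - 1)) u := by
    intro u hu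
    have h1 : HasDerivAt (fun u : ℝ => ∑ p ∈ S, (1 - Real.exp (-(u * L p))) *
        Real.exp (-(σ * L p))) (∑ p ∈ S, L p * Real.exp (-((σ + u) * L p))) u := by
      refine HasDerivAt.fun_sum fun p _ => ?_
      have h2 : HasDerivAt (fun u : ℝ => Real.exp (-(u * L p)))
          (Real.exp (-(u * L p)) * (-(1 * L p))) u :=
        (((hasDerivAt_id u).mul_const (L p)).neg).exp
      have h3 := (h2.const_sub 1).mul_const (Real.exp (-(σ * L p)))
      refine h3.congr_deriv ?_
      have e : Real.exp (-((σ + u) * L p)) = Real.exp (-(u * L p)) * Real.exp (-(σ * L p)) := by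
        rw [← Real.exp_add]; congr 1; ring
      rw [e]
      ring
    have h4 : HasDerivAt (fun u : ℝ => B₀ * Real.log (1 + u / (σ - 1)))
        (B₀ / (σ + u - 1)) u := by
      have h5 : HasDerivAt (fun u : ℝ => 1 + u / (σ - 1)) (1 / (σ - 1)) u :=
        ((hasDerivAt_id u).div_const (σ - 1)).const_add 1
      have h6 := (h5.log (hpos u hu).ne').const_mul B₀
      refine h6.congr_deriv ?_
      have : 0 < σ + u - 1 := by linarith
      have := hpos u hu
      field_simp
      ring
    exact h1.sub h4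
  have hanti : AntitoneOn F (Set.Icc 0 w) := by
    refine antitoneOn_of_deriv_nonpos (convex_Icc 0 w) ?_ ?_ ?_
    · exact fun u hu => (hder u hu.1).continuousAt.continuousWithinAt
    · rw [interior_Icc]
      exact fun u hu => (hder u hu.1.le).differentiableAt.differentiableWithinAt
    · rw [interior_Icc]
      intro u hu
      rw [(hder u hu.1.le).deriv]
      linarith [hB u hu.1.le hu.2.le]
  have h1 := hanti (Set.left_mem_Icc.mpr hw) (Set.right_mem_Icc.mpr hw) hw
  have h2 : F 0 = 0 := by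
    rw [hF]
    simp
  rw [h2] at h1
  rw [hF] at h1
  simp only at h1
  linarith

section

variable {M : Type} [CommMonoidWithZero M] [NormalizationMonoid M] [UniqueFactorizationMonoid M]
  [Subsingleton Mˣ] [Nontrivial M]

/-- the logarithm of a norm -/
structure LNorm (L : M → ℝ) (B₀ : ℝ) : Prop where
  one : L 1 = 0
  mul : ∀ a b, a ≠ 0 → b ≠ 0 → L (a * b) = L a + L b
  prime : ∀ p, Prime p → Real.log 2 ≤ L p
  B0 : 0 ≤ B₀
  sum : ∀ S : Finset M, (∀ p ∈ S, Prime p) → ∀ σ : ℝ, 1 < σ → σ ≤ 2 →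
    ∑ p ∈ S, L p * Real.exp (-(σ * L p)) ≤ B₀ / (σ - 1)

open Classical in
/-- the mean square of the coefficients of `ζ(s) / ζ(s - iθ)` -/
theorem sq_sum {L : M → ℝ} {B₀ : ℝ} (hL : LNorm L B₀) {σ : ℝ} (h1 : 1 < σ) (h2 : σ ≤ 3 / 2)
    (θ : ℝ) (A : Finset M) (hA : ∀ a ∈ A, a ≠ 0) :
    ∑ a ∈ A, (∏ p ∈ primeFactors a, ‖1 - Complex.exp (((θ * L p : ℝ) : ℂ) * Complex.I)‖ ^ 2) *
      Real.exp (-(σ * L a)) ≤ (1 + |θ| / (σ - 1)) ^ (32 * B₀) := by
  set c : M → ℝ := fun p => ‖1 - Complex.exp (((θ * L p : ℝ) : ℂ) * Complex.I)‖ ^ 2 with hc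
  set x : M → ℝ := fun a => if a = 0 then 0 else Real.exp (-(σ * L a)) with hx
  set S : Finset M := A.biUnion primeFactors with hS
  have hSp : ∀ p ∈ S, Prime p := by
    intro p hp
    rw [hS, Finset.mem_biUnion] at hp
    obtain ⟨a, -, ha⟩ := hp
    exact nf_prime ha
  have hxp : ∀ p, Prime p → x p = Real.exp (-(σ * L p)) := fun p hp => by
    rw [hx]; simp only; rw [if_neg hp.ne_zero]
  have hxp2 : ∀ p, Prime p → x p ≤ 1 / 2 := fun p hp => by
    rw [hxp p hp]
    have h3 := hL.prime p hp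
    have hl2 : 0 < Real.log 2 := Real.log_pos (by norm_num)
    have h4 : Real.exp (-(σ * L p)) ≤ Real.exp (-Real.log 2) :=
      Real.exp_le_exp.mpr (by nlinarith)
    rw [Real.exp_neg (Real.log 2), Real.exp_log (by norm_num)] at h4
    linarith
  have hx0 : ∀ a, 0 ≤ x a := fun a => by
    rw [hx]; simp only; split_ifs
    · exact le_rfl
    · exact (Real.exp_pos _).le
  have key := euler_le x c (by rw [hx]; simp only; rw [if_neg one_ne_zero, hL.one]; simp)
    (fun a b => by
      rw [hx]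
      simp only
      rcases eq_or_ne a 0 with rfl | ha
      · simp
      rcases eq_or_ne b 0 with rfl | hb
      · simp
      rw [if_neg (mul_ne_zero ha hb), if_neg ha, if_neg hb, hL.mul a b ha hb, ← Real.exp_add]
      congr 1
      ring) hx0 (fun a => sq_nonneg _) S hSp (fun p hp => lt_of_le_of_lt (hxp2 p (hSp p hp))
      (by norm_num)) A (fun a ha => ⟨hA a ha, Finset.subset_biUnion_of_mem _ ha⟩)
  have e1 : ∑ a ∈ A, (∏ p ∈ primeFactors a, c p) * x a =
      ∑ a ∈ A, (∏ p ∈ primeFactors a, c p) * Real.exp (-(σ * L a)) := by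
    refine Finset.sum_congr rfl fun a ha => ?_
    rw [hx]
    simp only
    rw [if_neg (hA a ha)]
  rw [e1] at key
  refine key.trans ?_
  set w : ℝ := min |θ| (1 / 2) with hw
  have hw0 : 0 ≤ w := le_min (abs_nonneg _) (by norm_num)
  have hs0 : 0 < σ - 1 := by linarith
  have h3 : ∏ p ∈ S, (1 + c p * (x p / (1 - x p))) ≤
      Real.exp (∑ p ∈ S, 32 * ((1 - Real.exp (-(w * L p))) * Real.exp (-(σ * L p)))) := by
    rw [Real.exp_sum]
    refine Finset.prod_le_prod (fun p hp => ?_) fun p hp => ?_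
    · have := hxp2 p (hSp p hp)
      have := hx0 p
      have h4 : 0 ≤ c p := sq_nonneg _
      have h5 : 0 < 1 - x p := by linarith
      positivity
    · have h4 := hxp2 p (hSp p hp)
      have h5 := hx0 p
      have h6 : 0 ≤ c p := sq_nonneg _
      have h7 : 0 < 1 - x p := by linarith
      have h8 : x p / (1 - x p) ≤ 2 * x p := by
        rw [div_le_iff₀ h7]
        nlinarith
      have h9 : c p ≤ 16 * (1 - Real.exp (-(w * L p))) := local_bound (hL.prime p (hSp p hp))
      have h10 : c p * (x p / (1 - x p)) ≤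
          32 * ((1 - Real.exp (-(w * L p))) * Real.exp (-(σ * L p))) := by
        calc c p * (x p / (1 - x p)) ≤ (16 * (1 - Real.exp (-(w * L p)))) * (2 * x p) := by
              gcongr
              exact h6.trans h9
          _ = _ := by rw [hxp p (hSp p hp)]; ring
      have h11 := Real.add_one_le_exp
        (32 * ((1 - Real.exp (-(w * L p))) * Real.exp (-(σ * L p))))
      linarith
  refine h3.trans ?_
  rw [← Finset.mul_sum]
  have hLS : ∀ p ∈ S, 0 ≤ L p := fun p hp => by
    have h4 := hL.prime p (hSp p hp)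
    have hl2 : 0 < Real.log 2 := Real.log_pos (by norm_num)
    linarith
  have h4 := psum_int S L hLS h1 hw0 (B₀ := B₀) (fun u hu0 hu1 => by
    refine hL.sum S hSp (σ + u) (by linarith) ?_
    have : w ≤ 1 / 2 := min_le_right _ _
    linarith)
  have hb : 0 < 1 + |θ| / (σ - 1) := by positivity
  rw [Real.rpow_def_of_pos hb]
  refine Real.exp_le_exp.mpr ?_
  have h5 : Real.log (1 + w / (σ - 1)) ≤ Real.log (1 + |θ| / (σ - 1)) := by
    refine Real.log_le_log (by positivity) ?_
    have : w ≤ |θ| := min_le_left _ _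
    gcongr
  have h6 := mul_le_mul_of_nonneg_left h5 hL.B0
  nlinarith

end

end Pool.Agent.N786.D
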