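import Pool.Agent.N786.D.Sup3

/-!
# The mean square to the right of a line (owner helper786)
-/

set_option autoImplicit false

namespace Pool.Agent.N786.D

open MeasureTheory Set Filter Topology Complex
open Pool.Agent.R399.TW (pt pt_re pt_im pt_cont)

/-- integrals against the kernel, `r ≤ 3` -/
lemma kap_poly3 {B p : ℕ} (hB : p + 2 ≤ 2 * B) {r : ℝ} (hr : 0 < r) (hr3 : r ≤ 3) :
    Integrable (fun v : ℝ => kap B r v * (2 + |v|) ^ p) ∧
    ∫ v : ℝ, kap B r v * (2 + |v|) ^ p ≤ 3 ^ p * cB B p := by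
  have hB1 : 1 ≤ B := by omega
  have hpt : ∀ u : ℝ, r * (kap B r (r * u) * (2 + |r * u|) ^ p) ≤
      3 ^ p * (2 ^ (2 * B - 1) * ((1 + u ^ 2) ^ B)⁻¹ * (2 + |u|) ^ p) := by
    intro u
    have h2 : 2 + |r * u| ≤ 3 * (2 + |u|) := by
      rw [abs_mul, abs_of_pos hr]
      have := abs_nonneg u
      nlinarith
    rw [← mul_assoc r, kap_scale B hB1 hr]
    calc 2 ^ (2 * B - 1) * ((1 + u ^ 2) ^ B)⁻¹ * (2 + |r * u|) ^ p ≤
        2 ^ (2 * B - 1) * ((1 + u ^ 2) ^ B)⁻¹ * (3 * (2 + |u|)) ^ p := by gcongr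
      _ = _ := by rw [mul_pow]; ring
  have hcont : Continuous fun v : ℝ => kap B r v * (2 + |v|) ^ p :=
    (kap_cont B hr).mul (by fun_prop)
  have hnn : ∀ v : ℝ, 0 ≤ kap B r v * (2 + |v|) ^ p := fun v => by
    have := kap_nn B hr v
    positivity
  have hi1 : Integrable (fun u : ℝ => r * (kap B r (r * u) * (2 + |r * u|) ^ p)) := by
    refine ((cB_int hB).const_mul (3 ^ p)).mono' ?_ (Eventually.of_forall fun u => ?_)
    · exact (continuous_const.mul (hcont.comp (by fun_prop))).aestronglyMeasurable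
    · rw [Real.norm_of_nonneg (mul_nonneg hr.le (hnn _))]
      exact hpt u
  have hi2 : Integrable (fun v : ℝ => kap B r v * (2 + |v|) ^ p) := by
    have h1 : Integrable (fun u : ℝ => (fun v : ℝ => kap B r v * (2 + |v|) ^ p) (r * u)) := by
      refine (hi1.const_mul r⁻¹).congr (Eventually.of_forall fun u => ?_)
      simp only
      rw [← mul_assoc, inv_mul_cancel₀ hr.ne', one_mul]
    exact (integrable_comp_mul_left_iff _ hr.ne').mp h1
  refine ⟨hi2, ?_⟩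
  have h1 : ∫ v : ℝ, kap B r v * (2 + |v|) ^ p =
      ∫ u : ℝ, r * (kap B r (r * u) * (2 + |r * u|) ^ p) := by
    have h2 := Measure.integral_comp_mul_left (fun v : ℝ => kap B r v * (2 + |v|) ^ p) r
    rw [integral_const_mul, h2, abs_of_pos (inv_pos.mpr hr), smul_eq_mul, ← mul_assoc,
      mul_inv_cancel₀ hr.ne', one_mul]
  rw [h1]
  refine (integral_mono hi1 ((cB_int hB).const_mul _) hpt).trans (le_of_eq ?_)
  rw [integral_const_mul]
  rfl

/-- the mean square over a family and a window -/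
noncomputable def QQ {ι : Type} (I : Finset ι) (f : ι → ℂ → ℂ) (x H t₀ : ℝ) : ENNReal :=
  ∑ i ∈ I, ∫⁻ t in Icc t₀ (t₀ + H), ENNReal.ofReal (‖f i (pt x t)‖ ^ 2)

/-- **the mean square to the right of a line** -/
theorem QQ_right {ι : Type} {I : Finset ι} {f : ι → ℂ → ℂ} (hf : ∀ i, Differentiable ℂ (f i))
    {a μ lam T H Q : ℝ} {m B E : ℕ} (hT : 1 ≤ T) (hQ : 0 ≤ Q) (hB : m + 3 ≤ 2 * B - 1)
    (hBE : E + 2 ≤ 2 * B) (hml : μ < lam)
    (hgr : ∀ i ∈ I, ∃ G : ℝ, ∀ z : ℂ, a ≤ z.re →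
      ‖f i z‖ ≤ G * (1 + |z.im|) ^ m * Real.exp (-(lam * z.re)))
    (hms : ∀ t₀ : ℝ, QQ I f a H t₀ ≤ ENNReal.ofReal (Q * (1 + |t₀| / T) ^ E))
    {r : ℝ} (hr : 0 < r) (hr3 : r ≤ 3) (t₀ : ℝ) :
    QQ I f (a + r) H t₀ ≤ ENNReal.ofReal (cB B 0 * (3 ^ E * cB B E) * Q *
      Real.exp (-(2 * (μ * r))) * (1 + |t₀| / T) ^ E) := by
  set κ := kap B r with hκ
  have hκc : Continuous κ := kap_cont B hr
  have hκ0 : ∀ v, 0 ≤ κ v := kap_nn B hr
  have hT0 : 0 < T := by linarith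
  obtain ⟨k1, k2⟩ := kap_poly3 (B := B) (p := 0) (by omega) hr hr3
  simp only [pow_zero, mul_one, one_mul] at k1 k2
  obtain ⟨k3, k4⟩ := kap_poly3 (B := B) (p := E) hBE hr hr3
  rw [← hκ] at k1 k2 k3 k4
  obtain ⟨C0, hC0⟩ : ∃ C0 : ℝ, C0 = cB B 0 := ⟨_, rfl⟩
  obtain ⟨C1, hC1⟩ : ∃ C1 : ℝ, C1 = 3 ^ E * cB B E := ⟨_, rfl⟩
  have hC00 : 0 ≤ C0 := by rw [hC0]; exact cB_nn B 0
  have hC10 : 0 ≤ C1 := by rw [hC1]; have := cB_nn B E; positivity
  rw [← hC0] at k2
  rw [← hC1] at k4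
  rw [← hC0, ← hC1]
  have hfc : ∀ i, Continuous fun t : ℝ => ‖f i (pt a t)‖ := fun i =>
    ((hf i).continuous.comp (pt_cont _)).norm
  obtain ⟨s₀, hs₀⟩ : ∃ s₀ : ℝ, s₀ = Real.exp (-(μ * r)) := ⟨_, rfl⟩
  have hs0 : 0 < s₀ := by rw [hs₀]; exact Real.exp_pos _
  have hs2 : s₀ ^ 2 = Real.exp (-(2 * (μ * r))) := by
    rw [hs₀, ← Real.exp_nat_mul]; congr 1; push_cast; ring
  -- pointwise
  have hpt : ∀ i ∈ I, ∀ t : ℝ, ENNReal.ofReal (‖f i (pt (a + r) t)‖ ^ 2) ≤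
      ENNReal.ofReal (s₀ ^ 2 * C0) *
        ∫⁻ v, ENNReal.ofReal (κ v * ‖f i (pt a (t + v))‖ ^ 2) := by
    intro i hi t
    obtain ⟨G, hG⟩ := hgr i hi
    obtain ⟨i1, i2⟩ := cauchy_le (hf i) hB hml hG (s := pt (a + r) t) (by rw [pt_re]; linarith)
    have e0 : (pt (a + r) t).re - a = r := by rw [pt_re]; ring
    rw [e0, pt_im] at i1 i2
    rw [← hκ, ← hs₀] at i2
    rw [← hκ] at i1
    have hcs := csE (f := fun v => ‖f i (pt a (t + v))‖) (w := κ)
      ((hfc i).comp (by fun_prop : Continuous fun v : ℝ => t + v))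
      (fun v => norm_nonneg _) hκ0 k1 hκc i1
    obtain ⟨Z, hZ⟩ : ∃ Z : ℝ, Z = ∫ v : ℝ, ‖f i (pt a (t + v))‖ * κ v := ⟨_, rfl⟩
    rw [← hZ] at hcs i2
    have e1 : ‖f i (pt (a + r) t)‖ ^ 2 ≤ s₀ ^ 2 * Z ^ 2 := by
      rw [← mul_pow]
      exact pow_le_pow_left₀ (norm_nonneg _) i2 2
    refine (ENNReal.ofReal_le_ofReal e1).trans ?_
    rw [ENNReal.ofReal_mul (sq_nonneg s₀), ENNReal.ofReal_mul (sq_nonneg s₀), mul_assoc]
    gcongr
    refine hcs.trans ?_
    have e6 : ENNReal.ofReal (∫ v, κ v) ≤ ENNReal.ofReal C0 := ENNReal.ofReal_le_ofReal k2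
    refine mul_le_mul' e6 (le_of_eq ?_)
    refine lintegral_congr fun v => ?_
    rw [mul_comm]
  have hmeas : ∀ i, Measurable (Function.uncurry fun t v : ℝ =>
      ENNReal.ofReal (κ v * ‖f i (pt a (t + v))‖ ^ 2)) := by
    intro i
    refine Measurable.ennreal_ofReal (Continuous.measurable ?_)
    have c1 : Continuous fun q : ℝ × ℝ => ‖f i (pt a (q.1 + q.2))‖ := (hfc i).comp (by fun_prop)
    have c3 : Continuous fun q : ℝ × ℝ => κ q.2 := hκc.comp (by fun_prop)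
    exact c3.mul (c1.pow 2)
  have hm1 : ∀ i, ∀ v : ℝ, Measurable fun t : ℝ => ENNReal.ofReal (‖f i (pt a (t + v))‖ ^ 2) :=
    fun i v => Measurable.ennreal_ofReal
      (((hfc i).comp (by fun_prop : Continuous fun t : ℝ => t + v)).pow 2).measurable
  have hswap : ∑ i ∈ I, ∫⁻ t in Icc t₀ (t₀ + H), ∫⁻ v,
      ENNReal.ofReal (κ v * ‖f i (pt a (t + v))‖ ^ 2) ≤
      ENNReal.ofReal (Q * (1 + |t₀| / T) ^ E * C1) := by
    have e1 : ∀ i ∈ I, ∫⁻ t in Icc t₀ (t₀ + H), ∫⁻ v,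
        ENNReal.ofReal (κ v * ‖f i (pt a (t + v))‖ ^ 2) =
        ∫⁻ v, ENNReal.ofReal (κ v) * ∫⁻ t in Icc t₀ (t₀ + H),
          ENNReal.ofReal (‖f i (pt a (t + v))‖ ^ 2) := by
      intro i _
      rw [lintegral_lintegral_swap (hmeas i).aemeasurable]
      refine lintegral_congr fun v => ?_
      rw [← lintegral_const_mul _ (hm1 i v)]
      refine lintegral_congr fun t => ?_
      rw [← ENNReal.ofReal_mul (hκ0 v)]
    rw [Finset.sum_congr rfl e1, ← lintegral_finsetSum']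
    · have e2 : ∀ v : ℝ, ∑ i ∈ I, ENNReal.ofReal (κ v) * ∫⁻ t in Icc t₀ (t₀ + H),
          ENNReal.ofReal (‖f i (pt a (t + v))‖ ^ 2) ≤
          ENNReal.ofReal (Q * (1 + |t₀| / T) ^ E * (κ v * (2 + |v|) ^ E)) := by
        intro v
        rw [← Finset.mul_sum]
        have e3 : ∑ i ∈ I, ∫⁻ t in Icc t₀ (t₀ + H), ENNReal.ofReal (‖f i (pt a (t + v))‖ ^ 2) =
            QQ I f a H (t₀ + v) := by
          unfold QQ
          refine Finset.sum_congr rfl fun i _ => ?_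
          rw [lint_shift (fun t => ENNReal.ofReal (‖f i (pt a t)‖ ^ 2)) t₀ H v]
        rw [e3]
        refine (mul_le_mul_right (hms (t₀ + v)) _).trans ?_
        rw [← ENNReal.ofReal_mul (hκ0 v)]
        refine ENNReal.ofReal_le_ofReal ?_
        have e4 := theta_shift hT t₀ v
        have e5 : (1 + |t₀ + v| / T) ^ E ≤ (1 + |t₀| / T) ^ E * (2 + |v|) ^ E := by
          rw [← mul_pow]
          refine pow_le_pow_left₀ (by positivity) (e4.trans ?_) E
          gcongr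
          norm_num
        calc κ v * (Q * (1 + |t₀ + v| / T) ^ E) ≤
            κ v * (Q * ((1 + |t₀| / T) ^ E * (2 + |v|) ^ E)) := by
              have := hκ0 v
              gcongr
          _ = _ := by ring
      refine (lintegral_mono e2).trans ?_
      have hn : ∀ v : ℝ, 0 ≤ Q * (1 + |t₀| / T) ^ E * (κ v * (2 + |v|) ^ E) := fun v => by
        have := hκ0 v
        positivity
      rw [← ofReal_integral_eq_lintegral_ofReal (k3.const_mul _) (Eventually.of_forall hn),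
        integral_const_mul]
      exact ENNReal.ofReal_le_ofReal (mul_le_mul_of_nonneg_left k4 (by positivity))
    · intro i _
      refine AEMeasurable.mul (hκc.measurable.ennreal_ofReal).aemeasurable ?_
      refine Measurable.aemeasurable ?_
      have c0 : Measurable (Function.uncurry fun v t : ℝ =>
          ENNReal.ofReal (‖f i (pt a (t + v))‖ ^ 2)) := by
        refine Measurable.ennreal_ofReal (Continuous.measurable ?_)
        have c1 : Continuous fun q : ℝ × ℝ => ‖f i (pt a (q.2 + q.1))‖ := (hfc i).comp (by fun_prop)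
        exact c1.pow 2
      exact c0.lintegral_prod_right'
  have htot : QQ I f (a + r) H t₀ ≤ ENNReal.ofReal (s₀ ^ 2 * C0) *
      ∑ i ∈ I, ∫⁻ t in Icc t₀ (t₀ + H), ∫⁻ v,
      ENNReal.ofReal (κ v * ‖f i (pt a (t + v))‖ ^ 2) := by
    unfold QQ
    rw [Finset.mul_sum]
    refine Finset.sum_le_sum fun i hi => ?_
    have m3 : Measurable fun t : ℝ => ∫⁻ v,
        ENNReal.ofReal (κ v * ‖f i (pt a (t + v))‖ ^ 2) := (hmeas i).lintegral_prod_right'
    refine (lintegral_mono (hpt i hi)).trans (le_of_eq ?_)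
    rw [lintegral_const_mul _ m3]
  refine htot.trans ((mul_le_mul_right hswap _).trans ?_)
  rw [← ENNReal.ofReal_mul (by positivity)]
  refine ENNReal.ofReal_le_ofReal (le_of_eq ?_)
  rw [hs2]
  ring

end Pool.Agent.N786.D
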