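import Pool.Agent.N786.D.Pol2

/-!
# Comparison of the Dirichlet polynomials with the Dirichlet series (owner helper786)
-/

set_option autoImplicit false
set_option linter.unusedSectionVars false

open NumberField NumberField.Units MeasureTheory Complex Filter Topology Set

namespace Pool.Agent.N786.D

open Pool.Agent.N786
open Pool.Agent.Y773 (LI)
open Pool.Agent.Y767
open Pool.Agent.Y772.DK (nr nr_nonneg nr_summable LA term_summable LA_le absNorm_pos')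
open Pool.Agent.R399.TW (pt pt_re pt_im pt_cont)

section

variable {K : Type} [Field K] [NumberField K]

/-- the constant -/
noncomputable def ZK (K : Type) [Field K] [NumberField K] : ℝ :=
  ∑' 𝔞 : Ideal (𝓞 K), nr K (3 / 2) 𝔞

lemma ZK_nonneg : 0 ≤ ZK K := tsum_nonneg fun 𝔞 => nr_nonneg K _ 𝔞

lemma tail_le {g : Ideal (𝓞 K) → ℂ} (h0 : g 0 = 0) (h1 : ∀ 𝔞, ‖g 𝔞‖ ≤ 1) {y : ℝ}
    (hg : ∀ 𝔞, 𝔞 ≠ 0 → lN 𝔞 ≤ y → g 𝔞 = 0) {s : ℂ} (hs : 3 / 2 ≤ s.re) :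
    ‖LA g s‖ ≤ Real.exp (-(y * (s.re - 3 / 2))) * ZK K := by
  unfold LA ZK
  rw [← tsum_mul_left]
  refine tsum_of_norm_bounded ((nr_summable K (by norm_num)).mul_left _).hasSum fun 𝔞 => ?_
  have hE : 0 ≤ Real.exp (-(y * (s.re - 3 / 2))) := (Real.exp_pos _).le
  by_cases ha : 𝔞 = 0
  · rw [ha, h0, zero_mul, norm_zero]
    exact mul_nonneg hE (nr_nonneg K _ _)
  by_cases hy : lN 𝔞 ≤ y
  · rw [hg 𝔞 ha hy, zero_mul, norm_zero]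
    exact mul_nonneg hE (nr_nonneg K _ _)
  push Not at hy
  have hN : 0 < (Ideal.absNorm 𝔞 : ℝ) := by exact_mod_cast absNorm_pos' ha
  rw [norm_mul, Complex.norm_natCast_cpow_of_pos (absNorm_pos' ha), neg_re]
  have e1 : (Ideal.absNorm 𝔞 : ℝ) ^ (-s.re) =
      Real.exp (-(lN 𝔞 * (s.re - 3 / 2))) * nr K (3 / 2) 𝔞 := by
    unfold nr lN
    rw [Real.rpow_def_of_pos hN, Real.rpow_def_of_pos hN, ← Real.exp_add]
    congr 1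
    ring
  rw [e1]
  have h2 : Real.exp (-(lN 𝔞 * (s.re - 3 / 2))) ≤ Real.exp (-(y * (s.re - 3 / 2))) := by
    refine Real.exp_le_exp.mpr (neg_le_neg ?_)
    exact mul_le_mul_of_nonneg_right hy.le (by linarith)
  calc ‖g 𝔞‖ * (Real.exp (-(lN 𝔞 * (s.re - 3 / 2))) * nr K (3 / 2) 𝔞) ≤
      1 * (Real.exp (-(y * (s.re - 3 / 2))) * nr K (3 / 2) 𝔞) := by
        refine mul_le_mul (h1 𝔞) ?_ (mul_nonneg (Real.exp_pos _).le (nr_nonneg K _ _)) zero_le_one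
        exact mul_le_mul_of_nonneg_right h2 (nr_nonneg K _ _)
    _ = _ := one_mul _

lemma dpo_series {M : ℕ} {g : Ideal (𝓞 K) → ℂ} (χ : Ideal (𝓞 K) →*₀ ℂ)
    (hg : ∀ 𝔞, 𝔞 ≠ 0 → 𝔞 ∉ SI K M → g 𝔞 = 0) (s : ℂ) :
    dpo M g χ s = LA (fun 𝔞 => g 𝔞 * χ 𝔞) s := by
  unfold dpo LA
  rw [tsum_eq_sum (s := SI K M)]
  · refine Finset.sum_congr rfl fun 𝔞 h𝔞 => ?_
    have h1 : ((Ideal.absNorm 𝔞 : ℕ) : ℂ) ≠ 0 := by
      exact_mod_cast (absNorm_pos' (SI_ne h𝔞)).ne'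
    rw [Complex.cpow_def_of_ne_zero h1, lN, ← Complex.natCast_log]
    congr 2
    ring
  · intro 𝔞 h𝔞
    beta_reduce
    by_cases ha : 𝔞 = 0
    · rw [ha, map_zero, mul_zero, zero_mul]
    · rw [hg 𝔞 ha h𝔞, zero_mul, zero_mul]

lemma not_SI {x : ℝ} {𝔞 : Ideal (𝓞 K)} (ha : 𝔞 ≠ 0) (h : 𝔞 ∉ SI K ⌊Real.exp x⌋₊) : x ≤ lN 𝔞 := by
  have h3 : ¬ Ideal.absNorm 𝔞 ≤ ⌊Real.exp x⌋₊ := fun h' => h (SI_of ha h')
  refine le_trans log_floor_succ (Real.log_le_log (by positivity) ?_)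
  exact_mod_cast (by omega : ⌊Real.exp x⌋₊ + 1 ≤ Ideal.absNorm 𝔞)

lemma LA_sub {g h : Ideal (𝓞 K) → ℂ} (g0 : g 0 = 0) (g1 : ∀ 𝔞, ‖g 𝔞‖ ≤ 1) (h0 : h 0 = 0)
    (h1 : ∀ 𝔞, ‖h 𝔞‖ ≤ 1) {s : ℂ} (hs : 1 < s.re) :
    LA g s - LA h s = LA (fun 𝔞 => g 𝔞 - h 𝔞) s := by
  unfold LA
  rw [← (term_summable g0 g1 hs).of_norm.tsum_sub (term_summable h0 h1 hs).of_norm]
  refine tsum_congr fun 𝔞 => ?_
  ring

/-- the difference of the Dirichlet polynomial and the series -/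
theorem D_sub_L {α₁ α₂ : ℝ} {φ : ℝ → ℝ} (hφ : Cutf α₁ α₂ φ) {R : ℝ} (hR : 0 < R)
    {ψ₀ lam : Ideal (𝓞 K) →*₀ ℂ} (h1 : ∀ 𝔞, ‖pr ψ₀ lam 𝔞‖ ≤ 1) {s : ℂ} (hs : 3 / 2 ≤ s.re) :
    ‖Dp φ R ⌊Real.exp (α₂ * R)⌋₊ ψ₀ lam s - LI (pr ψ₀ lam) s‖ ≤
      Real.exp (-(α₁ * R * (s.re - 3 / 2))) * ZK K := by
  have e1 : Dp φ R ⌊Real.exp (α₂ * R)⌋₊ ψ₀ lam s =
      LA (fun 𝔞 => (φ (lN 𝔞 / R) : ℂ) * pr ψ₀ lam 𝔞) s := by
    unfold Dp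
    refine dpo_series _ (fun 𝔞 ha h => ?_) s
    have h2 := not_SI ha h
    rw [hφ.zero _ (le_trans (by rw [le_div_iff₀ hR]; exact h2) (le_abs_self _)),
      Complex.ofReal_zero]
  have hφ1 : ∀ x, ‖(φ x : ℂ)‖ ≤ 1 := fun x => by
    rw [Complex.norm_real, Real.norm_of_nonneg (hφ.nn x)]
    exact hφ.le x
  have hχ0 : pr ψ₀ lam 0 = 0 := map_zero _
  have e2 : LI (pr ψ₀ lam) s = LA (pr ψ₀ lam) s := rfl
  rw [e1, e2, LA_sub (by rw [hχ0, mul_zero]) (fun 𝔞 => by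
    rw [norm_mul]
    exact mul_le_one₀ (hφ1 _) (norm_nonneg _) (h1 𝔞)) hχ0 h1 (by linarith)]
  refine tail_le (by rw [hχ0]; simp) (fun 𝔞 => ?_) (fun 𝔞 ha hy => ?_) hs
  · have e3 : (φ (lN 𝔞 / R) : ℂ) * pr ψ₀ lam 𝔞 - pr ψ₀ lam 𝔞 =
        ((φ (lN 𝔞 / R) - 1 : ℝ) : ℂ) * pr ψ₀ lam 𝔞 := by push_cast; ring
    rw [e3, norm_mul, Complex.norm_real]
    refine mul_le_one₀ ?_ (norm_nonneg _) (h1 𝔞)
    rw [Real.norm_eq_abs, abs_le]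
    exact ⟨by linarith [hφ.nn (lN 𝔞 / R)], by linarith [hφ.le (lN 𝔞 / R)]⟩
  · have h3 : |lN 𝔞 / R| ≤ α₁ := by
      rw [abs_of_nonneg (div_nonneg (lN_nonneg _) hR.le), div_le_iff₀ hR]
      exact hy
    rw [hφ.one _ h3]
    push_cast
    ring

/-- the Moebius function is bounded -/
lemma mob_le (𝔞 : Ideal (𝓞 K)) : ‖mob 𝔞‖ ≤ 1 := by
  unfold mob
  split_ifs
  · rw [norm_pow, norm_neg, norm_one, one_pow]
  · rw [norm_zero]; exact zero_le_one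

open Classical in
/-- the convolution identity of the Moebius function -/
lemma mob_conv {𝔞 : Ideal (𝓞 K)} (ha : 𝔞 ≠ 0) :
    ∑ q ∈ (SI K (Ideal.absNorm 𝔞) ×ˢ SI K (Ideal.absNorm 𝔞)).filter (fun q => q.1 * q.2 = 𝔞),
      mob q.2 = if 𝔞 = 1 then 1 else 0 := by
  set F : ℝ → ℂ := fun y => if y ≤ lN 𝔞 then 1 else 0 with hF
  have hbig : ∀ d : Ideal (𝓞 K), d ≠ 0 → d ∉ SI K (Ideal.absNorm 𝔞) → F (lN d) = 0 := by
    intro d hd hdM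
    have h3 : ¬ Ideal.absNorm d ≤ Ideal.absNorm 𝔞 := fun h => hdM (SI_of hd h)
    have h4 : lN 𝔞 < lN d := by
      refine Real.log_lt_log (by exact_mod_cast absNorm_pos' ha) ?_
      exact_mod_cast (by omega : Ideal.absNorm 𝔞 < Ideal.absNorm d)
    simp only [hF]
    rw [if_neg (by linarith)]
  have h1 := conv_eq (lN_norm K) ha (SI K (Ideal.absNorm 𝔞)) (SI K (Ideal.absNorm 𝔞)) F F hbig hbig
  have h2 : ∑ q ∈ (SI K (Ideal.absNorm 𝔞) ×ˢ SI K (Ideal.absNorm 𝔞)).filter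
      (fun q => q.1 * q.2 = 𝔞), mob q.2 =
      ∑ q ∈ (SI K (Ideal.absNorm 𝔞) ×ˢ SI K (Ideal.absNorm 𝔞)).filter (fun q => q.1 * q.2 = 𝔞),
        F (lN q.1) * (mob q.2 * F (lN q.2)) := by
    refine Finset.sum_congr rfl fun q hq => ?_
    rw [Finset.mem_filter, Finset.mem_product] at hq
    have h3 := (lN_norm K).mul q.1 q.2 (SI_ne hq.1.1) (SI_ne hq.1.2)
    rw [hq.2] at h3
    have h4 := lN_nonneg q.1
    have h5 := lN_nonneg q.2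
    simp only [hF]
    rw [if_pos (by linarith), if_pos (by linarith)]
    ring
  have h1' : ∑ q ∈ (SI K (Ideal.absNorm 𝔞) ×ˢ SI K (Ideal.absNorm 𝔞)).filter
      (fun q => q.1 * q.2 = 𝔞), F (lN q.1) * (mob q.2 * F (lN q.2)) = bc lN F F 𝔞 := by
    convert h1
  rw [h2, h1']
  unfold bc
  have h6 : ∀ T ∈ (UniqueFactorizationMonoid.primeFactors 𝔞).powerset,
      (-1 : ℂ) ^ T.card * F (lN (pd T)) * F (lN 𝔞 - lN (pd T)) = (-1 : ℂ) ^ T.card := by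
    intro T hT
    have h7 := pd_dvd ha (Finset.mem_powerset.mp hT)
    obtain ⟨c, hc⟩ := h7
    have hp := (pd_primes T (pf_primes 𝔞 T hT)).1
    have hc0 : c ≠ 0 := fun h => by rw [h, mul_zero] at hc; exact ha hc
    have h3 := (lN_norm K).mul _ _ hp hc0
    rw [← hc] at h3
    have h4 := lN_nonneg (pd T)
    have h5 := lN_nonneg c
    simp only [hF]
    rw [if_pos (by linarith), if_pos (by linarith)]
    ring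
  rw [Finset.sum_congr rfl h6]
  have h8 : ∑ T ∈ (UniqueFactorizationMonoid.primeFactors 𝔞).powerset, (-1 : ℂ) ^ T.card =
      ((∑ T ∈ (UniqueFactorizationMonoid.primeFactors 𝔞).powerset, (-1 : ℤ) ^ T.card : ℤ) : ℂ) := by
    push_cast
    rfl
  rw [h8, Finset.sum_powerset_neg_one_pow_card]
  by_cases h9 : 𝔞 = 1
  · rw [if_pos h9, if_pos]
    · simp
    · rw [h9]
      exact UniqueFactorizationMonoid.primeFactors_one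
  · rw [if_neg h9, if_neg]
    · simp
    · intro h10
      obtain ⟨p, hp, hpd⟩ := WfDvdMonoid.exists_irreducible_factor
        (fun h => h9 (by rwa [isUnit_iff_eq_one] at h)) ha
      have h11 := nf_of ha hp.prime hpd
      rw [h10] at h11
      exact absurd h11 (Finset.notMem_empty _)

open Classical in
/-- the reciprocal of the L-function -/
theorem LI_mul_mob {χ : Ideal (𝓞 K) →*₀ ℂ} (h1 : ∀ 𝔞, ‖χ 𝔞‖ ≤ 1) {s : ℂ} (hs : 1 < s.re) :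
    LI χ s * LA (fun 𝔞 => mob 𝔞 * χ 𝔞) s = 1 := by
  have hχ0 : χ 0 = 0 := map_zero _
  have hm0 : mob (0 : Ideal (𝓞 K)) * χ 0 = 0 := by rw [hχ0, mul_zero]
  have hm1 : ∀ 𝔞 : Ideal (𝓞 K), ‖mob 𝔞 * χ 𝔞‖ ≤ 1 := fun 𝔞 => by
    rw [norm_mul]
    exact mul_le_one₀ (mob_le 𝔞) (norm_nonneg _) (h1 𝔞)
  set N : Ideal (𝓞 K) → ℂ := fun 𝔞 => ((Ideal.absNorm 𝔞 : ℕ) : ℂ) ^ (-s) with hN
  have hNm : ∀ 𝔞 𝔟 : Ideal (𝓞 K), N (𝔞 * 𝔟) = N 𝔞 * N 𝔟 := by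
    intro 𝔞 𝔟
    simp only [hN]
    rw [map_mul, Nat.cast_mul, Complex.natCast_mul_natCast_cpow]
  have s1 := term_summable hχ0 h1 hs
  have s2 := term_summable hm0 hm1 hs
  have hsum := summable_mul_of_summable_norm s1 s2
  have hh := (s1.of_norm.hasSum.mul s2.of_norm.hasSum hsum).tsum_fiberwise
    (fun q : Ideal (𝓞 K) × Ideal (𝓞 K) => q.1 * q.2)
  have hval : ∀ 𝔠 : Ideal (𝓞 K), (∑' b : (fun q : Ideal (𝓞 K) × Ideal (𝓞 K) => q.1 * q.2) ⁻¹' {𝔠},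
      χ (b : Ideal (𝓞 K) × Ideal (𝓞 K)).1 * N (b : Ideal (𝓞 K) × Ideal (𝓞 K)).1 *
      (mob (b : Ideal (𝓞 K) × Ideal (𝓞 K)).2 * χ (b : Ideal (𝓞 K) × Ideal (𝓞 K)).2 *
        N (b : Ideal (𝓞 K) × Ideal (𝓞 K)).2)) = if 𝔠 = 1 then 1 else 0 := by
    intro 𝔠
    have hterm : ∀ b : (fun q : Ideal (𝓞 K) × Ideal (𝓞 K) => q.1 * q.2) ⁻¹' {𝔠},
        χ (b : Ideal (𝓞 K) × Ideal (𝓞 K)).1 * N (b : Ideal (𝓞 K) × Ideal (𝓞 K)).1 *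
        (mob (b : Ideal (𝓞 K) × Ideal (𝓞 K)).2 * χ (b : Ideal (𝓞 K) × Ideal (𝓞 K)).2 *
        N (b : Ideal (𝓞 K) × Ideal (𝓞 K)).2) =
        (χ 𝔠 * N 𝔠) * mob (b : Ideal (𝓞 K) × Ideal (𝓞 K)).2 := by
      rintro ⟨⟨𝔞, 𝔟⟩, hb⟩
      have hb' : 𝔞 * 𝔟 = 𝔠 := hb
      simp only
      rw [← hb', map_mul, hNm]
      ring
    rw [tsum_congr hterm, tsum_mul_left]
    by_cases hc : 𝔠 = 0
    · rw [hc, hχ0, zero_mul, zero_mul, if_neg zero_ne_one]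
    · have hset : (fun q : Ideal (𝓞 K) × Ideal (𝓞 K) => q.1 * q.2) ⁻¹' {𝔠} =
          (((SI K (Ideal.absNorm 𝔠) ×ˢ SI K (Ideal.absNorm 𝔠)).filter
            (fun q => q.1 * q.2 = 𝔠) : Finset _) : Set (Ideal (𝓞 K) × Ideal (𝓞 K))) := by
        ext ⟨𝔞, 𝔟⟩
        simp only [mem_preimage, mem_singleton_iff, Finset.coe_filter, Finset.mem_product,
          mem_setOf_eq]
        refine ⟨fun h => ⟨?_, h⟩, fun h => h.2⟩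
        have ha : 𝔞 ≠ 0 := fun h' => hc (by rw [← h, h', zero_mul])
        have hb : 𝔟 ≠ 0 := fun h' => hc (by rw [← h, h', mul_zero])
        have h3 := absNorm_pos' ha
        have h4 := absNorm_pos' hb
        rw [← h, map_mul]
        exact ⟨SI_of ha (Nat.le_mul_of_pos_right _ h4), SI_of hb (Nat.le_mul_of_pos_left _ h3)⟩
      rw [hset, Finset.tsum_subtype' _ (fun q : Ideal (𝓞 K) × Ideal (𝓞 K) => mob q.2),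
        mob_conv hc]
      by_cases h9 : 𝔠 = 1
      · rw [if_pos h9, h9, map_one, hN]
        simp
      · rw [if_neg h9, mul_zero]
  simp only [hN] at hval
  simp only [hval] at hh
  have h5 : HasSum (fun 𝔠 : Ideal (𝓞 K) => if 𝔠 = 1 then (1 : ℂ) else 0) 1 :=
    hasSum_ite_eq 1 1
  exact hh.unique h5

/-- the mollified L-function is close to one on the right -/
theorem LM_sub_one {β₁ β₂ : ℝ} {θ : ℝ → ℝ} (hθ : Cutf β₁ β₂ θ) {R : ℝ} (hR : 0 < R)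
    {ψ₀ lam : Ideal (𝓞 K) →*₀ ℂ} (h1 : ∀ 𝔞, ‖pr ψ₀ lam 𝔞‖ ≤ 1) {s : ℂ} (hs : 3 / 2 ≤ s.re) :
    ‖LI (pr ψ₀ lam) s * Mp θ R ⌊Real.exp (β₂ * R)⌋₊ ψ₀ lam s - 1‖ ≤
      Real.exp (-(β₁ * R * (s.re - 3 / 2))) * (ZK K * ZK K) := by
  have e1 : Mp θ R ⌊Real.exp (β₂ * R)⌋₊ ψ₀ lam s =
      LA (fun 𝔞 => (mob 𝔞 * (θ (lN 𝔞 / R) : ℂ)) * pr ψ₀ lam 𝔞) s := by
    unfold Mp
    refine dpo_series _ (fun 𝔞 ha h => ?_) s
    have h2 := not_SI ha h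
    rw [hθ.zero _ (le_trans (by rw [le_div_iff₀ hR]; exact h2) (le_abs_self _)),
      Complex.ofReal_zero, mul_zero]
  have hθ1 : ∀ x, ‖(θ x : ℂ)‖ ≤ 1 := fun x => by
    rw [Complex.norm_real, Real.norm_of_nonneg (hθ.nn x)]
    exact hθ.le x
  have hχ0 : pr ψ₀ lam 0 = 0 := map_zero _
  have hm1 : ∀ 𝔞 : Ideal (𝓞 K), ‖mob 𝔞 * pr ψ₀ lam 𝔞‖ ≤ 1 := fun 𝔞 => by
    rw [norm_mul]
    exact mul_le_one₀ (mob_le 𝔞) (norm_nonneg _) (h1 𝔞)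
  have hm2 : ∀ 𝔞 : Ideal (𝓞 K), ‖(mob 𝔞 * (θ (lN 𝔞 / R) : ℂ)) * pr ψ₀ lam 𝔞‖ ≤ 1 := fun 𝔞 => by
    have e3 : (mob 𝔞 * (θ (lN 𝔞 / R) : ℂ)) * pr ψ₀ lam 𝔞 =
      (mob 𝔞 * pr ψ₀ lam 𝔞) * (θ (lN 𝔞 / R) : ℂ) := by ring
    rw [e3, norm_mul]
    exact mul_le_one₀ (hm1 𝔞) (norm_nonneg _) (hθ1 _)
  have e2 := LI_mul_mob h1 (s := s) (by linarith)
  have e4 : LI (pr ψ₀ lam) s * Mp θ R ⌊Real.exp (β₂ * R)⌋₊ ψ₀ lam s - 1 =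
      LI (pr ψ₀ lam) s * (LA (fun 𝔞 => (mob 𝔞 * (θ (lN 𝔞 / R) : ℂ)) * pr ψ₀ lam 𝔞) s -
        LA (fun 𝔞 => mob 𝔞 * pr ψ₀ lam 𝔞) s) := by
    rw [mul_sub, e2, e1]
  rw [e4, LA_sub (by rw [hχ0, mul_zero]) hm2 (by rw [hχ0, mul_zero]) hm1 (by linarith), norm_mul]
  have h3 : ‖LI (pr ψ₀ lam) s‖ ≤ ZK K := LA_le hχ0 h1 (by norm_num) hs
  have h4 := tail_le (g := fun 𝔞 => mob 𝔞 * (θ (lN 𝔞 / R) : ℂ) * pr ψ₀ lam 𝔞 -
    mob 𝔞 * pr ψ₀ lam 𝔞) (y := β₁ * R) (by rw [hχ0]; simp) (fun 𝔞 => ?_) (fun 𝔞 ha hy => ?_) hs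
  · calc ‖LI (pr ψ₀ lam) s‖ * _ ≤ ZK K * (Real.exp (-(β₁ * R * (s.re - 3 / 2))) * ZK K) :=
          mul_le_mul h3 h4 (norm_nonneg _) ZK_nonneg
      _ = _ := by ring
  · have e3 : mob 𝔞 * (θ (lN 𝔞 / R) : ℂ) * pr ψ₀ lam 𝔞 - mob 𝔞 * pr ψ₀ lam 𝔞 =
        ((θ (lN 𝔞 / R) - 1 : ℝ) : ℂ) * (mob 𝔞 * pr ψ₀ lam 𝔞) := by push_cast; ring
    rw [e3, norm_mul, Complex.norm_real]
    refine mul_le_one₀ ?_ (norm_nonneg _) (hm1 𝔞)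
    rw [Real.norm_eq_abs, abs_le]
    exact ⟨by linarith [hθ.nn (lN 𝔞 / R)], by linarith [hθ.le (lN 𝔞 / R)]⟩
  · have h5 : |lN 𝔞 / R| ≤ β₁ := by
      rw [abs_of_nonneg (div_nonneg (lN_nonneg _) hR.le), div_le_iff₀ hR]
      exact hy
    rw [hθ.one _ h5]
    push_cast
    ring

end

end Pool.Agent.N786.D
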