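import Pool.Agent.R399.TW.Shift

/-!
# A function at a point from its values on a line to the left (owner helper786; the shift of the line
is adapted from `Pool.Agent.R399.TW.Shift`)
-/

set_option autoImplicit false

namespace Pool.Agent.N786.D

open MeasureTheory Set Filter Topology Complex
open Pool.Agent.R399.TW (pt pt_re pt_im pt_cont kernel_id Ph gd gd_half gd_even gd_nn gd_int strip)

lemma vert_int2 {f : ℂ → ℂ} {a b x : ℝ} (hx : a ≤ x) (hx' : x ≤ b)
    (hc : ContinuousOn f (strip a b)) {C : ℝ}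
    (hC : ∀ z ∈ strip a b, ‖f z‖ ≤ C * (1 + z.im ^ 2)⁻¹) :
    Integrable fun t : ℝ => f (pt x t) := by
  have h1 : Continuous fun t : ℝ => f (pt x t) :=
    hc.comp_continuous (pt_cont x) fun t => ⟨by simpa using hx, by simpa using hx'⟩
  have h2 := integrable_inv_one_add_sq.const_mul C
  refine h2.mono' h1.aestronglyMeasurable (Eventually.of_forall fun t => ?_)
  have := hC (pt x t) ⟨by simpa using hx, by simpa using hx'⟩
  simpa using this

/-- **shift of the line of integration** -/
theorem vshift2 {f : ℂ → ℂ} {a b : ℝ} (hab : a ≤ b)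
    (hc : ContinuousOn f (strip a b)) (hd : DifferentiableOn ℂ f {z | a < z.re ∧ z.re < b})
    {C : ℝ} (hC : ∀ z ∈ strip a b, ‖f z‖ ≤ C * (1 + z.im ^ 2)⁻¹) :
    ∫ t : ℝ, f (pt a t) = ∫ t : ℝ, f (pt b t) := by
  have hia := vert_int2 le_rfl hab hc hC
  have hib := vert_int2 hab le_rfl hc hC
  have hC0 : 0 ≤ C := by
    have := (norm_nonneg _).trans (hC (pt a 0) ⟨by simp, by simpa using hab⟩)
    simpa using this
  have ta := intervalIntegral_tendsto_integral hia tendsto_neg_atTop_atBot tendsto_id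
  have tb := intervalIntegral_tendsto_integral hib tendsto_neg_atTop_atBot tendsto_id
  have key : ∀ T : ℝ, 0 ≤ T → ‖(∫ t in (-T)..T, f (pt b t)) - ∫ t in (-T)..T, f (pt a t)‖ ≤
      2 * (C * (1 + T ^ 2)⁻¹ * (b - a)) := by
    intro T hT
    have h := integral_boundary_rect_eq_zero_of_continuousOn_of_differentiableOn f
      (pt a (-T)) (pt b T) ?_ ?_
    · simp only [pt_re, pt_im] at h
      have e1 : ∀ y : ℝ, ((b : ℂ) + (y : ℂ) * I) = pt b y := fun y => rfl
      have e2 : ∀ y : ℝ, ((a : ℂ) + (y : ℂ) * I) = pt a y := fun y => rfl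
      simp only [e1, e2] at h
      have h1 : ‖∫ x in a..b, f ((x : ℂ) + ((-T : ℝ) : ℂ) * I)‖ ≤
          C * (1 + T ^ 2)⁻¹ * (b - a) := by
        have := intervalIntegral.norm_integral_le_of_norm_le_const (a := a) (b := b)
          (f := fun x : ℝ => f ((x : ℂ) + ((-T : ℝ) : ℂ) * I)) (C := C * (1 + T ^ 2)⁻¹) ?_
        · rwa [abs_of_nonneg (by linarith)] at this
        · intro x hx
          rw [uIoc_of_le hab] at hx
          have h2 := hC ((x : ℂ) + ((-T : ℝ) : ℂ) * I)
            ⟨by simpa using hx.1.le, by simpa using hx.2⟩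
          refine h2.trans (le_of_eq ?_)
          simp
      have h3 : ‖∫ x in a..b, f ((x : ℂ) + (T : ℂ) * I)‖ ≤ C * (1 + T ^ 2)⁻¹ * (b - a) := by
        have := intervalIntegral.norm_integral_le_of_norm_le_const (a := a) (b := b)
          (f := fun x : ℝ => f ((x : ℂ) + (T : ℂ) * I)) (C := C * (1 + T ^ 2)⁻¹) ?_
        · rwa [abs_of_nonneg (by linarith)] at this
        · intro x hx
          rw [uIoc_of_le hab] at hx
          have h2 := hC ((x : ℂ) + (T : ℂ) * I)
            ⟨by simpa using hx.1.le, by simpa using hx.2⟩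
          refine h2.trans (le_of_eq ?_)
          simp
      set P := ∫ x in a..b, f ((x : ℂ) + ((-T : ℝ) : ℂ) * I)
      set Q := ∫ x in a..b, f ((x : ℂ) + (T : ℂ) * I)
      set U := ∫ t in (-T)..T, f (pt b t)
      set W := ∫ t in (-T)..T, f (pt a t)
      have h4 : I • (U - W) = Q - P := by
        simp only [smul_eq_mul] at h ⊢
        linear_combination h
      have h5 : ‖U - W‖ = ‖Q - P‖ := by
        rw [← h4, norm_smul, norm_I, one_mul]
      rw [h5]
      refine (norm_sub_le _ _).trans ?_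
      linarith
    · simp only [pt_re, pt_im]
      refine hc.mono ?_
      intro z hz
      rw [uIcc_of_le hab] at hz
      exact ⟨hz.1.1, hz.1.2⟩
    · simp only [pt_re, pt_im]
      refine hd.mono ?_
      intro z hz
      rw [min_eq_left hab, max_eq_right hab] at hz
      exact ⟨hz.1.1, hz.1.2⟩
  have h6 : Tendsto (fun T : ℝ => (∫ t in (-T)..T, f (pt b t)) - ∫ t in (-T)..T, f (pt a t))
      atTop (𝓝 0) := by
    have h7 : Tendsto (fun T : ℝ => 2 * (C * (1 + T ^ 2)⁻¹ * (b - a))) atTop (𝓝 0) := by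
      have h9 : Tendsto (fun T : ℝ => (1 + T ^ 2)⁻¹) atTop (𝓝 0) := by
        refine tendsto_inv_atTop_zero.comp ?_
        exact tendsto_atTop_add_const_left _ _ (tendsto_pow_atTop two_ne_zero)
      have h8 := ((h9.const_mul C).mul_const (b - a)).const_mul 2
      simpa using h8
    refine squeeze_zero_norm' ?_ h7
    filter_upwards [eventually_ge_atTop 0] with T hT
    exact key T hT
  have h9 := tendsto_nhds_unique h6 (tb.sub ta)
  exact (sub_eq_zero.1 h9.symm).symm

/-- an eventual bound is a global bound -/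
lemma bd2_of_eventually {f : ℂ → ℂ} {a b : ℝ} (hc : ContinuousOn f (strip a b)) {C T₀ : ℝ}
    (hC : ∀ z ∈ strip a b, T₀ ≤ |z.im| → ‖f z‖ ≤ C * (1 + z.im ^ 2)⁻¹) :
    ∃ C' : ℝ, ∀ z ∈ strip a b, ‖f z‖ ≤ C' * (1 + z.im ^ 2)⁻¹ := by
  have hK : IsCompact (Icc a b ×ℂ Icc (-|T₀|) |T₀|) := isCompact_Icc.reProdIm isCompact_Icc
  have hsub : (Icc a b ×ℂ Icc (-|T₀|) |T₀|) ⊆ strip a b := fun z hz => ⟨hz.1.1, hz.1.2⟩
  obtain ⟨M, hM⟩ := hK.exists_bound_of_continuousOn (hc.mono hsub)
  refine ⟨|C| + |M| * (1 + T₀ ^ 2), fun z hz => ?_⟩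
  have hp : 0 < (1 + z.im ^ 2)⁻¹ := by positivity
  rcases le_total |z.im| |T₀| with h | h
  · have h1 := hM z ⟨⟨hz.1, hz.2⟩, abs_le.1 h⟩
    have h2 : 1 ≤ (1 + T₀ ^ 2) * (1 + z.im ^ 2)⁻¹ := by
      rw [← div_eq_mul_inv, le_div_iff₀ (by positivity), one_mul]
      have := sq_le_sq' (by linarith [abs_nonneg z.im]) h
      rw [sq_abs, sq_abs] at this
      linarith
    have h3 : 0 ≤ |C| * (1 + z.im ^ 2)⁻¹ := by positivity
    have h4 : |M| * 1 ≤ |M| * ((1 + T₀ ^ 2) * (1 + z.im ^ 2)⁻¹) :=
      mul_le_mul_of_nonneg_left h2 (abs_nonneg _)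
    have h5 := le_abs_self M
    rw [add_mul, mul_assoc]
    linarith
  · have h1 := hC z hz ((le_abs_self _).trans h)
    refine h1.trans (mul_le_mul_of_nonneg_right ?_ hp.le)
    have h5 := le_abs_self C
    have : 0 ≤ |M| * (1 + T₀ ^ 2) := by positivity
    linarith

lemma Ph_zero : Ph 0 = 1 / 2 := by
  unfold Ph
  rw [← gd_half]
  refine setIntegral_congr_fun measurableSet_Ioi fun u _ => ?_
  simp only [zero_sub, gd_even]

/-- the line integral of the Gaussian kernel to the right -/
lemma gk_right {c : ℝ} (hc : 0 < c) : ∫ t : ℝ, cexp (pt c t ^ 2) / pt c t = (Real.pi : ℂ) := by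
  have h := kernel_id hc 0
  rw [Ph_zero] at h
  have e : ∀ t : ℝ, cexp (pt c t ^ 2 + ((0 : ℝ) : ℂ) * pt c t) / pt c t =
      cexp (pt c t ^ 2) / pt c t := fun t => by simp
  simp_rw [e] at h
  rw [h]
  push_cast
  ring

lemma gk_left {c : ℝ} (hc : c < 0) : ∫ t : ℝ, cexp (pt c t ^ 2) / pt c t = -(Real.pi : ℂ) := by
  have h := gk_right (c := -c) (by linarith)
  rw [← h, ← integral_neg_eq_self (fun t : ℝ => cexp (pt (-c) t ^ 2) / pt (-c) t), ← integral_neg]
  refine integral_congr_ae (Eventually.of_forall fun t => ?_)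
  simp only
  have e : pt (-c) (-t) = -pt c t := by
    unfold pt; push_cast; ring
  rw [e, neg_sq, div_neg, neg_neg]

/-- the kernel -/
noncomputable def kap (B : ℕ) (r v : ℝ) : ℝ := (2 * r) ^ (2 * B - 1) / (r ^ 2 + v ^ 2) ^ B

lemma kap_cont (B : ℕ) {r : ℝ} (hr : 0 < r) : Continuous (kap B r) := by
  unfold kap
  refine Continuous.div₀ (by fun_prop) (by fun_prop) fun v => ?_
  positivity

lemma kap_nn (B : ℕ) {r : ℝ} (hr : 0 < r) (v : ℝ) : 0 ≤ kap B r v := by
  unfold kap
  positivity

/-- quadratic decay -/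
noncomputable def q2 (v : ℝ) : ℝ := ((1 + |v|) ^ 2)⁻¹

lemma q2_pos (v : ℝ) : 0 < q2 v := by unfold q2; positivity

lemma q2_int : Integrable q2 := by
  refine integrable_inv_one_add_sq.mono' ?_ (Eventually.of_forall fun v => ?_)
  · have : Continuous q2 := by
      unfold q2
      refine Continuous.inv₀ (by fun_prop) fun v => ?_
      positivity
    exact this.aestronglyMeasurable
  · rw [Real.norm_of_nonneg (q2_pos v).le]
    unfold q2
    refine inv_anti₀ (by positivity) ?_
    nlinarith [abs_nonneg v, sq_abs v]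

lemma q2_le (τ y : ℝ) : q2 (y - τ) ≤ (1 + |τ|) ^ 2 * (1 + y ^ 2)⁻¹ := by
  unfold q2
  rw [← div_eq_mul_inv, le_div_iff₀ (by positivity), inv_mul_le_iff₀ (by positivity), ← mul_pow]
  have h1 : |y| ≤ |y - τ| + |τ| := by
    have := abs_add_le (y - τ) τ
    simpa using this
  have h2 : 1 + |y| ≤ (1 + |y - τ|) * (1 + |τ|) := by
    nlinarith [abs_nonneg τ, abs_nonneg (y - τ)]
  have h3 : 1 + y ^ 2 ≤ (1 + |y|) ^ 2 := by nlinarith [abs_nonneg y, sq_abs y]
  exact h3.trans (pow_le_pow_left₀ (by positivity) h2 2)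

lemma exp_le_q2 (v : ℝ) : Real.exp (-v ^ 2) ≤ 2 * q2 v := by
  unfold q2
  rw [Real.exp_neg, ← div_eq_mul_inv, inv_eq_one_div, div_le_div_iff₀ (Real.exp_pos _)
    (by positivity)]
  have h1 := Real.add_one_le_exp (v ^ 2)
  nlinarith [sq_nonneg (1 - |v|), sq_abs v]

/-- **A function at a point from its values on a line to the left** -/
theorem cauchy_le {g : ℂ → ℂ} (hg : Differentiable ℂ g) {a μ lam G : ℝ} {m B : ℕ}
    (hB : m + 3 ≤ 2 * B - 1) (hml : μ < lam)
    (hgr : ∀ z : ℂ, a ≤ z.re → ‖g z‖ ≤ G * (1 + |z.im|) ^ m * Real.exp (-(lam * z.re)))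
    {s : ℂ} (hs : a < s.re) :
    Integrable (fun v : ℝ => ‖g (pt a (s.im + v))‖ * kap B (s.re - a) v) ∧
    ‖g s‖ ≤ Real.exp (-(μ * (s.re - a))) *
      ∫ v : ℝ, ‖g (pt a (s.im + v))‖ * kap B (s.re - a) v := by
  obtain ⟨τ, hτ⟩ : ∃ τ : ℝ, τ = s.im := ⟨_, rfl⟩
  obtain ⟨r, hr⟩ : ∃ r : ℝ, r = s.re - a := ⟨_, rfl⟩
  obtain ⟨A, hA⟩ : ∃ A : ℕ, A = 2 * B - 1 := ⟨_, rfl⟩
  have hr0 : 0 < r := by rw [hr]; linarith
  rw [← hτ, ← hr]
  rw [← hA] at hB
  have hAB : A + 1 = 2 * B := by omega
  have hG : 0 ≤ G := by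
    have h1 := (norm_nonneg _).trans (hgr (pt a 0) (by simp))
    simp only [pt_im, pt_re, abs_zero, add_zero, one_pow, mul_one] at h1
    exact nonneg_of_mul_nonneg_left h1 (Real.exp_pos _)
  set k : ℂ → ℂ := fun w => cexp ((μ : ℂ) * w) * ((2 * r : ℂ) / (w + 2 * r)) ^ A with hk
  set F : ℂ → ℂ := fun z => g z * k (z - s) with hF
  have hnk : ∀ w : ℂ, ‖k w‖ = Real.exp (μ * w.re) * ((2 * r) / ‖w + 2 * r‖) ^ A := by
    intro w
    rw [hk]
    simp only
    rw [norm_mul, Complex.norm_exp, norm_pow, norm_div]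
    congr 2
    · simp
    · congr 1
      have : (2 * r : ℂ) = ((2 * r : ℝ) : ℂ) := by push_cast; ring
      rw [this, Complex.norm_real, Real.norm_of_nonneg (by positivity)]
  obtain ⟨c, hc⟩ : ∃ c : ℝ, c = min r 1 / 2 := ⟨_, rfl⟩
  have hc0 : 0 < c := by rw [hc]; have := lt_min hr0 one_pos; linarith
  have hlow : ∀ w : ℂ, -r ≤ w.re → c * (1 + |w.im|) ≤ ‖w + 2 * r‖ := by
    intro w hw
    have h1 := Complex.abs_re_le_norm (w + 2 * r)
    have h2 := Complex.abs_im_le_norm (w + 2 * r)
    have h3 : (w + 2 * r).re = w.re + 2 * r := by simp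
    have h4 : (w + 2 * r).im = w.im := by simp
    rw [h3, abs_of_pos (by linarith)] at h1
    rw [h4] at h2
    have h5 : min r 1 ≤ r := min_le_left _ _
    have h6 : min r 1 ≤ 1 := min_le_right _ _
    have h7 : 0 < min r 1 := lt_min hr0 one_pos
    rw [hc]
    nlinarith [abs_nonneg w.im]
  obtain ⟨D, hD⟩ : ∃ D : ℝ, D = G * (1 + |τ|) ^ m * Real.exp (-(μ * s.re)) * ((2 * r) / c) ^ A :=
    ⟨_, rfl⟩
  have hD0 : 0 ≤ D := by rw [hD]; positivity
  have hFb : ∀ z : ℂ, a ≤ z.re → ‖F z‖ ≤ D * Real.exp (-((lam - μ) * z.re)) * q2 (z.im - τ) := by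
    intro z hz
    have h1 := hgr z hz
    have h2 : (z - s).re = z.re - s.re := by simp
    have h3 : (z - s).im = z.im - τ := by rw [hτ]; simp
    have h4 := hlow (z - s) (by rw [h2, hr]; linarith)
    rw [h3] at h4
    have h5 : (1 + |z.im|) ^ m ≤ (1 + |τ|) ^ m * (1 + |z.im - τ|) ^ m := by
      rw [← mul_pow]
      refine pow_le_pow_left₀ (by positivity) ?_ m
      have h6 : |z.im| ≤ |z.im - τ| + |τ| := by
        have := abs_add_le (z.im - τ) τ
        simpa using this
      nlinarith [abs_nonneg τ, abs_nonneg (z.im - τ)]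
    have h6 : ((2 * r) / ‖z - s + 2 * r‖) ^ A ≤
        ((2 * r) / c) ^ A * ((1 + |z.im - τ|) ^ A)⁻¹ := by
      rw [← inv_pow, ← mul_pow]
      refine pow_le_pow_left₀ (by positivity) ?_ A
      rw [← div_eq_mul_inv, div_div]
      exact div_le_div_of_nonneg_left (by positivity) (by positivity) h4
    have h7 : (1 + |z.im - τ|) ^ m * ((1 + |z.im - τ|) ^ A)⁻¹ ≤ q2 (z.im - τ) := by
      unfold q2
      rw [mul_inv_le_iff₀ (by positivity), ← div_eq_inv_mul, le_div_iff₀ (by positivity),
        ← pow_add]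
      exact pow_le_pow_right₀ (by linarith [abs_nonneg (z.im - τ)]) (by omega)
    rw [hF]
    simp only
    rw [norm_mul, hnk, h2]
    calc ‖g z‖ * (Real.exp (μ * (z.re - s.re)) * ((2 * r) / ‖z - s + 2 * r‖) ^ A) ≤
        (G * ((1 + |τ|) ^ m * (1 + |z.im - τ|) ^ m) * Real.exp (-(lam * z.re))) *
        (Real.exp (μ * (z.re - s.re)) *
          (((2 * r) / c) ^ A * ((1 + |z.im - τ|) ^ A)⁻¹)) := by
          gcongr
          exact h1.trans (by gcongr)
      _ = D * Real.exp (-((lam - μ) * z.re)) *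
          ((1 + |z.im - τ|) ^ m * ((1 + |z.im - τ|) ^ A)⁻¹) := by
          have e : Real.exp (-(lam * z.re)) * Real.exp (μ * (z.re - s.re)) =
              Real.exp (-(μ * s.re)) * Real.exp (-((lam - μ) * z.re)) := by
            rw [← Real.exp_add, ← Real.exp_add]
            congr 1
            ring
          rw [hD]
          linear_combination (G * (1 + |τ|) ^ m * (1 + |z.im - τ|) ^ m * ((2 * r) / c) ^ A *
            ((1 + |z.im - τ|) ^ A)⁻¹) * e
      _ ≤ _ := mul_le_mul_of_nonneg_left h7 (by positivity)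
  -- the value at the point
  have hk0 : k 0 = 1 := by
    rw [hk]
    simp only
    have : (2 * r : ℂ) ≠ 0 := by
      have : (r : ℂ) ≠ 0 := by exact_mod_cast hr0.ne'
      simp [this]
    rw [mul_zero, Complex.exp_zero, zero_add, div_self this, one_pow, one_mul]
  have hFs : F s = g s := by
    rw [hF]
    simp only
    rw [sub_self, hk0, mul_one]
  set Φ : ℂ → ℂ := fun z => F z - F s * cexp ((z - s) ^ 2) with hΦ
  have hΦs : Φ s = 0 := by
    rw [hΦ]
    simp
  set U : Set ℂ := {z | a - r < z.re} with hU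
  have hUo : IsOpen U := isOpen_lt continuous_const Complex.continuous_re
  have hsU : s ∈ U := by
    rw [hU, mem_setOf_eq]
    linarith
  have hFd : DifferentiableOn ℂ F U := by
    intro z hz
    have hz' : a - r < z.re := hz
    refine DifferentiableAt.differentiableWithinAt ?_
    refine (hg z).mul ?_
    have h1 : z - s + 2 * r ≠ 0 := by
      intro h
      have := congrArg Complex.re h
      simp at this
      rw [hr] at hz' this
      linarith
    rw [hk]
    refine DifferentiableAt.mul (by fun_prop) ?_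
    refine DifferentiableAt.pow ?_ A
    exact DifferentiableAt.div (by fun_prop) (by fun_prop) h1
  have hΦd : DifferentiableOn ℂ Φ U := by
    refine hFd.sub ?_
    exact (by fun_prop : Differentiable ℂ fun z : ℂ => F s * cexp ((z - s) ^ 2)).differentiableOn
  have hfd : DifferentiableOn ℂ (dslope Φ s) U :=
    (Complex.differentiableOn_dslope (hUo.mem_nhds hsU)).mpr hΦd
  have hgauss : ∀ z : ℂ, ‖cexp ((z - s) ^ 2)‖ =
      Real.exp ((z.re - s.re) ^ 2) * Real.exp (-(z.im - τ) ^ 2) := by
    intro z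
    rw [Complex.norm_exp, ← Real.exp_add]
    congr 1
    rw [hτ]
    simp [pow_two]
    ring
  have hfne : ∀ z : ℂ, z ≠ s → dslope Φ s z = F z / (z - s) - F s * (cexp ((z - s) ^ 2) / (z - s)) := by
    intro z hz
    rw [dslope_of_ne _ hz, slope_def_field, hΦs, hΦ]
    simp only
    ring
  -- the integrals
  have hIF : ∀ x : ℝ, a ≤ x → x ≠ s.re →
      Integrable (fun t : ℝ => F (pt x t) / (pt x t - s)) ∧
      Integrable (fun t : ℝ => cexp ((pt x t - s) ^ 2) / (pt x t - s)) := by
    intro x hx hxs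
    have hne : ∀ t : ℝ, pt x t - s ≠ 0 := fun t h => by
      have := congrArg Complex.re h
      simp at this
      exact hxs (by linarith)
    have hcp := pt_cont x
    have hlow2 : ∀ t : ℝ, |x - s.re| ≤ ‖pt x t - s‖ := fun t => by
      have := Complex.abs_re_le_norm (pt x t - s)
      simpa using this
    have hx0 : 0 < |x - s.re| := abs_pos.mpr (sub_ne_zero.mpr hxs)
    constructor
    · refine ((q2_int.comp_sub_right τ).const_mul
        (D * Real.exp (-((lam - μ) * x)) / |x - s.re|)).mono' ?_ (Eventually.of_forall fun t => ?_)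
      · refine Continuous.aestronglyMeasurable ?_
        refine Continuous.div₀ ?_ (by fun_prop) hne
        exact hFd.continuousOn.comp_continuous hcp fun t => by
          rw [hU, mem_setOf_eq, pt_re]
          linarith
      · rw [norm_div]
        have h1 := hFb (pt x t) (by rw [pt_re]; exact hx)
        rw [pt_re, pt_im] at h1
        rw [div_le_iff₀ (norm_pos_iff.mpr (hne t))]
        refine h1.trans ?_
        rw [div_mul_eq_mul_div, div_mul_eq_mul_div, le_div_iff₀ hx0]
        exact mul_le_mul_of_nonneg_left (hlow2 t) (by have := q2_pos (t - τ); positivity)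
    · refine ((q2_int.comp_sub_right τ).const_mul
        (2 * Real.exp ((x - s.re) ^ 2) / |x - s.re|)).mono' ?_ (Eventually.of_forall fun t => ?_)
      · refine Continuous.aestronglyMeasurable ?_
        exact Continuous.div₀ (by fun_prop) (by fun_prop) hne
      · rw [norm_div, hgauss, pt_re, pt_im]
        have h1 := exp_le_q2 (t - τ)
        rw [div_le_iff₀ (norm_pos_iff.mpr (hne t)), div_mul_eq_mul_div, div_mul_eq_mul_div,
          le_div_iff₀ hx0]
        calc Real.exp ((x - s.re) ^ 2) * Real.exp (-(t - τ) ^ 2) * |x - s.re| ≤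
            Real.exp ((x - s.re) ^ 2) * (2 * q2 (t - τ)) * ‖pt x t - s‖ := by
              have := q2_pos (t - τ)
              gcongr
              exact hlow2 t
          _ = _ := by ring
  have hE : ∀ x : ℝ, ∫ t : ℝ, cexp ((pt x t - s) ^ 2) / (pt x t - s) =
      ∫ t : ℝ, cexp (pt (x - s.re) t ^ 2) / pt (x - s.re) t := by
    intro x
    rw [← integral_sub_right_eq_self (fun t : ℝ => cexp (pt (x - s.re) t ^ 2) /
      pt (x - s.re) t) τ]
    refine integral_congr_ae (Eventually.of_forall fun t => ?_)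
    simp only
    have e : pt x t - s = pt (x - s.re) (t - τ) := by
      apply Complex.ext
      · simp
      · rw [hτ]; simp
    rw [e]
  have hmain : ∀ b : ℝ, s.re < b → 2 * Real.pi * F s =
      (∫ t : ℝ, F (pt b t) / (pt b t - s)) - ∫ t : ℝ, F (pt a t) / (pt a t - s) := by
    intro b hb
    have hsub : strip a b ⊆ U := fun z hz => by
      rw [hU, mem_setOf_eq]
      have := hz.1
      linarith
    obtain ⟨C', hC'⟩ := bd2_of_eventually (f := dslope Φ s) (a := a) (b := b)
      (hfd.continuousOn.mono hsub)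
      (C := (D * Real.exp (-((lam - μ) * a)) + ‖F s‖ * (Real.exp ((b - a) ^ 2) * 2)) *
        (1 + |τ|) ^ 2) (T₀ := |τ| + 1) (by
        intro z hz hT
        have h1 : 1 ≤ |z.im - τ| := by
          have := abs_add_le (z.im - τ) τ
          simp only [sub_add_cancel] at this
          linarith
        have hzs : z ≠ s := fun h => by
          rw [h, hτ, sub_self, abs_zero] at h1
          linarith
        rw [hfne z hzs]
        have h2 : 1 ≤ ‖z - s‖ := by
          have := Complex.abs_im_le_norm (z - s)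
          have e : (z - s).im = z.im - τ := by rw [hτ]; simp
          rw [e] at this
          linarith
        have h3 := hFb z hz.1
        have h4 : ‖F z / (z - s)‖ ≤ D * Real.exp (-((lam - μ) * a)) * q2 (z.im - τ) := by
          rw [norm_div]
          refine (div_le_self (norm_nonneg _) h2).trans (h3.trans ?_)
          have h5 : Real.exp (-((lam - μ) * z.re)) ≤ Real.exp (-((lam - μ) * a)) := by
            refine Real.exp_le_exp.mpr ?_
            have := mul_le_mul_of_nonneg_left hz.1 (sub_pos.mpr hml).le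
            linarith
          have := q2_pos (z.im - τ)
          gcongr
        have h5 : ‖F s * (cexp ((z - s) ^ 2) / (z - s))‖ ≤
            ‖F s‖ * (Real.exp ((b - a) ^ 2) * 2) * q2 (z.im - τ) := by
          rw [norm_mul, norm_div, hgauss]
          have h6 := exp_le_q2 (z.im - τ)
          have h7 : Real.exp ((z.re - s.re) ^ 2) ≤ Real.exp ((b - a) ^ 2) := by
            refine Real.exp_le_exp.mpr ?_
            have h8 := hz.1
            have h9 := hz.2
            nlinarith
          calc ‖F s‖ * (Real.exp ((z.re - s.re) ^ 2) * Real.exp (-(z.im - τ) ^ 2) / ‖z - s‖) ≤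
              ‖F s‖ * (Real.exp ((z.re - s.re) ^ 2) * Real.exp (-(z.im - τ) ^ 2)) := by
                gcongr
                exact div_le_self (by positivity) h2
            _ ≤ ‖F s‖ * (Real.exp ((b - a) ^ 2) * (2 * q2 (z.im - τ))) := by gcongr
            _ = _ := by ring
        have h6 := q2_le τ z.im
        calc ‖F z / (z - s) - F s * (cexp ((z - s) ^ 2) / (z - s))‖ ≤
            D * Real.exp (-((lam - μ) * a)) * q2 (z.im - τ) +
            ‖F s‖ * (Real.exp ((b - a) ^ 2) * 2) * q2 (z.im - τ) :=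
              (norm_sub_le _ _).trans (add_le_add h4 h5)
          _ = (D * Real.exp (-((lam - μ) * a)) + ‖F s‖ * (Real.exp ((b - a) ^ 2) * 2)) *
              q2 (z.im - τ) := by ring
          _ ≤ (D * Real.exp (-((lam - μ) * a)) + ‖F s‖ * (Real.exp ((b - a) ^ 2) * 2)) *
              ((1 + |τ|) ^ 2 * (1 + z.im ^ 2)⁻¹) :=
                mul_le_mul_of_nonneg_left h6 (by positivity)
          _ = _ := by ring)
    have hsh := vshift2 (f := dslope Φ s) (hs.trans hb).le (hfd.continuousOn.mono hsub)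
      (hfd.mono fun z hz => by
        rw [hU, mem_setOf_eq]
        have := hz.1
        linarith) hC'
    have hne : ∀ x : ℝ, x ≠ s.re → ∀ t : ℝ, pt x t ≠ s := fun x hx t h => hx (by
      rw [← h, pt_re])
    have hval : ∀ x : ℝ, a ≤ x → x ≠ s.re → ∫ t : ℝ, dslope Φ s (pt x t) =
        (∫ t : ℝ, F (pt x t) / (pt x t - s)) -
          F s * ∫ t : ℝ, cexp ((pt x t - s) ^ 2) / (pt x t - s) := by
      intro x hx hxs
      obtain ⟨i1, i2⟩ := hIF x hx hxs
      have e1 : ∀ t : ℝ, dslope Φ s (pt x t) = F (pt x t) / (pt x t - s) -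
          F s * (cexp ((pt x t - s) ^ 2) / (pt x t - s)) := fun t => hfne _ (hne x hxs t)
      simp_rw [e1]
      rw [integral_sub i1 (i2.const_mul _), integral_const_mul]
    rw [hval a le_rfl hs.ne, hval b (hs.trans hb).le hb.ne', hE a, hE b,
      gk_left (by linarith), gk_right (by linarith)] at hsh
    linear_combination hsh
  -- the limit
  obtain ⟨Q, hQ⟩ : ∃ Q : ℝ, Q = ∫ t : ℝ, q2 (t - τ) := ⟨_, rfl⟩
  have hI : 2 * Real.pi * ‖F s‖ ≤ ‖∫ t : ℝ, F (pt a t) / (pt a t - s)‖ := by
    have h1 : ∀ b : ℝ, s.re + 1 ≤ b → 2 * Real.pi * ‖F s‖ ≤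
        D * Q * Real.exp (-((lam - μ) * b)) + ‖∫ t : ℝ, F (pt a t) / (pt a t - s)‖ := by
      intro b hb
      have h2 := congrArg norm (hmain b (by linarith))
      rw [norm_mul] at h2
      have h3 : ‖(2 * Real.pi : ℂ)‖ = 2 * Real.pi := by
        have : (2 * Real.pi : ℂ) = ((2 * Real.pi : ℝ) : ℂ) := by push_cast; ring
        rw [this, Complex.norm_real, Real.norm_of_nonneg (by positivity)]
      rw [h3] at h2
      rw [h2]
      refine (norm_sub_le _ _).trans (add_le_add ?_ le_rfl)
      have h4 : ‖∫ t : ℝ, F (pt b t) / (pt b t - s)‖ ≤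
          ∫ t : ℝ, D * Real.exp (-((lam - μ) * b)) * q2 (t - τ) := by
        refine norm_integral_le_of_norm_le ((q2_int.comp_sub_right τ).const_mul _)
          (Eventually.of_forall fun t => ?_)
        rw [norm_div]
        have h5 : 1 ≤ ‖pt b t - s‖ := by
          have := Complex.abs_re_le_norm (pt b t - s)
          have e : (pt b t - s).re = b - s.re := by simp
          rw [e, abs_of_pos (by linarith)] at this
          linarith
        refine (div_le_self (norm_nonneg _) h5).trans ?_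
        have h6 := hFb (pt b t) (by rw [pt_re]; linarith)
        rw [pt_re, pt_im] at h6
        exact h6
      rw [integral_const_mul, ← hQ] at h4
      linarith
    have h2 : Tendsto (fun b : ℝ => D * Q * Real.exp (-((lam - μ) * b)) +
        ‖∫ t : ℝ, F (pt a t) / (pt a t - s)‖) atTop
        (𝓝 (D * Q * 0 + ‖∫ t : ℝ, F (pt a t) / (pt a t - s)‖)) := by
      refine Tendsto.add_const _ (Tendsto.const_mul _ ?_)
      refine Real.tendsto_exp_neg_atTop_nhds_zero.comp ?_
      exact Tendsto.const_mul_atTop (sub_pos.mpr hml) tendsto_id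
    rw [mul_zero, zero_add] at h2
    refine ge_of_tendsto h2 ?_
    filter_upwards [eventually_ge_atTop (s.re + 1)] with b hb
    exact h1 b hb
  -- the norm of the integrand
  have hnorm : ∀ v : ℝ, ‖F (pt a (τ + v)) / (pt a (τ + v) - s)‖ =
      Real.exp (-(μ * r)) * (‖g (pt a (τ + v))‖ * kap B r v) := by
    intro v
    rw [norm_div, hF]
    simp only
    rw [norm_mul, hnk]
    have e1 : pt a (τ + v) - s = ⟨-r, v⟩ := by
      apply Complex.ext
      · rw [hr]; simp
      · rw [hτ]; simp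
    have e2 : (⟨-r, v⟩ : ℂ) + 2 * r = ⟨r, v⟩ := by
      apply Complex.ext
      · simp; ring
      · simp
    rw [e1, e2]
    have n1 : ‖(⟨-r, v⟩ : ℂ)‖ = Real.sqrt (r ^ 2 + v ^ 2) := by
      rw [Complex.norm_def, Complex.normSq_mk]
      congr 1
      ring
    have n2 : ‖(⟨r, v⟩ : ℂ)‖ = Real.sqrt (r ^ 2 + v ^ 2) := by
      rw [Complex.norm_def, Complex.normSq_mk]
      congr 1
      ring
    rw [n1, n2]
    unfold kap
    rw [← hA]
    have hX : 0 < r ^ 2 + v ^ 2 := by positivity
    have hX1 : 0 < Real.sqrt (r ^ 2 + v ^ 2) := Real.sqrt_pos.mpr hX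
    have e3 : (r ^ 2 + v ^ 2) ^ B = Real.sqrt (r ^ 2 + v ^ 2) ^ A * Real.sqrt (r ^ 2 + v ^ 2) := by
      rw [← pow_succ, hAB, pow_mul, Real.sq_sqrt hX.le]
    rw [e3, div_pow]
    have e4 : μ * (⟨-r, v⟩ : ℂ).re = -(μ * r) := by simp
    rw [e4]
    field_simp
  have hint : Integrable (fun v : ℝ => ‖F (pt a (τ + v)) / (pt a (τ + v) - s)‖) := by
    have h1 := ((hIF a le_rfl hs.ne).1.norm).comp_add_left τ
    exact h1
  have hex : Real.exp (-(μ * r)) ≠ 0 := (Real.exp_pos _).ne'
  constructor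
  · have h1 := hint.const_mul (Real.exp (-(μ * r)))⁻¹
    refine h1.congr (Eventually.of_forall fun v => ?_)
    simp only
    rw [hnorm v, ← mul_assoc, inv_mul_cancel₀ hex, one_mul]
  · rw [← hFs]
    have h1 : ‖∫ t : ℝ, F (pt a t) / (pt a t - s)‖ ≤
        Real.exp (-(μ * r)) * ∫ v : ℝ, ‖g (pt a (τ + v))‖ * kap B r v := by
      refine (norm_integral_le_integral_norm _).trans (le_of_eq ?_)
      rw [← integral_add_left_eq_self (fun t : ℝ => ‖F (pt a t) / (pt a t - s)‖) τ,
        ← integral_const_mul]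
      exact integral_congr_ae (Eventually.of_forall fun v => hnorm v)
    have h2 : ‖F s‖ ≤ 2 * Real.pi * ‖F s‖ := by
      have := Real.pi_gt_three
      have := norm_nonneg (F s)
      nlinarith
    exact h2.trans (hI.trans h1)

end Pool.Agent.N786.D
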