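import Pool.Agent.N786.D.Shf

/-!
# The mollified mean square near the critical line: the supremum argument (owner helper786)
-/

set_option autoImplicit false

namespace Pool.Agent.N786.D

open MeasureTheory Set Filter Topology Complex
open Pool.Agent.R399.TW (pt pt_re pt_im pt_cont)

/-! ### the kernel -/

lemma kap_scale (B : ℕ) (hB : 1 ≤ B) {r : ℝ} (hr : 0 < r) (u : ℝ) :
    r * kap B r (r * u) = 2 ^ (2 * B - 1) * ((1 + u ^ 2) ^ B)⁻¹ := by
  unfold kap
  have h1 : r ^ 2 + (r * u) ^ 2 = r ^ 2 * (1 + u ^ 2) := by ring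
  have h3 : r * r ^ (2 * B - 1) = (r ^ 2) ^ B := by
    rw [← pow_mul, ← pow_succ']
    congr 1
    omega
  have h4 : 0 < (1 + u ^ 2) ^ B := by positivity
  have h5 : 0 < (r ^ 2) ^ B := by positivity
  rw [h1, mul_pow, mul_pow, div_eq_mul_inv, mul_inv]
  calc r * (2 ^ (2 * B - 1) * r ^ (2 * B - 1) * (((r ^ 2) ^ B)⁻¹ * ((1 + u ^ 2) ^ B)⁻¹)) =
      2 ^ (2 * B - 1) * ((r * r ^ (2 * B - 1)) * ((r ^ 2) ^ B)⁻¹) * ((1 + u ^ 2) ^ B)⁻¹ := by ring
    _ = _ := by rw [h3, mul_inv_cancel₀ h5.ne']; ring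

/-- the constant -/
noncomputable def cB (B p : ℕ) : ℝ :=
  ∫ u : ℝ, 2 ^ (2 * B - 1) * ((1 + u ^ 2) ^ B)⁻¹ * (2 + |u|) ^ p

lemma cB_int {B p : ℕ} (h : p + 2 ≤ 2 * B) :
    Integrable fun u : ℝ => 2 ^ (2 * B - 1) * ((1 + u ^ 2) ^ B)⁻¹ * (2 + |u|) ^ p := by
  refine (q2_int.const_mul (2 ^ (2 * B - 1) * (2 ^ B * 2 ^ p))).mono' ?_
    (Eventually.of_forall fun u => ?_)
  · refine Continuous.aestronglyMeasurable ?_
    refine Continuous.mul (Continuous.mul continuous_const ?_) (by fun_prop)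
    refine Continuous.inv₀ (by fun_prop) fun u => ?_
    positivity
  · rw [Real.norm_of_nonneg (by positivity)]
    have h1 : (1 + |u|) ^ (2 * B) ≤ 2 ^ B * (1 + u ^ 2) ^ B := by
      rw [← mul_pow, pow_mul]
      refine pow_le_pow_left₀ (by positivity) ?_ B
      nlinarith [sq_nonneg (1 - |u|), sq_abs u]
    have h2 : (2 + |u|) ^ p ≤ 2 ^ p * (1 + |u|) ^ p := by
      rw [← mul_pow]
      exact pow_le_pow_left₀ (by positivity) (by linarith [abs_nonneg u]) p
    have h3 : ((1 + u ^ 2) ^ B)⁻¹ ≤ 2 ^ B * ((1 + |u|) ^ (2 * B))⁻¹ := by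
      rw [← div_eq_mul_inv, le_div_iff₀ (by positivity), inv_mul_le_iff₀ (by positivity)]
      linarith
    have h4 : (1 + |u|) ^ p * (1 + |u|) ^ 2 ≤ (1 + |u|) ^ (2 * B) := by
      rw [← pow_add]
      exact pow_le_pow_right₀ (by linarith [abs_nonneg u]) h
    have h5 : ((1 + |u|) ^ (2 * B))⁻¹ * (1 + |u|) ^ p ≤ q2 u := by
      unfold q2
      rw [inv_mul_le_iff₀ (by positivity), ← div_eq_mul_inv, le_div_iff₀ (by positivity)]
      exact h4
    calc 2 ^ (2 * B - 1) * ((1 + u ^ 2) ^ B)⁻¹ * (2 + |u|) ^ p ≤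
        2 ^ (2 * B - 1) * (2 ^ B * ((1 + |u|) ^ (2 * B))⁻¹) * (2 ^ p * (1 + |u|) ^ p) := by gcongr
      _ = 2 ^ (2 * B - 1) * (2 ^ B * 2 ^ p) * (((1 + |u|) ^ (2 * B))⁻¹ * (1 + |u|) ^ p) := by ring
      _ ≤ _ := mul_le_mul_of_nonneg_left h5 (by positivity)

lemma cB_nn (B p : ℕ) : 0 ≤ cB B p := integral_nonneg fun u => by positivity

/-- integrals against the kernel -/
lemma kap_poly {B k p : ℕ} (hB : k + p + 2 ≤ 2 * B) {r R κ : ℝ} (hr : 0 < r) (hr1 : r ≤ 1)
    (hR : 0 ≤ R) (hκ : R * r ≤ κ) :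
    Integrable (fun v : ℝ => kap B r v * ((1 + R * |v|) ^ k * (2 + |v|) ^ p)) ∧
    ∫ v : ℝ, kap B r v * ((1 + R * |v|) ^ k * (2 + |v|) ^ p) ≤ (1 + κ) ^ k * cB B (k + p) := by
  have hB1 : 1 ≤ B := by omega
  have hκ0 : 0 ≤ κ := le_trans (by positivity) hκ
  have hpt : ∀ u : ℝ, r * (kap B r (r * u) * ((1 + R * |r * u|) ^ k * (2 + |r * u|) ^ p)) ≤
      (1 + κ) ^ k * (2 ^ (2 * B - 1) * ((1 + u ^ 2) ^ B)⁻¹ * (2 + |u|) ^ (k + p)) := by
    intro u
    have h1 : 1 + R * |r * u| ≤ (1 + κ) * (2 + |u|) := by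
      rw [abs_mul, abs_of_pos hr, ← mul_assoc]
      have := abs_nonneg u
      nlinarith
    have h2 : 2 + |r * u| ≤ 2 + |u| := by
      rw [abs_mul, abs_of_pos hr]
      have := abs_nonneg u
      nlinarith
    have h3 : 0 ≤ 1 + R * |r * u| := by positivity
    rw [← mul_assoc r, kap_scale B hB1 hr]
    calc 2 ^ (2 * B - 1) * ((1 + u ^ 2) ^ B)⁻¹ * ((1 + R * |r * u|) ^ k * (2 + |r * u|) ^ p) ≤
        2 ^ (2 * B - 1) * ((1 + u ^ 2) ^ B)⁻¹ * (((1 + κ) * (2 + |u|)) ^ k * (2 + |u|) ^ p) := by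
          gcongr
      _ = _ := by rw [mul_pow, pow_add]; ring
  have hcont : Continuous fun v : ℝ => kap B r v * ((1 + R * |v|) ^ k * (2 + |v|) ^ p) :=
    (kap_cont B hr).mul (by fun_prop)
  have hnn : ∀ v : ℝ, 0 ≤ kap B r v * ((1 + R * |v|) ^ k * (2 + |v|) ^ p) := fun v => by
    have := kap_nn B hr v
    positivity
  have hi1 : Integrable (fun u : ℝ => r * (kap B r (r * u) * ((1 + R * |r * u|) ^ k *
      (2 + |r * u|) ^ p))) := by
    refine ((cB_int hB).const_mul ((1 + κ) ^ k)).mono' ?_ (Eventually.of_forall fun u => ?_)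
    · exact (continuous_const.mul (hcont.comp (by fun_prop))).aestronglyMeasurable
    · rw [Real.norm_of_nonneg (mul_nonneg hr.le (hnn _))]
      exact hpt u
  have hi2 : Integrable (fun v : ℝ => kap B r v * ((1 + R * |v|) ^ k * (2 + |v|) ^ p)) := by
    have h1 : Integrable (fun u : ℝ => (fun v : ℝ => kap B r v * ((1 + R * |v|) ^ k *
        (2 + |v|) ^ p)) (r * u)) := by
      refine (hi1.const_mul r⁻¹).congr (Eventually.of_forall fun u => ?_)
      simp only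
      rw [← mul_assoc, inv_mul_cancel₀ hr.ne', one_mul]
    exact (integrable_comp_mul_left_iff _ hr.ne').mp h1
  refine ⟨hi2, ?_⟩
  have h1 : ∫ v : ℝ, kap B r v * ((1 + R * |v|) ^ k * (2 + |v|) ^ p) =
      ∫ u : ℝ, r * (kap B r (r * u) * ((1 + R * |r * u|) ^ k * (2 + |r * u|) ^ p)) := by
    have h2 := Measure.integral_comp_mul_left (fun v : ℝ => kap B r v * ((1 + R * |v|) ^ k *
        (2 + |v|) ^ p)) r
    rw [integral_const_mul, h2, abs_of_pos (inv_pos.mpr hr), smul_eq_mul, ← mul_assoc,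
      mul_inv_cancel₀ hr.ne', one_mul]
  rw [h1]
  refine (integral_mono hi1 ((cB_int hB).const_mul _) hpt).trans (le_of_eq ?_)
  rw [integral_const_mul]
  rfl

/-! ### mean squares -/

/-- the mean square over a family and a window -/
noncomputable def JJ {ι : Type} (I : Finset ι) (L Mo : ι → ℂ → ℂ) (x y H t₀ v₀ : ℝ) : ENNReal :=
  ∑ i ∈ I, ∫⁻ t in Icc t₀ (t₀ + H),
    ENNReal.ofReal (‖L i (pt x t)‖ ^ 2 * ‖Mo i (pt y (t - v₀))‖ ^ 2)

lemma lint_shift (f : ℝ → ENNReal) (t₀ H v : ℝ) :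
    ∫⁻ t in Icc t₀ (t₀ + H), f (t + v) = ∫⁻ t in Icc (t₀ + v) (t₀ + v + H), f t := by
  rw [← lintegral_indicator measurableSet_Icc, ← lintegral_indicator measurableSet_Icc,
    ← lintegral_add_right_eq_self (fun t => (Icc (t₀ + v) (t₀ + v + H)).indicator f t) v]
  refine lintegral_congr fun t => ?_
  by_cases h : t ∈ Icc t₀ (t₀ + H)
  · have h2 : t + v ∈ Icc (t₀ + v) (t₀ + v + H) := ⟨by linarith [h.1], by linarith [h.2]⟩
    rw [indicator_of_mem h, indicator_of_mem h2]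
  · have h2 : t + v ∉ Icc (t₀ + v) (t₀ + v + H) := fun h3 =>
      h ⟨by linarith [h3.1], by linarith [h3.2]⟩
    rw [indicator_of_notMem h, indicator_of_notMem h2]

/-- Cauchy-Schwarz in extended form -/
lemma csE {f w : ℝ → ℝ} (hf : Continuous f) (hf0 : ∀ v, 0 ≤ f v) (hw0 : ∀ v, 0 ≤ w v)
    (hw : Integrable w) (hwc : Continuous w) (hfw : Integrable fun v => f v * w v) :
    ENNReal.ofReal ((∫ v, f v * w v) ^ 2) ≤
      ENNReal.ofReal (∫ v, w v) * ∫⁻ v, ENNReal.ofReal (f v ^ 2 * w v) := by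
  have hcont : Continuous fun v => f v ^ 2 * w v := (hf.pow 2).mul hwc
  by_cases hi : Integrable fun v => f v ^ 2 * w v
  · rw [← ofReal_integral_eq_lintegral_ofReal hi (Eventually.of_forall fun v =>
      mul_nonneg (sq_nonneg _) (hw0 v)), ← ENNReal.ofReal_mul (integral_nonneg hw0)]
    refine ENNReal.ofReal_le_ofReal ?_
    obtain ⟨I0, hI0⟩ : ∃ I0 : ℝ, I0 = ∫ v, w v := ⟨_, rfl⟩
    obtain ⟨I1, hI1⟩ : ∃ I1 : ℝ, I1 = ∫ v, f v * w v := ⟨_, rfl⟩
    obtain ⟨I2, hI2⟩ : ∃ I2 : ℝ, I2 = ∫ v, f v ^ 2 * w v := ⟨_, rfl⟩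
    rw [← hI0, ← hI1, ← hI2]
    have hI0n : 0 ≤ I0 := by rw [hI0]; exact integral_nonneg hw0
    have h1 : ∀ x : ℝ, 0 ≤ I2 - 2 * x * I1 + x ^ 2 * I0 := by
      intro x
      have h2 : 0 ≤ ∫ v, (f v - x) ^ 2 * w v :=
        integral_nonneg fun v => mul_nonneg (sq_nonneg _) (hw0 v)
      have h3 : ∫ v, (f v - x) ^ 2 * w v = I2 - 2 * x * I1 + x ^ 2 * I0 := by
        have e : ∀ v, (f v - x) ^ 2 * w v = f v ^ 2 * w v - 2 * x * (f v * w v) +
            x ^ 2 * w v := fun v => by ring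
        have i3 : Integrable fun v => f v ^ 2 * w v - 2 * x * (f v * w v) :=
          hi.sub (hfw.const_mul _)
        simp_rw [e]
        rw [integral_add i3 (hw.const_mul _),
          integral_sub hi (hfw.const_mul _), integral_const_mul, integral_const_mul,
          ← hI0, ← hI1, ← hI2]
      linarith
    rcases hI0n.eq_or_lt with h | hpos
    · have h2 : I1 = 0 := by
        have hae : w =ᵐ[volume] 0 := by
          rw [← integral_eq_zero_iff_of_nonneg (fun v => hw0 v) hw, ← hI0]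
          exact h.symm
        rw [hI1]
        refine integral_eq_zero_of_ae ?_
        filter_upwards [hae] with v hv
        rw [hv]
        simp
      rw [h2, ← h]
      simp
    · have h2 := h1 (I1 / I0)
      have h3 : I2 - 2 * (I1 / I0) * I1 + (I1 / I0) ^ 2 * I0 = I2 - I1 ^ 2 / I0 := by
        field_simp
        ring
      rw [h3] at h2
      have h4 : I1 ^ 2 / I0 ≤ I2 := by linarith
      rw [div_le_iff₀ hpos] at h4
      linarith
  · have h1 : ∫⁻ v, ENNReal.ofReal (f v ^ 2 * w v) = ⊤ := by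
      by_contra h
      apply hi
      refine ⟨hcont.aestronglyMeasurable, ?_⟩
      rw [hasFiniteIntegral_iff_ofReal (Eventually.of_forall fun v =>
        mul_nonneg (sq_nonneg _) (hw0 v))]
      exact lt_of_le_of_ne le_top h
    rw [h1]
    have hw1 : 0 ≤ ∫ v, w v := integral_nonneg hw0
    rcases hw1.eq_or_lt with h | hpos
    · have hae : w =ᵐ[volume] 0 := by
        rw [← integral_eq_zero_iff_of_nonneg (fun v => hw0 v) hw]
        exact h.symm
      have h2 : ∫ v, f v * w v = 0 := by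
        refine integral_eq_zero_of_ae ?_
        filter_upwards [hae] with v hv
        rw [hv]
        simp
      rw [h2]
      simp
    · rw [ENNReal.mul_top (by simpa using hpos)]
      exact le_top

end Pool.Agent.N786.D
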