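import Pool.Agent.N786.D.Sup

/-!
# The mollified mean square near the critical line: the supremum argument (owner helper786)
-/

set_option autoImplicit false

namespace Pool.Agent.N786.D

open MeasureTheory Set Filter Topology Complex
open Pool.Agent.R399.TW (pt pt_re pt_im pt_cont)

/-- the weight -/
noncomputable def wt (T R : ℝ) (k E : ℕ) (t v : ℝ) : ℝ := (1 + R * |v|) ^ k * (1 + |t| / T) ^ E

lemma wt_one {T R : ℝ} (hT : 1 ≤ T) (hR : 0 ≤ R) (k E : ℕ) (t v : ℝ) : 1 ≤ wt T R k E t v := by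
  unfold wt
  have h1 : 1 ≤ 1 + R * |v| := by
    have : 0 ≤ R * |v| := by positivity
    linarith
  have h2 : 1 ≤ 1 + |t| / T := by
    have : 0 ≤ |t| / T := by positivity
    linarith
  exact one_le_mul_of_one_le_of_one_le (one_le_pow₀ h1) (one_le_pow₀ h2)

lemma one_add_R {R : ℝ} (hR : 0 ≤ R) (v v₀ : ℝ) :
    1 + R * |v₀ + v| ≤ (1 + R * |v₀|) * (1 + R * |v|) := by
  have h1 := abs_add_le v₀ v
  have h2 : 0 ≤ (R * |v₀|) * (R * |v|) := by positivity
  nlinarith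

lemma theta_shift {T : ℝ} (hT : 1 ≤ T) (t v : ℝ) :
    1 + |t + v| / T ≤ (1 + |t| / T) * (1 + |v|) := by
  have hT0 : 0 < T := by linarith
  have h1 := abs_add_le t v
  have h2 : |t + v| / T ≤ |t| / T + |v| := by
    calc |t + v| / T ≤ (|t| + |v|) / T := by gcongr
      _ = |t| / T + |v| / T := by ring
      _ ≤ |t| / T + |v| := by
          gcongr
          exact div_le_self (abs_nonneg _) hT
  have h3 : 0 ≤ |t| / T * |v| := by positivity
  nlinarith

lemma wt_shift {T R : ℝ} (hT : 1 ≤ T) (hR : 0 ≤ R) (k E : ℕ) (t₀ v₀ v : ℝ) :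
    wt T R k E (t₀ + v) (v₀ + v) ≤ wt T R k E t₀ v₀ * ((1 + R * |v|) ^ k * (2 + |v|) ^ E) := by
  unfold wt
  have h1 := one_add_R hR v v₀
  have h2 := theta_shift hT t₀ v
  have h3 : (1 + |t₀| / T) * (1 + |v|) ≤ (1 + |t₀| / T) * (2 + |v|) := by
    gcongr
    norm_num
  have h4 : 0 ≤ 1 + |t₀ + v| / T := by positivity
  have h5 : 0 ≤ 1 + R * |v₀ + v| := by positivity
  calc (1 + R * |v₀ + v|) ^ k * (1 + |t₀ + v| / T) ^ E ≤
      ((1 + R * |v₀|) * (1 + R * |v|)) ^ k * ((1 + |t₀| / T) * (2 + |v|)) ^ E := by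
        gcongr
        exact h2.trans h3
    _ = _ := by rw [mul_pow, mul_pow]; ring

/-- the hypotheses -/
structure SH {ι : Type} (I : Finset ι) (L Dd Mo : ι → ℂ → ℂ) (T H R δ P a c₀ s₀ : ℝ)
    (n k B : ℕ) : Prop where
  T1 : 1 ≤ T
  H0 : 0 ≤ H
  HT : H ≤ T
  R0 : 0 < R
  δ0 : 0 < δ
  δ1 : δ ≤ 1 / 2
  P0 : 0 ≤ P
  a0 : 0 ≤ a
  c0 : 0 ≤ c₀
  s0 : 0 ≤ s₀
  cL : ∀ i, Continuous (L i)
  cD : ∀ i, Continuous (Dd i)
  cM : ∀ i, Continuous (Mo i)
  fe : ∀ i ∈ I, ∀ τ : ℝ, ‖L i (pt (1 / 2 - δ) τ)‖ ≤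
    c₀ * Real.exp (R * δ) * (1 + |τ| / T) ^ ((n : ℝ) * δ) * ‖L i (pt (1 / 2 + δ) τ)‖
  ls1 : ∀ t₀ v₁ : ℝ, JJ I Dd Mo (1 / 2 + δ) (1 / 2 + δ) H t₀ v₁ ≤
    ENNReal.ofReal (P * a * (1 + R * |v₁|) ^ k)
  ls2 : ∀ t₀ v₁ : ℝ, JJ I Dd Mo (1 / 2 - δ) (1 / 2 + δ) H t₀ v₁ ≤
    ENNReal.ofReal (P * a * (1 + R * |v₁|) ^ k)
  ca : ∀ i ∈ I, ∀ t : ℝ, Integrable (fun v : ℝ => ‖Dd i (pt (1 / 2 - δ) (t + v)) -
      L i (pt (1 / 2 - δ) (t + v))‖ * kap B (2 * δ) v) ∧
    ‖L i (pt (1 / 2 + δ) t)‖ ≤ ‖Dd i (pt (1 / 2 + δ) t)‖ + s₀ * ∫ v : ℝ,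
      ‖Dd i (pt (1 / 2 - δ) (t + v)) - L i (pt (1 / 2 - δ) (t + v))‖ * kap B (2 * δ) v

variable {ι : Type} {I : Finset ι} {L Dd Mo : ι → ℂ → ℂ} {T H R δ P a c₀ s₀ : ℝ} {n k B : ℕ}

/-- one step of the iteration -/
theorem SH.step (h : SH I L Dd Mo T H R δ P a c₀ s₀ n k B) {E : ℕ}
    (hB : k + (n + E) + 2 ≤ 2 * B) {S : ℝ} (hS0 : 0 ≤ S)
    (hS : ∀ t₀ v₀ : ℝ, JJ I L Mo (1 / 2 + δ) (1 / 2 + δ) H t₀ v₀ ≤
      ENNReal.ofReal (P * S * wt T R k E t₀ v₀)) {X : ℝ} (t₀ v₀ : ℝ)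
    (hX : (1 + |t₀| / T) ^ (2 * ((n : ℝ) * δ)) ≤ X) :
    JJ I L Mo (1 / 2 + δ) (1 / 2 + δ) H t₀ v₀ ≤
      ENNReal.ofReal (P * (2 * a + (4 * s₀ ^ 2 * cB B 0 * ((1 + 2 * (R * δ)) ^ k *
        cB B (k + (n + E)))) * (a + c₀ ^ 2 * Real.exp (2 * (R * δ)) * X * S)) *
        wt T R k E t₀ v₀) := by
  obtain ⟨hT, hH0, hHT, hR, hδ, hδ1, hP, ha, hc, hs, cL, cD, cM, fe, ls1, ls2, ca⟩ := h
  have hT0 : 0 < T := by linarith
  have h2δ : 0 < 2 * δ := by linarith
  have hB1 : 1 ≤ B := by omega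
  have hX0 : 0 ≤ X := le_trans (by positivity) hX
  set κ := kap B (2 * δ) with hκ
  have hκc : Continuous κ := kap_cont B h2δ
  have hκ0 : ∀ v, 0 ≤ κ v := kap_nn B h2δ
  obtain ⟨W, hW⟩ : ∃ W : ℝ, W = wt T R k E t₀ v₀ := ⟨_, rfl⟩
  have hW1 : 1 ≤ W := by rw [hW]; exact wt_one hT hR.le k E t₀ v₀
  -- the mass of the kernel
  obtain ⟨k1, k2⟩ := kap_poly (B := B) (k := 0) (p := 0) (by omega) h2δ (by linarith) hR.le
    (κ := 2 * (R * δ)) (by linarith)
  simp only [pow_zero, mul_one, one_mul] at k1 k2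
  obtain ⟨k3, k4⟩ := kap_poly (B := B) (k := k) (p := n + E) (by omega) h2δ (by linarith) hR.le
    (κ := 2 * (R * δ)) (by linarith)
  rw [← hκ] at k1 k2 k3 k4
  obtain ⟨C0, hC0⟩ : ∃ C0 : ℝ, C0 = cB B 0 := ⟨_, rfl⟩
  obtain ⟨C1, hC1⟩ : ∃ C1 : ℝ, C1 = (1 + 2 * (R * δ)) ^ k * cB B (k + (n + E)) := ⟨_, rfl⟩
  have hC00 : 0 ≤ C0 := by rw [hC0]; exact cB_nn B 0
  have hC10 : 0 ≤ C1 := by rw [hC1]; have := cB_nn B (k + (n + E)); positivity
  rw [← hC0] at k2
  rw [← hC1] at k4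
  rw [← hC0, ← hC1]
  -- the functions
  set f : ι → ℝ → ℝ := fun i t => ‖Dd i (pt (1 / 2 - δ) t) - L i (pt (1 / 2 - δ) t)‖ with hf
  have hfc : ∀ i, Continuous (f i) := fun i =>
    (((cD i).comp (pt_cont _)).sub ((cL i).comp (pt_cont _))).norm
  set M : ι → ℝ → ℝ := fun i t => ‖Mo i (pt (1 / 2 + δ) t)‖ with hM
  have hMc : ∀ i, Continuous (M i) := fun i => ((cM i).comp (pt_cont _)).norm
  -- the pointwise bound
  have hpt : ∀ i ∈ I, ∀ t : ℝ, ENNReal.ofReal (‖L i (pt (1 / 2 + δ) t)‖ ^ 2 *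
      ‖Mo i (pt (1 / 2 + δ) (t - v₀))‖ ^ 2) ≤
      ENNReal.ofReal 2 * ENNReal.ofReal (‖Dd i (pt (1 / 2 + δ) t)‖ ^ 2 *
        ‖Mo i (pt (1 / 2 + δ) (t - v₀))‖ ^ 2) +
      ENNReal.ofReal (2 * s₀ ^ 2 * C0) *
        ∫⁻ v, ENNReal.ofReal (κ v * (f i (t + v) ^ 2 * M i (t - v₀) ^ 2)) := by
    intro i hi t
    obtain ⟨i1, i2⟩ := ca i hi t
    obtain ⟨Z, hZ⟩ : ∃ Z : ℝ, Z = ∫ v : ℝ, f i (t + v) * κ v := ⟨_, rfl⟩
    have hcs := csE (f := fun v => f i (t + v)) (w := κ) ((hfc i).comp (by fun_prop))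
      (fun v => norm_nonneg _) hκ0 k1 hκc i1
    rw [← hZ] at hcs
    have i2' : ‖L i (pt (1 / 2 + δ) t)‖ ≤ ‖Dd i (pt (1 / 2 + δ) t)‖ + s₀ * Z := by
      rw [hZ]; exact i2
    have hZ0 : 0 ≤ Z := by
      rw [hZ]; exact integral_nonneg fun v => mul_nonneg (norm_nonneg _) (hκ0 v)
    have e1 : ‖L i (pt (1 / 2 + δ) t)‖ ^ 2 * ‖Mo i (pt (1 / 2 + δ) (t - v₀))‖ ^ 2 ≤
        2 * (‖Dd i (pt (1 / 2 + δ) t)‖ ^ 2 * ‖Mo i (pt (1 / 2 + δ) (t - v₀))‖ ^ 2) +
        (2 * s₀ ^ 2) * (Z ^ 2 * M i (t - v₀) ^ 2) := by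
      have e2 : ‖L i (pt (1 / 2 + δ) t)‖ ^ 2 ≤ (‖Dd i (pt (1 / 2 + δ) t)‖ + s₀ * Z) ^ 2 :=
        pow_le_pow_left₀ (norm_nonneg _) i2' 2
      have e3 : (‖Dd i (pt (1 / 2 + δ) t)‖ + s₀ * Z) ^ 2 ≤
          2 * ‖Dd i (pt (1 / 2 + δ) t)‖ ^ 2 + 2 * s₀ ^ 2 * Z ^ 2 := by
        nlinarith [sq_nonneg (‖Dd i (pt (1 / 2 + δ) t)‖ - s₀ * Z)]
      have e4 := mul_le_mul_of_nonneg_right (e2.trans e3)
        (sq_nonneg ‖Mo i (pt (1 / 2 + δ) (t - v₀))‖)
      rw [hM]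
      simp only
      linarith
    refine (ENNReal.ofReal_le_ofReal e1).trans ?_
    rw [ENNReal.ofReal_add (by positivity) (by positivity), ENNReal.ofReal_mul (by norm_num)]
    refine add_le_add le_rfl ?_
    rw [ENNReal.ofReal_mul (show 0 ≤ 2 * s₀ ^ 2 by positivity),
      ENNReal.ofReal_mul (show 0 ≤ Z ^ 2 by positivity)]
    have e5 : ∫⁻ v, ENNReal.ofReal (κ v * (f i (t + v) ^ 2 * M i (t - v₀) ^ 2)) =
        (∫⁻ v, ENNReal.ofReal (f i (t + v) ^ 2 * κ v)) * ENNReal.ofReal (M i (t - v₀) ^ 2) := by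
      rw [← lintegral_mul_const _ (by
        refine Measurable.ennreal_ofReal ?_
        exact ((((hfc i).comp (by fun_prop : Continuous fun v : ℝ => t + v)).pow 2).mul
          hκc).measurable)]
      refine lintegral_congr fun v => ?_
      rw [← ENNReal.ofReal_mul (mul_nonneg (sq_nonneg _) (hκ0 v))]
      congr 1
      ring
    rw [e5]
    have e6 : ENNReal.ofReal (∫ v, κ v) ≤ ENNReal.ofReal C0 := ENNReal.ofReal_le_ofReal k2
    calc ENNReal.ofReal (2 * s₀ ^ 2) * (ENNReal.ofReal (Z ^ 2) * ENNReal.ofReal (M i (t - v₀) ^ 2))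
        ≤ ENNReal.ofReal (2 * s₀ ^ 2) * ((ENNReal.ofReal C0 *
          ∫⁻ v, ENNReal.ofReal (f i (t + v) ^ 2 * κ v)) * ENNReal.ofReal (M i (t - v₀) ^ 2)) := by
          gcongr
          exact hcs.trans (by gcongr)
      _ = _ := by
          rw [ENNReal.ofReal_mul (show 0 ≤ 2 * s₀ ^ 2 by positivity)]
          ring
  -- the inner mean square
  have hin : ∀ v : ℝ, ∑ i ∈ I, ∫⁻ t in Icc t₀ (t₀ + H),
      ENNReal.ofReal (f i (t + v) ^ 2 * M i (t - v₀) ^ 2) ≤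
      ENNReal.ofReal (2 * (P * (a + c₀ ^ 2 * Real.exp (2 * (R * δ)) * X * S) * W) *
        ((1 + R * |v|) ^ k * (2 + |v|) ^ (n + E))) := by
    intro v
    have b0 : 0 ≤ 2 * (P * a * (1 + R * |v₀ + v|) ^ k) := by positivity
    obtain ⟨Y, hY⟩ : ∃ Y : ℝ, Y = c₀ ^ 2 * Real.exp (2 * (R * δ)) * (X * (2 + |v|) ^ n) := ⟨_, rfl⟩
    have hY0 : 0 ≤ Y := by rw [hY]; positivity
    have e1 : ∀ i ∈ I, ∀ t ∈ Icc t₀ (t₀ + H),
        ENNReal.ofReal (f i (t + v) ^ 2 * M i (t - v₀) ^ 2) ≤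
        ENNReal.ofReal 2 * ENNReal.ofReal (‖Dd i (pt (1 / 2 - δ) (t + v))‖ ^ 2 *
          ‖Mo i (pt (1 / 2 + δ) ((t + v) - (v₀ + v)))‖ ^ 2) +
        ENNReal.ofReal (2 * Y) * ENNReal.ofReal (‖L i (pt (1 / 2 + δ) (t + v))‖ ^ 2 *
          ‖Mo i (pt (1 / 2 + δ) ((t + v) - (v₀ + v)))‖ ^ 2) := by
      intro i hi t ht
      have hMe : M i (t - v₀) = ‖Mo i (pt (1 / 2 + δ) ((t + v) - (v₀ + v)))‖ := by
        rw [hM]
        simp only
        congr 3
        ring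
      rw [← ENNReal.ofReal_mul (by norm_num), ← ENNReal.ofReal_mul (by positivity),
        ← ENNReal.ofReal_add (by positivity) (by positivity)]
      refine ENNReal.ofReal_le_ofReal ?_
      rw [hMe]
      have g1 : f i (t + v) ^ 2 ≤ 2 * ‖Dd i (pt (1 / 2 - δ) (t + v))‖ ^ 2 +
          2 * ‖L i (pt (1 / 2 - δ) (t + v))‖ ^ 2 := by
        rw [hf]
        simp only
        have := norm_sub_le (Dd i (pt (1 / 2 - δ) (t + v))) (L i (pt (1 / 2 - δ) (t + v)))
        have g2 := pow_le_pow_left₀ (norm_nonneg _) this 2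
        nlinarith [sq_nonneg (‖Dd i (pt (1 / 2 - δ) (t + v))‖ - ‖L i (pt (1 / 2 - δ) (t + v))‖)]
      have g3 : ‖L i (pt (1 / 2 - δ) (t + v))‖ ^ 2 ≤ Y * ‖L i (pt (1 / 2 + δ) (t + v))‖ ^ 2 := by
        have g4 := pow_le_pow_left₀ (norm_nonneg _) (fe i hi (t + v)) 2
        refine g4.trans ?_
        rw [mul_pow, mul_pow, mul_pow]
        refine mul_le_mul_of_nonneg_right ?_ (sq_nonneg _)
        rw [hY]
        have g5 : Real.exp (R * δ) ^ 2 = Real.exp (2 * (R * δ)) := by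
          rw [← Real.exp_nat_mul]; push_cast; rfl
        rw [g5]
        refine mul_le_mul_of_nonneg_left ?_ (by positivity)
        have g6 : ((1 + |t + v| / T) ^ ((n : ℝ) * δ)) ^ 2 =
            (1 + |t + v| / T) ^ (2 * ((n : ℝ) * δ)) := by
          rw [← Real.rpow_natCast, ← Real.rpow_mul (by positivity)]
          congr 1
          push_cast
          ring
        rw [g6]
        have g7 : 1 + |t + v| / T ≤ (1 + |t₀| / T) * (2 + |v|) := by
          have q1 : |t + v| ≤ |t₀| + H + |v| := by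
            have q2 := abs_add_le t v
            have q3 : |t| ≤ |t₀| + H := by
              have q4 : t = t₀ + (t - t₀) := by ring
              have q5 := abs_add_le t₀ (t - t₀)
              rw [← q4] at q5
              have q6 : |t - t₀| ≤ H := by
                rw [abs_of_nonneg (by linarith [ht.1])]
                linarith [ht.2]
              linarith
            linarith
          have q7 : |t + v| / T ≤ |t₀| / T + 1 + |v| := by
            calc |t + v| / T ≤ (|t₀| + H + |v|) / T := by gcongr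
              _ = |t₀| / T + H / T + |v| / T := by ring
              _ ≤ |t₀| / T + 1 + |v| := by
                  gcongr
                  · rw [div_le_one hT0]; exact hHT
                  · exact div_le_self (abs_nonneg _) hT
          have q8 : 0 ≤ |t₀| / T * |v| := by positivity
          have q9 : 0 ≤ |t₀| / T := by positivity
          nlinarith
        have hnδ : 0 ≤ 2 * ((n : ℝ) * δ) := by positivity
        refine (Real.rpow_le_rpow (by positivity) g7 hnδ).trans ?_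
        rw [Real.mul_rpow (by positivity) (by positivity)]
        have g8 : (2 + |v|) ^ (2 * ((n : ℝ) * δ)) ≤ (2 + |v|) ^ n := by
          rw [← Real.rpow_natCast]
          refine Real.rpow_le_rpow_of_exponent_le (by linarith [abs_nonneg v]) ?_
          have : (0 : ℝ) ≤ n := Nat.cast_nonneg n
          nlinarith
        exact mul_le_mul hX g8 (by positivity) hX0
      have g9 := mul_le_mul_of_nonneg_right g1
        (sq_nonneg ‖Mo i (pt (1 / 2 + δ) ((t + v) - (v₀ + v)))‖)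
      have g10 := mul_le_mul_of_nonneg_right g3
        (sq_nonneg ‖Mo i (pt (1 / 2 + δ) ((t + v) - (v₀ + v)))‖)
      linarith
    have e2 : ∑ i ∈ I, ∫⁻ t in Icc t₀ (t₀ + H),
        ENNReal.ofReal (f i (t + v) ^ 2 * M i (t - v₀) ^ 2) ≤
        ENNReal.ofReal 2 * JJ I Dd Mo (1 / 2 - δ) (1 / 2 + δ) H (t₀ + v) (v₀ + v) +
        ENNReal.ofReal (2 * Y) * JJ I L Mo (1 / 2 + δ) (1 / 2 + δ) H (t₀ + v) (v₀ + v) := by
      unfold JJ
      rw [Finset.mul_sum, Finset.mul_sum, ← Finset.sum_add_distrib]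
      refine Finset.sum_le_sum fun i hi => ?_
      have m1 : ∀ x : ℝ, Measurable fun t : ℝ => ENNReal.ofReal (‖Dd i (pt x (t + v))‖ ^ 2 *
          ‖Mo i (pt (1 / 2 + δ) ((t + v) - (v₀ + v)))‖ ^ 2) := fun x => by
        refine Measurable.ennreal_ofReal (Continuous.measurable ?_)
        have c1 : Continuous fun t : ℝ => Dd i (pt x (t + v)) :=
          (cD i).comp ((pt_cont x).comp (by fun_prop))
        have c2 : Continuous fun t : ℝ => Mo i (pt (1 / 2 + δ) ((t + v) - (v₀ + v))) :=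
          (cM i).comp ((pt_cont _).comp (by fun_prop))
        exact (c1.norm.pow 2).mul (c2.norm.pow 2)
      have m2 : ∀ x : ℝ, Measurable fun t : ℝ => ENNReal.ofReal (‖L i (pt x (t + v))‖ ^ 2 *
          ‖Mo i (pt (1 / 2 + δ) ((t + v) - (v₀ + v)))‖ ^ 2) := fun x => by
        refine Measurable.ennreal_ofReal (Continuous.measurable ?_)
        have c1 : Continuous fun t : ℝ => L i (pt x (t + v)) :=
          (cL i).comp ((pt_cont x).comp (by fun_prop))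
        have c2 : Continuous fun t : ℝ => Mo i (pt (1 / 2 + δ) ((t + v) - (v₀ + v))) :=
          (cM i).comp ((pt_cont _).comp (by fun_prop))
        exact (c1.norm.pow 2).mul (c2.norm.pow 2)
      refine (setLIntegral_mono' measurableSet_Icc (e1 i hi)).trans (le_of_eq ?_)
      rw [lintegral_add_left ((m1 _).const_mul _), lintegral_const_mul _ (m1 _),
        lintegral_const_mul _ (m2 _),
        lint_shift (fun t => ENNReal.ofReal (‖Dd i (pt (1 / 2 - δ) t)‖ ^ 2 *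
          ‖Mo i (pt (1 / 2 + δ) (t - (v₀ + v)))‖ ^ 2)) t₀ H v,
        lint_shift (fun t => ENNReal.ofReal (‖L i (pt (1 / 2 + δ) t)‖ ^ 2 *
          ‖Mo i (pt (1 / 2 + δ) (t - (v₀ + v)))‖ ^ 2)) t₀ H v]
    refine e2.trans ?_
    refine (add_le_add (mul_le_mul_right (ls2 (t₀ + v) (v₀ + v)) _)
      (mul_le_mul_right (hS (t₀ + v) (v₀ + v)) _)).trans ?_
    have hwt0 : 0 ≤ wt T R k E (t₀ + v) (v₀ + v) :=
      zero_le_one.trans (wt_one hT hR.le k E _ _)
    rw [← ENNReal.ofReal_mul (by norm_num), ← ENNReal.ofReal_mul (by positivity),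
      ← ENNReal.ofReal_add (by positivity) (by positivity)]
    refine ENNReal.ofReal_le_ofReal ?_
    have w1 := wt_shift hT hR.le k E t₀ v₀ v
    rw [← hW] at w1
    have w2 : (1 + R * |v₀ + v|) ^ k ≤ W * ((1 + R * |v|) ^ k * (2 + |v|) ^ (n + E)) := by
      refine (pow_le_pow_left₀ (by positivity) (one_add_R hR.le v v₀) k).trans ?_
      rw [mul_pow, hW]
      unfold wt
      have w3 : 1 ≤ (1 + |t₀| / T) ^ E := by
        refine one_le_pow₀ ?_
        have : 0 ≤ |t₀| / T := by positivity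
        linarith
      have w4 : 1 ≤ (2 + |v|) ^ (n + E) := one_le_pow₀ (by linarith [abs_nonneg v])
      have w5 : 0 ≤ (1 + R * |v₀|) ^ k * (1 + R * |v|) ^ k := by positivity
      calc (1 + R * |v₀|) ^ k * (1 + R * |v|) ^ k ≤
          ((1 + R * |v₀|) ^ k * (1 + R * |v|) ^ k) * ((1 + |t₀| / T) ^ E * (2 + |v|) ^ (n + E)) :=
            le_mul_of_one_le_right w5 (one_le_mul_of_one_le_of_one_le w3 w4)
        _ = _ := by ring
    calc 2 * (P * a * (1 + R * |v₀ + v|) ^ k) + 2 * Y * (P * S * wt T R k E (t₀ + v) (v₀ + v)) ≤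
        2 * (P * a * (W * ((1 + R * |v|) ^ k * (2 + |v|) ^ (n + E)))) +
        2 * Y * (P * S * (W * ((1 + R * |v|) ^ k * (2 + |v|) ^ E))) := by gcongr
      _ = _ := by
          rw [hY, pow_add (2 + |v|) n E]
          ring
  -- assembly
  have hmeas : ∀ i, Measurable (Function.uncurry fun t v : ℝ =>
      ENNReal.ofReal (κ v * (f i (t + v) ^ 2 * M i (t - v₀) ^ 2))) := by
    intro i
    refine Measurable.ennreal_ofReal (Continuous.measurable ?_)
    have c1 : Continuous fun q : ℝ × ℝ => f i (q.1 + q.2) := (hfc i).comp (by fun_prop)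
    have c2 : Continuous fun q : ℝ × ℝ => M i (q.1 - v₀) := (hMc i).comp (by fun_prop)
    have c3 : Continuous fun q : ℝ × ℝ => κ q.2 := hκc.comp (by fun_prop)
    exact c3.mul ((c1.pow 2).mul (c2.pow 2))
  have hswap : ∑ i ∈ I, ∫⁻ t in Icc t₀ (t₀ + H), ∫⁻ v,
      ENNReal.ofReal (κ v * (f i (t + v) ^ 2 * M i (t - v₀) ^ 2)) ≤
      ENNReal.ofReal (2 * (P * (a + c₀ ^ 2 * Real.exp (2 * (R * δ)) * X * S) * W) * C1) := by
    have e1 : ∀ i ∈ I, ∫⁻ t in Icc t₀ (t₀ + H), ∫⁻ v,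
        ENNReal.ofReal (κ v * (f i (t + v) ^ 2 * M i (t - v₀) ^ 2)) =
        ∫⁻ v, ENNReal.ofReal (κ v) * ∫⁻ t in Icc t₀ (t₀ + H),
          ENNReal.ofReal (f i (t + v) ^ 2 * M i (t - v₀) ^ 2) := by
      intro i _
      rw [lintegral_lintegral_swap (hmeas i).aemeasurable]
      refine lintegral_congr fun v => ?_
      rw [← lintegral_const_mul _ (by
        refine Measurable.ennreal_ofReal (Continuous.measurable ?_)
        have c1 : Continuous fun t : ℝ => f i (t + v) := (hfc i).comp (by fun_prop)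
        have c2 : Continuous fun t : ℝ => M i (t - v₀) := (hMc i).comp (by fun_prop)
        exact (c1.pow 2).mul (c2.pow 2))]
      refine lintegral_congr fun t => ?_
      rw [← ENNReal.ofReal_mul (hκ0 v)]
    rw [Finset.sum_congr rfl e1, ← lintegral_finsetSum']
    · have e2 : ∀ v : ℝ, ∑ i ∈ I, ENNReal.ofReal (κ v) * ∫⁻ t in Icc t₀ (t₀ + H),
          ENNReal.ofReal (f i (t + v) ^ 2 * M i (t - v₀) ^ 2) ≤
          ENNReal.ofReal (2 * (P * (a + c₀ ^ 2 * Real.exp (2 * (R * δ)) * X * S) * W) *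
            (κ v * ((1 + R * |v|) ^ k * (2 + |v|) ^ (n + E)))) := by
        intro v
        rw [← Finset.mul_sum]
        refine (mul_le_mul_right (hin v) _).trans (le_of_eq ?_)
        rw [← ENNReal.ofReal_mul (hκ0 v)]
        congr 1
        ring
      refine (lintegral_mono e2).trans ?_
      have hn : ∀ v : ℝ, 0 ≤ 2 * (P * (a + c₀ ^ 2 * Real.exp (2 * (R * δ)) * X * S) * W) *
            (κ v * ((1 + R * |v|) ^ k * (2 + |v|) ^ (n + E))) := fun v => by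
        have := hκ0 v
        positivity
      rw [← ofReal_integral_eq_lintegral_ofReal (k3.const_mul _) (Eventually.of_forall hn),
        integral_const_mul]
      exact ENNReal.ofReal_le_ofReal (mul_le_mul_of_nonneg_left k4 (by positivity))
    · intro i _
      refine AEMeasurable.mul (hκc.measurable.ennreal_ofReal).aemeasurable ?_
      refine Measurable.aemeasurable ?_
      have c0 : Measurable (Function.uncurry fun v t : ℝ =>
          ENNReal.ofReal (f i (t + v) ^ 2 * M i (t - v₀) ^ 2)) := by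
        refine Measurable.ennreal_ofReal (Continuous.measurable ?_)
        have c1 : Continuous fun q : ℝ × ℝ => f i (q.2 + q.1) := (hfc i).comp (by fun_prop)
        have c2 : Continuous fun q : ℝ × ℝ => M i (q.2 - v₀) := (hMc i).comp (by fun_prop)
        exact (c1.pow 2).mul (c2.pow 2)
      exact c0.lintegral_prod_right'
  have htot : JJ I L Mo (1 / 2 + δ) (1 / 2 + δ) H t₀ v₀ ≤
      ENNReal.ofReal 2 * JJ I Dd Mo (1 / 2 + δ) (1 / 2 + δ) H t₀ v₀ +
      ENNReal.ofReal (2 * s₀ ^ 2 * C0) * ∑ i ∈ I, ∫⁻ t in Icc t₀ (t₀ + H), ∫⁻ v,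
      ENNReal.ofReal (κ v * (f i (t + v) ^ 2 * M i (t - v₀) ^ 2)) := by
    unfold JJ
    rw [Finset.mul_sum, Finset.mul_sum, ← Finset.sum_add_distrib]
    refine Finset.sum_le_sum fun i hi => ?_
    have m1 : Measurable fun t : ℝ => ENNReal.ofReal (‖Dd i (pt (1 / 2 + δ) t)‖ ^ 2 *
        ‖Mo i (pt (1 / 2 + δ) (t - v₀))‖ ^ 2) := by
      refine Measurable.ennreal_ofReal (Continuous.measurable ?_)
      have c1 : Continuous fun t : ℝ => Dd i (pt (1 / 2 + δ) t) := (cD i).comp (pt_cont _)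
      have c2 : Continuous fun t : ℝ => Mo i (pt (1 / 2 + δ) (t - v₀)) :=
        (cM i).comp ((pt_cont _).comp (by fun_prop))
      exact (c1.norm.pow 2).mul (c2.norm.pow 2)
    have m3 : Measurable fun t : ℝ => ∫⁻ v,
        ENNReal.ofReal (κ v * (f i (t + v) ^ 2 * M i (t - v₀) ^ 2)) :=
      (hmeas i).lintegral_prod_right'
    refine (lintegral_mono (hpt i hi)).trans (le_of_eq ?_)
    rw [lintegral_add_left (m1.const_mul _), lintegral_const_mul _ m1, lintegral_const_mul _ m3]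
  refine htot.trans ?_
  refine (add_le_add (mul_le_mul_right (ls1 t₀ v₀) _) (mul_le_mul_right hswap _)).trans ?_
  rw [← ENNReal.ofReal_mul (by norm_num), ← ENNReal.ofReal_mul (by positivity),
    ← ENNReal.ofReal_add (by positivity) (by positivity)]
  refine ENNReal.ofReal_le_ofReal ?_
  rw [← hW]
  have w2 : (1 + R * |v₀|) ^ k ≤ W := by
    rw [hW]
    unfold wt
    refine le_mul_of_one_le_right (by positivity) (one_le_pow₀ ?_)
    have : 0 ≤ |t₀| / T := by positivity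
    linarith
  calc 2 * (P * a * (1 + R * |v₀|) ^ k) + 2 * s₀ ^ 2 * C0 *
        (2 * (P * (a + c₀ ^ 2 * Real.exp (2 * (R * δ)) * X * S) * W) * C1) ≤
      2 * (P * a * W) + 2 * s₀ ^ 2 * C0 *
        (2 * (P * (a + c₀ ^ 2 * Real.exp (2 * (R * δ)) * X * S) * W) * C1) := by gcongr
    _ = _ := by ring

end Pool.Agent.N786.D
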